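import Pool.Agent.Shared.OMin.Def

/-! The semialgebraic sets form an o-minimal structure (Tarski, Seidenberg), by the induction of
Cohen and Hoermander on sign diagrams. -/

namespace Pool.Agent.Shared.OMin

open Set Filter Topology Polynomial

namespace TS

/-- The two reals have the same sign. -/
def SS (a b : ℝ) : Prop := (0 < a ↔ 0 < b) ∧ (a < 0 ↔ b < 0)

lemma SS.refl (a : ℝ) : SS a a := ⟨Iff.rfl, Iff.rfl⟩

lemma SS.symm {a b : ℝ} (h : SS a b) : SS b a := ⟨h.1.symm, h.2.symm⟩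

lemma SS.trans {a b c : ℝ} (h : SS a b) (h' : SS b c) : SS a c :=
  ⟨h.1.trans h'.1, h.2.trans h'.2⟩

lemma SS.zero {a b : ℝ} (h : SS a b) (ha : a = 0) : b = 0 := by
  subst ha
  exact le_antisymm (not_lt.1 fun hb => lt_irrefl _ (h.1.2 hb))
    (not_lt.1 fun hb => lt_irrefl _ (h.2.2 hb))

lemma SS.neg {a b : ℝ} (h : SS a b) : SS (-a) (-b) :=
  ⟨by simpa using h.2, by simpa using h.1⟩

lemma SS.of_neg {a b : ℝ} (h : SS (-a) (-b)) : SS a b := by simpa using h.neg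

lemma SS.of_pos {a b : ℝ} (ha : 0 < a) (hb : 0 < b) : SS a b :=
  ⟨iff_of_true ha hb, iff_of_false ha.not_gt hb.not_gt⟩

lemma SS.of_lt {a b : ℝ} (ha : a < 0) (hb : b < 0) : SS a b :=
  ⟨iff_of_false ha.not_gt hb.not_gt, iff_of_true ha hb⟩

lemma SS.mul_pos {c : ℝ} (hc : 0 < c) (a : ℝ) : SS (c * a) a :=
  ⟨mul_pos_iff_of_pos_left hc, by
    rw [← neg_pos, ← mul_neg, mul_pos_iff_of_pos_left hc, neg_pos]⟩

lemma const_sign {q : ℝ → ℝ} (hq : Continuous q) {O : Set ℝ} (hO : O.OrdConnected)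
    (h0 : ∀ x ∈ O, q x ≠ 0) {x y : ℝ} (hx : x ∈ O) (hy : y ∈ O) : SS (q x) (q y) := by
  have key : ∀ x ∈ O, ∀ y ∈ O, q x < 0 → q y < 0 := by
    intro x hx y hy h
    by_contra h'
    obtain ⟨z, hz, hz0⟩ := hO.isPreconnected.intermediate_value hx hy hq.continuousOn
      ⟨h.le, not_lt.1 h'⟩
    exact h0 z hz hz0
  rcases (h0 x hx).lt_or_gt with h | h
  · exact .of_lt h (key x hx y hy h)
  · rcases (h0 y hy).lt_or_gt with h' | h'
    · exact absurd (key y hy x hx h') h.not_gt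
    · exact .of_pos h h'

/-- A strictly monotone map on a finite set extends to an order automorphism of the line. -/
lemma ext_iso (S : Finset ℝ) (f : ℝ → ℝ) (hf : StrictMonoOn f S) :
    ∃ g : ℝ ≃o ℝ, ∀ s ∈ S, g s = f s := by
  induction S using Finset.induction_on_max with
  | empty => exact ⟨OrderIso.refl ℝ, by simp⟩
  | insert a S ha ih =>
    obtain ⟨g, hg⟩ := ih (hf.mono (by simp))
    obtain ⟨c, hc1, hc2, hc3⟩ : ∃ c, c < g a ∧ c < f a ∧ ∀ s ∈ S, f s ≤ c := by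
      rcases S.eq_empty_or_nonempty with rfl | hne
      · exact ⟨min (g a) (f a) - 1, by linarith [min_le_left (g a) (f a)],
          by linarith [min_le_right (g a) (f a)], by simp⟩
      · obtain ⟨m, hm, hmax⟩ := S.exists_max_image f hne
        refine ⟨f m, ?_, hf (by simp [hm]) (by simp) (ha m hm), hmax⟩
        rw [← hg m hm]
        exact g.strictMono (ha m hm)
    obtain ⟨l, hl, hl'⟩ : ∃ l, 0 < l ∧ l * (g a - c) = f a - c :=
      ⟨(f a - c) / (g a - c), div_pos (by linarith) (by linarith),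
        div_mul_cancel₀ _ (by linarith)⟩
    let k : ℝ → ℝ := fun u => if u ≤ c then u else c + l * (u - c)
    have hk : StrictMono k := by
      intro u v huv
      simp only [k]
      split_ifs with h1 h2 h2
      · exact huv
      · nlinarith
      · linarith
      · nlinarith
    have hs : Function.Surjective k := by
      intro y
      by_cases hy : y ≤ c
      · exact ⟨y, if_pos hy⟩
      · refine ⟨c + (y - c) / l, ?_⟩
        have : 0 < (y - c) / l := div_pos (by linarith) hl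
        simp only [k]
        rw [if_neg (by linarith)]
        field_simp
        ring
    refine ⟨g.trans (hk.orderIsoOfSurjective k hs), fun s hs' => ?_⟩
    change k (g s) = f s
    rcases Finset.mem_insert.1 hs' with rfl | h
    · simp only [k]
      rw [if_neg (by linarith)]
      linarith
    · rw [hg s h]
      exact if_pos (hc3 s h)

/-- The component of `t` in the complement of `Z`. -/
def Op (Z : Set ℝ) (t : ℝ) : Set ℝ := {x | ∀ z ∈ Z, (z < t → z < x) ∧ (t < z → x < z)}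

/-- The closed component. -/
def Cl (Z : Set ℝ) (t : ℝ) : Set ℝ := {x | ∀ z ∈ Z, (z < t → z ≤ x) ∧ (t < z → x ≤ z)}

variable {Z : Set ℝ} {t : ℝ}

lemma self_mem_Op : t ∈ Op Z t := fun _ _ => ⟨id, id⟩

lemma Op_sub : Op Z t ⊆ Cl Z t := fun _ hx z hz =>
  ⟨fun h => ((hx z hz).1 h).le, fun h => ((hx z hz).2 h).le⟩

lemma Op_ord : (Op Z t).OrdConnected :=
  ⟨fun _ hx _ hy _ hw z hz =>
    ⟨fun h => ((hx z hz).1 h).trans_le hw.1, fun h => hw.2.trans_lt ((hy z hz).2 h)⟩⟩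

lemma mem_Op_of_between {x y c : ℝ} (hx : x ∈ Cl Z t) (hy : y ∈ Cl Z t) (hc : c ∈ Ioo x y) :
    c ∈ Op Z t := fun z hz =>
  ⟨fun h => ((hx z hz).1 h).trans_lt hc.1, fun h => hc.2.trans_le ((hy z hz).2 h)⟩

lemma notMem_of_Op (ht : t ∉ Z) {x : ℝ} (hx : x ∈ Op Z t) : x ∉ Z := by
  intro h
  rcases lt_trichotomy x t with h1 | rfl | h1
  · exact lt_irrefl _ ((hx x h).1 h1)
  · exact ht h
  · exact lt_irrefl _ ((hx x h).2 h1)

lemma Op_eq (ht : t ∉ Z) {x : ℝ} (hx : x ∈ Op Z t) : Op Z x = Op Z t := by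
  have h : ∀ z ∈ Z, (z < x ↔ z < t) ∧ (x < z ↔ t < z) := by
    intro z hz
    rcases lt_trichotomy z t with h1 | rfl | h1
    · have := (hx z hz).1 h1
      exact ⟨iff_of_true this h1, iff_of_false this.not_gt h1.not_gt⟩
    · exact absurd hz ht
    · have := (hx z hz).2 h1
      exact ⟨iff_of_false this.not_gt h1.not_gt, iff_of_true this h1⟩
  ext y
  exact forall₂_congr fun z hz => by rw [(h z hz).1, (h z hz).2]

lemma right_end (hZ : Z.Finite) (t : ℝ) :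
    (∃ b ∈ Z, t < b ∧ b ∈ Cl Z t ∧ Ioo t b ⊆ Op Z t) ∨ Ioi t ⊆ Op Z t := by
  by_cases h : (Z ∩ Ioi t).Nonempty
  · obtain ⟨b, hb, hmin⟩ := Set.exists_min_image _ id (hZ.inter_of_left _) h
    have hb' : b ∈ Cl Z t := fun z hz => ⟨fun h => (h.trans hb.2).le, fun h => hmin z ⟨hz, h⟩⟩
    exact .inl ⟨b, hb.1, hb.2, hb', fun c hc => mem_Op_of_between (Op_sub self_mem_Op) hb' hc⟩
  · exact .inr fun c hc z hz => ⟨fun h => h.trans hc, fun h' => absurd ⟨z, hz, h'⟩ h⟩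

lemma left_end (hZ : Z.Finite) (t : ℝ) :
    (∃ b ∈ Z, b < t ∧ b ∈ Cl Z t ∧ Ioo b t ⊆ Op Z t) ∨ Iio t ⊆ Op Z t := by
  by_cases h : (Z ∩ Iio t).Nonempty
  · obtain ⟨b, hb, hmax⟩ := Set.exists_max_image _ id (hZ.inter_of_left _) h
    have hb' : b ∈ Cl Z t := fun z hz =>
      ⟨fun h => hmax z ⟨hz, h⟩, fun h => (lt_trans hb.2 h).le⟩
    exact .inl ⟨b, hb.1, hb.2, hb', fun c hc => mem_Op_of_between hb' (Op_sub self_mem_Op) hc⟩
  · exact .inr fun c hc z hz => ⟨fun h' => absurd ⟨z, hz, h'⟩ h, fun h => lt_trans hc h⟩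

/-- Continuous, and large in absolute value at both ends of the line. -/
structure Big (q : ℝ → ℝ) : Prop where
  cont : Continuous q
  top : Tendsto (fun x => |q x|) atTop atTop
  bot : Tendsto (fun x => |q x|) atBot atTop

lemma Big.neg {q : ℝ → ℝ} (h : Big q) : Big fun x => - q x :=
  ⟨h.cont.neg, by simpa using h.top, by simpa using h.bot⟩

variable {p q : ℝ → ℝ}

lemma up (hZ : Z.Finite) (hq : Big q) (hs : ∀ z ∈ Z, SS (p z) (q z))
    (mp : StrictMonoOn p (Cl Z t)) (mq : StrictMonoOn q (Cl Z t)) {x : ℝ}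
    (hx : x ∈ Op Z t) (h : 0 < p x) : ∃ y ∈ Op Z t, 0 < q y := by
  have ht' : t ∈ Cl Z t := Op_sub self_mem_Op
  rcases right_end hZ t with ⟨b, hb, htb, hb', hsub⟩ | hsub
  · have h1 : 0 < q b := (hs b hb).1.1 (h.trans (mp (Op_sub hx) hb' ((hx b hb).2 htb)))
    have h2 : ∀ᶠ y in 𝓝[<] b, 0 < q y :=
      nhdsWithin_le_nhds (hq.cont.continuousAt.eventually (lt_mem_nhds h1))
    obtain ⟨y, hy, hy'⟩ := (h2.and (Ioo_mem_nhdsLT htb)).exists
    exact ⟨y, hsub hy', hy⟩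
  · obtain ⟨y, hy, hy'⟩ := ((hq.top.eventually_gt_atTop |q t|).and (eventually_gt_atTop t)).exists
    refine ⟨y, hsub hy', ?_⟩
    have h1 := mq ht' (Op_sub (hsub hy')) hy'
    by_contra h2
    rw [abs_of_nonpos (not_lt.1 h2)] at hy
    linarith [neg_abs_le (q t)]

lemma down (hZ : Z.Finite) (hq : Big q) (hs : ∀ z ∈ Z, SS (p z) (q z))
    (mp : StrictMonoOn p (Cl Z t)) (mq : StrictMonoOn q (Cl Z t)) {x : ℝ}
    (hx : x ∈ Op Z t) (h : p x < 0) : ∃ y ∈ Op Z t, q y < 0 := by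
  have ht' : t ∈ Cl Z t := Op_sub self_mem_Op
  rcases left_end hZ t with ⟨b, hb, htb, hb', hsub⟩ | hsub
  · have h1 : q b < 0 := (hs b hb).2.1 ((mp hb' (Op_sub hx) ((hx b hb).1 htb)).trans h)
    have h2 : ∀ᶠ y in 𝓝[>] b, q y < 0 :=
      nhdsWithin_le_nhds (hq.cont.continuousAt.eventually (gt_mem_nhds h1))
    obtain ⟨y, hy, hy'⟩ := (h2.and (Ioo_mem_nhdsGT htb)).exists
    exact ⟨y, hsub hy', hy⟩
  · obtain ⟨y, hy, hy'⟩ := ((hq.bot.eventually_gt_atTop |q t|).and (eventually_lt_atBot t)).exists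
    refine ⟨y, hsub hy', ?_⟩
    have h1 := mq (Op_sub (hsub hy')) ht' hy'
    by_contra h2
    rw [abs_of_nonneg (not_lt.1 h2)] at hy
    linarith [le_abs_self (q t)]

lemma comp_inc (hZ : Z.Finite) (hq : Big q) (hs : ∀ z ∈ Z, SS (p z) (q z))
    (mp : StrictMonoOn p (Cl Z t)) (mq : StrictMonoOn q (Cl Z t)) :
    ∃ y ∈ Op Z t, SS (p t) (q y) := by
  have ht' : t ∈ Cl Z t := Op_sub self_mem_Op
  rcases lt_trichotomy (p t) 0 with h | h | h
  · obtain ⟨y, hy, hy'⟩ := down hZ hq hs mp mq self_mem_Op h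
    exact ⟨y, hy, .of_lt h hy'⟩
  · obtain ⟨u, hu, hu'⟩ : ∃ u ∈ Op Z t, t < u := by
      rcases right_end hZ t with ⟨b, -, htb, -, hsub⟩ | hsub
      · obtain ⟨u, hu⟩ := exists_between htb
        exact ⟨u, hsub hu, hu.1⟩
      · exact ⟨t + 1, hsub (lt_add_one t), lt_add_one t⟩
    obtain ⟨v, hv, hv'⟩ : ∃ v ∈ Op Z t, v < t := by
      rcases left_end hZ t with ⟨b, -, htb, -, hsub⟩ | hsub
      · obtain ⟨u, hu⟩ := exists_between htb
        exact ⟨u, hsub hu, hu.2⟩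
      · exact ⟨t - 1, hsub (sub_one_lt t), sub_one_lt t⟩
    obtain ⟨y₁, hy₁, h₁⟩ := up hZ hq hs mp mq hu (h ▸ mp ht' (Op_sub hu) hu')
    obtain ⟨y₂, hy₂, h₂⟩ := down hZ hq hs mp mq hv (h ▸ mp (Op_sub hv) ht' hv')
    obtain ⟨y, hy, hy0⟩ := Op_ord.isPreconnected.intermediate_value hy₂ hy₁ hq.cont.continuousOn
      ⟨h₂.le, h₁.le⟩
    exact ⟨y, hy, by rw [h, hy0]; exact .refl 0⟩
  · obtain ⟨y, hy, hy'⟩ := up hZ hq hs mp mq self_mem_Op h
    exact ⟨y, hy, .of_pos h hy'⟩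

/-- Both functions are strictly monotone in the same direction. -/
def Dir (p q : ℝ → ℝ) (C : Set ℝ) : Prop :=
  (StrictMonoOn p C ∧ StrictMonoOn q C) ∨
    (StrictMonoOn (fun x => - p x) C ∧ StrictMonoOn (fun x => - q x) C)

lemma comp_dir (hZ : Z.Finite) (hq : Big q) (hs : ∀ z ∈ Z, SS (p z) (q z))
    (hd : Dir p q (Cl Z t)) : ∃ y ∈ Op Z t, SS (p t) (q y) := by
  rcases hd with ⟨mp, mq⟩ | ⟨mp, mq⟩
  · exact comp_inc hZ hq hs mp mq
  · obtain ⟨y, hy, h⟩ := comp_inc hZ hq.neg (fun z hz => (hs z hz).neg) mp mq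
    exact ⟨y, hy, h.of_neg⟩

lemma sign_of_root {C : Set ℝ} (mp : StrictMonoOn p C) (mq : StrictMonoOn q C) (g : ℝ ≃o ℝ)
    {r t : ℝ} (hr : r ∈ C) (ht : t ∈ C) (hr' : g r ∈ C) (ht' : g t ∈ C) (h : p r = 0)
    (h' : q (g r) = 0) : SS (p t) (q (g t)) := by
  constructor
  · conv_lhs => rw [← h, mp.lt_iff_lt hr ht]
    conv_rhs => rw [← h', mq.lt_iff_lt hr' ht', g.lt_iff_lt]
  · conv_lhs => rw [← h, mp.lt_iff_lt ht hr]
    conv_rhs => rw [← h', mq.lt_iff_lt ht' hr', g.lt_iff_lt]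

lemma key (hZ : Z.Finite) (hp : Big p) (hq : Big q) (hr : {x | p x = 0}.Finite)
    (hs : ∀ z ∈ Z, SS (p z) (q z)) (hd : ∀ t ∉ Z, Dir p q (Cl Z t)) :
    ∃ g : ℝ ≃o ℝ, (∀ z ∈ Z, g z = z) ∧ (∀ t, g t ∈ Op Z t) ∧ ∀ t, SS (p t) (q (g t)) := by
  classical
  have hex : ∀ t, ∃ y ∈ Op Z t, (t ∈ Z → y = t) ∧ SS (p t) (q y) := by
    intro t
    by_cases ht : t ∈ Z
    · exact ⟨t, self_mem_Op, fun _ => rfl, hs t ht⟩
    · obtain ⟨y, hy, h⟩ := comp_dir hZ hq hs (hd t ht)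
      exact ⟨y, hy, fun h => absurd h ht, h⟩
  choose f hf hfZ hfs using hex
  have hm : StrictMonoOn f ((hZ.union hr).toFinset : Set ℝ) := by
    intro s hs s' hs' hss'
    simp only [Finite.coe_toFinset, mem_union, mem_ofPred_eq] at hs hs'
    by_cases h1 : s ∈ Z
    · rw [hfZ s h1]
      exact (hf s' s h1).1 hss'
    by_cases h2 : s' ∈ Z
    · rw [hfZ s' h2]
      exact (hf s s' h2).2 hss'
    have h3 : s' ∉ Op Z s := by
      intro h3
      have h4 := hs.resolve_left h1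
      have h5 := hs'.resolve_left h2
      rcases hd s h1 with ⟨mp, -⟩ | ⟨mp, -⟩
      · have := mp (Op_sub self_mem_Op) (Op_sub h3) hss'
        linarith
      · have := mp (Op_sub self_mem_Op) (Op_sub h3) hss'
        simp only at this
        linarith
    obtain ⟨z, hz, h4, h5⟩ : ∃ z ∈ Z, s < z ∧ z < s' := by
      by_contra! h
      exact h3 fun z hz => ⟨fun h' => h'.trans hss', fun h' =>
        (h z hz h').lt_of_ne fun e => h2 (e ▸ hz)⟩
    exact ((hf s z hz).2 h4).trans ((hf s' z hz).1 h5)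
  obtain ⟨g, hg⟩ := ext_iso _ f hm
  have hgZ : ∀ z ∈ Z, g z = z := fun z hz => by rw [hg z (by simp [hz]), hfZ z hz]
  have hgO : ∀ t, g t ∈ Op Z t := fun t z hz =>
    ⟨fun h => hgZ z hz ▸ g.strictMono h, fun h => hgZ z hz ▸ g.strictMono h⟩
  refine ⟨g, hgZ, hgO, fun t => ?_⟩
  by_cases ht : t ∈ Z
  · rw [hgZ t ht]
    exact hs t ht
  by_cases h0 : ∃ r ∈ Op Z t, p r = 0
  · obtain ⟨r, hr1, hr2⟩ := h0
    have h1 : q (g r) = 0 := by
      rw [hg r (by simp [hr2])]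
      exact (hfs r).zero hr2
    have h2 : g r ∈ Op Z t := Op_eq ht hr1 ▸ hgO r
    rcases hd t ht with ⟨mp, mq⟩ | ⟨mp, mq⟩
    · exact sign_of_root mp mq g (Op_sub hr1) (Op_sub self_mem_Op) (Op_sub h2) (Op_sub (hgO t))
        hr2 h1
    · exact (sign_of_root mp mq g (Op_sub hr1) (Op_sub self_mem_Op) (Op_sub h2) (Op_sub (hgO t))
        (by simp [hr2]) (by simp [h1])).of_neg
  · refine (hfs t).trans (const_sign hq.cont Op_ord (fun r hr1 hr2 => h0 ?_) (hf t) (hgO t))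
    have h1 := notMem_of_Op ht hr1
    obtain ⟨y, hy, hy'⟩ := comp_dir (p := q) (q := p) hZ hp (fun z hz => (hs z hz).symm)
      ((hd r h1).imp And.symm And.symm)
    exact ⟨y, Op_eq ht hr1 ▸ hy, hy'.zero hr2⟩

lemma big_poly {P : ℝ[X]} (hP : 0 < P.degree) (h : ℝ ≃o ℝ) : Big fun x => P.eval (h x) :=
  ⟨P.continuous.comp h.continuous, (P.abs_tendsto_atTop hP).comp h.tendsto_atTop,
    (P.abs_tendsto_atBot hP).comp h.tendsto_atBot⟩

lemma poly_mono (P : ℝ[X]) (h : ℝ ≃o ℝ) (hZ : ∀ x, P.derivative.eval (h x) = 0 → x ∈ Z)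
    (ht : t ∉ Z) (hpos : 0 < P.derivative.eval (h t)) :
    StrictMonoOn (fun x => P.eval (h x)) (Cl Z t) := by
  intro x hx y hy hxy
  have hxy' := h.strictMono hxy
  obtain ⟨c, hc, hc'⟩ := exists_hasDerivAt_eq_slope (fun x => P.eval x)
    (fun x => P.derivative.eval x) hxy' P.continuous.continuousOn fun x _ => P.hasDerivAt x
  obtain ⟨c, rfl⟩ := h.surjective c
  have h1 : c ∈ Op Z t := mem_Op_of_between hx hy ⟨h.lt_iff_lt.1 hc.1, h.lt_iff_lt.1 hc.2⟩
  have h2 := (const_sign (q := fun x => P.derivative.eval (h x))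
    (P.derivative.continuous.comp h.continuous) Op_ord
    (fun r hr hr' => notMem_of_Op ht hr (hZ r hr')) self_mem_Op h1).1.1 hpos
  rw [hc', div_pos_iff_of_pos_right (sub_pos.2 hxy'), sub_pos] at h2
  exact h2

variable {A : Type*} [CommRing A]

lemma rem_aux {Q : A[X]} (hQ : 0 < Q.natDegree) (n : ℕ) : ∀ P : A[X], P.natDegree = n →
    ∃ R : A[X], R.natDegree < Q.natDegree ∧ ∀ φ : A →+* ℝ, φ Q.leadingCoeff ≠ 0 → ∀ t,
      (Q.map φ).eval t = 0 → SS ((R.map φ).eval t) ((P.map φ).eval t) := by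
  induction n using Nat.strong_induction_on with
  | _ n ih =>
    intro P hP
    by_cases h : P.natDegree < Q.natDegree
    · exact ⟨P, h, fun _ _ _ _ => .refl _⟩
    rw [not_lt] at h
    obtain ⟨R, hR, hR'⟩ := ih _ (hP ▸ (natDegree_C_mul_le Q.leadingCoeff _).trans_lt
      (natDegree_cancelLeads_lt_of_natDegree_le_natDegree h (hQ.trans_le h))) _ rfl
    refine ⟨R, hR, fun φ hφ t ht => (hR' φ hφ t ht).trans ?_⟩
    convert SS.mul_pos (mul_self_pos.2 hφ) ((P.map φ).eval t) using 1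
    simp [cancelLeads, Nat.sub_eq_zero_of_le h, ht, mul_assoc]

lemma exists_rem {P : A[X]} (hP : P ≠ 0) (Q : A[X]) : ∃ R : A[X], R.degree < P.degree ∧
    (Q.degree ≤ P.degree → ∀ φ : A →+* ℝ, φ Q.leadingCoeff ≠ 0 → ∀ t,
      (Q.map φ).eval t = 0 → SS ((R.map φ).eval t) ((P.map φ).eval t)) := by
  have h0 : (0 : A[X]).degree < P.degree := by simpa [bot_lt_iff_ne_bot] using hP
  by_cases hle : Q.degree ≤ P.degree
  · rcases Nat.eq_zero_or_pos Q.natDegree with hQ | hQ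
    · refine ⟨0, h0, fun _ φ hφ t ht => absurd ?_ hφ⟩
      rw [eq_C_of_natDegree_eq_zero hQ] at ht ⊢
      simpa using ht
    · obtain ⟨R, hR, hR'⟩ := rem_aux hQ _ P rfl
      exact ⟨R, degree_lt_degree (hR.trans_le (natDegree_le_natDegree hle)), fun _ => hR'⟩
  · exact ⟨0, h0, fun h => absurd h hle⟩

/-- The two specialisations of the family have the same sign diagram. -/
def Same (G : Multiset A[X]) (φ ψ : A →+* ℝ) : Prop :=
  ∃ h : ℝ ≃o ℝ, ∀ Q ∈ G, ∀ t, SS ((Q.map φ).eval t) ((Q.map ψ).eval (h t))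

lemma map_ne {Q : A[X]} {φ : A →+* ℝ} (h : φ Q.leadingCoeff ≠ 0) : Q.map φ ≠ 0 := by
  intro h0
  exact h (by rw [← coeff_natDegree, ← coeff_map, h0, coeff_zero])

lemma lead_deriv {P : A[X]} (hP : 0 < P.natDegree) {φ : A →+* ℝ} (h : φ P.leadingCoeff ≠ 0) :
    φ P.derivative.leadingCoeff ≠ 0 := by
  obtain ⟨n, hn⟩ := Nat.exists_eq_succ_of_ne_zero hP.ne'
  have h1 : φ (P.derivative.coeff n) ≠ 0 := by
    rw [coeff_derivative, ← Nat.succ_eq_add_one, ← hn, coeff_natDegree, map_mul]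
    refine mul_ne_zero h ?_
    simp only [map_add, map_natCast, map_one]
    positivity
  have h2 : P.derivative.natDegree = n := le_antisymm
    ((natDegree_derivative_le P).trans (by omega))
    (le_natDegree_of_ne_zero fun e => h1 (by rw [e, map_zero]))
  rwa [leadingCoeff, h2]

lemma step {P : A[X]} (hP : 0 < P.natDegree) {G : Multiset A[X]} {φ ψ : A →+* ℝ}
    (hφ : ∀ Q ∈ P ::ₘ G, Q ≠ 0 → φ Q.leadingCoeff ≠ 0)
    (hψ : ∀ Q ∈ P ::ₘ G, Q ≠ 0 → ψ Q.leadingCoeff ≠ 0) (R : A[X] → A[X])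
    (hR : ∀ Q ∈ P.derivative ::ₘ G, ∀ φ : A →+* ℝ, φ Q.leadingCoeff ≠ 0 → ∀ t,
      (Q.map φ).eval t = 0 → SS (((R Q).map φ).eval t) ((P.map φ).eval t))
    (hs : Same (G + P.derivative ::ₘ (P.derivative ::ₘ G).map R) φ ψ) : Same (P ::ₘ G) φ ψ := by
  obtain ⟨h, hs⟩ := hs
  have hP0 : P ≠ 0 := by rintro rfl; simp at hP
  have h1 : ∀ {φ : A →+* ℝ}, (∀ Q ∈ P ::ₘ G, Q ≠ 0 → φ Q.leadingCoeff ≠ 0) →
      ∀ Q ∈ P.derivative ::ₘ G, Q ≠ 0 → φ Q.leadingCoeff ≠ 0 := by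
    intro φ hφ Q hQ hQ0
    rcases Multiset.mem_cons.1 hQ with rfl | hQ
    · exact lead_deriv hP (hφ P (by simp) hP0)
    · exact hφ Q (by simp [hQ]) hQ0
  have hP1 : P.derivative ≠ 0 := fun e => lead_deriv hP (hφ P (by simp) hP0) (by simp [e])
  have h2 : ∀ {φ : A →+* ℝ}, φ P.leadingCoeff ≠ 0 → 0 < (P.map φ).degree := by
    intro φ hφ
    rw [degree_map_eq_of_leadingCoeff_ne_zero _ hφ]
    exact natDegree_pos_iff_degree_pos.1 hP
  have hs1 : ∀ Q ∈ P.derivative ::ₘ G, ∀ t,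
      SS ((Q.map φ).eval t) ((Q.map ψ).eval (h t)) := by
    intro Q hQ
    refine hs Q ?_
    rcases Multiset.mem_cons.1 hQ with rfl | hQ
    · simp
    · simp [hQ]
  let Z : Set ℝ := ⋃ Q ∈ {Q | Q ∈ P.derivative ::ₘ G ∧ Q ≠ 0}, {x | (Q.map φ).eval x = 0}
  have hZ : Z.Finite :=
    ((P.derivative ::ₘ G).finite_toSet.subset fun _ hQ => hQ.1).biUnion fun Q hQ =>
      finite_setOfPred_isRoot (map_ne (h1 hφ Q hQ.1 hQ.2))
  have hmem : ∀ Q ∈ P.derivative ::ₘ G, Q ≠ 0 → ∀ x, (Q.map φ).eval x = 0 → x ∈ Z :=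
    fun Q hQ hQ0 x hx => mem_biUnion (t := fun Q : A[X] => {x | (Q.map φ).eval x = 0})
      (⟨hQ, hQ0⟩ : Q ∈ {Q | Q ∈ P.derivative ::ₘ G ∧ Q ≠ 0}) hx
  have hd1 : ∀ x, (P.map φ).derivative.eval (OrderIso.refl ℝ x) = 0 → x ∈ Z := fun x hx =>
    hmem _ (by simp) hP1 x (by simpa using hx)
  have hd0 : ∀ x, SS ((P.map φ).derivative.eval (OrderIso.refl ℝ x))
      ((P.map ψ).derivative.eval (h x)) := fun x => by simpa using hs1 P.derivative (by simp) x
  have hd2 : ∀ x, (P.map ψ).derivative.eval (h x) = 0 → x ∈ Z := fun x hx =>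
    hd1 x ((hd0 x).symm.zero hx)
  obtain ⟨g, hgZ, hgO, hg⟩ := key (Z := Z) hZ (big_poly (h2 (hφ P (by simp) hP0)) (.refl ℝ))
    (big_poly (h2 (hψ P (by simp) hP0)) h)
    (finite_setOfPred_isRoot (map_ne (hφ P (by simp) hP0)))
    (by
      intro z hz
      obtain ⟨Q, ⟨hQ, hQ0⟩, hz⟩ := mem_iUnion₂.1 hz
      exact ((hR Q hQ φ (h1 hφ Q hQ hQ0) z hz).symm.trans (hs (R Q)
        (Multiset.mem_add.2 (.inr (Multiset.mem_cons_of_mem (Multiset.mem_map_of_mem R hQ))))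
        z)).trans (hR Q hQ ψ (h1 hψ Q hQ hQ0) _ ((hs1 Q hQ z).zero hz)))
    (by
      intro t ht
      rcases lt_or_gt_of_ne (fun e => ht (hd1 t e)) with hn | hn
      · right
        have e1 := poly_mono (-(P.map φ)) (.refl ℝ) (fun x hx => hd1 x (by simpa using hx)) ht
          (by simpa using hn)
        have e2 := poly_mono (-(P.map ψ)) h (fun x hx => hd2 x (by simpa using hx)) ht
          (by simpa using (hd0 t).2.1 hn)
        simp only [eval_neg] at e1 e2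
        exact ⟨e1, e2⟩
      · exact .inl ⟨poly_mono _ _ hd1 ht hn, poly_mono _ _ hd2 ht ((hd0 t).1.1 hn)⟩)
  refine ⟨g.trans h, fun Q hQ t => ?_⟩
  rcases Multiset.mem_cons.1 hQ with rfl | hQ
  · exact hg t
  refine SS.trans ?_ (hs1 Q (by simp [hQ]) (g t))
  by_cases hQ0 : Q = 0
  · simpa [hQ0] using SS.refl 0
  by_cases ht : t ∈ Z
  · rw [hgZ t ht]
    exact .refl _
  exact const_sign (Q.map φ).continuous Op_ord
    (fun r hr hr' => notMem_of_Op ht hr (hmem Q (by simp [hQ]) hQ0 r hr')) self_mem_Op (hgO t)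

/-- The sign diagram of a family of polynomials only depends on finitely many signs. -/
theorem good (G : Multiset A[X]) : ∃ F : Set A, F.Finite ∧ ∀ φ ψ : A →+* ℝ,
    (∀ a ∈ F, SS (φ a) (ψ a)) → Same G φ ψ := by
  classical
  induction G using (degree_lt_wf (R := A)).cutExpand.induction with
  | _ G ih =>
    have h1 : ∀ Q ∈ G, ∃ F : Set A, F.Finite ∧ ∀ φ ψ : A →+* ℝ, (∀ a ∈ F, SS (φ a) (ψ a)) →
        Q ≠ 0 → φ Q.leadingCoeff = 0 → ψ Q.leadingCoeff = 0 → Same G φ ψ := by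
      intro Q hQ
      by_cases hQ0 : Q = 0
      · exact ⟨∅, finite_empty, fun _ _ _ h => absurd hQ0 h⟩
      obtain ⟨G₀, rfl⟩ := Multiset.exists_cons_of_mem hQ
      obtain ⟨F, hF, hF'⟩ := ih (G₀ + {Q.eraseLead}) ⟨{Q.eraseLead}, Q,
        by simpa using degree_eraseLead_lt hQ0, by
          rw [← Multiset.singleton_add]; abel⟩
      refine ⟨F, hF, fun φ ψ h _ hφ hψ => ?_⟩
      obtain ⟨g, hg⟩ := hF' φ ψ h
      have e : ∀ φ : A →+* ℝ, φ Q.leadingCoeff = 0 → Q.map φ = Q.eraseLead.map φ := by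
        intro φ hφ
        conv_lhs => rw [← eraseLead_add_C_mul_X_pow Q]
        rw [Polynomial.map_add, Polynomial.map_mul, map_C, hφ, C_0, zero_mul, add_zero]
      refine ⟨g, fun P hP t => ?_⟩
      rcases Multiset.mem_cons.1 hP with rfl | hP
      · rw [e φ hφ, e ψ hψ]
        exact hg _ (by simp) t
      · exact hg P (by simp [hP]) t
    choose! F₁ hF₁ hF₁' using h1
    obtain ⟨F₂, hF₂, hF₂'⟩ : ∃ F : Set A, F.Finite ∧ ∀ φ ψ : A →+* ℝ,
        (∀ a ∈ F, SS (φ a) (ψ a)) → (∀ Q ∈ G, SS (φ Q.leadingCoeff) (ψ Q.leadingCoeff)) →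
        (∀ Q ∈ G, Q ≠ 0 → φ Q.leadingCoeff ≠ 0) → Same G φ ψ := by
      by_cases h0 : ∀ Q ∈ G, Q.natDegree = 0
      · refine ⟨∅, finite_empty, fun φ ψ _ h _ => ⟨.refl ℝ, fun Q hQ t => ?_⟩⟩
        have := h Q hQ
        rw [eq_C_of_natDegree_eq_zero (h0 Q hQ)] at this ⊢
        simpa using this
      push Not at h0
      obtain ⟨Q₀, hQ₀, hQ₀'⟩ := h0
      obtain ⟨P, hP, hmax⟩ := G.toFinset.exists_max_image degree ⟨Q₀, by simpa using hQ₀⟩
      simp only [Multiset.mem_toFinset] at hP hmax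
      have hP1 : 0 < P.natDegree :=
        (Nat.pos_of_ne_zero hQ₀').trans_le (natDegree_le_natDegree (hmax Q₀ hQ₀))
      have hP0 : P ≠ 0 := by rintro rfl; simp at hP1
      obtain ⟨G₀, rfl⟩ := Multiset.exists_cons_of_mem hP
      choose R hR hR' using exists_rem hP0
      obtain ⟨F, hF, hF'⟩ := ih (G₀ + P.derivative ::ₘ (P.derivative ::ₘ G₀).map R)
        ⟨P.derivative ::ₘ (P.derivative ::ₘ G₀).map R, P, by
          intro a ha
          rcases Multiset.mem_cons.1 ha with rfl | ha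
          · exact degree_derivative_lt hP0
          · obtain ⟨Q, -, rfl⟩ := Multiset.mem_map.1 ha
            exact hR Q, by rw [← Multiset.singleton_add P]; abel⟩
      refine ⟨F, hF, fun φ ψ h hl hφ => step hP1 hφ
        (fun Q hQ hQ0 e => hφ Q hQ hQ0 ((hl Q hQ).symm.zero e)) R (fun Q hQ => hR' Q ?_)
        (hF' φ ψ h)⟩
      rcases Multiset.mem_cons.1 hQ with rfl | hQ
      · exact (degree_derivative_lt hP0).le
      · exact hmax Q (by simp [hQ])
    refine ⟨(⋃ Q ∈ {Q | Q ∈ G}, F₁ Q) ∪ F₂ ∪ leadingCoeff '' {Q | Q ∈ G},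
      ((G.finite_toSet.biUnion hF₁).union hF₂).union (G.finite_toSet.image _), fun φ ψ h => ?_⟩
    have hl : ∀ Q ∈ G, SS (φ Q.leadingCoeff) (ψ Q.leadingCoeff) := fun Q hQ =>
      h _ (.inr ⟨Q, hQ, rfl⟩)
    by_cases h0 : ∀ Q ∈ G, Q ≠ 0 → φ Q.leadingCoeff ≠ 0
    · exact hF₂' φ ψ (fun a ha => h a (.inl (.inr ha))) hl h0
    · push Not at h0
      obtain ⟨Q, hQ, hQ0, e⟩ := h0
      exact hF₁' Q hQ φ ψ (fun a ha => h a (.inl (.inl (mem_biUnion hQ ha)))) hQ0 e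
        ((hl Q hQ).zero e)

/-- Polynomial functions. -/
def Poly (α : Type) [NormedAddCommGroup α] [NormedSpace ℝ α] : Subalgebra ℝ (α → ℝ) :=
  Algebra.adjoin ℝ (range fun L : α →L[ℝ] ℝ => (L : α → ℝ))

variable {α β : Type} [NormedAddCommGroup α] [NormedSpace ℝ α] [NormedAddCommGroup β]
  [NormedSpace ℝ β]

lemma clm_mem (L : α →L[ℝ] ℝ) : (L : α → ℝ) ∈ Poly α := Algebra.subset_adjoin ⟨L, rfl⟩

lemma comp_mem (L : α →L[ℝ] β) {a : β → ℝ} (ha : a ∈ Poly β) : a ∘ L ∈ Poly α := by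
  induction ha using Algebra.adjoin_induction with
  | mem x hx => obtain ⟨M, rfl⟩ := hx; exact clm_mem (M.comp L)
  | algebraMap r => exact (Poly α).algebraMap_mem r
  | add x y _ _ hx hy => exact add_mem hx hy
  | mul x y _ _ hx hy => exact mul_mem hx hy

/-- Evaluation of polynomial functions at a point. -/
def ev (x : α) : Poly α →+* ℝ := (Pi.evalRingHom (fun _ : α => ℝ) x).comp (Poly α).val.toRingHom

lemma exists_poly {a : α × ℝ → ℝ} (ha : a ∈ Poly (α × ℝ)) :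
    ∃ P : (Poly α)[X], ∀ x t, a (x, t) = (P.map (ev x)).eval t := by
  induction ha using Algebra.adjoin_induction with
  | mem x hx =>
    obtain ⟨M, rfl⟩ := hx
    refine ⟨C ⟨_, clm_mem (M.comp (ContinuousLinearMap.inl ℝ α ℝ))⟩ +
      C (algebraMap ℝ (Poly α) (M (0, 1))) * X, fun x t => ?_⟩
    have : (x, t) = (x, (0 : ℝ)) + t • ((0 : α), (1 : ℝ)) := by simp
    simp only [Polynomial.map_add, map_C, Polynomial.map_mul, map_X, eval_add, eval_C, eval_mul,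
      eval_X]
    rw [this, map_add, map_smul, smul_eq_mul, mul_comm]
    rfl
  | algebraMap r => exact ⟨C (algebraMap ℝ (Poly α) r), fun x t => by simp [ev]⟩
  | add x y _ _ hx hy =>
    obtain ⟨P, hP⟩ := hx
    obtain ⟨Q, hQ⟩ := hy
    exact ⟨P + Q, fun x t => by simp [hP, hQ]⟩
  | mul x y _ _ hx hy =>
    obtain ⟨P, hP⟩ := hx
    obtain ⟨Q, hQ⟩ := hy
    exact ⟨P * Q, fun x t => by simp [hP, hQ]⟩

lemma exists_poly_real {a : ℝ → ℝ} (ha : a ∈ Poly ℝ) : ∃ P : ℝ[X], ∀ t, a t = P.eval t := by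
  obtain ⟨P, hP⟩ := exists_poly (comp_mem (ContinuousLinearMap.snd ℝ ℝ ℝ) ha)
  exact ⟨P.map (ev 0), hP 0⟩

/-- Semialgebraic sets: membership depends on the signs of finitely many polynomials. -/
def SA (s : Set α) : Prop :=
  ∃ F : Set (α → ℝ), F.Finite ∧ (∀ a ∈ F, a ∈ Poly α) ∧
    ∀ x y, (∀ a ∈ F, SS (a x) (a y)) → x ∈ s → y ∈ s

lemma SA.of_one {s : Set α} {a : α → ℝ} (ha : a ∈ Poly α)
    (h : ∀ x y, SS (a x) (a y) → x ∈ s → y ∈ s) : SA s :=
  ⟨{a}, finite_singleton a, by simpa using ha, fun x y hxy => h x y (hxy a rfl)⟩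

lemma SA.proj {s : Set (α × ℝ)} (h : SA s) : SA {x | ∃ t, (x, t) ∈ s} := by
  obtain ⟨F, hF, hF1, hF2⟩ := h
  choose! P hP using fun a (ha : a ∈ F) => exists_poly (hF1 a ha)
  obtain ⟨E, hE, hE'⟩ := good (hF.toFinset.val.map P)
  refine ⟨Subtype.val '' E, hE.image _, by rintro _ ⟨a, -, rfl⟩; exact a.2, ?_⟩
  rintro x y hxy ⟨t, ht⟩
  obtain ⟨g, hg⟩ := hE' (ev x) (ev y) fun a ha => hxy _ ⟨a, ha, rfl⟩
  refine ⟨g t, hF2 _ _ (fun a ha => ?_) ht⟩
  rw [hP a ha, hP a ha]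
  exact hg _ (Multiset.mem_map_of_mem P (by simpa using ha)) t

lemma SA.omin {s : Set ℝ} (h : SA s) : (frontier s).Finite := by
  obtain ⟨F, hF, hF1, hF2⟩ := h
  choose! P hP using fun a (ha : a ∈ F) => exists_poly_real (hF1 a ha)
  refine ((hF.subset (t := {a ∈ F | P a ≠ 0}) fun _ h => h.1).biUnion
    (t := fun a => {x | (P a).IsRoot x}) fun a ha => finite_setOfPred_isRoot ha.2).subset ?_
  intro x hx
  by_contra hx'
  have h1 : ∀ᶠ y in 𝓝 x, ∀ a ∈ F, SS (a x) (a y) := by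
    refine (eventually_all_finite hF).2 fun a ha => ?_
    simp only [hP a ha]
    by_cases h0 : P a = 0
    · simpa [h0] using SS.refl 0
    have h2 : (P a).eval x ≠ 0 := fun e => hx' (mem_biUnion (⟨ha, h0⟩ : a ∈ {a ∈ F | P a ≠ 0}) e)
    rcases h2.lt_or_gt with h3 | h3
    · exact ((P a).continuous.continuousAt.eventually (gt_mem_nhds h3)).mono
        fun y hy => .of_lt h3 hy
    · exact ((P a).continuous.continuousAt.eventually (lt_mem_nhds h3)).mono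
        fun y hy => .of_pos h3 hy
  by_cases hs : x ∈ s
  · exact hx.2 (mem_interior_iff_mem_nhds.2 (h1.mono fun y hy => hF2 x y hy hs))
  · obtain ⟨y, hy, hy'⟩ := ((mem_closure_iff_frequently.1 hx.1).and_eventually h1).exists
    exact hs (hF2 y x (fun a ha => (hy' a ha).symm) hy)

end TS

open TS in
/-- The o-minimal structure of semialgebraic sets. -/
def semialg : OStr where
  D _ _ _ _ s := SA s
  compl := fun ⟨F, hF, h1, h2⟩ =>
    ⟨F, hF, h1, fun x y h hx hy => hx (h2 y x (fun a ha => (h a ha).symm) hy)⟩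
  inter := fun ⟨F, hF, h1, h2⟩ ⟨E, hE, h3, h4⟩ =>
    ⟨F ∪ E, hF.union hE, fun a ha => ha.elim (h1 a) (h3 a), fun x y h hx =>
      ⟨h2 x y (fun a ha => h a (.inl ha)) hx.1, h4 x y (fun a ha => h a (.inr ha)) hx.2⟩⟩
  pre := fun L _ ⟨F, hF, h1, h2⟩ =>
    ⟨(· ∘ L) '' F, hF.image _, by rintro _ ⟨a, ha, rfl⟩; exact comp_mem L (h1 a ha),
      fun x y h => h2 _ _ fun a ha => h _ ⟨a, ha, rfl⟩⟩
  proj := SA.proj
  mul := SA.of_one (a := fun p : ℝ × ℝ × ℝ => p.1 * p.2.1 - p.2.2)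
    (sub_mem (mul_mem (clm_mem (.fst ℝ ℝ (ℝ × ℝ)))
      (clm_mem ((ContinuousLinearMap.fst ℝ ℝ ℝ).comp (.snd ℝ ℝ (ℝ × ℝ)))))
      (clm_mem ((ContinuousLinearMap.snd ℝ ℝ ℝ).comp (.snd ℝ ℝ (ℝ × ℝ)))))
    fun _ _ h hx => sub_eq_zero.1 (h.zero (sub_eq_zero.2 hx))
  pos := SA.of_one (a := fun x : ℝ => x) (clm_mem (.id ℝ ℝ)) fun _ _ h hx => h.1.1 hx
  sing r := SA.of_one (a := fun x : ℝ => x - r)
    (sub_mem (clm_mem (.id ℝ ℝ)) ((TS.Poly ℝ).algebraMap_mem r))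
    fun _ _ h hx => sub_eq_zero.1 (h.zero (sub_eq_zero.2 hx))
  omin := SA.omin

theorem exists_ostr : Nonempty OStr := ⟨semialg⟩

/-- The o-minimal structure of semialgebraic sets. -/
def SA : OStr := semialg

lemma TS.ss_iff {a b : ℝ} : TS.SS a b ↔ SignType.sign a = SignType.sign b := by
  constructor
  · intro h
    rcases lt_trichotomy a 0 with h0 | h0 | h0
    · rw [sign_neg h0, sign_neg (h.2.1 h0)]
    · rw [h0, h.zero h0]
    · rw [sign_pos h0, sign_pos (h.1.1 h0)]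
  · intro h
    exact ⟨by rw [← sign_eq_one_iff, h, sign_eq_one_iff],
      by rw [← sign_eq_neg_one_iff, h, sign_eq_neg_one_iff]⟩

lemma TS.exists_mv {ι : Type} [Fintype ι] {a : (ι → ℝ) → ℝ} (ha : a ∈ TS.Poly (ι → ℝ)) :
    ∃ p : MvPolynomial ι ℝ, ∀ x, a x = MvPolynomial.eval x p := by
  classical
  induction ha using Algebra.adjoin_induction with
  | mem x hx =>
    obtain ⟨M, rfl⟩ := hx
    refine ⟨∑ i, MvPolynomial.C (M (Pi.single i 1)) * MvPolynomial.X i, fun x => ?_⟩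
    conv_lhs => rw [pi_eq_sum_univ' x]
    simp [mul_comm]
  | algebraMap r => exact ⟨MvPolynomial.C r, fun x => by simp⟩
  | add x y _ _ hx hy =>
    obtain ⟨P, hP⟩ := hx
    obtain ⟨Q, hQ⟩ := hy
    exact ⟨P + Q, fun x => by simp [hP, hQ]⟩
  | mul x y _ _ hx hy =>
    obtain ⟨P, hP⟩ := hx
    obtain ⟨Q, hQ⟩ := hy
    exact ⟨P * Q, fun x => by simp [hP, hQ]⟩

/-- Quantifier elimination: a semialgebraic predicate only depends on finitely many signs. -/
theorem SA_char {ι : Type} [Fintype ι] {P : (ι → ℝ) → Prop} (h : DP SA P) :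
    ∃ T : Finset (MvPolynomial ι ℝ), ∀ x y, (∀ p ∈ T,
      SignType.sign (MvPolynomial.eval x p) = SignType.sign (MvPolynomial.eval y p)) →
      (P x ↔ P y) := by
  obtain ⟨F, hF, h1, h2⟩ := h
  choose! p hp using fun a (ha : a ∈ F) => TS.exists_mv (h1 a ha)
  refine ⟨(hF.image p).toFinset, fun x y hxy => ?_⟩
  have : ∀ a ∈ F, TS.SS (a x) (a y) := fun a ha => by
    rw [hp a ha, hp a ha]
    exact TS.ss_iff.2 (hxy _ (by simpa using ⟨a, ha, rfl⟩))
  exact ⟨h2 x y this, h2 y x fun a ha => (this a ha).symm⟩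

/-- Semialgebraic predicates are definable in every structure. -/
theorem SA_le (S : OStr) {α : Type} [NormedAddCommGroup α] [NormedSpace ℝ α]
    [FiniteDimensional ℝ α] {P : α → Prop} (h : DP SA P) : DP S P := by
  obtain ⟨F, hF, h1, h2⟩ := h
  have hD : ∀ a ∈ TS.Poly α, DF S a := by
    intro a ha
    induction ha using Algebra.adjoin_induction with
    | mem x hx => obtain ⟨M, rfl⟩ := hx; exact DF.clm M
    | algebraMap r => exact DF.const r
    | add x y _ _ hx hy => exact hx.add hy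
    | mul x y _ _ hx hy => exact hx.mul hy
  have := hF.to_subtype
  have h3 : ∀ (a : F) (σ : SignType), DP S fun x => SignType.sign (a.1 x) = σ := by
    intro a σ
    have ha := hD a (h1 a a.2)
    rcases σ.trichotomy with rfl | rfl | rfl
    · exact (DP.lt ha (DF.const 0)).congr fun _ => sign_eq_neg_one_iff
    · exact (DP.eq ha (DF.const 0)).congr fun _ => sign_eq_zero_iff
    · exact (DP.lt (DF.const 0) ha).congr fun _ => sign_eq_one_iff
  refine (DP.fin_or (ι := F → SignType) fun σ =>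
    (DP.const (∃ y, P y ∧ ∀ a : F, SignType.sign (a.1 y) = σ a)).and
      (DP.fin_and fun a => h3 a (σ a))).congr fun x => ⟨fun hx => ?_, ?_⟩
  · exact ⟨fun a => SignType.sign (a.1 x), ⟨x, hx, fun _ => rfl⟩, fun _ => rfl⟩
  · rintro ⟨σ, ⟨y, hy, hy'⟩, hx⟩
    exact h2 y x (fun a ha => TS.ss_iff.2 ((hy' ⟨a, ha⟩).trans (hx ⟨a, ha⟩).symm)) hy

end Pool.Agent.Shared.OMin
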