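import Pool.Agent.Shared.OMin.Fields

/-! T3: transport along equal types, and residue fields of simple extensions. -/

namespace Pool.Agent.Shared.OMin

open Set Filter Topology

variable {S : OStr} {P Q Z : ℕ → U} {k l n : ℕ} {a b a' b' : U}
  {E E' K K' N : IntermediateField ℝ U}

theorem df_res (hl : l ≤ k) : DF S fun (x : Fin k → ℝ) (i : Fin l) => x (Fin.castLE hl i) :=
  DF.pi fun _ => DF.apply _

theorem SameTp.refl (S : OStr) (P : ℕ → U) (k : ℕ) : SameTp S P P k := fun _ _ => Iff.rfl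
theorem SameTp.symm (h : SameTp S P Q k) : SameTp S Q P k := fun X hX => (h X hX).symm
theorem SameTp.mono (h : SameTp S P Q k) (hl : l ≤ k) : SameTp S P Q l := fun X hX =>
  h (fun x => X fun i => x (Fin.castLE hl i)) (hX.comp (df_res hl))
theorem Tr.symm (h : Tr S P Q k a b) : Tr S Q P k b a := by
  obtain ⟨G, hG, h1, h2⟩ := h
  exact ⟨G, hG, h2, h1⟩
theorem Tr.mem_left (h : Tr S P Q k a b) : a ∈ dcl S P k := by
  obtain ⟨G, hG, h1, -⟩ := h
  exact ⟨G, hG, h1⟩
theorem Tr.mem_right (h : Tr S P Q k a b) : b ∈ dcl S Q k := h.symm.mem_left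
theorem exists_tr (Q : ℕ → U) (ha : a ∈ dcl S P k) : ∃ b, Tr S P Q k a b := by
  obtain ⟨G, hG, h1⟩ := ha
  exact ⟨_, G, hG, h1, rfl⟩
theorem Tr.mono (h : Tr S P Q k a b) (hl : k ≤ l) : Tr S P Q l a b := by
  obtain ⟨G, hG, h1, h2⟩ := h
  exact ⟨fun x => G fun i => x (Fin.castLE hl i), hG.comp (df_res hl), h1, h2⟩
theorem Tr.coord {i : ℕ} (hi : i < k) : Tr S P Q k (P i) (Q i) :=
  ⟨fun x => x ⟨i, hi⟩, DF.apply _, (ev_coord ⟨i, hi⟩ P).symm, (ev_coord ⟨i, hi⟩ Q).symm⟩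
theorem Tr.real (c : ℝ) : Tr S P Q k (algebraMap ℝ U c) (algebraMap ℝ U c) :=
  ⟨fun _ => c, DF.const c, (ev_const c P).symm, (ev_const c Q).symm⟩
theorem Tr.of_agree (h : Agree P Q n) (hn : n ≤ k) (ha : a ∈ dcl S P n) : Tr S P Q k a a := by
  obtain ⟨G, hG, h1⟩ := ha
  exact Tr.mono ⟨G, hG, h1, h1.trans (h.ev_eq G)⟩ hn
theorem Tr.add (h : Tr S P Q k a b) (h' : Tr S P Q k a' b') :
    Tr S P Q k (a + a') (b + b') := by
  obtain ⟨G, hG, rfl, rfl⟩ := h
  obtain ⟨H, hH, rfl, rfl⟩ := h'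
  exact ⟨_, hG.add hH, (ev_add G H P).symm, (ev_add G H Q).symm⟩
theorem Tr.sub (h : Tr S P Q k a b) (h' : Tr S P Q k a' b') :
    Tr S P Q k (a - a') (b - b') := by
  obtain ⟨G, hG, rfl, rfl⟩ := h
  obtain ⟨H, hH, rfl, rfl⟩ := h'
  exact ⟨_, hG.sub hH, (ev_sub G H P).symm, (ev_sub G H Q).symm⟩
theorem Tr.mul (h : Tr S P Q k a b) (h' : Tr S P Q k a' b') :
    Tr S P Q k (a * a') (b * b') := by
  obtain ⟨G, hG, rfl, rfl⟩ := h
  obtain ⟨H, hH, rfl, rfl⟩ := h'
  exact ⟨_, hG.mul hH, (ev_mul G H P).symm, (ev_mul G H Q).symm⟩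
theorem Tr.abs (h : Tr S P Q k a b) : Tr S P Q k |a| |b| := by
  obtain ⟨G, hG, rfl, rfl⟩ := h
  exact ⟨_, hG.abs, (ev_abs G).symm, (ev_abs G).symm⟩
theorem Tr.zero : Tr S P Q k 0 0 := by simpa using Tr.real (S := S) (P := P) (Q := Q) (k := k) 0
theorem Tr.one : Tr S P Q k 1 1 := by simpa using Tr.real (S := S) (P := P) (Q := Q) (k := k) 1
theorem Tr.pow (h : Tr S P Q k a b) (m : ℕ) : Tr S P Q k (a ^ m) (b ^ m) := by
  induction m with
  | zero => simpa using Tr.one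
  | succ m ih => simpa only [pow_succ] using ih.mul h
theorem SameTp.eq_iff (hs : SameTp S P Q k) (h : Tr S P Q k a b) (h' : Tr S P Q k a' b') :
    a = a' ↔ b = b' := by
  obtain ⟨G, hG, rfl, rfl⟩ := h
  obtain ⟨H, hH, rfl, rfl⟩ := h'
  rw [ev_eq_iff, ev_eq_iff]
  exact hs _ (DP.eq hG hH)
theorem SameTp.lt_iff (hs : SameTp S P Q k) (h : Tr S P Q k a b) (h' : Tr S P Q k a' b') :
    a < a' ↔ b < b' := by
  obtain ⟨G, hG, rfl, rfl⟩ := h
  obtain ⟨H, hH, rfl, rfl⟩ := h'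
  rw [ev_lt_iff, ev_lt_iff]
  exact hs _ (DP.lt hG hH)
theorem SameTp.gen (h : SameTp S P Q k) (hP : Gen S P k) : Gen S Q k := fun i hi hQ => by
  obtain ⟨b, hb⟩ := exists_tr P hQ
  exact hP i hi ((h.symm.eq_iff (Tr.coord hi) (hb.mono hi.le)).1 rfl ▸ hb.mem_right)
theorem SameTp.tr_pd (hs : SameTp S P Q k) (hP : Gen S P k) (h : Tr S P Q k a b) (i : ℕ) :
    Tr S P Q k (pd S P k i a) (pd S Q k i b) := by
  obtain ⟨G, hG, rfl, rfl⟩ := h
  exact ⟨_, hG.pdv i, pd_ev hP hG i, pd_ev (hs.gen hP) hG i⟩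

/-- extension of types (sat; finite satisfiability by transfer of an existential formula) -/
theorem SameTp.extend (hs : SameTp S P Q k) (w : U) :
    ∃ w', SameTp S (upd P k w) (upd Q k w') (k + 1) := by
  obtain ⟨w', hw⟩ := sat (sm_tp Q k)
    (I := {X : (Fin (k + 1) → ℝ) → Prop // DP S X ∧ At X (upd P k w)})
    (fun X x t => X.1 (Fin.snoc x t)) (fun s => by
      refine (hs (fun x => ∃ t : ℝ, ∀ X ∈ s, X.1 (Fin.snoc x t)) ?_).1 ?_
      · exact DP.ex (DP.finset_and s.finite_toSet fun X _ =>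
          X.2.1.comp (DF.snoc DF.id'.fst DF.id'.snd))
      · filter_upwards [(eventually_all_finset s).2 fun X _ => X.2.2] with ω h
        exact ⟨out w ω, fun X hX => tp_upd (P := P) w ω ▸ h X hX⟩)
  have key : ∀ X : (Fin (k + 1) → ℝ) → Prop, DP S X → At X (upd P k w) → At X (upd Q k w') :=
    fun X hX h => (hw ⟨X, hX, h⟩).mono fun ω h => (tp_upd (P := Q) w' ω).symm ▸ h
  refine ⟨w', fun X hX => ⟨key X hX, fun h => ?_⟩⟩
  by_contra hn
  exact ev_not.1 (key (fun x => ¬ X x) hX.not (ev_not.2 hn)) h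

/-- the transported tuple has the same type, and transports are compatible -/
theorem SameTp.tuple (hs : SameTp S P Q k) {y y' : ℕ → U} {m : ℕ}
    (h : ∀ i < m, Tr S P Q k (y i) (y' i)) :
    SameTp S y y' m ∧ ∀ a b, Tr S y y' m a b → Tr S P Q k a b := by
  choose G hG h1 h2 using fun i : Fin m => h i i.2
  have hΦ : DF S fun x i => G i x := DF.pi hG
  have e : ∀ {P y : ℕ → U}, (∀ i : Fin m, y i = ev (G i) P) →
      ∀ᶠ ω in 𝔲, tp y m ω = fun i => G i (tp P k ω) := fun {P y} h => by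
    filter_upwards [eventually_all.2 fun i => out_ev (G i) P] with ω hω
    funext i
    rw [tp, h i, hω i]
  have e1 : ∀ {P y : ℕ → U}, (∀ i : Fin m, y i = ev (G i) P) → ∀ X : (Fin m → ℝ) → Prop,
      At X y ↔ At (fun x => X fun i => G i x) P := fun h X =>
    eventually_congr ((e h).mono fun ω hω => by rw [hω])
  have e2 : ∀ {P y : ℕ → U}, (∀ i : Fin m, y i = ev (G i) P) → ∀ H : (Fin m → ℝ) → ℝ,
      ev H y = ev (fun x => H fun i => G i x) P := fun {P y} h H => (ev_eq (by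
    filter_upwards [e h, out_ev H y] with ω h1 h2
    rw [h2, h1])).symm
  refine ⟨fun X hX => ((e1 h1 X).trans (hs _ (hX.comp hΦ))).trans (e1 h2 X).symm, ?_⟩
  rintro _ _ ⟨H, hH, rfl, rfl⟩
  exact ⟨_, hH.comp hΦ, e2 h1 H, e2 h2 H⟩

/-- infinitesimals over a prefix are preserved -/
theorem SameTp.inf (hs : SameTp S P Q k) (hl : l ≤ k) (h : Tr S P Q k a b)
    (ha : Inf (dcl S P l) a) : Inf (dcl S Q l) b := fun δ hδ h0 => by
  obtain ⟨ε, hε⟩ := exists_tr P hδ
  have h1 := hε.symm.mono hl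
  exact (hs.lt_iff h.abs h1).1 (ha ε hε.mem_right ((hs.lt_iff Tr.zero h1).2 h0))

theorem mem_trF : b ∈ trF S P Q k E ↔ ∃ a ∈ E, Tr S P Q k a b := Iff.rfl
theorem trF_mono (h : E ≤ E') : trF S P Q k E ≤ trF S P Q k E' :=
  fun _ ⟨a, ha, h'⟩ => ⟨a, h ha, h'⟩
theorem trF_le : trF S P Q k E ≤ dcl S Q k := fun _ ⟨_, _, h⟩ => h.mem_right
theorem SameTp.trF_of_le (hs : SameTp S P Q l) (hl : k ≤ l) (hE : E ≤ dcl S P k) :
    trF S P Q l E = trF S P Q k E := by
  refine le_antisymm (fun b ⟨a, ha, h⟩ => ?_) fun b ⟨a, ha, h⟩ => ⟨a, ha, h.mono hl⟩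
  obtain ⟨b', h'⟩ := exists_tr Q (hE ha)
  exact ⟨a, ha, (hs.eq_iff h (h'.mono hl)).1 rfl ▸ h'⟩
theorem SameTp.trF_tuple (hs : SameTp S P Q k) {y y' : ℕ → U} {m : ℕ}
    (h : ∀ i < m, Tr S P Q k (y i) (y' i)) (hE : E ≤ dcl S y m) :
    trF S y y' m E = trF S P Q k E := by
  refine le_antisymm (fun b ⟨a, ha, h'⟩ => ⟨a, ha, (hs.tuple h).2 a b h'⟩) fun b ⟨a, ha, h1⟩ => ?_
  obtain ⟨b', h'⟩ := exists_tr y' (hE ha)
  exact ⟨a, ha, (hs.eq_iff h1 ((hs.tuple h).2 a b' h')).1 rfl ▸ h'⟩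
theorem SameTp.trF_fix (hs : SameTp S P Q k) (h : Agree P Q n) (hn : n ≤ k) (hE : E ≤ dcl S P n) :
    trF S P Q k E = E :=
  le_antisymm (fun _ ⟨_, ha, h'⟩ => (hs.eq_iff (Tr.of_agree h hn (hE ha)) h').1 rfl ▸ ha)
    fun a ha => ⟨a, ha, Tr.of_agree h hn (hE ha)⟩

theorem le_trF_trF (hE : E ≤ dcl S P k) : E ≤ trF S Q P k (trF S P Q k E) := fun a ha => by
  obtain ⟨b, h⟩ := exists_tr Q (hE ha)
  exact ⟨b, ⟨a, ha, h⟩, h.symm⟩

theorem SameTp.trF_le_of (hs : SameTp S P Q k) (h : E ≤ trF S Q P k E') : trF S P Q k E ≤ E' :=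
  fun _ ⟨_, ha, h1⟩ => by
    obtain ⟨b', hb, h2⟩ := h ha
    exact (hs.eq_iff h2.symm h1).1 rfl ▸ hb

theorem SameTp.alg (hs : SameTp S P Q k) (hE : E ≤ dcl S P k) (h : Tr S P Q k a b)
    (ha : IsAlgebraic E a) : IsAlgebraic (trF S P Q k E) b := by
  choose τ hτ using fun e : E => exists_tr Q (hE e.2)
  let f : E →+* trF S P Q k E :=
    { toFun := fun e => ⟨τ e, e, e.2, hτ e⟩
      map_one' := Subtype.ext ((hs.eq_iff (hτ 1) Tr.one).1 rfl)
      map_zero' := Subtype.ext ((hs.eq_iff (hτ 0) Tr.zero).1 rfl)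
      map_mul' := fun x y => Subtype.ext ((hs.eq_iff (hτ (x * y)) ((hτ x).mul (hτ y))).1 rfl)
      map_add' := fun x y => Subtype.ext ((hs.eq_iff (hτ (x + y)) ((hτ x).add (hτ y))).1 rfl) }
  have key : ∀ p : Polynomial E,
      Tr S P Q k (Polynomial.aeval a p) (Polynomial.aeval b (p.map f)) := fun p => by
    induction p using Polynomial.induction_on' with
    | add p q hp hq => simpa only [Polynomial.map_add, map_add] using hp.add hq
    | monomial m c =>
      simp only [Polynomial.map_monomial, Polynomial.aeval_monomial]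
      exact (hτ c).mul (h.pow m)
  obtain ⟨p, hp, h0⟩ := ha
  exact ⟨p.map f, Polynomial.map_ne_zero hp, (hs.eq_iff (key p) Tr.zero).1 h0⟩

theorem SameTp.trF_rcl_le (hs : SameTp S P Q k) (hE : E ≤ dcl S P k) :
    trF S P Q k (rcl E) ≤ rcl (trF S P Q k E) :=
  fun _ ⟨_, ha, h⟩ => mem_rcl.2 (hs.alg hE h (mem_rcl.1 ha))

theorem SameTp.trF_rcl (hs : SameTp S P Q k) (hE : E ≤ dcl S P k) :
    trF S P Q k (rcl E) = rcl (trF S P Q k E) := by
  refine le_antisymm (hs.trF_rcl_le hE) ((le_trF_trF (Q := P) (rc_dcl.rcl_le trF_le)).trans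
    (trF_mono ((hs.symm.trF_rcl_le trF_le).trans (rcl_mono (hs.symm.trF_le_of le_rfl)))))

theorem sup_le_trF (h : Tr S P Q k a b) : trF S P Q k E ⊔ IntermediateField.adjoin ℝ {b} ≤
    trF S P Q k (E ⊔ IntermediateField.adjoin ℝ {a}) :=
  sup_le (trF_mono le_sup_left) (IntermediateField.adjoin_simple_le_iff.2
    ⟨a, (le_sup_right : _ ≤ E ⊔ _) (IntermediateField.mem_adjoin_simple_self ℝ a), h⟩)

theorem SameTp.trF_adj (hs : SameTp S P Q k) (hE : E ≤ dcl S P k) (h : Tr S P Q k a b) :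
    trF S P Q k (adj E a) = adj (trF S P Q k E) b := by
  rw [adj, adj, hs.trF_rcl (sup_le hE (IntermediateField.adjoin_simple_le_iff.2 h.mem_left))]
  congr 1
  exact le_antisymm (hs.trF_le_of ((sup_le_sup_right (le_trF_trF hE) _).trans
    (sup_le_trF h.symm))) (sup_le_trF h)
theorem SameTp.trF_rc (hs : SameTp S P Q k) (hE : E ≤ dcl S P k) (h : RC E) :
    RC (trF S P Q k E) := by
  have := rc_rcl (trF S P Q k E)
  rwa [← hs.trF_rcl hE, le_antisymm (h.rcl_le le_rfl) (le_rcl E)] at this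
theorem SameTp.trF_pc (hs : SameTp S P Q k) (hP : Gen S P k) (hE : E ≤ dcl S P k)
    (h : PC S P k E) : PC S Q k (trF S P Q k E) :=
  have _ := hE
  fun i _ ⟨a, ha, h'⟩ => ⟨_, h i a ha, hs.tr_pd hP h' i⟩
theorem SameTp.trF_dfld (hs : SameTp S P Q k) (hP : Gen S P k) (hE : DFld S P k E) :
    DFld S Q k (trF S P Q k E) :=
  ⟨trF_le, hs.trF_rc hE.le hE.rc, hs.trF_pc hP hE.le hE.pc⟩
theorem SameTp.trF_stF (hs : SameTp S P Q k) (hl : l ≤ k) (hK : K ≤ dcl S P k) :
    trF S P Q l (stF (dcl S P l) K) = stF (dcl S Q l) (trF S P Q k K) := by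
  refine le_antisymm ?_ ?_
  · rintro b ⟨a, ⟨_, e, he, h1⟩, h⟩
    obtain ⟨e', h2⟩ := exists_tr Q (hK he)
    exact ⟨h.mem_right, e', ⟨e, he, h2⟩, hs.inf hl (h2.sub (h.mono hl)) h1⟩
  · rintro b ⟨hb, e', ⟨e, he, h1⟩, h⟩
    obtain ⟨a, h2⟩ := exists_tr P hb
    exact ⟨a, ⟨h2.mem_right, e, he, hs.symm.inf hl (h1.symm.sub (h2.mono hl)) h⟩, h2.symm⟩

/-! ### residue fields -/

theorem mem_adj_iff {e w : U} : e ∈ adj E w ↔ IsAlgebraic (Algebra.adjoin E {w}) e := by
  rw [adj, mem_rcl, ← IntermediateField.restrictScalars_adjoin_eq_sup,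
    ← IntermediateField.isAlgebraic_adjoin_iff]
  rfl

theorem adj_exch (hE : RC E) {e w : U} (h : e ∈ adj E w) (h' : e ∉ E) : w ∈ adj E e := by
  have e1 : ∀ x y : U, x ∈ adj E y ↔ x ∈ (AlgebraicIndependent.matroid E U).closure (insert y ∅) :=
    fun x y => by
      rw [mem_adj_iff, AlgebraicIndependent.matroid_closure_eq, insert_empty_eq]
      rfl
  refine (e1 _ _).2 (Matroid.mem_closure_insert (fun h0 => h' (hE e ?_)) ((e1 _ _).1 h))
  rw [AlgebraicIndependent.matroid_closure_eq, Algebra.adjoin_empty] at h0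
  exact (Subalgebra.isAlgebraic_bot_iff (R := E) Subtype.val_injective).1 h0

/-- `y` is the standard part of `x` -/
def Nr (N : IntermediateField ℝ U) (x y : U) : Prop := y ∈ N ∧ Inf N (x - y)

theorem Nr.refl (h : a ∈ N) : Nr N a a := ⟨h, by simpa using Inf.zero N⟩

theorem Nr.add (h : Nr N a b) (h' : Nr N a' b') : Nr N (a + a') (b + b') :=
  ⟨N.add_mem h.1 h'.1, by convert h.2.add h'.2 using 1; ring⟩

theorem Nr.mul (h : Nr N a b) (h' : Nr N a' b') : Nr N (a * a') (b * b') :=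
  ⟨N.mul_mem h.1 h'.1, by
    convert (h.2.mul_bdd (Bdd.of_near h'.1 h'.2)).add (Inf.bdd_mul (Bdd.of_mem h.1) h'.2) using 1
    ring⟩

theorem Nr.pow (h : Nr N a b) (m : ℕ) : Nr N (a ^ m) (b ^ m) := by
  induction m with
  | zero => simpa using Nr.refl N.one_mem
  | succ m ih => simpa only [pow_succ] using ih.mul h

theorem Nr.sum {ι : Type} (s : Finset ι) {f g : ι → U} (h : ∀ i ∈ s, Nr N (f i) (g i)) :
    Nr N (∑ i ∈ s, f i) (∑ i ∈ s, g i) := by
  classical
  induction s using Finset.induction_on with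
  | empty => simpa using Nr.refl N.zero_mem
  | insert i s hi ih =>
    simp only [Finset.sum_insert hi]
    exact (h i (by simp)).add (ih fun j hj => h j (by simp [hj]))

theorem Nr.prod {ι : Type} (s : Finset ι) {f g : ι → U} (h : ∀ i ∈ s, Nr N (f i) (g i)) :
    Nr N (∏ i ∈ s, f i) (∏ i ∈ s, g i) := by
  classical
  induction s using Finset.induction_on with
  | empty => simpa using Nr.refl N.one_mem
  | insert i s hi ih =>
    simp only [Finset.prod_insert hi]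
    exact (h i (by simp)).mul (ih fun j hj => h j (by simp [hj]))

theorem Nr.eq_zero (h : Nr N a b) (ha : Inf N a) : b = 0 :=
  Inf.eq_zero (by simpa using ha.sub h.2) h.1

theorem Nr.aeval (hN : E ≤ N) (h : Nr N a b) (p : Polynomial E) :
    Nr N (Polynomial.aeval a p) (Polynomial.aeval b p) := by
  simp only [Polynomial.aeval_eq_sum_range, Algebra.smul_def]
  exact Nr.sum _ fun i _ => (Nr.refl (hN (p.coeff i).2)).mul (h.pow i)

/-- infinitesimal generator: the residue field does not grow. Take a polynomial relation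
between `e` and `t` over `E` that is not divisible by `t`. -/
theorem stF_adj_inf (hE : RC E) (hN : E ≤ N) {t : U} (ht : Inf N t) : stF N (adj E t) ≤ E := by
  rintro ρ ⟨hρ, e, he, h⟩
  have hn : Nr N e ρ := ⟨hρ, h⟩
  by_cases heE : e ∈ E
  · rwa [← sub_eq_zero.1 (h.eq_zero (N.sub_mem (hN heE) hρ))]
  have h0 : t ≠ 0 := by
    rintro rfl
    exact heE (hE.adj_le le_rfl E.zero_mem he)
  obtain ⟨q, hq, hq0⟩ := (mem_adj_iff.1 (adj_exch hE he heE)).exists_nonzero_coeff_and_aeval_eq_zero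
    (mem_nonZeroDivisors_of_ne_zero h0)
  have hc : ∀ x : Algebra.adjoin E {e}, ∃ p : Polynomial E,
      Polynomial.aeval e p = algebraMap _ U x :=
    fun x => (Algebra.adjoin_singleton_eq_range_aeval E e).le x.2
  choose p hp using hc
  have h1 : Nr N (Polynomial.aeval t q) (∑ i ∈ Finset.range (q.natDegree + 1),
      Polynomial.aeval ρ (p (q.coeff i)) * 0 ^ i) := by
    rw [Polynomial.aeval_eq_sum_range]
    refine Nr.sum _ fun i _ => ?_
    rw [Algebra.smul_def]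
    exact Nr.mul (hp (q.coeff i) ▸ hn.aeval hN _) (Nr.pow ⟨N.zero_mem, by simpa using ht⟩ i)
  have h2 := h1.eq_zero (hq0 ▸ Inf.zero N)
  rw [Finset.sum_eq_single_of_mem 0 (by simp) fun i _ hi => by simp [hi], pow_zero, mul_one] at h2
  refine hE ρ ⟨_, fun h3 => hq (Subtype.ext ?_), h2⟩
  exact (hp _).symm.trans (by rw [h3, map_zero]; rfl)

/-- algebraic independence lifts from the residue field -/
theorem algInd_of_st (hst : ∀ e ∈ K', Bdd N e → ∃ ρ ∈ N, Inf N (e - ρ)) {ι : Type} {e ρ : ι → U}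
    (h : ∀ i, Nr N (e i) (ρ i)) (hi : AlgebraicIndependent (stF N K') ρ) :
    AlgebraicIndependent K' e := by
  classical
  rw [algebraicIndependent_iff] at hi ⊢
  intro p hp
  by_contra h0
  obtain ⟨m, hm, hmax⟩ := p.support.exists_max_image (fun m => |((p.coeff m : K') : U)|)
    (MvPolynomial.support_nonempty.2 h0)
  have hm0 : ((p.coeff m : K') : U) ≠ 0 := by simpa using MvPolynomial.mem_support_iff.1 hm
  have : ∀ j, ∃ c : stF N K', j ∈ p.support →
      Nr N (((p.coeff j : K') : U) / (p.coeff m : K')) c := fun j => by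
    by_cases hj : j ∈ p.support
    · have hK := K'.div_mem (p.coeff j).2 (p.coeff m).2
      obtain ⟨c, hc, h1⟩ := hst _ hK ⟨1, N.one_mem, by
        rw [abs_div, div_le_one (abs_pos.2 hm0)]; exact hmax j hj⟩
      exact ⟨⟨c, hc, _, hK, h1⟩, fun _ => ⟨hc, h1⟩⟩
    · exact ⟨0, fun h => absurd h hj⟩
  choose c hc using this
  have h1 : Nr N (MvPolynomial.aeval e p / (p.coeff m : K'))
      (MvPolynomial.aeval ρ (∑ j ∈ p.support, MvPolynomial.monomial j (c j))) := by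
    rw [MvPolynomial.aeval_def, MvPolynomial.eval₂_eq, Finset.sum_div, map_sum]
    refine Nr.sum _ fun j hj => ?_
    rw [MvPolynomial.aeval_monomial, mul_div_right_comm]
    exact (hc j hj).mul (Nr.prod _ fun i _ => (h i).pow _)
  have h2 := congrArg (MvPolynomial.coeff m) (hi _ (h1.eq_zero (by simpa [hp] using Inf.zero N)))
  simp only [MvPolynomial.coeff_sum, MvPolynomial.coeff_monomial, Finset.sum_ite_eq', hm, if_true,
    MvPolynomial.coeff_zero] at h2
  have h3 := (hc m hm).2 1 N.one_mem one_pos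
  simp [h2, hm0] at h3

/-- The residue field of a simple extension has transcendence degree at most one: two elements
of `adj K' w` satisfy a polynomial relation over `K'`; divide by the coefficient of largest
absolute value and take standard parts. -/
theorem stF_adj_le (hN : RC N) (hK : RC K') (hst : ∀ e ∈ K', Bdd N e → ∃ ρ ∈ N, Inf N (e - ρ))
    {w c : U} (hc : c ∈ stF N (adj K' w)) (hc' : c ∉ stF N K') :
    stF N (adj K' w) ≤ adj (stF N K') c := by
  rintro ρ ⟨hρ, e, he, h⟩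
  obtain ⟨hcN, d, hd, h'⟩ := hc
  by_contra hn
  have h1 : AlgebraicIndependent (stF N K') fun o : Option Unit => o.elim ρ fun _ => c :=
    AlgebraicIndependent.option_iff.2 ⟨algebraicIndependent_unique_type_iff.2
      fun h => hc' (rc_stF hN hK c h), by
        rw [Set.range_const]; exact fun h => hn (mem_adj_iff.2 h)⟩
  have h2 : AlgebraicIndependent K' fun o : Option Unit => o.elim e fun _ => d :=
    algInd_of_st hst (fun o => by cases o; exacts [⟨hρ, h⟩, ⟨hcN, h'⟩]) h1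
  have h3 := (AlgebraicIndependent.option_iff.1 h2).2
  rw [Set.range_const] at h3
  exact h3 (mem_adj_iff.1 ((rc_adj K' d).adj_le (le_adj K' d)
    (adj_exch hK hd fun hd' => hc' ⟨hcN, d, hd', h'⟩) he))

/-- finitely many elements of `adj E c` only need finitely many elements of `E` -/
theorem exists_finite_adj {c : U} {R : Set U} (hR : R.Finite) (h : R ⊆ adj E c) :
    ∃ T : Set U, T.Finite ∧ T ⊆ E ∧ ∀ E' : IntermediateField ℝ U, T ⊆ E' → R ⊆ adj E' c := by
  let I := {T : Set U // T.Finite ∧ T ⊆ E}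
  have : Nonempty I := ⟨⟨∅, by simp⟩⟩
  let F : I → IntermediateField ℝ U := fun T => adj (IntermediateField.adjoin ℝ T.1) c
  have mono : ∀ T T' : I, T.1 ⊆ T'.1 → F T ≤ F T' := fun T T' h =>
    adj_mono (IntermediateField.adjoin.mono ℝ _ _ h) c
  have dir : Directed (· ≤ ·) F := fun T T' =>
    ⟨⟨T.1 ∪ T'.1, T.2.1.union T'.2.1, union_subset T.2.2 T'.2.2⟩,
      mono _ _ subset_union_left, mono _ _ subset_union_right⟩
  have fin : ∀ {R : Set U}, R.Finite → R ⊆ (iSup F : IntermediateField ℝ U) →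
      ∃ T, R ⊆ F T := fun {R} hR h => by
    rw [IntermediateField.coe_iSup_of_directed dir] at h
    choose! T hT using fun x (hx : x ∈ R) => mem_iUnion.1 (h hx)
    exact ⟨⟨⋃ x ∈ R, (T x).1, hR.biUnion fun x _ => (T x).2.1,
      iUnion₂_subset fun x _ => (T x).2.2⟩, fun x hx =>
        mono (T x) _ (subset_biUnion_of_mem (u := fun x => (T x).1) hx) (hT x hx)⟩
  have rc : RC (iSup F) := by
    rintro x ⟨p, hp, h0⟩
    obtain ⟨T, hT⟩ := fin (R := (p.map (algebraMap _ U)).coeffs) (Finset.finite_toSet _)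
      fun y hy => by
        obtain ⟨j, -, rfl⟩ := Polynomial.mem_coeffs_iff.1 hy
        rw [Polynomial.coeff_map]
        exact (p.coeff j).2
    obtain ⟨q, hq⟩ := (Polynomial.mem_lifts (f := algebraMap (F T) U) _).1
      ((Polynomial.lifts_iff_coeffs_subset_range (p.map (algebraMap _ U))).2
        fun y hy => ⟨⟨y, hT hy⟩, rfl⟩)
    refine le_iSup F T (rc_adj _ c x ⟨q, ?_, ?_⟩)
    · rintro rfl
      exact hp (by simpa using hq.symm)
    · rw [← Polynomial.eval_map_algebraMap, hq, Polynomial.eval_map_algebraMap, h0]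
  obtain ⟨T, hT⟩ := fin hR (h.trans (rc.adj_le (fun x hx => le_iSup F ⟨{x}, by simpa using hx⟩
    (le_adj _ c (IntermediateField.mem_adjoin_simple_self ℝ x)))
    (le_iSup F ⟨∅, by simp⟩ (mem_adj _ c))))
  exact ⟨T.1, T.2.1, T.2.2, fun E' hE' =>
    hT.trans (adj_mono (IntermediateField.adjoin_le_iff.2 hE') c)⟩

end Pool.Agent.Shared.OMin
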