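import Pool.Agent.Shared.OMin.Def

/-! A3a: definability of topological and differential notions (in families). -/

namespace Pool.Agent.Shared.OMin

open Set Filter Topology

variable {α β γ : Type}
  [NormedAddCommGroup α] [NormedSpace ℝ α] [FiniteDimensional ℝ α]
  [NormedAddCommGroup β] [NormedSpace ℝ β] [FiniteDimensional ℝ β]
  [NormedAddCommGroup γ] [NormedSpace ℝ γ] [FiniteDimensional ℝ γ] {S : OStr}

@[fun_prop]
theorem DF.norm_pi {ι : Type} [Fintype ι] {f : α → ι → ℝ} (hf : DF S f) :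
    DF S fun x => ‖f x‖ := by
  have h1 : DP S fun p : α × ℝ => 0 ≤ p.2 ∧ ∀ i, |f p.1 i| ≤ p.2 :=
    DP.and (by fun_prop) (DP.fin_and fun i => by
      have : DF S fun x => f x i := (DF.apply i).comp hf
      fun_prop)
  have h2 : DP S fun p : α × ℝ => ‖f p.1‖ ≤ p.2 := h1.congr fun p => by
    constructor
    · intro h
      exact ⟨(norm_nonneg _).trans h, fun i => (norm_le_pi_norm (f p.1) i).trans h⟩
    · rintro ⟨h0, h⟩
      exact (pi_norm_le_iff_of_nonneg h0).mpr h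
  have h3 : DP S fun z : (α × ℝ) × ℝ => ‖f z.1.1‖ ≤ z.2 :=
    h2.comp (g := fun z : (α × ℝ) × ℝ => (z.1.1, z.2)) (by fun_prop)
  have h4 : DP S fun p : α × ℝ => ∀ t : ℝ, ‖f p.1‖ ≤ t ↔ p.2 ≤ t :=
    DP.all (P := fun (p : α × ℝ) (t : ℝ) => ‖f p.1‖ ≤ t ↔ p.2 ≤ t) (h3.iff (by fun_prop))
  refine DF.mk' (h4.congr fun p => ⟨fun h t => by rw [h], fun h => ?_⟩)
  exact le_antisymm ((h _).1 le_rfl) ((h _).2 le_rfl)

/-- a definable equivalent norm (for example the l1 norm in a basis) -/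
theorem exists_dnorm (S : OStr) (β : Type) [NormedAddCommGroup β] [NormedSpace ℝ β]
    [FiniteDimensional ℝ β] : ∃ (ν : β → ℝ) (C : ℝ), DF S ν ∧ Continuous ν ∧ 0 < C ∧
      ∀ y, ‖y‖ ≤ C * ν y ∧ ν y ≤ C * ‖y‖ := by
  let e : β ≃L[ℝ] (Fin (Module.finrank ℝ β) → ℝ) :=
    (Module.finBasis ℝ β).equivFun.toContinuousLinearEquiv
  let A : β →L[ℝ] (Fin (Module.finrank ℝ β) → ℝ) := e
  let B : (Fin (Module.finrank ℝ β) → ℝ) →L[ℝ] β := e.symm
  refine ⟨fun y => ‖A y‖, ‖A‖ + ‖B‖ + 1, DF.norm_pi (DF.clm A), by fun_prop, by positivity,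
    fun y => ⟨?_, ?_⟩⟩
  · have h1 : B (A y) = y := e.symm_apply_apply y
    have h2 := B.le_opNorm (A y)
    rw [h1] at h2
    have := norm_nonneg A
    have := norm_nonneg (A y)
    nlinarith
  · have h2 := A.le_opNorm y
    have := norm_nonneg B
    have := norm_nonneg y
    nlinarith

omit [NormedSpace ℝ β] [FiniteDimensional ℝ β] in
theorem ev_nhds_iff_dnorm {ν : β → ℝ} {C : ℝ} (hC : 0 < C)
    (h : ∀ y, ‖y‖ ≤ C * ν y ∧ ν y ≤ C * ‖y‖) (a : β) (P : β → Prop) :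
    (∀ᶠ y in 𝓝 a, P y) ↔ ∃ ε : ℝ, 0 < ε ∧ ∀ y, ν (y - a) < ε → P y := by
  rw [Metric.eventually_nhds_iff]
  constructor
  · rintro ⟨ε, hε, hP⟩
    refine ⟨ε / C, by positivity, fun y hy => hP ?_⟩
    rw [dist_eq_norm]
    rw [lt_div_iff₀' hC] at hy
    exact (h _).1.trans_lt hy
  · rintro ⟨ε, hε, hP⟩
    refine ⟨ε / C, by positivity, fun y hy => hP y ?_⟩
    rw [dist_eq_norm, lt_div_iff₀' hC] at hy
    exact (h _).2.trans_lt hy

omit [NormedSpace ℝ β] [FiniteDimensional ℝ β] in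
theorem tendsto_iff_dnorm {ν : β → ℝ} {C : ℝ} (hC : 0 < C)
    (h : ∀ y, ‖y‖ ≤ C * ν y ∧ ν y ≤ C * ‖y‖) {ι : Type*} (F : Filter ι) (f : ι → β) (a : β) :
    Tendsto f F (𝓝 a) ↔ ∀ ε : ℝ, 0 < ε → ∀ᶠ y in F, ν (f y - a) < ε := by
  rw [Metric.tendsto_nhds]
  constructor
  · intro hP ε hε
    filter_upwards [hP (ε / C) (by positivity)] with y hy
    rw [dist_eq_norm, lt_div_iff₀' hC] at hy
    exact (h _).2.trans_lt hy
  · intro hP ε hε
    filter_upwards [hP (ε / C) (by positivity)] with y hy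
    rw [lt_div_iff₀' hC] at hy
    rw [dist_eq_norm]
    exact (h _).1.trans_lt hy

@[fun_prop]
theorem DP.ev_nhds {P : α → β → Prop} (h : DP S fun z : α × β => P z.1 z.2) {g : α → β}
    (hg : DF S g) : DP S fun x => ∀ᶠ y in 𝓝 (g x), P x y := by
  obtain ⟨ν, C, hν, -, hC, hb⟩ := exists_dnorm S β
  have h1 : DP S fun z : (α × ℝ) × β => P z.1.1 z.2 :=
    h.comp (g := fun z : (α × ℝ) × β => (z.1.1, z.2)) (by fun_prop)
  have h2 : DP S fun z : α × ℝ => ∀ y, ν (y - g z.1) < z.2 → P z.1 y :=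
    DP.all (P := fun (z : α × ℝ) y => ν (y - g z.1) < z.2 → P z.1 y) (DP.imp (by fun_prop) h1)
  exact (DP.ex (P := fun x (ε : ℝ) => 0 < ε ∧ ∀ y, ν (y - g x) < ε → P x y)
    (DP.and (by fun_prop) h2)).congr fun x => ev_nhds_iff_dnorm hC hb _ _

@[fun_prop]
theorem DP.ev_nhdsGT {P : α → ℝ → Prop} (h : DP S fun z : α × ℝ => P z.1 z.2) {g : α → ℝ}
    (hg : DF S g) : DP S fun x => ∀ᶠ y in 𝓝[>] (g x), P x y :=
  (DP.ev_nhds (P := fun x y => g x < y → P x y) (DP.imp (by fun_prop) h) hg).congr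
    fun _ => eventually_nhdsWithin_iff

@[fun_prop]
theorem DP.ev_nhdsLT {P : α → ℝ → Prop} (h : DP S fun z : α × ℝ => P z.1 z.2) {g : α → ℝ}
    (hg : DF S g) : DP S fun x => ∀ᶠ y in 𝓝[<] (g x), P x y :=
  (DP.ev_nhds (P := fun x y => y < g x → P x y) (DP.imp (by fun_prop) h) hg).congr
    fun _ => eventually_nhdsWithin_iff

theorem DP.mem_interior {A : α → Set β} (h : DP S fun z : α × β => z.2 ∈ A z.1) :
    DP S fun z : α × β => z.2 ∈ interior (A z.1) := by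
  have h1 : DP S fun z : (α × β) × β => z.2 ∈ A z.1.1 :=
    h.comp (g := fun z : (α × β) × β => (z.1.1, z.2)) (by fun_prop)
  exact (DP.ev_nhds (P := fun (z : α × β) y => y ∈ A z.1) h1 (g := fun z => z.2)
    (by fun_prop)).congr fun _ => mem_interior_iff_mem_nhds

theorem DP.mem_closure {A : α → Set β} (h : DP S fun z : α × β => z.2 ∈ A z.1) :
    DP S fun z : α × β => z.2 ∈ closure (A z.1) :=
  (DP.mem_interior (A := fun x => (A x)ᶜ) h.not).not.congr fun z => by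
    rw [interior_compl, mem_compl_iff, not_not]

theorem DP.mem_frontier {A : α → Set β} (h : DP S fun z : α × β => z.2 ∈ A z.1) :
    DP S fun z : α × β => z.2 ∈ frontier (A z.1) :=
  (h.mem_closure.and h.mem_interior.not).congr fun _ => Iff.rfl

theorem DP.set_interior {s : Set β} (h : DP S fun y => y ∈ s) : DP S fun y => y ∈ interior s :=
  (DP.mem_interior (α := β) (A := fun _ => s) (h.comp (g := fun z : β × β => z.2)
    (by fun_prop))).comp (g := fun y : β => (y, y)) (by fun_prop)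

theorem DP.set_closure {s : Set β} (h : DP S fun y => y ∈ s) : DP S fun y => y ∈ closure s :=
  (DP.mem_closure (α := β) (A := fun _ => s) (h.comp (g := fun z : β × β => z.2)
    (by fun_prop))).comp (g := fun y : β => (y, y)) (by fun_prop)

theorem DP.tendsto_nhds {f : α → β → γ} (hf : DF S fun z : α × β => f z.1 z.2) {g : α → β}
    (hg : DF S g) {l : α → γ} (hl : DF S l) :
    DP S fun x => Tendsto (f x) (𝓝 (g x)) (𝓝 (l x)) := by
  obtain ⟨ν, C, hν, -, hC, hb⟩ := exists_dnorm S γ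
  have h1 : DF S fun z : (α × ℝ) × β => f z.1.1 z.2 :=
    hf.comp (g := fun z : (α × ℝ) × β => (z.1.1, z.2)) (by fun_prop)
  have h2 : DP S fun z : α × ℝ => ∀ᶠ y in 𝓝 (g z.1), ν (f z.1 y - l z.1) < z.2 :=
    DP.ev_nhds (P := fun (z : α × ℝ) y => ν (f z.1 y - l z.1) < z.2)
      (DP.lt (hν.comp (h1.sub (by fun_prop))) (by fun_prop)) (by fun_prop)
  exact (DP.all (P := fun x (ε : ℝ) => 0 < ε → ∀ᶠ y in 𝓝 (g x), ν (f x y - l x) < ε)
    (DP.imp (by fun_prop) h2)).congr fun x => tendsto_iff_dnorm hC hb _ _ _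

theorem DP.tendsto_nhdsGT {f : α → ℝ → γ} (hf : DF S fun z : α × ℝ => f z.1 z.2) {g : α → ℝ}
    (hg : DF S g) {l : α → γ} (hl : DF S l) :
    DP S fun x => Tendsto (f x) (𝓝[>] (g x)) (𝓝 (l x)) := by
  obtain ⟨ν, C, hν, -, hC, hb⟩ := exists_dnorm S γ
  have h1 : DF S fun z : (α × ℝ) × ℝ => f z.1.1 z.2 :=
    hf.comp (g := fun z : (α × ℝ) × ℝ => (z.1.1, z.2)) (by fun_prop)
  have h2 : DP S fun z : α × ℝ => ∀ᶠ y in 𝓝[>] (g z.1), ν (f z.1 y - l z.1) < z.2 :=
    DP.ev_nhdsGT (P := fun (z : α × ℝ) y => ν (f z.1 y - l z.1) < z.2)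
      (DP.lt (hν.comp (h1.sub (by fun_prop))) (by fun_prop)) (by fun_prop)
  exact (DP.all (P := fun x (ε : ℝ) => 0 < ε → ∀ᶠ y in 𝓝[>] (g x), ν (f x y - l x) < ε)
    (DP.imp (by fun_prop) h2)).congr fun x => tendsto_iff_dnorm hC hb _ _ _

theorem DP.tendsto_nhdsLT {f : α → ℝ → γ} (hf : DF S fun z : α × ℝ => f z.1 z.2) {g : α → ℝ}
    (hg : DF S g) {l : α → γ} (hl : DF S l) :
    DP S fun x => Tendsto (f x) (𝓝[<] (g x)) (𝓝 (l x)) := by
  obtain ⟨ν, C, hν, -, hC, hb⟩ := exists_dnorm S γ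
  have h1 : DF S fun z : (α × ℝ) × ℝ => f z.1.1 z.2 :=
    hf.comp (g := fun z : (α × ℝ) × ℝ => (z.1.1, z.2)) (by fun_prop)
  have h2 : DP S fun z : α × ℝ => ∀ᶠ y in 𝓝[<] (g z.1), ν (f z.1 y - l z.1) < z.2 :=
    DP.ev_nhdsLT (P := fun (z : α × ℝ) y => ν (f z.1 y - l z.1) < z.2)
      (DP.lt (hν.comp (h1.sub (by fun_prop))) (by fun_prop)) (by fun_prop)
  exact (DP.all (P := fun x (ε : ℝ) => 0 < ε → ∀ᶠ y in 𝓝[<] (g x), ν (f x y - l x) < ε)
    (DP.imp (by fun_prop) h2)).congr fun x => tendsto_iff_dnorm hC hb _ _ _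

theorem DP.contAt {f : α → β → γ} (hf : DF S fun z : α × β => f z.1 z.2) {g : α → β}
    (hg : DF S g) : DP S fun x => ContinuousAt (f x) (g x) :=
  DP.tendsto_nhds hf hg (hf.comp (g := fun x => (x, g x)) (by fun_prop))

omit [FiniteDimensional ℝ β] [FiniteDimensional ℝ γ] in
theorem hasFD_iff_dnorm {ν : β → ℝ} {C : ℝ} (hC : 0 < C)
    (h : ∀ y, ‖y‖ ≤ C * ν y ∧ ν y ≤ C * ‖y‖) {ν' : γ → ℝ} {C' : ℝ} (hC' : 0 < C')
    (h' : ∀ y, ‖y‖ ≤ C' * ν' y ∧ ν' y ≤ C' * ‖y‖) (f : β → γ) (L : β →L[ℝ] γ) (a : β) :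
    HasFDerivAt f L a ↔
      ∀ ε : ℝ, 0 < ε → ∀ᶠ y in 𝓝 a, ν' (f y - f a - L (y - a)) ≤ ε * ν (y - a) := by
  rw [hasFDerivAt_iff_isLittleO, Asymptotics.isLittleO_iff]
  constructor
  · intro hP ε hε
    filter_upwards [hP (c := ε / (C' * C)) (by positivity)] with y hy
    calc ν' (f y - f a - L (y - a)) ≤ C' * ‖f y - f a - L (y - a)‖ := (h' _).2
      _ ≤ C' * (ε / (C' * C) * ‖y - a‖) := by gcongr
      _ ≤ C' * (ε / (C' * C) * (C * ν (y - a))) := by
          gcongr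
          exact (h _).1
      _ = ε * ν (y - a) := by field_simp
  · intro hP ε hε
    filter_upwards [hP (ε / (C' * C)) (by positivity)] with y hy
    calc ‖f y - f a - L (y - a)‖ ≤ C' * ν' (f y - f a - L (y - a)) := (h' _).1
      _ ≤ C' * (ε / (C' * C) * ν (y - a)) := by gcongr
      _ ≤ C' * (ε / (C' * C) * (C * ‖y - a‖)) := by
          gcongr
          exact (h _).2
      _ = ε * ‖y - a‖ := by field_simp

theorem DP.hasFD {f : α → β → γ} (hf : DF S fun z : α × β => f z.1 z.2) {g : α → β}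
    (hg : DF S g) {L : α → β →L[ℝ] γ} (hL : DF S L) :
    DP S fun x => HasFDerivAt (f x) (L x) (g x) := by
  obtain ⟨ν, C, hν, -, hC, hb⟩ := exists_dnorm S β
  obtain ⟨ν', C', hν', -, hC', hb'⟩ := exists_dnorm S γ
  have h1 : DF S fun z : (α × ℝ) × β => f z.1.1 z.2 :=
    hf.comp (g := fun z : (α × ℝ) × β => (z.1.1, z.2)) (by fun_prop)
  have h1' : DF S fun z : (α × ℝ) × β => f z.1.1 (g z.1.1) :=
    hf.comp (g := fun z : (α × ℝ) × β => (z.1.1, g z.1.1)) (by fun_prop)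
  have h3 : DF S fun z : (α × ℝ) × β => L z.1.1 (z.2 - g z.1.1) :=
    DF.clm_apply (by fun_prop) (by fun_prop)
  have h2 : DP S fun z : α × ℝ => ∀ᶠ y in 𝓝 (g z.1),
      ν' (f z.1 y - f z.1 (g z.1) - L z.1 (y - g z.1)) ≤ z.2 * ν (y - g z.1) :=
    DP.ev_nhds (P := fun (z : α × ℝ) y =>
      ν' (f z.1 y - f z.1 (g z.1) - L z.1 (y - g z.1)) ≤ z.2 * ν (y - g z.1))
      (DP.le (hν'.comp ((h1.sub h1').sub h3)) (by fun_prop)) (by fun_prop)
  exact (DP.all (P := fun x (ε : ℝ) => 0 < ε → ∀ᶠ y in 𝓝 (g x),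
    ν' (f x y - f x (g x) - L x (y - g x)) ≤ ε * ν (y - g x))
    (DP.imp (by fun_prop) h2)).congr fun x => hasFD_iff_dnorm hC hb hC' hb' _ _ _

theorem DP.hasFD_graph {f : α → β → γ} (hf : DF S fun z : α × β => f z.1 z.2) {g : α → β}
    (hg : DF S g) : DP S fun z : α × (β →L[ℝ] γ) => HasFDerivAt (f z.1) z.2 (g z.1) :=
  DP.hasFD (f := fun z : α × (β →L[ℝ] γ) => f z.1)
    (hf.comp (g := fun z : (α × (β →L[ℝ] γ)) × β => (z.1.1, z.2)) (by fun_prop))
    (by fun_prop) (by fun_prop)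

theorem DP.diffAt {f : α → β → γ} (hf : DF S fun z : α × β => f z.1 z.2) {g : α → β}
    (hg : DF S g) : DP S fun x => DifferentiableAt ℝ (f x) (g x) :=
  (DP.ex (P := fun x (L : β →L[ℝ] γ) => HasFDerivAt (f x) L (g x)) (DP.hasFD_graph hf hg)).congr
    fun _ => ⟨fun h => ⟨_, h.hasFDerivAt⟩, fun ⟨_, h⟩ => h.differentiableAt⟩

theorem DF.fderiv_fam {f : α → β → γ} (hf : DF S fun z : α × β => f z.1 z.2) {g : α → β}
    (hg : DF S g) : DF S fun x => fderiv ℝ (f x) (g x) := by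
  have h1 : DP S fun z : α × (β →L[ℝ] γ) => DifferentiableAt ℝ (f z.1) (g z.1) :=
    (DP.diffAt hf hg).comp (g := fun z : α × (β →L[ℝ] γ) => z.1) (by fun_prop)
  have h2 : DP S fun z : α × (β →L[ℝ] γ) => z.2 = 0 := by fun_prop
  refine DF.mk' (((DP.hasFD_graph hf hg).or (h1.not.and h2)).congr fun z => ?_)
  constructor
  · intro h
    by_cases hd : DifferentiableAt ℝ (f z.1) (g z.1)
    · exact .inl (h ▸ hd.hasFDerivAt)
    · exact .inr ⟨hd, h.trans (fderiv_zero_of_not_differentiableAt hd)⟩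
  · rintro (h | ⟨hd, h⟩)
    · exact h.fderiv.symm
    · exact h.trans (fderiv_zero_of_not_differentiableAt hd).symm

theorem DF.fderiv_one {f : β → γ} (hf : DF S f) : DF S fun y => fderiv ℝ f y :=
  DF.fderiv_fam (α := β) (f := fun _ => f) (hf.comp (g := fun z : β × β => z.2) (by fun_prop))
    DF.id'

theorem DF.deriv_fam {f : α → ℝ → γ} (hf : DF S fun z : α × ℝ => f z.1 z.2) {g : α → ℝ}
    (hg : DF S g) : DF S fun x => deriv (f x) (g x) :=
  DF.clm_apply (DF.fderiv_fam hf hg) (DF.const 1)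

omit [FiniteDimensional ℝ β] [FiniteDimensional ℝ γ] in
theorem contDiffAt_one_iff_ev (f : β → γ) (a : β) :
    ContDiffAt ℝ 1 f a ↔
      ∀ᶠ y in 𝓝 a, DifferentiableAt ℝ f y ∧ ContinuousAt (fderiv ℝ f) y := by
  rw [contDiffAt_one_iff]
  constructor
  · rintro ⟨f', u, hu, hc, hd⟩
    filter_upwards [eventually_mem_nhds_iff.mpr hu] with y hy
    refine ⟨(hd y (mem_of_mem_nhds hy)).differentiableAt, (hc.continuousAt hy).congr ?_⟩
    filter_upwards [hy] with w hw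
    exact (hd w hw).fderiv.symm
  · intro h
    exact ⟨fderiv ℝ f, _, h, fun y hy => hy.2.continuousWithinAt, fun y hy => hy.1.hasFDerivAt⟩

theorem DP.contDiffAt_one {f : α → β → γ} (hf : DF S fun z : α × β => f z.1 z.2) {g : α → β}
    (hg : DF S g) : DP S fun x => ContDiffAt ℝ 1 (f x) (g x) := by
  have h0 : DF S fun z : (α × β) × β => f z.1.1 z.2 :=
    hf.comp (g := fun z : (α × β) × β => (z.1.1, z.2)) (by fun_prop)
  have h1 : DP S fun z : α × β => DifferentiableAt ℝ (f z.1) z.2 :=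
    DP.diffAt (f := fun z : α × β => f z.1) h0 (by fun_prop)
  have h2 : DF S fun z : α × β => fderiv ℝ (f z.1) z.2 :=
    DF.fderiv_fam (f := fun z : α × β => f z.1) h0 (by fun_prop)
  have h3 : DP S fun z : α × β => ContinuousAt (fderiv ℝ (f z.1)) z.2 :=
    DP.contAt (f := fun z : α × β => fderiv ℝ (f z.1))
      (h2.comp (g := fun z : (α × β) × β => (z.1.1, z.2)) (by fun_prop)) (by fun_prop)
  exact (DP.ev_nhds (P := fun x y => DifferentiableAt ℝ (f x) y ∧ ContinuousAt (fderiv ℝ (f x)) y)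
    (h1.and h3) hg).congr fun x => contDiffAt_one_iff_ev _ _

theorem DP.isLUB_graph {A : α → Set ℝ} (h : DP S fun z : α × ℝ => z.2 ∈ A z.1) :
    DP S fun z : α × ℝ => IsLUB (A z.1) z.2 := by
  have h0 : DP S fun z : (α × ℝ) × ℝ => z.2 ∈ A z.1.1 :=
    h.comp (g := fun z : (α × ℝ) × ℝ => (z.1.1, z.2)) (by fun_prop)
  have h1 : DP S fun z : α × ℝ => z.2 ∈ upperBounds (A z.1) :=
    DP.all (P := fun (z : α × ℝ) (y : ℝ) => y ∈ A z.1 → y ≤ z.2) (h0.imp (by fun_prop))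
  have h2 : DP S fun z : (α × ℝ) × ℝ => z.2 ∈ upperBounds (A z.1.1) :=
    h1.comp (g := fun z : (α × ℝ) × ℝ => (z.1.1, z.2)) (by fun_prop)
  exact h1.and (DP.all (P := fun (z : α × ℝ) (y : ℝ) => y ∈ upperBounds (A z.1) → z.2 ≤ y)
    (h2.imp (by fun_prop)))

theorem DF.sSup_fam {A : α → Set ℝ} (h : DP S fun z : α × ℝ => z.2 ∈ A z.1) :
    DF S fun x => sSup (A x) := by
  have h1 := DP.isLUB_graph h
  have h2 : DP S fun z : α × ℝ => ∃ y, IsLUB (A z.1) y :=
    (DP.ex (P := fun x (y : ℝ) => IsLUB (A x) y) h1).comp (g := fun z : α × ℝ => z.1)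
      (by fun_prop)
  have h3 : DP S fun z : α × ℝ => z.2 = 0 := by fun_prop
  have key : ∀ s : Set ℝ, (¬ ∃ y, IsLUB s y) → sSup s = 0 := by
    intro s hs
    rcases s.eq_empty_or_nonempty with rfl | hne
    · exact Real.sSup_empty
    · exact Real.sSup_of_not_bddAbove fun hb => hs ⟨_, isLUB_csSup hne hb⟩
  refine DF.mk' ((h1.or (h2.not.and h3)).congr fun z => ?_)
  constructor
  · intro h
    by_cases hd : ∃ y, IsLUB (A z.1) y
    · obtain ⟨y, hy⟩ := hd
      left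
      rw [h, hy.csSup_eq hy.nonempty]
      exact hy
    · exact .inr ⟨hd, h.trans (key _ hd)⟩
  · rintro (h | ⟨hd, h⟩)
    · exact (h.csSup_eq h.nonempty).symm
    · exact h.trans (key _ hd).symm

theorem DF.sInf_fam {A : α → Set ℝ} (h : DP S fun z : α × ℝ => z.2 ∈ A z.1) :
    DF S fun x => sInf (A x) := by
  have h1 : DP S fun z : α × ℝ => z.2 ∈ -A z.1 :=
    h.comp (g := fun z : α × ℝ => (z.1, -z.2)) (by fun_prop)
  simp only [Real.sInf_def]
  exact (DF.sSup_fam (A := fun x => -A x) h1).neg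

theorem DF.det_fam {ι : Type} [Fintype ι] [DecidableEq ι] {M : α → Matrix ι ι ℝ}
    (h : ∀ i j, DF S fun x => M x i j) : DF S fun x => (M x).det := by
  simp only [Matrix.det_apply']
  exact DF.sum _ fun σ _ => (DF.const _).mul (DF.prod _ fun i _ => h _ _)

theorem DF.mvPolynomial {ι : Type} (p : MvPolynomial ι ℝ) {f : α → ι → ℝ}
    (h : ∀ i, DF S fun x => f x i) : DF S fun x => MvPolynomial.eval (f x) p := by
  induction p using MvPolynomial.induction_on with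
  | C a => simpa using DF.const a
  | add p q hp hq => simpa using hp.add hq
  | mul_X p i hp => simpa using hp.mul (h i)

theorem DP.inv_graph {L : α → β →L[ℝ] γ} (h : DF S L) :
    DP S fun z : α × (γ →L[ℝ] β) => (L z.1).comp z.2 = ContinuousLinearMap.id ℝ γ ∧
      z.2.comp (L z.1) = ContinuousLinearMap.id ℝ β :=
  (DP.eq (DF.clm_comp (by fun_prop) (by fun_prop)) (DF.const _)).and
    (DP.eq (DF.clm_comp (by fun_prop) (by fun_prop)) (DF.const _))

omit [FiniteDimensional ℝ β] [FiniteDimensional ℝ γ] in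
theorem comp_inverse_of_isInv {L : β →L[ℝ] γ} (h : L.IsInvertible) :
    L.comp L.inverse = ContinuousLinearMap.id ℝ γ ∧
      L.inverse.comp L = ContinuousLinearMap.id ℝ β := by
  obtain ⟨e, rfl⟩ := h
  constructor <;> ext <;> simp

theorem DP.isInv {L : α → β →L[ℝ] γ} (h : DF S L) :
    DP S fun x => (L x).IsInvertible :=
  (DP.ex (P := fun x (M : γ →L[ℝ] β) => (L x).comp M = ContinuousLinearMap.id ℝ γ ∧
      M.comp (L x) = ContinuousLinearMap.id ℝ β) (DP.inv_graph h)).congr fun _ =>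
    ⟨fun hx => ⟨_, comp_inverse_of_isInv hx⟩,
      fun ⟨_, h1, h2⟩ => ContinuousLinearMap.IsInvertible.of_inverse h1 h2⟩

/-- the inverse of a definable family of continuous linear maps -/
theorem DF.clm_inverse {L : α → β →L[ℝ] γ} (h : DF S L) : DF S fun x => (L x).inverse := by
  have h1 : DP S fun z : α × (γ →L[ℝ] β) => (L z.1).IsInvertible :=
    (DP.isInv h).comp (g := fun z : α × (γ →L[ℝ] β) => z.1) (by fun_prop)
  have h2 : DP S fun z : α × (γ →L[ℝ] β) => z.2 = 0 := by fun_prop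
  refine DF.mk' (((DP.inv_graph h).or (h1.not.and h2)).congr fun z => ?_)
  constructor
  · intro h
    by_cases hd : (L z.1).IsInvertible
    · left
      rw [h]
      exact comp_inverse_of_isInv hd
    · exact .inr ⟨hd, h.trans (ContinuousLinearMap.inverse_of_not_isInvertible hd)⟩
  · rintro (⟨h, h'⟩ | ⟨hd, h⟩)
    · exact (ContinuousLinearMap.inverse_eq h h').symm
    · exact h.trans (ContinuousLinearMap.inverse_of_not_isInvertible hd).symm

/-- a function that is definable on a definable set has a definable extension -/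
theorem DF.indic {A : Set α} {g : α → β} (h : DP S fun z : α × β => z.1 ∈ A ∧ z.2 = g z.1) :
    DF S (A.indicator g) := by
  have h0 : DP S fun x => x ∈ A :=
    (DP.ex (P := fun x y => x ∈ A ∧ y = g x) h).congr fun _ => by simp
  have h1 : DP S fun z : α × β => z.1 ∈ A := h0.comp (g := fun z : α × β => z.1) (by fun_prop)
  have h2 : DP S fun z : α × β => z.2 = 0 := by fun_prop
  refine DF.mk' ((h.or (h1.not.and h2)).congr fun z => ?_)
  by_cases hz : z.1 ∈ A <;> simp [hz]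

@[fun_prop]
theorem DF.snoc {k : ℕ} {f : α → Fin k → ℝ} {g : α → ℝ} (hf : DF S f) (hg : DF S g) :
    DF S fun x => (Fin.snoc (f x) (g x) : Fin (k + 1) → ℝ) := by
  refine DF.pi (f := fun x => (Fin.snoc (f x) (g x) : Fin (k + 1) → ℝ)) fun i => ?_
  refine Fin.lastCases ?_ (fun j => ?_) i
  · simpa using hg
  · simpa using (DF.apply j).comp hf

@[fun_prop]
theorem DF.init {k : ℕ} {f : α → Fin (k + 1) → ℝ} (hf : DF S f) :
    DF S fun x => Fin.init (f x) :=
  DF.pi (f := fun x => Fin.init (f x)) fun i => (DF.apply (Fin.castSucc i)).comp hf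

theorem DP.dec_of_preconnected {P : ℝ → Prop} {u : Set ℝ} (hu : IsPreconnected u)
    (h : ∀ t ∈ u, t ∉ frontier {x | P x}) : (∀ t ∈ u, P t) ∨ ∀ t ∈ u, ¬ P t := by
  have h1 : u ⊆ interior {x | P x} ∪ interior {x | P x}ᶜ := by
    rw [← compl_frontier_eq_union_interior]
    exact h
  rcases hu.subset_or_subset isOpen_interior isOpen_interior
    (disjoint_compl_right.mono interior_subset interior_subset) h1 with h2 | h2
  · exact .inl fun t ht => interior_subset (h2 ht)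
  · exact .inr fun t ht => interior_subset (h2 ht)

/-- one sided germs are decided -/
theorem DP.ev_right {P : ℝ → Prop} (h : DP S P) (a : ℝ) :
    (∀ᶠ s in 𝓝[>] a, P s) ∨ ∀ᶠ s in 𝓝[>] a, ¬ P s := by
  have h1 : ∀ᶠ s in 𝓝[>] a, s ∉ frontier {x | P x} :=
    ((nhdsGT_le_nhdsNE a).trans (nhdsNE_le_cofinite a)) (S.omin h).compl_mem_cofinite
  obtain ⟨b, hb, h2⟩ := mem_nhdsGT_iff_exists_Ioo_subset.mp h1
  exact (DP.dec_of_preconnected isPreconnected_Ioo h2).imp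
    (fun h3 => mem_of_superset (Ioo_mem_nhdsGT hb) h3)
    (fun h3 => mem_of_superset (Ioo_mem_nhdsGT hb) h3)

theorem DP.ev_left {P : ℝ → Prop} (h : DP S P) (a : ℝ) :
    (∀ᶠ s in 𝓝[<] a, P s) ∨ ∀ᶠ s in 𝓝[<] a, ¬ P s := by
  have h1 : ∀ᶠ s in 𝓝[<] a, s ∉ frontier {x | P x} :=
    ((nhdsLT_le_nhdsNE a).trans (nhdsNE_le_cofinite a)) (S.omin h).compl_mem_cofinite
  obtain ⟨b, hb, h2⟩ := mem_nhdsLT_iff_exists_Ioo_subset.mp h1
  exact (DP.dec_of_preconnected isPreconnected_Ioo h2).imp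
    (fun h3 => mem_of_superset (Ioo_mem_nhdsLT hb) h3)
    (fun h3 => mem_of_superset (Ioo_mem_nhdsLT hb) h3)

theorem exists_tendsto_of_dec {ι : Type*} {F : Filter ι} [F.NeBot] {g : ι → ℝ} {M : ℝ}
    (hd : ∀ c : ℝ, (∀ᶠ s in F, g s ≤ c) ∨ ∀ᶠ s in F, ¬ g s ≤ c) (hb : ∀ᶠ s in F, |g s| ≤ M) :
    ∃ l, Tendsto g F (𝓝 l) := by
  have hne : {c | ∀ᶠ s in F, g s ≤ c}.Nonempty := ⟨M, hb.mono fun s hs => (abs_le.mp hs).2⟩
  have hbd : BddBelow {c | ∀ᶠ s in F, g s ≤ c} := by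
    refine ⟨-M, fun c (hc : ∀ᶠ s in F, g s ≤ c) => ?_⟩
    obtain ⟨s, h1, h2⟩ := (hb.and hc).exists
    exact (abs_le.mp h1).1.trans h2
  refine ⟨sInf {c | ∀ᶠ s in F, g s ≤ c}, tendsto_order.2 ⟨fun c hc => ?_, fun c hc => ?_⟩⟩
  · rcases hd c with h | h
    · exact absurd (csInf_le hbd h) (not_le.mpr hc)
    · exact h.mono fun s hs => not_le.mp hs
  · obtain ⟨c', h1, h2⟩ := exists_lt_of_csInf_lt hne hc
    exact Eventually.mono h1 fun s hs => hs.trans_lt h2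

theorem DF.exists_tendsto_right {g : ℝ → ℝ} (hg : DF S g) {a M : ℝ}
    (hb : ∀ᶠ s in 𝓝[>] a, |g s| ≤ M) : ∃ l, Tendsto g (𝓝[>] a) (𝓝 l) :=
  exists_tendsto_of_dec (fun c => DP.ev_right (DP.le hg (DF.const c)) a) hb

theorem DF.exists_tendsto_left {g : ℝ → ℝ} (hg : DF S g) {a M : ℝ}
    (hb : ∀ᶠ s in 𝓝[<] a, |g s| ≤ M) : ∃ l, Tendsto g (𝓝[<] a) (𝓝 l) :=
  exists_tendsto_of_dec (fun c => DP.ev_left (DP.le hg (DF.const c)) a) hb

/-- an infinite definable subset of the line contains an interval -/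
theorem DP.interior_nonempty_of_infinite {s : Set ℝ} (h : DP S fun t => t ∈ s) (hs : s.Infinite) :
    (interior s).Nonempty := by
  by_contra hn
  rw [not_nonempty_iff_eq_empty] at hn
  have h1 : (frontier s).Finite := S.omin h
  refine hs (h1.subset fun t ht => ⟨subset_closure ht, ?_⟩)
  rw [hn]
  exact notMem_empty t

end Pool.Agent.Shared.OMin
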