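import Pool.Agent.Shared.OMin.Def

/-! Crossing lemmas for separating integral graphs. -/

open Set Filter Topology

namespace Pool.Agent.Shared.OMin

variable {α : Type} [NormedAddCommGroup α] [NormedSpace ℝ α] [FiniteDimensional ℝ α]
  {O : Set (α × ℝ)} {F : α × ℝ → α →L[ℝ] ℝ} {D : Set α} {f : α → ℝ} {Bp Bm : Set (α × ℝ)}

omit [FiniteDimensional ℝ α] in
theorem RolleGraph.height (h : RolleGraph O F D f Bp Bm) {γ : ℝ → α × ℝ} {v : α × ℝ} {t : ℝ}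
    (hγ : HasDerivAt γ v t) (hD : (γ t).1 ∈ D) :
    HasDerivAt (fun s => (γ s).2 - f (γ s).1) (v.2 - F ((γ t).1, f (γ t).1) v.1) t :=
  ((ContinuousLinearMap.snd ℝ α ℝ).hasFDerivAt.comp_hasDerivAt t hγ).sub
    ((h.deriv _ hD).comp_hasDerivAt t
      ((ContinuousLinearMap.fst ℝ α ℝ).hasFDerivAt.comp_hasDerivAt t hγ))

omit [FiniteDimensional ℝ α] in
theorem RolleGraph.on_graph (h : RolleGraph O F D f Bp Bm) {p : α × ℝ} (hO : p ∈ O)
    (hp : p ∉ Bp ∪ Bm) : p.1 ∈ D ∧ p = (p.1, f p.1) := by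
  rw [h.cover, not_and, not_not] at hp
  exact ⟨(hp hO).1, Prod.ext rfl (hp hO).2⟩

theorem RolleGraph.cross_loc (h : RolleGraph O F D f Bp Bm) {γ : ℝ → α × ℝ} {v : α × ℝ} {t : ℝ}
    (hγ : HasDerivAt γ v t) (hO : γ t ∈ O) (hp : γ t ∉ Bp ∪ Bm) (hv : F (γ t) v.1 < v.2) :
    (∀ᶠ s in 𝓝[>] t, γ s ∈ Bp) ∧ ∀ᶠ s in 𝓝[<] t, γ s ∈ Bm := by
  obtain ⟨hD, he⟩ := h.on_graph hO hp
  have h1 := h.height hγ hD
  rw [← he, hasDerivAt_iff_tendsto_slope] at h1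
  have h2 := h1.eventually (lt_mem_nhds (sub_pos.2 hv))
  have h3 := h.side _ hD
  rw [← he] at h3
  have h4 := hγ.continuousAt.eventually h3
  have h5 : (γ t).2 - f (γ t).1 = 0 := sub_eq_zero.2 (congrArg Prod.snd he)
  simp only [slope_def_field, h5, sub_zero] at h2
  constructor
  · filter_upwards [nhdsGT_le_nhdsNE t h2, nhdsWithin_le_nhds h4, self_mem_nhdsWithin]
      with s h6 h7 h8
    exact h7.1 (sub_pos.1 ((div_pos_iff_of_pos_right (sub_pos.2 h8)).1 h6))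
  · filter_upwards [nhdsLT_le_nhdsNE t h2, nhdsWithin_le_nhds h4, self_mem_nhdsWithin]
      with s h6 h7 h8
    refine h7.2 (sub_neg.1 ?_)
    by_contra h9
    exact absurd h6 (not_lt.2 (div_nonpos_of_nonneg_of_nonpos (not_lt.1 h9) (sub_neg.2 h8).le))

/-- positively transverse arcs end on the positive side -/
theorem RolleGraph.cross_pos (h : RolleGraph O F D f Bp Bm) {γ γ' : ℝ → α × ℝ} {a b : ℝ}
    (hab : a < b)
    (hγ : ∀ t ∈ Icc a b, γ t ∈ O ∧ HasDerivAt γ (γ' t) t ∧ F (γ t) (γ' t).1 < (γ' t).2)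
    (h0 : γ a ∉ Bm) : γ b ∈ Bp := by
  have hc : ContinuousOn γ (Icc a b) := fun t ht => (hγ t ht).2.1.continuousAt.continuousWithinAt
  have h1 : Icc a b ⊆ γ ⁻¹' Bmᶜ := by
    refine IsClosed.Icc_subset_of_forall_mem_nhdsWithin ?_ h0 fun t ht => ?_
    · rw [inter_comm]
      exact hc.preimage_isClosed_of_isClosed isClosed_Icc h.openm.isClosed_compl
    · obtain ⟨h1, h2, h3⟩ := hγ t (Ico_subset_Icc_self ht.2)
      have h4 : ∀ᶠ s in 𝓝[>] t, γ s ∈ Bp := by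
        by_cases hp : γ t ∈ Bp
        · exact nhdsWithin_le_nhds (h2.continuousAt.eventually (h.openp.mem_nhds hp))
        · exact (h.cross_loc h2 h1 (fun h5 => h5.elim hp ht.1) h3).1
      filter_upwards [h4] with s hs using disjoint_left.1 h.disj hs
  by_contra hp
  obtain ⟨h2, h3, h4⟩ := hγ b (right_mem_Icc.2 hab.le)
  obtain ⟨s, h5, h6⟩ := ((h.cross_loc h3 h2
    (fun h5 => h5.elim hp (h1 (right_mem_Icc.2 hab.le))) h4).2.and (Ioo_mem_nhdsLT hab)).exists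
  exact h1 (Ioo_subset_Icc_self h6) h5

omit [FiniteDimensional ℝ α] in
theorem hasDerivAt_rev {γ : ℝ → α × ℝ} {v : α × ℝ} {t : ℝ} (h : HasDerivAt γ v (-t)) :
    HasDerivAt (fun s => γ (-s)) (-v) t := by
  have := h.scomp t (hasDerivAt_neg t)
  rw [neg_one_smul] at this
  exact this

theorem neg_mem_Icc {a b t : ℝ} (h : t ∈ Icc (-b) (-a)) : -t ∈ Icc a b :=
  ⟨le_neg.1 h.2, neg_le.1 h.1⟩

theorem RolleGraph.cross_neg (h : RolleGraph O F D f Bp Bm) {γ γ' : ℝ → α × ℝ} {a b : ℝ}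
    (hab : a < b)
    (hγ : ∀ t ∈ Icc a b, γ t ∈ O ∧ HasDerivAt γ (γ' t) t ∧ (γ' t).2 < F (γ t) (γ' t).1)
    (h0 : γ a ∉ Bp) : γ b ∈ Bm := by
  by_contra h1
  refine h0 ?_
  have := h.cross_pos (γ := fun s => γ (-s)) (γ' := fun s => -γ' (-s)) (neg_lt_neg hab)
    (fun t ht => ⟨(hγ _ (neg_mem_Icc ht)).1, hasDerivAt_rev (hγ _ (neg_mem_Icc ht)).2.1, by
      simpa using (hγ _ (neg_mem_Icc ht)).2.2⟩) (by simpa using h1)
  simpa using this

theorem RolleGraph.stay (h : RolleGraph O F D f Bp Bm) {γ γ' : ℝ → α × ℝ} {a b : ℝ}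
    (hab : a ≤ b) (hc : ContinuousOn γ' (Icc a b))
    (hγ : ∀ t ∈ Icc a b, γ t ∈ O ∧ HasDerivAt γ (γ' t) t ∧ (γ' t).2 = F (γ t) (γ' t).1)
    (h0 : γ a ∉ Bp ∪ Bm) : γ b ∉ Bp ∪ Bm := by
  have hc' : ContinuousOn γ (Icc a b) := fun t ht => (hγ t ht).2.1.continuousAt.continuousWithinAt
  obtain ⟨M, hM⟩ := isCompact_Icc.exists_bound_of_continuousOn hc
  refine IsClosed.Icc_subset_of_forall_mem_nhdsWithin (s := γ ⁻¹' (Bp ∪ Bm)ᶜ) ?_ h0
    (fun t ht => ?_) (right_mem_Icc.2 hab)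
  · rw [inter_comm]
    exact hc'.preimage_isClosed_of_isClosed isClosed_Icc (h.openp.union h.openm).isClosed_compl
  obtain ⟨h1, h2, -⟩ := hγ t (Ico_subset_Icc_self ht.2)
  obtain ⟨hD, he⟩ := h.on_graph h1 ht.1
  obtain ⟨K, U, hU, hK⟩ := (h.smooth.contDiffAt (h.openO.mem_nhds h1)).exists_lipschitzOnWith
  have h3 : ContinuousAt (fun s => ((γ s).1, f (γ s).1)) t :=
    h2.continuousAt.fst.prodMk
      (ContinuousAt.comp (g := f) (h.deriv _ hD).continuousAt h2.continuousAt.fst)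
  have h4 : ∀ᶠ s in 𝓝[≥] t, (γ s).1 ∈ D ∧ γ s ∈ U ∧ ((γ s).1, f (γ s).1) ∈ U ∧ s ∈ Icc a b := by
    filter_upwards [nhdsWithin_le_nhds (h2.continuousAt.fst.eventually (h.openD.mem_nhds hD)),
      nhdsWithin_le_nhds (h2.continuousAt.eventually hU),
      nhdsWithin_le_nhds (h3.eventually (he ▸ hU)), Icc_mem_nhdsGE_of_mem ht.2] with s a1 a2 a3 a4
    exact ⟨a1, a2, a3, a4⟩
  obtain ⟨c, hc1, hc2⟩ := mem_nhdsGE_iff_exists_Icc_subset.1 h4
  have h5 : ∀ s ∈ Icc t c, HasDerivAt (fun s => (γ s).2 - f (γ s).1)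
      ((γ' s).2 - F ((γ s).1, f (γ s).1) (γ' s).1) s := fun s hs =>
    h.height (hγ s (hc2 hs).2.2.2).2.1 (hc2 hs).1
  have h6 := eq_zero_of_abs_deriv_le_mul_abs_self_of_eq_zero_right (K := K * M)
    (fun s hs => (h5 s hs).continuousAt.continuousWithinAt)
    (fun s hs => (h5 s (Ico_subset_Icc_self hs)).hasDerivWithinAt)
    (sub_eq_zero.2 (congrArg Prod.snd he)) fun s hs => by
      obtain ⟨-, a2, a3, a4⟩ := hc2 (Ico_subset_Icc_self hs)
      have a5 := hK.norm_sub_le a2 a3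
      have a6 : ‖γ s - ((γ s).1, f (γ s).1)‖ = ‖(γ s).2 - f (γ s).1‖ := by
        simp [Prod.norm_def]
      rw [(hγ s a4).2.2, ← sub_apply, mul_right_comm, ← a6]
      exact (ContinuousLinearMap.le_opNorm _ _).trans (mul_le_mul a5
        ((norm_fst_le _).trans (hM s a4)) (norm_nonneg _) (by positivity))
  filter_upwards [Ioc_mem_nhdsGT hc1] with s hs
  have hs := Ioc_subset_Icc_self hs
  rw [mem_preimage, mem_compl_iff, h.cover]
  exact fun h7 => h7.2 ⟨(hc2 hs).1, sub_eq_zero.1 (h6 s hs)⟩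

/-- tangent arcs keep their side (Gronwall) -/
theorem RolleGraph.tangent (h : RolleGraph O F D f Bp Bm) {γ γ' : ℝ → α × ℝ} {a b : ℝ}
    (hab : a ≤ b) (hc : ContinuousOn γ' (Icc a b))
    (hγ : ∀ t ∈ Icc a b, γ t ∈ O ∧ HasDerivAt γ (γ' t) t ∧ (γ' t).2 = F (γ t) (γ' t).1) :
    (γ a ∈ Bp ↔ γ b ∈ Bp) ∧ (γ a ∈ Bm ↔ γ b ∈ Bm) := by
  have hc' : ContinuousOn γ (Icc a b) := fun t ht => (hγ t ht).2.1.continuousAt.continuousWithinAt
  have h1 : γ a ∈ Bp ∪ Bm ∨ γ b ∈ Bp ∪ Bm → γ '' Icc a b ⊆ Bp ∪ Bm := by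
    rintro h1 _ ⟨t, ht, rfl⟩
    by_contra h2
    rcases h1 with h1 | h1
    · have hm : ∀ s ∈ Icc (-t) (-a), -s ∈ Icc a b := fun s hs =>
        Icc_subset_Icc_right ht.2 (neg_mem_Icc hs)
      refine h.stay (γ := fun s => γ (-s)) (γ' := fun s => -γ' (-s)) (neg_le_neg ht.1)
        (hc.comp continuous_neg.continuousOn hm).neg
        (fun s hs => ⟨(hγ _ (hm s hs)).1, hasDerivAt_rev (hγ _ (hm s hs)).2.1, by
          simpa using (hγ _ (hm s hs)).2.2⟩) (by simpa using h2) (by simpa using h1)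
    · exact h.stay ht.2 (hc.mono (Icc_subset_Icc_left ht.1))
        (fun s hs => hγ s (Icc_subset_Icc_left ht.1 hs)) h2 h1
  have ha : γ a ∈ γ '' Icc a b := mem_image_of_mem _ (left_mem_Icc.2 hab)
  have hb : γ b ∈ γ '' Icc a b := mem_image_of_mem _ (right_mem_Icc.2 hab)
  by_cases h2 : γ a ∈ Bp ∪ Bm ∨ γ b ∈ Bp ∪ Bm
  · rcases (isPreconnected_Icc.image γ hc').subset_or_subset h.openp h.openm h.disj (h1 h2) with
      h3 | h3
    · exact ⟨iff_of_true (h3 ha) (h3 hb), iff_of_false (disjoint_left.1 h.disj (h3 ha))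
        (disjoint_left.1 h.disj (h3 hb))⟩
    · exact ⟨iff_of_false (disjoint_right.1 h.disj (h3 ha)) (disjoint_right.1 h.disj (h3 hb)),
        iff_of_true (h3 ha) (h3 hb)⟩
  · simp only [mem_union, not_or] at h2
    exact ⟨iff_of_false h2.1.1 h2.2.1, iff_of_false h2.1.2 h2.2.2⟩

end Pool.Agent.Shared.OMin
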