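import Pool.Agent.Shared.OMin.Cells1

/-! A3c: uniform finiteness, choice, parametrization, connected pieces. -/

namespace Pool.Agent.Shared.OMin

open Set Filter Topology Module

variable {α β γ : Type}
  [NormedAddCommGroup α] [NormedSpace ℝ α] [FiniteDimensional ℝ α]
  [NormedAddCommGroup β] [NormedSpace ℝ β] [FiniteDimensional ℝ β]
  [NormedAddCommGroup γ] [NormedSpace ℝ γ] [FiniteDimensional ℝ γ] {S : OStr}

theorem DP.unif_finite {X : α → ℝ → Prop} (h : DP S fun z : α × ℝ => X z.1 z.2) :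
    ∃ N : ℕ, ∀ a, {t | X a t}.Finite → {t | X a t}.ncard ≤ N := uf_all S α X h

theorem DP.enum {X : α → ℝ → Prop} (h : DP S fun z : α × ℝ => X z.1 z.2) :
    ∃ (N : ℕ) (ζ : Fin N → α → ℝ), (∀ j, DF S (ζ j)) ∧
      ∀ a, {t | X a t}.Finite → ∀ t, X a t → ∃ j, t = ζ j a := (uf_all S α).enum h

/-- every point of a fibre is joined inside the fibre to one of finitely many definable points -/
theorem DP.star {X : α → ℝ → Prop} (h : DP S fun z : α × ℝ => X z.1 z.2) :
    ∃ (ι : Type) (_ : Finite ι) (η : ι → α → ℝ), (∀ j, DF S (η j)) ∧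
      ∀ a s, X a s → ∃ j, ∀ t ∈ uIcc s (η j a), X a t := by
  have h1 := DP.mem_frontier (A := fun a => {t | X a t}) h
  obtain ⟨ι, _, η, hη, hs⟩ :=
    (uf_all S α).sample (X := fun a t => t ∈ frontier {t | X a t}) h1
  refine ⟨ι, inferInstance, η, hη, fun a s hX => ?_⟩
  obtain ⟨j, hj | hj⟩ := hs a (S.omin (h.fibre a)) s
  · refine ⟨j, fun t ht => ?_⟩
    rw [← hj, uIcc_self] at ht
    rwa [ht]
  · refine ⟨j, fun t ht => ?_⟩
    refine (isPreconnected_uIcc.induction₂' (fun x y => X a x ↔ X a y) (fun x hx => ?_)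
      (fun _ _ _ _ _ _ h1 h2 => h1.trans h2) left_mem_uIcc ht).1 hX
    have h2 := hj x hx
    by_cases hx' : X a x
    · have h3 : x ∈ interior {t | X a t} := by
        by_contra h4
        exact h2 ⟨subset_closure hx', h4⟩
      filter_upwards [nhdsWithin_le_nhds (mem_interior_iff_mem_nhds.1 h3)] with y hy
      have hy : X a y := hy
      tauto
    · have h3 : x ∈ interior {t | X a t}ᶜ := by
        rw [interior_compl]
        exact fun h4 => h2 ⟨h4, fun h5 => hx' (interior_subset (s := {t | X a t}) h5)⟩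
      filter_upwards [nhdsWithin_le_nhds (mem_interior_iff_mem_nhds.1 h3)] with y hy
      have hy : ¬ X a y := hy
      tauto

theorem DP.choice_fin {X : α → β → Prop} (h : DP S fun z : α × β => X z.1 z.2) {ι : Type}
    [Finite ι] {η : ι → α → β} (hη : ∀ j, DF S (η j)) :
    ∃ f : α → β, DF S f ∧ ∀ a, (∃ j, X a (η j a)) → X a (f a) := by
  classical
  cases nonempty_fintype ι
  have key : ∀ s : Finset ι, ∃ f : α → β, DF S f ∧ ∀ a, (∃ j ∈ s, X a (η j a)) → X a (f a) := by
    intro s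
    induction s using Finset.induction_on with
    | empty => exact ⟨fun _ => 0, DF.const 0, fun a ⟨j, hj, _⟩ => absurd hj (by simp)⟩
    | insert i s _ ih =>
      obtain ⟨f, hf, hf'⟩ := ih
      have hi := hη i
      refine ⟨fun a => if X a (η i a) then η i a else f a,
        DF.ite (DP.comp (g := fun a => (a, η i a)) h (by fun_prop)) hi hf, fun a ⟨j, hj, hX⟩ => ?_⟩
      by_cases h0 : X a (η i a)
      · simp [h0]
      · simp only [h0, if_false]
        rcases Finset.mem_insert.1 hj with rfl | hj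
        · exact absurd hX h0
        · exact hf' a ⟨j, hj, hX⟩
  obtain ⟨f, hf, hf'⟩ := key Finset.univ
  exact ⟨f, hf, fun a ⟨j, hj⟩ => hf' a ⟨j, Finset.mem_univ j, hj⟩⟩

theorem DP.choice_real {X : α → ℝ → Prop} (h : DP S fun z : α × ℝ => X z.1 z.2) :
    ∃ f : α → ℝ, DF S f ∧ ∀ a, (∃ b, X a b) → X a (f a) := by
  obtain ⟨ι, _, η, hη, hs⟩ := h.star
  obtain ⟨f, hf, hf'⟩ := h.choice_fin hη
  refine ⟨f, hf, fun a ⟨s, hX⟩ => hf' a ?_⟩
  obtain ⟨j, hj⟩ := hs a s hX
  exact ⟨j, hj _ right_mem_uIcc⟩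

theorem DP.choice_aux (n : ℕ) : ∀ {β : Type} [NormedAddCommGroup β] [NormedSpace ℝ β]
    [FiniteDimensional ℝ β], finrank ℝ β = n → ∀ {X : α → β → Prop},
    (DP S fun z : α × β => X z.1 z.2) →
    ∃ f : α → β, DF S f ∧ ∀ a, (∃ b, X a b) → X a (f a) := by
  induction n with
  | zero =>
    intro β _ _ _ hn X _
    have : Subsingleton β := finrank_zero_iff.1 hn
    exact ⟨fun _ => 0, DF.const 0, fun a ⟨b, hb⟩ => by rwa [Subsingleton.elim b 0] at hb⟩
  | succ n ih =>
    intro β _ _ _ hn X h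
    obtain ⟨e⟩ := exists_split hn
    have he : DF S e := DF.clm (e : ((Fin n → ℝ) × ℝ) →L[ℝ] β)
    obtain ⟨f, hf, hf'⟩ := ih (β := Fin n → ℝ) (by simp) (X := fun a u => ∃ t, X a (e (u, t)))
      (DP.ex (DP.comp (g := fun w : (α × (Fin n → ℝ)) × ℝ => (w.1.1, e (w.1.2, w.2))) h
        (by fun_prop)))
    obtain ⟨g, hg, hg'⟩ := DP.choice_real (X := fun a t => X a (e (f a, t)))
      (DP.comp (g := fun w : α × ℝ => (w.1, e (f w.1, w.2))) h (by fun_prop))
    refine ⟨fun a => e (f a, g a), by fun_prop, fun a ⟨b, hb⟩ => hg' a (hf' a ?_)⟩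
    exact ⟨(e.symm b).1, (e.symm b).2, by simpa using hb⟩

theorem DP.choice {X : α → β → Prop} (h : DP S fun z : α × β => X z.1 z.2) :
    ∃ f : α → β, DF S f ∧ ∀ a, (∃ b, X a b) → X a (f a) := DP.choice_aux _ rfl h

/-- one chart of a parametrization -/
structure Chart (S : OStr) (α β : Type)
    [NormedAddCommGroup α] [NormedSpace ℝ α] [FiniteDimensional ℝ α]
    [NormedAddCommGroup β] [NormedSpace ℝ β] [FiniteDimensional ℝ β] (m : ℕ) where
  d : ℕ
  D : α → Set (Fin d → ℝ)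
  φ : α → (Fin d → ℝ) → β
  lt : d < m
  dD : DP S fun z : α × (Fin d → ℝ) => z.2 ∈ D z.1
  dφ : DF S fun z : α × (Fin d → ℝ) => φ z.1 z.2
  op : ∀ a, IsOpen (D a)
  sm : ∀ a, ContDiffOn ℝ 1 (φ a) (D a)

/-- the family `A` is parametrized by finitely many charts of dimension less than `m` -/
def Par (S : OStr) (m : ℕ) (A : α → Set β) : Prop :=
  ∃ (ι : Type) (_ : Finite ι) (p : ι → Chart S α β m), ∀ a, A a = ⋃ i, (p i).φ a '' (p i).D a

theorem Par.congr {m : ℕ} {A B : α → Set β} (h : Par S m A) (e : ∀ a, B a = A a) : Par S m B := by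
  rwa [funext e]

theorem Par.mono {m m' : ℕ} {A : α → Set β} (h : Par S m A) (hm : m ≤ m') : Par S m' A := by
  obtain ⟨ι, _, p, hp⟩ := h
  exact ⟨ι, inferInstance, fun i => ⟨(p i).d, (p i).D, (p i).φ, (p i).lt.trans_le hm, (p i).dD,
    (p i).dφ, (p i).op, (p i).sm⟩, hp⟩

theorem Par.iUnion {m : ℕ} {κ : Type} [Finite κ] {A : κ → α → Set β} (h : ∀ k, Par S m (A k)) :
    Par S m fun a => ⋃ k, A k a := by
  choose ι hι p hp using h
  refine ⟨Σ k, ι k, inferInstance, fun i => p i.1 i.2, fun a => ?_⟩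
  simp only [hp, iUnion_sigma]

theorem Par.union {m : ℕ} {A B : α → Set β} (hA : Par S m A) (hB : Par S m B) :
    Par S m fun a => A a ∪ B a := by
  refine (Par.iUnion (κ := Bool) (A := fun k => cond k A B) fun k => ?_).congr fun a => ?_
  · cases k <;> assumption
  · rw [union_eq_iUnion]
    congr 1
    ext1 k
    cases k <;> rfl

theorem Par.image {m : ℕ} {A : α → Set β} (h : Par S m A) {Φ : α → β → γ}
    (hΦ : DF S fun z : α × β => Φ z.1 z.2) (hs : ∀ a, ContDiffOn ℝ 1 (Φ a) (A a)) :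
    Par S m fun a => Φ a '' A a := by
  obtain ⟨ι, _, p, hp⟩ := h
  refine ⟨ι, inferInstance, fun i => ⟨(p i).d, (p i).D, fun a u => Φ a ((p i).φ a u), (p i).lt,
    (p i).dD, ?_, (p i).op, fun a => ?_⟩, fun a => ?_⟩
  · have := (p i).dφ
    exact DF.comp (g := fun z : α × (Fin (p i).d → ℝ) => (z.1, (p i).φ z.1 z.2)) hΦ (by fun_prop)
  · refine (hs a).comp ((p i).sm a) fun u hu => ?_
    rw [hp a]
    exact mem_iUnion.2 ⟨i, mem_image_of_mem _ hu⟩
  · simp only [hp a, image_iUnion, image_image]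

theorem Par.of_open {A : α → Set β} (h : DP S fun z : α × β => z.2 ∈ A z.1)
    (ho : ∀ a, IsOpen (A a)) : Par S (finrank ℝ β + 1) A := by
  let e : (Fin (finrank ℝ β) → ℝ) ≃L[ℝ] β := ContinuousLinearEquiv.ofFinrankEq (by simp)
  have he : DF S e := DF.clm (e : (Fin (finrank ℝ β) → ℝ) →L[ℝ] β)
  refine ⟨Unit, inferInstance, fun _ => ⟨finrank ℝ β, fun a => e ⁻¹' A a, fun _ => e,
    Nat.lt_succ_self _, ?_, by fun_prop, fun a => (ho a).preimage e.continuous,
    fun a => e.contDiff.contDiffOn⟩, fun a => ?_⟩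
  · exact DP.comp (g := fun z : α × (Fin (finrank ℝ β) → ℝ) => (z.1, e z.2)) h (by fun_prop)
  · simp only [iUnion_const, image_preimage_eq _ e.surjective]

theorem interior_diff_interior {δ : Type} [TopologicalSpace δ] (s : Set δ) :
    interior (s \ interior s) = ∅ := by
  refine eq_empty_of_forall_notMem fun x hx => ?_
  exact (interior_subset hx).2 (interior_mono sdiff_subset hx)

theorem Par.of_empty (ih : ∀ {A : α → Set β}, (DP S fun z : α × β => z.2 ∈ A z.1) →
    (∀ a, interior (A a) = ∅) → Par S (finrank ℝ β) A) {A : α → Set β}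
    (h : DP S fun z : α × β => z.2 ∈ A z.1) : Par S (finrank ℝ β + 1) A := by
  have h1 := DP.mem_interior h
  have h2 : Par S (finrank ℝ β) fun a => A a \ interior (A a) :=
    ih (h.and h1.not) fun a => interior_diff_interior _
  refine ((Par.of_open h1 fun a => isOpen_interior).union (h2.mono (Nat.le_succ _))).congr
    fun a => ?_
  rw [union_sdiff_cancel interior_subset]

theorem par_step {n : ℕ} (ih : ∀ {β : Type} [NormedAddCommGroup β] [NormedSpace ℝ β]
    [FiniteDimensional ℝ β], finrank ℝ β ≤ n → ∀ {A : α → Set β},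
    (DP S fun z : α × β => z.2 ∈ A z.1) → (∀ a, interior (A a) = ∅) → Par S (finrank ℝ β) A)
    (hn : finrank ℝ β = n) {A : α → Set (β × ℝ)} (h : DP S fun z : α × β × ℝ => z.2 ∈ A z.1)
    (he : ∀ a, interior (A a) = ∅) : Par S (n + 1) A := by
  have h0 : DP S fun z : (α × β) × ℝ => (z.1.2, z.2) ∈ A z.1.1 :=
    DP.comp (g := fun z : (α × β) × ℝ => (z.1.1, z.1.2, z.2)) h (by fun_prop)
  obtain ⟨N, ζ, hζ, hc⟩ := DP.enum (X := fun (w : α × β) t => (w.2, t) ∈ A w.1) h0
  -- the pieces of graphs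
  let E : Fin N → α → Set β := fun j a => {b | (b, ζ j (a, b)) ∈ A a}
  let C : Fin N → α → Set β := fun j a => {b | ContDiffAt ℝ 1 (fun b => ζ j (a, b)) b}
  let I : α → Set β := fun a => {b | {t | (b, t) ∈ A a}.Infinite}
  have hE : ∀ j, DP S fun z : α × β => z.2 ∈ E j z.1 := fun j => by
    have := hζ j
    exact DP.comp (g := fun z : α × β => (z.1, z.2, ζ j (z.1, z.2))) h (by fun_prop)
  have hC : ∀ j, DP S fun z : α × β => z.2 ∈ C j z.1 := fun j => by
    have := hζ j
    exact DP.contDiffAt_one (f := fun (z : α × β) b => ζ j (z.1, b)) (g := fun z => z.2)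
      (by fun_prop) (by fun_prop)
  have hI : DP S fun z : α × β => z.2 ∈ I z.1 :=
    DP.fib_infinite (X := fun (w : α × β) t => (w.2, t) ∈ A w.1) h0
  let R : α → Set β := fun a => I a ∪ ⋃ j, (frontier (E j a) ∪ (C j a)ᶜ)
  have hR : DP S fun z : α × β => z.2 ∈ R z.1 :=
    (hI.or (DP.fin_or fun j => (hE j).mem_frontier.or (hC j).not)).congr fun z => by
      simp only [R, mem_union, mem_iUnion, mem_compl_iff]
  have hRe : ∀ a, interior (R a) = ∅ := by
    intro a
    refine DP.interior_union (hI.fibre (X := fun a b => b ∈ I a) a) ?_ ?_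
    · by_contra hne
      have h1 : DP S fun z => z ∈ A a := h.fibre (X := fun a b => b ∈ A a) a
      have h2 : I a = {b | (interior {t | (b, t) ∈ A a}).Nonempty} := by
        ext b
        exact DP.infinite_iff (s := {t | (b, t) ∈ A a})
          (h1.fibre (X := fun b t => (b, t) ∈ A a) b)
      have h3 := DP.fubini h1 (by rw [← h2]; exact nonempty_iff_ne_empty.2 hne)
      rw [he a] at h3
      exact not_nonempty_empty h3
    · have hE' : ∀ j, DP S fun b => b ∈ E j a := fun j =>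
        (hE j).fibre (X := fun a b => b ∈ E j a) a
      have hF : ∀ j, DP S fun b => b ∈ frontier (E j a) := fun j =>
        (hE j).mem_frontier.fibre (X := fun a b => b ∈ frontier (E j a)) a
      refine DP.interior_iUnion (S := S)
        (fun j => (hF j).or ((hC j).not.fibre (X := fun a b => b ∉ C j a) a)) fun j => ?_
      refine DP.interior_union (hF j) (hE' j).interior_frontier ?_
      have := hζ j
      exact DF.generic_contDiff (S := S) (f := fun b => ζ j (a, b)) (by fun_prop)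
  obtain ⟨ι, _, p, hp⟩ := ih hn.le hR hRe
  have hG : ∀ j, Par S (n + 1) fun a =>
      (fun b => (b, ζ j (a, b))) '' (interior (E j a) ∩ C j a) := by
    intro j
    have := hζ j
    have h1 : Par S (finrank ℝ β + 1) fun a => interior (E j a) ∩ C j a := by
      refine Par.of_open ((hE j).mem_interior.and (hC j)) fun a => isOpen_interior.inter ?_
      exact isOpen_iff_mem_nhds.2 fun b hb => ContDiffAt.eventually hb (by simp)
    rw [hn] at h1
    refine h1.image (Φ := fun a b => (b, ζ j (a, b))) (by fun_prop) fun a b hb => ?_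
    have hb2 : ContDiffAt ℝ 1 (fun b => ζ j (a, b)) b := hb.2
    exact (contDiffAt_id.prodMk hb2).contDiffWithinAt
  have hH : ∀ i, Par S (n + 1) fun a => (fun w : (Fin (p i).d → ℝ) × ℝ => ((p i).φ a w.1, w.2)) ''
      {w | w.1 ∈ (p i).D a ∧ ((p i).φ a w.1, w.2) ∈ A a} := by
    intro i
    have hφ := (p i).dφ
    have hlt := (p i).lt
    have hd : finrank ℝ ((Fin (p i).d → ℝ) × ℝ) = (p i).d + 1 := by simp
    have hφ' : DF S fun z : α × (Fin (p i).d → ℝ) × ℝ => (p i).φ z.1 z.2.1 :=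
      DF.comp (g := fun z : α × (Fin (p i).d → ℝ) × ℝ => (z.1, z.2.1)) hφ (by fun_prop)
    have h1 : Par S (finrank ℝ ((Fin (p i).d → ℝ) × ℝ) + 1) fun a =>
        {w : (Fin (p i).d → ℝ) × ℝ | w.1 ∈ (p i).D a ∧ ((p i).φ a w.1, w.2) ∈ A a} := by
      refine Par.of_empty (ih (by omega)) (DP.and ?_ ?_)
      · exact DP.comp (g := fun z : α × (Fin (p i).d → ℝ) × ℝ => (z.1, z.2.1)) (p i).dD
          (by fun_prop)
      · exact DP.comp (g := fun z : α × (Fin (p i).d → ℝ) × ℝ =>
          (z.1, (p i).φ z.1 z.2.1, z.2.2)) h (by fun_prop)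
    refine (h1.mono (by omega)).image
      (Φ := fun a (w : (Fin (p i).d → ℝ) × ℝ) => ((p i).φ a w.1, w.2)) (by fun_prop) fun a => ?_
    exact (((p i).sm a).comp contDiffOn_fst fun w hw => hw.1).prodMk contDiffOn_snd
  refine ((Par.iUnion hG).union (Par.iUnion hH)).congr fun a => ?_
  ext ⟨b, t⟩
  simp only [mem_union, mem_iUnion]
  constructor
  · intro hb
    by_cases hbR : b ∈ R a
    · right
      rw [hp a] at hbR
      obtain ⟨i, u, hu, rfl⟩ := mem_iUnion.1 hbR
      exact ⟨i, (u, t), ⟨hu, hb⟩, rfl⟩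
    · left
      simp only [R, mem_union, mem_iUnion, not_or, not_exists, mem_compl_iff, not_not] at hbR
      obtain ⟨j, hj⟩ := hc (a, b) (not_not.1 hbR.1) t hb
      refine ⟨j, b, ⟨?_, (hbR.2 j).2⟩, by rw [hj]⟩
      by_contra h4
      refine (hbR.2 j).1 ⟨subset_closure ?_, h4⟩
      change (b, ζ j (a, b)) ∈ A a
      rwa [← hj]
  · rintro (⟨j, b', hb', he'⟩ | ⟨i, w, hw, he'⟩)
    · rw [← he']
      exact interior_subset (s := E j a) hb'.1
    · rw [← he']
      exact hw.2

theorem par_aux (n : ℕ) : ∀ {β : Type} [NormedAddCommGroup β] [NormedSpace ℝ β]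
    [FiniteDimensional ℝ β], finrank ℝ β ≤ n → ∀ {A : α → Set β},
    (DP S fun z : α × β => z.2 ∈ A z.1) → (∀ a, interior (A a) = ∅) →
    Par S (finrank ℝ β) A := by
  induction n with
  | zero =>
    intro β _ _ _ hn A _ he
    have : Subsingleton β := finrank_zero_iff.1 (Nat.le_zero.1 hn)
    refine ⟨Empty, inferInstance, fun i => i.elim, fun a => ?_⟩
    rw [iUnion_of_empty, ← he a, (isOpen_discrete (A a)).interior_eq]
  | succ n ih =>
    intro β _ _ _ hn A h he
    rcases hn.lt_or_eq with hn | hn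
    · exact ih (by omega) h he
    · obtain ⟨e⟩ := exists_split hn
      have hde : DF S e := DF.clm (e : ((Fin n → ℝ) × ℝ) →L[ℝ] β)
      have h1 : Par S (n + 1) fun a => e ⁻¹' A a := by
        refine par_step ih (by simp) ?_ fun a => ?_
        · exact DP.comp (g := fun z : α × (Fin n → ℝ) × ℝ => (z.1, e z.2)) h (by fun_prop)
        · have h2 := e.toHomeomorph.preimage_interior (A a)
          rw [he a, preimage_empty] at h2
          exact h2.symm
      rw [hn]
      refine (h1.image (Φ := fun _ => e) (by fun_prop) fun a => e.contDiff.contDiffOn).congr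
        fun a => ?_
      rw [image_preimage_eq _ e.surjective]

/-- fibrewise C1 parametrization of a family of sets with empty interior -/
theorem DP.param {A : α → Set β} (h : DP S fun z : α × β => z.2 ∈ A z.1)
    (he : ∀ a, interior (A a) = ∅) :
    ∃ (N : ℕ) (d : Fin N → ℕ) (D : ∀ j, α → Set (Fin (d j) → ℝ))
      (φ : ∀ j, α → (Fin (d j) → ℝ) → β),
      (∀ j, d j < finrank ℝ β ∧ (DP S fun z : α × (Fin (d j) → ℝ) => z.2 ∈ D j z.1) ∧
        (DF S fun z : α × (Fin (d j) → ℝ) => φ j z.1 z.2) ∧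
        ∀ a, IsOpen (D j a) ∧ ContDiffOn ℝ 1 (φ j a) (D j a)) ∧
      ∀ a, A a = ⋃ j, φ j a '' D j a := by
  obtain ⟨ι, _, p, hp⟩ := par_aux _ le_rfl h he
  obtain ⟨N, ⟨e⟩⟩ := Finite.exists_equiv_fin ι
  refine ⟨N, fun j => (p (e.symm j)).d, fun j => (p (e.symm j)).D, fun j => (p (e.symm j)).φ,
    fun j => ⟨(p _).lt, (p _).dD, (p _).dφ, fun a => ⟨(p _).op a, (p _).sm a⟩⟩, fun a => ?_⟩
  rw [hp a]
  exact (e.symm.surjective.iUnion_comp fun i => (p i).φ a '' (p i).D a).symm

/-- parametrization of a single set with empty interior -/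
theorem DP.param_set {s : Set β} (h : DP S fun x => x ∈ s) (he : interior s = ∅) :
    ∃ (N : ℕ) (d : Fin N → ℕ) (D : ∀ j, Set (Fin (d j) → ℝ)) (φ : ∀ j, (Fin (d j) → ℝ) → β),
      (∀ j, d j < finrank ℝ β ∧ (DP S fun u => u ∈ D j) ∧ DF S (φ j) ∧
        IsOpen (D j) ∧ ContDiffOn ℝ 1 (φ j) (D j)) ∧ s = ⋃ j, φ j '' D j := by
  obtain ⟨N, d, D, φ, h1, h2⟩ := DP.param (S := S) (α := ℝ) (A := fun _ => s)
    (DP.comp (g := fun z : ℝ × β => z.2) h (by fun_prop)) fun _ => he
  refine ⟨N, d, fun j => D j 0, fun j => φ j 0, fun j => ⟨(h1 j).1, ?_, ?_, (h1 j).2.2.2 0⟩, h2 0⟩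
  · exact (h1 j).2.1.fibre (X := fun a u => u ∈ D j a) 0
  · exact DF.comp (g := fun u : Fin (d j) → ℝ => ((0 : ℝ), u)) (h1 j).2.2.1 (by fun_prop)

theorem DP.image {s : Set α} (h : DP S fun x => x ∈ s) {f : α → β} (hf : DF S f) :
    DP S fun y => y ∈ f '' s :=
  DP.ex (P := fun y x => x ∈ s ∧ f x = y)
    ((DP.comp (g := fun z : β × α => z.2) h (by fun_prop)).and (by fun_prop))

/-- finite unions of definable preconnected sets -/
def FP (S : OStr) (s : Set α) : Prop :=
  ∃ T : Set (Set α), T.Finite ∧ (∀ t ∈ T, (DP S fun x => x ∈ t) ∧ IsPreconnected t) ∧ ⋃₀ T = s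

theorem FP.biUnion {ι : Type} {I : Set ι} (hI : I.Finite) {s : ι → Set α}
    (h : ∀ i ∈ I, FP S (s i)) : FP S (⋃ i ∈ I, s i) := by
  choose! T hT hT' hT'' using h
  refine ⟨⋃ i ∈ I, T i, hI.biUnion hT, fun t ht => ?_, ?_⟩
  · obtain ⟨i, hi, ht⟩ := mem_iUnion₂.1 ht
    exact hT' i hi t ht
  · ext x
    simp only [mem_sUnion, mem_iUnion]
    constructor
    · rintro ⟨t, ⟨i, hi, ht⟩, hx⟩
      exact ⟨i, hi, hT'' i hi ▸ ⟨t, ht, hx⟩⟩
    · rintro ⟨i, hi, hx⟩
      rw [← hT'' i hi] at hx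
      obtain ⟨t, ht, hx⟩ := hx
      exact ⟨t, ⟨i, hi, ht⟩, hx⟩

theorem FP.iUnion {ι : Type} [Finite ι] {s : ι → Set α} (h : ∀ i, FP S (s i)) :
    FP S (⋃ i, s i) := by
  simpa using FP.biUnion (I := univ) (toFinite _) fun i _ => h i

theorem FP.single {s : Set α} (h : DP S fun x => x ∈ s) (hs : IsPreconnected s) : FP S s :=
  ⟨{s}, finite_singleton s, fun t ht => by rw [ht]; exact ⟨h, hs⟩, sUnion_singleton s⟩

theorem FP.image {s : Set α} (h : FP S s) {f : α → β} (hf : DF S f) (hc : ContinuousOn f s) :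
    FP S (f '' s) := by
  obtain ⟨T, hT, hT', rfl⟩ := h
  rw [sUnion_eq_biUnion, image_iUnion₂]
  exact FP.biUnion hT fun t ht => FP.single ((hT' t ht).1.image hf)
    ((hT' t ht).2.image f (hc.mono (subset_sUnion_of_mem ht)))

theorem fp_step {n : ℕ} (ih : ∀ {β : Type} [NormedAddCommGroup β] [NormedSpace ℝ β]
    [FiniteDimensional ℝ β], finrank ℝ β ≤ n → ∀ {s : Set β}, (DP S fun x => x ∈ s) → FP S s)
    (hn : finrank ℝ α = n) {s : Set (α × ℝ)} (h : DP S fun x => x ∈ s) : FP S s := by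
  obtain ⟨ι, _, η, hη, hs⟩ := DP.star (X := fun a t => (a, t) ∈ s) h
  have hΓ : ∀ j, FP S {z : α × ℝ | z ∈ s ∧ z.2 = η j z.1} := by
    intro j
    have := hη j
    obtain ⟨N, d, D, φ, h1, h2⟩ := DP.param_set (S := S) (s := {z : α × ℝ | z ∈ s ∧ z.2 = η j z.1})
      (h.and (by fun_prop)) (by
        refine eq_empty_of_forall_notMem fun z hz => ?_
        have h3 : Tendsto (fun t : ℝ => (z.1, t)) (𝓝 z.2) (𝓝 z) :=
          (Continuous.prodMk_right z.1).tendsto' _ _ rfl
        have h4 : {η j z.1} ∈ 𝓝 z.2 := by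
          filter_upwards [h3 (mem_interior_iff_mem_nhds.1 hz)] with t ht using ht.2
        exact infinite_of_mem_nhds _ h4 (finite_singleton _))
    rw [h2]
    refine FP.iUnion fun i => (ih ?_ (h1 i).2.1).image (h1 i).2.2.1 (h1 i).2.2.2.2.continuousOn
    have h5 := (h1 i).1
    simp only [finrank_prod, hn, finrank_self] at h5
    simp only [finrank_pi, Fintype.card_fin]
    omega
  choose T hT hT' hT'' using hΓ
  have hs' : s = ⋃ j, ⋃ t ∈ T j,
      {z : α × ℝ | (z.1, η j z.1) ∈ t ∧ ∀ y ∈ uIcc z.2 (η j z.1), (z.1, y) ∈ s} := by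
    ext z
    simp only [mem_iUnion]
    constructor
    · intro hz
      obtain ⟨j, hj⟩ := hs z.1 z.2 hz
      have h1 : (z.1, η j z.1) ∈ ⋃₀ T j := by
        rw [hT'' j]
        exact ⟨hj _ right_mem_uIcc, rfl⟩
      obtain ⟨t, ht, h1⟩ := h1
      exact ⟨j, t, ht, h1, hj⟩
    · rintro ⟨j, t, _, _, h2⟩
      exact h2 _ left_mem_uIcc
  rw [hs']
  refine FP.iUnion fun j => FP.biUnion (hT j) fun t ht => FP.single ?_ ?_
  · have := hη j
    refine DP.and (DP.comp (g := fun z : α × ℝ => (z.1, η j z.1)) (hT' j t ht).1 (by fun_prop))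
      (DP.all (DP.imp ?_ (DP.comp (g := fun w : (α × ℝ) × ℝ => (w.1.1, w.2)) h (by fun_prop))))
    simp only [mem_uIcc]
    fun_prop
  · have hsub : ∀ z ∈ t, z ∈ s ∧ z.2 = η j z.1 := fun z hz => by
      have : z ∈ ⋃₀ T j := ⟨t, ht, hz⟩
      rwa [hT'' j] at this
    have hseg : ∀ z : α × ℝ, IsPreconnected ((fun y => (z.1, y)) '' uIcc z.2 (η j z.1)) :=
      fun z => isPreconnected_uIcc.image _ (Continuous.prodMk_right z.1).continuousOn
    refine isPreconnected_of_forall_pair fun z hz w hw => ?_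
    refine ⟨((fun y => (z.1, y)) '' uIcc z.2 (η j z.1) ∪ t) ∪
      (fun y => (w.1, y)) '' uIcc w.2 (η j w.1), ?_, .inl (.inl ⟨z.2, left_mem_uIcc, rfl⟩),
      .inr ⟨w.2, left_mem_uIcc, rfl⟩, ?_⟩
    · have hseg' : ∀ z ∈ {z : α × ℝ | (z.1, η j z.1) ∈ t ∧ ∀ y ∈ uIcc z.2 (η j z.1), (z.1, y) ∈ s},
          (fun y => (z.1, y)) '' uIcc z.2 (η j z.1) ⊆
          {z : α × ℝ | (z.1, η j z.1) ∈ t ∧ ∀ y ∈ uIcc z.2 (η j z.1), (z.1, y) ∈ s} := by
        rintro z hz _ ⟨y, hy, rfl⟩
        exact ⟨hz.1, fun y' hy' => hz.2 y' (uIcc_subset_uIcc hy right_mem_uIcc hy')⟩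
      refine union_subset (union_subset (hseg' z hz) fun v hv => ?_) (hseg' w hw)
      obtain ⟨h1, h2⟩ := hsub v hv
      refine ⟨by rwa [← h2], fun y hy => ?_⟩
      rw [← h2, uIcc_self] at hy
      rwa [hy]
    · refine IsPreconnected.union (w.1, η j w.1) (.inr hw.1) ⟨_, right_mem_uIcc, rfl⟩ ?_ (hseg w)
      exact IsPreconnected.union (z.1, η j z.1) ⟨_, right_mem_uIcc, rfl⟩ hz.1 (hseg z)
        (hT' j t ht).2

theorem fp_aux (n : ℕ) : ∀ {β : Type} [NormedAddCommGroup β] [NormedSpace ℝ β]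
    [FiniteDimensional ℝ β], finrank ℝ β ≤ n → ∀ {s : Set β}, (DP S fun x => x ∈ s) →
    FP S s := by
  induction n with
  | zero =>
    intro β _ _ _ hn s h
    have : Subsingleton β := finrank_zero_iff.1 (Nat.le_zero.1 hn)
    exact FP.single h (subsingleton_of_subsingleton.isPreconnected)
  | succ n ih =>
    intro β _ _ _ hn s h
    rcases hn.lt_or_eq with hn | hn
    · exact ih (by omega) h
    · obtain ⟨e⟩ := exists_split hn
      have hde : DF S e := DF.clm (e : ((Fin n → ℝ) × ℝ) →L[ℝ] β)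
      have h1 : FP S (e ⁻¹' s) := fp_step ih (by simp) (h.comp hde)
      have h2 := h1.image hde e.continuous.continuousOn
      rwa [image_preimage_eq _ e.surjective] at h2

theorem DP.finite_preconnected {s : Set α} (h : DP S fun x => x ∈ s) :
    ∃ T : Set (Set α), T.Finite ∧ (∀ t ∈ T, (DP S fun x => x ∈ t) ∧ IsPreconnected t) ∧
      ⋃₀ T = s := fp_aux _ le_rfl h

theorem range_aux (n : ℕ) : ∀ {α : Type} [NormedAddCommGroup α] [NormedSpace ℝ α]
    [FiniteDimensional ℝ α], finrank ℝ α < n → finrank ℝ α < finrank ℝ β → ∀ {f : α → β},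
    DF S f → interior (range f) = ∅ := by
  induction n with
  | zero => intro α _ _ _ hn; omega
  | succ n ih =>
    intro α _ _ _ hn hlt f hf
    have hC : DP S fun x => ContDiffAt ℝ 1 f x :=
      DP.contDiffAt_one (f := fun (_ : α) y => f y) (g := fun x => x) (by fun_prop) (by fun_prop)
    obtain ⟨N, d, D, φ, h1, h2⟩ := DP.param_set (s := {x | ¬ ContDiffAt ℝ 1 f x}) hC.not
      hf.generic_contDiff
    have h3 : range f ⊆ f '' {x | ContDiffAt ℝ 1 f x} ∪ ⋃ j, range fun u => f (φ j u) := by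
      rintro _ ⟨x, rfl⟩
      by_cases hx : ContDiffAt ℝ 1 f x
      · exact .inl ⟨x, hx, rfl⟩
      · have : x ∈ ⋃ j, φ j '' D j := h2 ▸ hx
        obtain ⟨j, u, _, rfl⟩ := mem_iUnion.1 this
        exact .inr (mem_iUnion.2 ⟨j, u, rfl⟩)
    refine eq_empty_of_subset_empty ((interior_mono h3).trans (Eq.subset ?_))
    refine DP.interior_union (DP.image (s := {x | ContDiffAt ℝ 1 f x}) hC hf) ?_ ?_
    · rw [interior_eq_empty_iff_dense_compl]
      refine dense_compl_of_dimH_lt_finrank ?_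
      refine lt_of_le_of_lt (dimH_image_le_of_locally_lipschitzOn fun x hx => ?_) ?_
      · obtain ⟨K, t, ht, hK⟩ := ContDiffAt.exists_lipschitzOnWith hx
        exact ⟨K, t, nhdsWithin_le_nhds ht, hK⟩
      · refine lt_of_le_of_lt (dimH_mono (subset_univ _)) ?_
        rw [Real.dimH_univ_eq_finrank]
        exact_mod_cast hlt
    · have hd : ∀ j, DF S fun u => f (φ j u) := fun j => hf.comp (h1 j).2.2.1
      refine DP.interior_iUnion (S := S) (fun j => ?_) fun j => ih ?_ ?_ (hd j)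
      · rw [← image_univ]
        exact DP.image (s := univ) (DP.const True) (hd j)
      · have := (h1 j).1
        simp only [finrank_pi, Fintype.card_fin]
        omega
      · have := (h1 j).1
        simp only [finrank_pi, Fintype.card_fin]
        omega

theorem DF.interior_range {f : α → β} (hf : DF S f) (h : finrank ℝ α < finrank ℝ β) :
    interior (range f) = ∅ := range_aux _ (Nat.lt_succ_self _) h hf

theorem selection_aux (n : ℕ) : ∀ {α : Type} [NormedAddCommGroup α] [NormedSpace ℝ α]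
    [FiniteDimensional ℝ α], finrank ℝ α < n → ∀ {X : α → ℝ → Prop},
    (DP S fun z : α × ℝ => X z.1 z.2) → ∀ {A : Set α}, (DP S fun x => x ∈ A) → ∀ {g : α → ℝ},
    ContinuousOn g A → (∀ a ∈ A, {t | X a t}.Finite) → (∀ a ∈ A, X a (g a)) →
    DP S fun z : α × ℝ => z.1 ∈ A ∧ z.2 = g z.1 := by
  induction n with
  | zero => intro α _ _ _ hn; omega
  | succ n ih =>
    intro α _ _ _ hn X h A hA g hg hfin hX
    obtain ⟨N, ζ, hζ, hc⟩ := h.enum
    let R : Set α := (⋃ j, {x | ¬ ContinuousAt (ζ j) x}) ∪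
      ⋃ q : Fin N × Fin N, frontier {x | ζ q.1 x = ζ q.2 x}
    have hF : ∀ q : Fin N × Fin N, DP S fun x => x ∈ frontier {x | ζ q.1 x = ζ q.2 x} := fun q =>
      ((DP.set_closure (s := {x | ζ q.1 x = ζ q.2 x}) (DP.eq (hζ _) (hζ _))).and
        (DP.set_interior (s := {x | ζ q.1 x = ζ q.2 x}) (DP.eq (hζ _) (hζ _))).not)
    have hR1 : DP S fun x => x ∈ ⋃ j, {x | ¬ ContinuousAt (ζ j) x} :=
      (DP.fin_or fun j => (hζ j).contAt_set.not).congr fun x => by simp
    have hR : DP S fun x => x ∈ R :=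
      (hR1.or (DP.fin_or hF)).congr fun x => by simp only [R, mem_union, mem_iUnion]
    have hRe : interior R = ∅ := DP.interior_union hR1
      (DP.interior_iUnion (fun j => (hζ j).contAt_set.not) fun j => (hζ j).generic_continuous)
      (DP.interior_iUnion hF fun q =>
        DP.interior_frontier (s := {x | ζ q.1 x = ζ q.2 x}) (DP.eq (hζ _) (hζ _)))
    obtain ⟨M, d, D, φ, h1, h2⟩ := DP.param_set (s := A ∩ R) (hA.and hR)
      (eq_empty_of_subset_empty (hRe ▸ interior_mono inter_subset_right))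
    have hmap : ∀ i, ∀ u ∈ D i, φ i u ∈ A := fun i u hu => by
      have : φ i u ∈ A ∩ R := h2 ▸ mem_iUnion.2 ⟨i, mem_image_of_mem _ hu⟩
      exact this.1
    have hlow : ∀ i, DP S fun z : α × ℝ => ∃ u, φ i u = z.1 ∧ u ∈ D i ∧ z.2 = g (φ i u) := by
      intro i
      have hφ := (h1 i).2.2.1
      have h3 : DP S fun z : (Fin (d i) → ℝ) × ℝ => z.1 ∈ D i ∧ z.2 = g (φ i z.1) := by
        refine ih ?_ (X := fun u t => X (φ i u) t)
          (DP.comp (g := fun z : (Fin (d i) → ℝ) × ℝ => (φ i z.1, z.2)) h (by fun_prop))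
          (h1 i).2.1 (g := fun u => g (φ i u))
          (hg.comp (h1 i).2.2.2.2.continuousOn (hmap i))
          (fun u hu => hfin _ (hmap i u hu)) fun u hu => hX _ (hmap i u hu)
        have := (h1 i).1
        simp only [finrank_pi, Fintype.card_fin]
        omega
      exact DP.ex (DP.and (by fun_prop)
        (DP.comp (g := fun w : (α × ℝ) × (Fin (d i) → ℝ) => (w.2, w.1.2)) h3 (by fun_prop)))
    obtain ⟨T, hT, hT', hT''⟩ := DP.finite_preconnected (s := A \ R) (hA.and hR.not)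
    have htop : ∀ t ∈ T, DP S fun z : α × ℝ => z.1 ∈ t ∧ z.2 = g z.1 := by
      intro t ht
      have hsub : t ⊆ A \ R := hT'' ▸ subset_sUnion_of_mem ht
      rcases t.eq_empty_or_nonempty with rfl | ⟨x₀, hx₀⟩
      · exact (DP.const False).congr fun z => by simp
      obtain ⟨j, hj⟩ := hc x₀ (hfin _ (hsub hx₀).1) _ (hX _ (hsub hx₀).1)
      have hloc : ∀ x ∈ t, ∀ᶠ y in 𝓝[t] x, (g x = ζ j x ↔ g y = ζ j y) := by
        intro x hx
        have hxR := (hsub hx).2
        simp only [R, mem_union, mem_iUnion, not_or, not_exists, mem_ofPred_eq, not_not] at hxR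
        have hgx : ContinuousWithinAt g t x := (hg x (hsub hx).1).mono fun y hy => (hsub hy).1
        have hne : ∀ i, g x ≠ ζ i x → ∀ᶠ y in 𝓝[t] x, g y ≠ ζ i y := fun i hi =>
          (hgx.sub (hxR.1 i).continuousWithinAt).tendsto.eventually_ne (sub_ne_zero.2 hi) |>.mono
            fun y hy => sub_ne_zero.1 hy
        by_cases hx' : g x = ζ j x
        · have h4 : ∀ i, ∀ᶠ y in 𝓝[t] x, g y = ζ i y → g y = ζ j y := by
            intro i
            by_cases hi : g x = ζ i x
            · have h5 : x ∈ interior {x | ζ i x = ζ j x} := by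
                by_contra h6
                exact hxR.2 (i, j) ⟨subset_closure (hi.symm.trans hx'), h6⟩
              filter_upwards [nhdsWithin_le_nhds (mem_interior_iff_mem_nhds.1 h5)] with y hy h7
              exact h7.trans hy
            · filter_upwards [hne i hi] with y hy h7 using absurd h7 hy
          filter_upwards [eventually_all.2 h4, self_mem_nhdsWithin] with y hy hyt
          obtain ⟨i, hi⟩ := hc y (hfin _ (hsub hyt).1) _ (hX _ (hsub hyt).1)
          exact ⟨fun _ => hy i hi, fun _ => hx'⟩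
        · filter_upwards [hne j hx'] with y hy
          exact ⟨fun h8 => absurd h8 hx', fun h8 => absurd h8 hy⟩
      have hall : ∀ x ∈ t, g x = ζ j x := fun x hx =>
        ((hT' t ht).2.induction₂' (fun x y => g x = ζ j x ↔ g y = ζ j y)
          (fun x hx => (hloc x hx).mono fun y hy => ⟨hy, hy.symm⟩)
          (fun _ _ _ _ _ _ h1 h2 => h1.trans h2) hx₀ hx).1 hj
      have := hζ j
      refine (DP.and (DP.comp (g := fun z : α × ℝ => z.1) (hT' t ht).1 (by fun_prop))
        (by fun_prop : DP S fun z : α × ℝ => z.2 = ζ j z.1)).congr fun z => ?_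
      exact and_congr_right fun hz => by rw [hall _ hz]
    refine ((DP.fin_or hlow).or (DP.finset_or hT htop)).congr fun z => ?_
    constructor
    · rintro ⟨hz, hz'⟩
      by_cases hzR : z.1 ∈ R
      · have : z.1 ∈ ⋃ j, φ j '' D j := h2 ▸ ⟨hz, hzR⟩
        obtain ⟨i, u, hu, he⟩ := mem_iUnion.1 this
        exact .inl ⟨i, u, he, hu, by rw [he, hz']⟩
      · have : z.1 ∈ ⋃₀ T := hT'' ▸ ⟨hz, hzR⟩
        obtain ⟨t, ht, hzt⟩ := this
        exact .inr ⟨t, ht, hzt, hz'⟩
    · rintro (⟨i, u, he, hu, hz⟩ | ⟨t, ht, hzt, hz⟩)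
      · exact ⟨he ▸ hmap i u hu, by rw [hz, he]⟩
      · have hsub : t ⊆ A \ R := hT'' ▸ subset_sUnion_of_mem ht
        exact ⟨(hsub hzt).1, hz⟩

/-- a continuous selection of a definable relation with finite fibres is definable -/
theorem DP.selection {X : α → ℝ → Prop} (h : DP S fun z : α × ℝ => X z.1 z.2) {A : Set α}
    (hA : DP S fun x => x ∈ A) {g : α → ℝ} (hg : ContinuousOn g A)
    (hfin : ∀ a ∈ A, {t | X a t}.Finite) (hX : ∀ a ∈ A, X a (g a)) :
    DP S fun z : α × ℝ => z.1 ∈ A ∧ z.2 = g z.1 :=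
  selection_aux _ (Nat.lt_succ_self _) h hA hg hfin hX

end Pool.Agent.Shared.OMin
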