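import Pool.Agent.Shared.OMin.BDefs
import Pool.Agent.Shared.OMin.Semialg

/-! The abstract theorem of the complement and the existence of a Pfaffian closed structure. -/

namespace Pool.Agent.Shared.OMin

open Set Filter Topology Module

variable {α β γ : Type}
  [NormedAddCommGroup α] [NormedSpace ℝ α] [FiniteDimensional ℝ α]
  [NormedAddCommGroup β] [NormedSpace ℝ β] [FiniteDimensional ℝ β]
  [NormedAddCommGroup γ] [NormedSpace ℝ γ] [FiniteDimensional ℝ γ] {S : OStr}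

namespace TClass

variable (𝒯 : TClass S)

/-- predicates in the class -/
def TP (P : α → Prop) : Prop := 𝒯.T α {x | P x}

variable {𝒯}

theorem TP.congr {P Q : α → Prop} (h : 𝒯.TP P) (e : ∀ x, Q x ↔ P x) : 𝒯.TP Q := by
  have : Q = P := funext fun x => propext (e x)
  rwa [this]

theorem TP.dp {P : α → Prop} (h : DP S P) : 𝒯.TP P := 𝒯.of_def h

theorem TP.clm {P : β → Prop} (h : 𝒯.TP P) (L : α →L[ℝ] β) : 𝒯.TP fun x => P (L x) :=
  𝒯.pre L h

theorem TP.and {P Q : α → Prop} (h : 𝒯.TP P) (h' : 𝒯.TP Q) : 𝒯.TP fun x => P x ∧ Q x :=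
  𝒯.inter h h'

theorem TP.or {P Q : α → Prop} (h : 𝒯.TP P) (h' : 𝒯.TP Q) : 𝒯.TP fun x => P x ∨ Q x :=
  𝒯.union h h'

theorem TP.ex_fin (m : ℕ) : ∀ {α : Type} [NormedAddCommGroup α] [NormedSpace ℝ α]
    [FiniteDimensional ℝ α] {P : α → (Fin m → ℝ) → Prop},
    (𝒯.TP fun z : α × (Fin m → ℝ) => P z.1 z.2) → 𝒯.TP fun x => ∃ y, P x y := by
  induction m with
  | zero =>
    intro α _ _ _ P h
    refine (h.clm (ContinuousLinearMap.inl ℝ α (Fin 0 → ℝ))).congr fun x => ?_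
    simp only [ContinuousLinearMap.inl_apply]
    exact ⟨fun ⟨y, hy⟩ => by rwa [Subsingleton.elim y 0] at hy, fun hy => ⟨_, hy⟩⟩
  | succ m ih =>
    intro α _ _ _ P h
    let L : (α × (Fin m → ℝ)) × ℝ →L[ℝ] α × (Fin (m + 1) → ℝ) :=
      LinearMap.toContinuousLinearMap
        { toFun := fun z => (z.1.1, Fin.cons z.2 z.1.2)
          map_add' := fun z w => by
            ext i
            · rfl
            · refine Fin.cases rfl (fun _ => rfl) i
          map_smul' := fun c z => by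
            ext i
            · rfl
            · refine Fin.cases rfl (fun _ => rfl) i }
    have h1 : 𝒯.TP fun z : α × (Fin m → ℝ) => ∃ t : ℝ, P z.1 (Fin.cons t z.2) :=
      𝒯.proj (h.clm L)
    refine (ih (P := fun x y => ∃ t : ℝ, P x (Fin.cons t y)) h1).congr fun x => ?_
    constructor
    · rintro ⟨y, hy⟩
      exact ⟨Fin.tail y, y 0, by rwa [Fin.cons_self_tail]⟩
    · rintro ⟨y, t, hy⟩
      exact ⟨_, hy⟩

theorem TP.ex {P : α → β → Prop} (h : 𝒯.TP fun z : α × β => P z.1 z.2) :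
    𝒯.TP fun x => ∃ y, P x y := by
  let e : (Fin (Module.finrank ℝ β) → ℝ) ≃L[ℝ] β :=
    (Module.finBasis ℝ β).equivFun.symm.toContinuousLinearEquiv
  have h1 : 𝒯.TP fun z : α × (Fin (Module.finrank ℝ β) → ℝ) => P z.1 (e z.2) :=
    h.clm ((ContinuousLinearMap.id ℝ α).prodMap
      (e : (Fin (Module.finrank ℝ β) → ℝ) →L[ℝ] β))
  refine (TP.ex_fin _ (P := fun x y => P x (e y)) h1).congr fun x => ?_
  exact ⟨fun ⟨y, hy⟩ => ⟨e.symm y, by simpa using hy⟩, fun ⟨y, hy⟩ => ⟨_, hy⟩⟩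

theorem TP.comp {P : β → Prop} {g : α → β} (h : 𝒯.TP P) (hg : DF S g) :
    𝒯.TP fun x => P (g x) :=
  (TP.ex (P := fun x y => y = g x ∧ P y)
    ((TP.dp hg.graph).and (h.clm (ContinuousLinearMap.snd ℝ α β)))).congr fun _ => by simp

theorem TP.fin_and {ι : Type} [Finite ι] {P : ι → α → Prop} (h : ∀ i, 𝒯.TP (P i)) :
    𝒯.TP fun x => ∀ i, P i x := by
  classical
  cases nonempty_fintype ι
  have : ∀ s : Finset ι, 𝒯.TP fun x => ∀ i ∈ s, P i x := by
    intro s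
    induction s using Finset.induction_on with
    | empty => exact (TP.dp (DP.const True)).congr fun _ => by simp
    | insert a s _ ih => exact ((h a).and ih).congr fun _ => by simp
  exact (this Finset.univ).congr fun _ => by simp

theorem TP.finite_or {ι : Type} {s : Set ι} (hs : s.Finite) {P : ι → α → Prop}
    (h : ∀ i ∈ s, 𝒯.TP (P i)) : 𝒯.TP fun x => ∃ i ∈ s, P i x := by
  induction s, hs using Set.Finite.induction_on with
  | empty => exact (TP.dp (DP.const False)).congr fun _ => by simp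
  | insert _ _ ih =>
    exact ((h _ (mem_insert _ _)).or (ih fun i hi => h i (mem_insert_of_mem _ hi))).congr
      fun _ => by simp

/-- a fibre with many points contains an interval -/
theorem many_points {Y : Set (α × ℝ)} (h : 𝒯.T _ Y) : ∃ N : ℕ, ∀ (a : α) (y : Fin N → ℝ),
    StrictMono y → (∀ i, (a, y i) ∈ Y) → ∃ s t : ℝ, s < t ∧ ∀ u ∈ Icc s t, (a, u) ∈ Y := by
  obtain ⟨N, hN⟩ := 𝒯.alt h
  refine ⟨N + 2, fun a y hy hY => ?_⟩
  by_contra hc
  push Not at hc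
  have : ∀ i : Fin (N + 1), ∃ u, y i.castSucc < u ∧ u < y i.succ ∧ (a, u) ∉ Y := by
    intro i
    obtain ⟨u, hu, hu'⟩ := hc _ _ (hy (Fin.castSucc_lt_succ (i := i)))
    refine ⟨u, lt_of_le_of_ne hu.1 ?_, lt_of_le_of_ne hu.2 ?_, hu'⟩
    · rintro rfl
      exact hu' (hY _)
    · rintro rfl
      exact hu' (hY _)
  choose t h1 h2 h3 using this
  refine hN a (fun i => y i.castSucc) t (fun i => ⟨hY _, h3 i, h1 i⟩) fun i j hij => ?_
  exact (h2 i).trans_le (hy.monotone (by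
    rw [Fin.le_def, Fin.val_succ, Fin.val_castSucc]
    exact hij))

/-- at least `m` points in the fibre -/
def Many (Y : Set (α × ℝ)) (m : ℕ) (a : α) : Prop :=
  ∃ y : Fin m → ℝ, StrictMono y ∧ ∀ i, (a, y i) ∈ Y

theorem dp_strictMono (m : ℕ) : DP S fun y : Fin m → ℝ => StrictMono y :=
  (DP.fin_and (P := fun (p : Fin m × Fin m) (y : Fin m → ℝ) => p.1 < p.2 → y p.1 < y p.2)
    fun p => (DP.const _).imp (DP.lt (DF.apply _) (DF.apply _))).congr
    fun _ => ⟨fun h _ hp => h hp, fun h i j hij => h (i, j) hij⟩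

theorem tp_enum {Y : Set (α × ℝ)} (h : 𝒯.T _ Y) (m : ℕ) :
    𝒯.TP fun z : α × (Fin m → ℝ) => StrictMono z.2 ∧ ∀ i, (z.1, z.2 i) ∈ Y :=
  (TP.dp ((dp_strictMono m).comp DF.id'.snd)).and (TP.fin_and fun i =>
    TP.comp (P := fun p => p ∈ Y) h (DF.id'.fst.prodMk ((DF.apply i).comp DF.id'.snd)))

theorem tp_many {Y : Set (α × ℝ)} (h : 𝒯.T _ Y) (m : ℕ) : 𝒯.TP (Many Y m) :=
  TP.ex (P := fun a (y : Fin m → ℝ) => StrictMono y ∧ ∀ i, (a, y i) ∈ Y) (tp_enum h m)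

theorem many_of_finset {Y : Set (α × ℝ)} {a : α} (s : Finset ℝ) (hs : ∀ u ∈ s, (a, u) ∈ Y)
    {m : ℕ} (hm : s.card = m) : Many Y m a :=
  ⟨s.orderEmbOfFin hm, (s.orderEmbOfFin hm).strictMono, fun i => hs _ (s.orderEmbOfFin_mem hm i)⟩

theorem range_eq_of_not_many {Y : Set (α × ℝ)} {a : α} {m : ℕ} (h : ¬ Many Y (m + 1) a)
    {y : Fin m → ℝ} (hy : StrictMono y) (hY : ∀ i, (a, y i) ∈ Y) :
    range y = {u | (a, u) ∈ Y} := by
  classical
  refine Subset.antisymm (range_subset_iff.2 hY) fun u hu => ?_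
  by_contra hc
  refine h (many_of_finset (insert u (Finset.univ.image y)) ?_ ?_)
  · intro v hv
    rcases Finset.mem_insert.1 hv with rfl | hv
    · exact hu
    · obtain ⟨i, -, rfl⟩ := Finset.mem_image.1 hv
      exact hY i
  · rw [Finset.card_insert_of_notMem (by simpa using hc),
      Finset.card_image_of_injective _ hy.injective]
    simp

theorem interior_many {Y : Set (α × ℝ)} (hc : IsClosed Y) (hi : interior Y = ∅) {B : Set α}
    (hB : ∀ a ∈ B, ∃ s t : ℝ, s < t ∧ ∀ u ∈ Icc s t, (a, u) ∈ Y) : interior B = ∅ := by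
  let Z : {p : ℚ × ℚ // p.1 < p.2} → Set α := fun p => {a | ∀ u ∈ Icc (p.1.1 : ℝ) p.1.2, (a, u) ∈ Y}
  have hZ : ∀ p, IsClosed (Z p) := fun p => by
    have : Z p = ⋂ u ∈ Icc (p.1.1 : ℝ) p.1.2, (fun a => (a, u)) ⁻¹' Y := by
      ext a
      simp [Z]
    rw [this]
    exact isClosed_biInter fun u _ => hc.preimage (by fun_prop)
  have hZi : ∀ p, interior (Z p) = ∅ := fun p => by
    by_contra hne
    obtain ⟨a, ha⟩ := nonempty_iff_ne_empty.2 hne
    have hlt : (p.1.1 : ℝ) < p.1.2 := by exact_mod_cast p.2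
    obtain ⟨u, hu⟩ := nonempty_Ioo.2 hlt
    have : (a, u) ∈ interior Y := by
      refine interior_maximal (t := interior (Z p) ×ˢ Ioo (p.1.1 : ℝ) p.1.2) ?_
        (isOpen_interior.prod isOpen_Ioo) ⟨ha, hu⟩
      rintro ⟨b, v⟩ ⟨hb, hv⟩
      exact interior_subset hb v (Ioo_subset_Icc_self hv)
    simp [hi] at this
  have hd : Dense (⋂ p, (Z p)ᶜ) := dense_iInter_of_isOpen (fun p => (hZ p).isOpen_compl)
    fun p => by rw [← interior_eq_empty_iff_dense_compl]; exact hZi p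
  rw [interior_eq_empty_iff_dense_compl]
  refine hd.mono fun a ha hB' => ?_
  obtain ⟨s, t, hst, h⟩ := hB a hB'
  obtain ⟨q, hq1, hq2⟩ := exists_rat_btwn hst
  obtain ⟨r, hr1, hr2⟩ := exists_rat_btwn hq2
  exact mem_iInter.1 ha ⟨(q, r), by exact_mod_cast hr1⟩ fun u hu =>
    h u ⟨hq1.le.trans hu.1, hu.2.trans hr2.le⟩

/-- some linear map to a space of smaller dimension is injective on `P` -/
def Thin (P : Set α) : Prop :=
  ∃ (β : Type) (_ : NormedAddCommGroup β) (_ : NormedSpace ℝ β) (_ : FiniteDimensional ℝ β)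
    (π : α →L[ℝ] β), finrank ℝ β < finrank ℝ α ∧ InjOn π P

variable (𝒯 α) in
/-- closure under complement -/
def CC : Prop := ∀ s : Set α, 𝒯.T α s → 𝒯.T α sᶜ

variable (𝒯 α) in
/-- sets with empty interior are covered by thin sets -/
def EE : Prop := ∀ s : Set α, 𝒯.T α s → interior s = ∅ →
  ∃ F : Set (Set α), F.Finite ∧ (∀ P ∈ F, 𝒯.T α P ∧ Thin P) ∧ s ⊆ ⋃₀ F

theorem cover (hC : 𝒯.CC α) (hE : 𝒯.EE α) {Y : Set (α × ℝ)} (h : 𝒯.T _ Y) (hc : IsClosed Y)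
    (hi : interior Y = ∅) : ∃ F : Set (Set (α × ℝ)), F.Finite ∧ ⋃₀ F = univ ∧ ∀ G ∈ F,
      (∃ P, 𝒯.T α P ∧ Thin P ∧ G = Prod.fst ⁻¹' P) ∨
      (𝒯.T _ G ∧ ∀ a t t', (a, t) ∈ G → (a, t') ∈ G → t < t' → ∀ u ∈ Icc t t', (a, u) ∉ Y) := by
  classical
  obtain ⟨N, hN⟩ := many_points h
  obtain ⟨F, hF, hF1, hF2⟩ := hE {a | Many Y N a} (tp_many h N)
    (interior_many hc hi fun a ⟨y, hy, hY⟩ => hN a y hy hY)
  let G : (Σ m : Fin N, Fin m → Bool × Bool) → Set (α × ℝ) := fun p =>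
    {z | ¬ Many Y (p.1 + 1) z.1 ∧ ∃ y : Fin p.1 → ℝ, (StrictMono y ∧ ∀ i, (z.1, y i) ∈ Y) ∧
      ∀ i, (z.2 < y i ↔ (p.2 i).1 = true) ∧ (y i < z.2 ↔ (p.2 i).2 = true)}
  refine ⟨(fun P => Prod.fst ⁻¹' P) '' F ∪ range G, (hF.image _).union (finite_range G), ?_, ?_⟩
  · refine eq_univ_of_forall fun z => ?_
    by_cases hz : Many Y N z.1
    · obtain ⟨P, hP, hz⟩ := hF2 hz
      exact ⟨_, Or.inl ⟨P, hP, rfl⟩, hz⟩
    · have hex : ∃ m, ¬ Many Y m z.1 := ⟨N, hz⟩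
      have h0 : Nat.find hex ≠ 0 := by
        intro h0
        have := Nat.find_spec hex
        rw [h0] at this
        exact this ⟨Fin.elim0, fun i => i.elim0, fun i => i.elim0⟩
      obtain ⟨m, hm⟩ := Nat.exists_eq_succ_of_ne_zero h0
      have h1 : ¬ Many Y (m + 1) z.1 := by
        have := Nat.find_spec hex
        rwa [hm] at this
      obtain ⟨y, hy⟩ : Many Y m z.1 := not_not.1 (Nat.find_min hex (by omega))
      have hmN : m < N := by
        have := Nat.find_min' hex hz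
        omega
      exact ⟨_, Or.inr ⟨⟨⟨m, hmN⟩, fun i => (decide (z.2 < y i), decide (y i < z.2))⟩, rfl⟩,
        h1, y, hy, fun i => by simp⟩
  · rintro _ (⟨P, hP, rfl⟩ | ⟨p, rfl⟩)
    · exact Or.inl ⟨P, (hF1 P hP).1, (hF1 P hP).2, rfl⟩
    · refine Or.inr ⟨?_, ?_⟩
      · refine TP.and (TP.clm (P := fun a => ¬ Many Y (p.1 + 1) a) (hC _ (tp_many h _))
          (ContinuousLinearMap.fst ℝ α ℝ)) (TP.ex (P := fun (z : α × ℝ) (y : Fin p.1 → ℝ) =>
            (StrictMono y ∧ ∀ i, (z.1, y i) ∈ Y) ∧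
            ∀ i, (z.2 < y i ↔ (p.2 i).1 = true) ∧ (y i < z.2 ↔ (p.2 i).2 = true)) (TP.and ?_ ?_))
        · exact (tp_enum h p.1).comp (DF.id'.fst.fst.prodMk DF.id'.snd)
        · refine TP.dp (DP.fin_and fun i => ?_)
          have h1 : DF S fun z : (α × ℝ) × (Fin p.1 → ℝ) => z.2 i := (DF.apply i).comp DF.id'.snd
          have h2 : DF S fun z : (α × ℝ) × (Fin p.1 → ℝ) => z.1.2 := DF.id'.fst.snd
          exact ((DP.lt h2 h1).iff (DP.const _)).and ((DP.lt h1 h2).iff (DP.const _))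
      · rintro a t t' ⟨hm, y, ⟨hy, hY⟩, hs⟩ ⟨-, y', ⟨hy', hY'⟩, hs'⟩ htt u hu huY
        have e := range_eq_of_not_many hm hy hY
        obtain rfl : y = y' :=
          (hy.range_inj hy').1 (e.trans (range_eq_of_not_many hm hy' hY').symm)
        obtain ⟨i, rfl⟩ : u ∈ range y := e ▸ huY
        have h1 : ¬ t < y i := fun hlt => ((hs' i).1.2 ((hs i).1.1 hlt)).not_ge hu.2
        have h2 : ¬ y i < t' := fun hlt => ((hs i).2.2 ((hs' i).2.1 hlt)).not_ge hu.1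
        exact h1 (htt.trans_le (not_lt.1 h2))

theorem mem_iff_of_segment {X : Set (α × ℝ)} {a : α} {t t' : ℝ} (htt : t ≤ t')
    (h : ∀ u ∈ Icc t t', (a, u) ∉ frontier X) : (a, t) ∈ X ↔ (a, t') ∈ X := by
  have hp : IsPreconnected ((fun u => (a, u)) '' Icc t t') :=
    isPreconnected_Icc.image _ (by fun_prop)
  have hsub : (fun u => (a, u)) '' Icc t t' ⊆ interior X ∪ interior Xᶜ := by
    rintro _ ⟨u, hu, rfl⟩
    have := h u hu
    rw [← compl_frontier_eq_union_interior]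
    exact this
  have hd : Disjoint (interior X) (interior Xᶜ) :=
    disjoint_compl_right.mono interior_subset interior_subset
  have m1 : (a, t) ∈ (fun u => (a, u)) '' Icc t t' := ⟨t, ⟨le_rfl, htt⟩, rfl⟩
  have m2 : (a, t') ∈ (fun u => (a, u)) '' Icc t t' := ⟨t', ⟨htt, le_rfl⟩, rfl⟩
  rcases hp.subset_or_subset isOpen_interior isOpen_interior hd hsub with h | h
  · exact iff_of_true (interior_subset (h m1)) (interior_subset (h m2))
  · exact iff_of_false (interior_subset (h m1) :) (interior_subset (h m2) :)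

theorem step (hC : 𝒯.CC α) (hE : 𝒯.EE α)
    (ih : ∀ (β : Type) [NormedAddCommGroup β] [NormedSpace ℝ β] [FiniteDimensional ℝ β],
      finrank ℝ β ≤ finrank ℝ α → 𝒯.CC β) : 𝒯.CC (α × ℝ) ∧ 𝒯.EE (α × ℝ) := by
  constructor
  · intro X hX
    obtain ⟨Y, hY, hc, hi, hf⟩ := 𝒯.bd hX
    obtain ⟨F, hF, hF1, hF2⟩ := cover hC hE hY hc hi
    refine (TP.finite_or hF (P := fun G z => z ∈ G ∧ z ∉ X) fun G hG => ?_).congr fun z => ?_
    · rcases hF2 G hG with ⟨P, hP, ⟨β, _, _, _, π, hd, hπ⟩, rfl⟩ | ⟨hG, hG'⟩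
      · have h1 : 𝒯.TP fun w : β × ℝ => ∃ a : α, π a = w.1 ∧ a ∈ P ∧ (a, w.2) ∈ X := by
          refine TP.ex (P := fun (w : β × ℝ) (a : α) => π a = w.1 ∧ a ∈ P ∧ (a, w.2) ∈ X)
            (TP.and (TP.dp (DP.eq ((DF.clm π).comp DF.id'.snd) DF.id'.fst.fst)) (TP.and ?_ ?_))
          · exact TP.comp (P := fun a => a ∈ P) hP DF.id'.snd
          · exact TP.comp (P := fun p => p ∈ X) hX (DF.id'.snd.prodMk DF.id'.fst.snd)
        have h2 := ih (β × ℝ) (by simp only [finrank_prod, finrank_self]; omega) _ h1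
        refine ((TP.comp (P := fun a => a ∈ P) hP DF.id'.fst).and (TP.comp
          (P := fun w : β × ℝ => ¬ ∃ a : α, π a = w.1 ∧ a ∈ P ∧ (a, w.2) ∈ X) h2
          (((DF.clm π).comp DF.id'.fst).prodMk DF.id'.snd))).congr fun z => ?_
        refine and_congr_right fun hz => not_congr ⟨fun h => ⟨z.1, rfl, hz, h⟩, ?_⟩
        rintro ⟨a, h1, h2, h3⟩
        rwa [hπ h2 hz h1] at h3
      · have h1 : 𝒯.TP fun a : α => ∃ t, (a, t) ∈ G ∩ X := 𝒯.proj (𝒯.inter hG hX)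
        refine (TP.and (P := fun z => z ∈ G) hG (TP.comp
          (P := fun a : α => ¬ ∃ t, (a, t) ∈ G ∩ X) (hC _ h1) DF.id'.fst)).congr fun z => ?_
        refine and_congr_right fun hz => not_congr ⟨fun h => ⟨z.2, hz, h⟩, ?_⟩
        rintro ⟨t, h1, h2⟩
        rcases lt_trichotomy t z.2 with h | h | h
        · exact (mem_iff_of_segment h.le fun u hu hu' => hG' _ _ _ h1 hz h u hu (hf hu')).1 h2
        · rwa [h] at h2
        · exact (mem_iff_of_segment h.le fun u hu hu' => hG' _ _ _ hz h1 h u hu (hf hu')).2 h2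
    · obtain ⟨G, hG, hz⟩ : z ∈ ⋃₀ F := hF1 ▸ mem_univ z
      exact ⟨fun h => ⟨G, hG, hz, h⟩, fun ⟨_, _, _, h⟩ => h⟩
  · intro X hX hXi
    obtain ⟨Y, hY, hc, hi, hf⟩ := 𝒯.bd hX
    obtain ⟨F, hF, hF1, hF2⟩ := cover hC hE hY hc hi
    refine ⟨(fun G => G ∩ Y) '' F, hF.image _, ?_, fun z hz => ?_⟩
    · rintro _ ⟨G, hG, rfl⟩
      rcases hF2 G hG with ⟨P, hP, ⟨β, _, _, _, π, hd, hπ⟩, rfl⟩ | ⟨hG, hG'⟩
      · refine ⟨𝒯.inter (𝒯.pre (ContinuousLinearMap.fst ℝ α ℝ) hP) hY, β × ℝ, inferInstance,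
          inferInstance, inferInstance, π.prodMap (ContinuousLinearMap.id ℝ ℝ),
          by simp only [finrank_prod, finrank_self]; omega, fun z hz z' hz' h => ?_⟩
        have h1 : π z.1 = π z'.1 := congrArg Prod.fst h
        have h2 : z.2 = z'.2 := by simpa using congrArg Prod.snd h
        exact Prod.ext (hπ hz.1 hz'.1 h1) h2
      · refine ⟨𝒯.inter hG hY, α, inferInstance, inferInstance, inferInstance,
          ContinuousLinearMap.fst ℝ α ℝ, by simp, ?_⟩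
        rintro ⟨a, t⟩ hz ⟨a', t'⟩ hz' (rfl : a = a')
        rcases lt_trichotomy t t' with h | rfl | h
        · exact (hG' _ _ _ hz.1 hz'.1 h t ⟨le_rfl, h.le⟩ hz.2).elim
        · rfl
        · exact (hG' _ _ _ hz'.1 hz.1 h t ⟨h.le, le_rfl⟩ hz.2).elim
    · obtain ⟨G, hG, hz'⟩ : z ∈ ⋃₀ F := hF1 ▸ mem_univ z
      exact ⟨_, ⟨G, hG, rfl⟩, hz', hf ⟨subset_closure hz, by simp [hXi]⟩⟩

theorem transfer (e : α ≃L[ℝ] β) (h : 𝒯.CC β ∧ 𝒯.EE β) : 𝒯.CC α ∧ 𝒯.EE α := by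
  constructor
  · intro s hs
    have := 𝒯.pre (e : α →L[ℝ] β) (h.1 _ (𝒯.pre (e.symm : β →L[ℝ] α) hs))
    convert this using 1
    ext x
    simp
  · intro s hs hi
    obtain ⟨F, hF, hF1, hF2⟩ := h.2 _ (𝒯.pre (e.symm : β →L[ℝ] α) hs) (by
      have := e.symm.toHomeomorph.preimage_interior s
      rw [hi] at this
      exact this.symm)
    refine ⟨(fun P => e ⁻¹' P) '' F, hF.image _, ?_, fun x hx => ?_⟩
    · rintro _ ⟨P, hP, rfl⟩
      obtain ⟨h1, γ, _, _, _, π, hd, hπ⟩ := hF1 P hP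
      refine ⟨𝒯.pre (e : α →L[ℝ] β) h1, γ, inferInstance, inferInstance, inferInstance,
        π.comp (e : α →L[ℝ] β), by rwa [e.toLinearEquiv.finrank_eq], fun x hx y hy hxy => ?_⟩
      exact e.injective (hπ hx hy hxy)
    · obtain ⟨P, hP, hx'⟩ := hF2 (a := e x) (by simpa using hx)
      exact ⟨_, ⟨P, hP, rfl⟩, hx'⟩

theorem cc_ee (n : ℕ) : ∀ (α : Type) [NormedAddCommGroup α] [NormedSpace ℝ α]
    [FiniteDimensional ℝ α], finrank ℝ α = n → 𝒯.CC α ∧ 𝒯.EE α := by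
  induction n using Nat.strong_induction_on with
  | _ n ih =>
    intro α _ _ _ hn
    cases n with
    | zero =>
      have : Subsingleton α := finrank_zero_iff.1 hn
      constructor
      · intro s _
        exact (TP.dp (DP.const ((0 : α) ∉ s))).congr fun x => by rw [Subsingleton.elim x 0]
      · intro s _ hi
        rw [(isOpen_discrete s).interior_eq] at hi
        exact ⟨∅, finite_empty, by simp, by simp [hi]⟩
    | succ n =>
      have h := ih n (by omega) (Fin n → ℝ) (by simp)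
      exact transfer (ContinuousLinearEquiv.ofFinrankEq (by simp [hn]))
        (step h.1 h.2 fun β _ _ _ hβ => (ih _ (by simp at hβ; omega) β rfl).1)

end TClass

theorem TClass.compl (𝒯 : TClass S) {s : Set α} (h : 𝒯.T α s) : 𝒯.T α sᶜ :=
  (TClass.cc_ee _ α rfl).1 s h

theorem TClass.exists_ostr (𝒯 : TClass S) : ∃ S' : OStr,
    ∀ (α : Type) [NormedAddCommGroup α] [NormedSpace ℝ α] [FiniteDimensional ℝ α] (s : Set α),
      S'.D α s ↔ 𝒯.T α s := by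
  refine ⟨⟨𝒯.T, 𝒯.compl, 𝒯.inter, 𝒯.pre, 𝒯.proj, 𝒯.of_def S.mul, 𝒯.of_def S.pos,
    fun r => 𝒯.of_def (S.sing r), fun {s} hs => ?_⟩, fun _ _ _ _ _ => Iff.rfl⟩
  obtain ⟨Y, hY, -, hi, hf⟩ := 𝒯.bd hs
  obtain ⟨N, hN⟩ := TClass.many_points (𝒯.pre (ContinuousLinearMap.snd ℝ ℝ ℝ) hY)
  refine Finite.subset (not_infinite.1 fun hinf => ?_) hf
  obtain ⟨F, hF, hc⟩ := hinf.exists_subset_card_eq N
  obtain ⟨y, hy, hy'⟩ := TClass.many_of_finset (Y := ContinuousLinearMap.snd ℝ ℝ ℝ ⁻¹' Y) (a := 0)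
    F (fun u hu => hF hu) hc
  obtain ⟨a, b, hab, h⟩ := hN 0 y hy hy'
  obtain ⟨u, hu⟩ := nonempty_Ioo.2 hab
  have : u ∈ interior Y :=
    interior_maximal (fun v hv => h v (Ioo_subset_Icc_self hv)) isOpen_Ioo hu
  simp [hi] at this

theorem exists_pfClosed_of
    (h : ∀ S : OStr, ∃ 𝒯 : TClass S,
      ∀ (α : Type) [NormedAddCommGroup α] [NormedSpace ℝ α] [FiniteDimensional ℝ α]
        (O : Set (α × ℝ)) (F : α × ℝ → α →L[ℝ] ℝ) (D : Set α) (f : α → ℝ) (Bp Bm : Set (α × ℝ)),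
        RolleGraph O F D f Bp Bm → DP S (fun p => p ∈ O) → DF S F →
          𝒯.T (α × ℝ) {p | p.1 ∈ D ∧ p.2 = f p.1}) :
    ∃ S : OStr, PfClosed S := by
  let r : OStr → OStr → Prop := fun S S' =>
    ∀ (α : Type) [NormedAddCommGroup α] [NormedSpace ℝ α] [FiniteDimensional ℝ α] (s : Set α),
      S.D α s → S'.D α s
  have := exists_ostr
  obtain ⟨S, hS⟩ := exists_maximal_of_nonempty_chains_bounded (r := r) (fun c hc ⟨S₀, h₀⟩ => by
    refine ⟨⟨fun α _ _ _ s => ∃ S ∈ c, S.D α s, fun ⟨S, hS, h⟩ => ⟨S, hS, S.compl h⟩, ?_,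
      fun L _ ⟨S, hS, h⟩ => ⟨S, hS, S.pre L h⟩, fun ⟨S, hS, h⟩ => ⟨S, hS, S.proj h⟩,
      ⟨S₀, h₀, S₀.mul⟩, ⟨S₀, h₀, S₀.pos⟩, fun r => ⟨S₀, h₀, S₀.sing r⟩,
      fun ⟨S, _, h⟩ => S.omin h⟩, fun S hS α _ _ _ s h => ⟨S, hS, h⟩⟩
    rintro α _ _ _ s t ⟨S, hS, h⟩ ⟨S', hS', h'⟩
    by_cases e : S = S'
    · subst e
      exact ⟨S, hS, S.inter h h'⟩
    · rcases hc hS hS' e with k | k
      · exact ⟨S', hS', S'.inter (k _ _ h) h'⟩
      · exact ⟨S, hS, S.inter h (k _ _ h')⟩) fun k k' α _ _ _ s h => k' α s (k α s h)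
  obtain ⟨𝒯, h𝒯⟩ := h S
  obtain ⟨S', hS'⟩ := 𝒯.exists_ostr
  exact ⟨S, fun α _ _ _ O F D f Bp Bm k1 k2 k3 =>
    hS S' (fun α _ _ _ s hs => (hS' α s).2 (𝒯.of_def hs)) _ _
      ((hS' _ _).2 (h𝒯 α O F D f Bp Bm k1 k2 k3))⟩

end Pool.Agent.Shared.OMin
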