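import Pool.Agent.Shared.OMin.Bdry3
import Pool.Agent.Shared.OMin.Compl

/-! The boundary lemma, and the existence of a Pfaffian closed o-minimal structure. -/

namespace Pool.Agent.Shared.OMin

open Set Filter Topology Module

variable {β : Type} [NormedAddCommGroup β] [NormedSpace ℝ β] [FiniteDimensional ℝ β] {S : OStr}

namespace Bd

theorem bl (l d : ℕ) : BL S β (Fin l → ℝ) d := by
  induction d using Nat.strong_induction_on with | _ d IH0
  intro α ι I _ _ _ _ A O ω Φ a L h 𝒰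
  have IH : ∀ d' < finrank ℝ (Fin d → ℝ), BL S β (Fin l → ℝ) d' := by simpa using IH0
  let F : α → (Fin d → ℝ) → (Fin d → ℝ) →L[ℝ] β := fun b x => fderiv ℝ (fun y => (Φ b y).1) x
  have dF : DF S fun z : α × (Fin d → ℝ) => F z.1 z.2 :=
    DF.fderiv_fam (f := fun z : α × (Fin d → ℝ) => fun y => (Φ z.1 y).1)
      (h.dΦ.comp (g := fun z : (α × (Fin d → ℝ)) × (Fin d → ℝ) => (z.1.1, z.2))
        (by fun_prop)).fst (by fun_prop)
  have dK : DP S fun w : (α × (Fin d → ℝ)) × (Fin d → ℝ) => ∀ j, ω j w.1.1 w.1.2 w.2 = 0 :=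
    DP.fin_and fun j => DP.eq (DF.clm_apply ((h.data.dω j).comp (by fun_prop)) (by fun_prop))
      (DF.const _)
  have dFv : DF S fun w : (α × (Fin d → ℝ)) × (Fin d → ℝ) => F w.1.1 w.1.2 w.2 :=
    DF.clm_apply (dF.comp (by fun_prop)) (by fun_prop)
  have dInj : DP S fun z : α × (Fin d → ℝ) =>
      ∀ v, (∀ j, ω j z.1 z.2 v = 0) → F z.1 z.2 v = 0 → v = 0 :=
    DP.all (P := fun (z : α × (Fin d → ℝ)) v =>
      (∀ j, ω j z.1 z.2 v = 0) → F z.1 z.2 v = 0 → v = 0)
      (dK.imp ((DP.eq dFv (DF.const _)).imp (by fun_prop)))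
  have dSur : DP S fun z : α × (Fin d → ℝ) =>
      ∀ y, ∃ v, (∀ j, ω j z.1 z.2 v = 0) ∧ F z.1 z.2 v = y :=
    DP.all (P := fun (z : α × (Fin d → ℝ)) y => ∃ v, (∀ j, ω j z.1 z.2 v = 0) ∧ F z.1 z.2 v = y)
      (DP.ex (P := fun (w : (α × (Fin d → ℝ)) × β) v =>
        (∀ j, ω j w.1.1 w.1.2 v = 0) ∧ F w.1.1 w.1.2 v = w.2)
        ((dK.comp (g := fun u : ((α × (Fin d → ℝ)) × β) × (Fin d → ℝ) => (u.1.1, u.2))
          (by fun_prop)).and (DP.eq (dFv.comp
            (g := fun u : ((α × (Fin d → ℝ)) × β) × (Fin d → ℝ) => (u.1.1, u.2)) (by fun_prop))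
            (by fun_prop))))
  let P : (Set (ι ⊕ Fin (finrank ℝ β)) × Fin d) ⊕ Set ι ⊕ Set ι ⊕ Unit → α → Set (Fin d → ℝ)
    | .inl c, b => {x | IsBas (fun j => ext ω Φ j b x) c.1 ∧
        ∃ v : Fin d → ℝ, (∀ j, ext ω Φ j b x v = 0) ∧ v c.2 ≠ 0}
    | .inr (.inl J), b => {x | IsBas (fun j => ω j b x) J ∧
        (∀ v, (∀ j, ω j b x v = 0) → F b x v = 0 → v = 0) ∧
        ¬ ∀ y, ∃ v, (∀ j, ω j b x v = 0) ∧ F b x v = y}
    | .inr (.inr (.inl J)), b => {x | IsBas (fun j => ω j b x) J ∧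
        (∀ v, (∀ j, ω j b x v = 0) → F b x v = 0 → v = 0) ∧
        ∀ y, ∃ v, (∀ j, ω j b x v = 0) ∧ F b x v = y}
    | .inr (.inr (.inr _)), b => (O b)ᶜ
  refine reduce IH h (P := P) ?_ (fun b x => ?_) 𝒰 ?_
  · rintro (c | J | J | _)
    · refine (dp_isBas (w := fun j (z : α × (Fin d → ℝ)) => ext ω Φ j z.1 z.2) (df_ext h) c.1).and
        (DP.ex (P := fun (z : α × (Fin d → ℝ)) (v : Fin d → ℝ) =>
          (∀ j, ext ω Φ j z.1 z.2 v = 0) ∧ v c.2 ≠ 0) (DP.and (DP.fin_and fun j => ?_) ?_))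
      · exact DP.eq (DF.clm_apply ((df_ext h j).comp (by fun_prop)) (by fun_prop)) (DF.const _)
      · exact DP.ne ((DF.apply c.2).comp (by fun_prop)) (DF.const _)
    · exact (dp_isBas (w := fun j (z : α × (Fin d → ℝ)) => ω j z.1 z.2) h.data.dω J).and
        (dInj.and dSur.not)
    · exact (dp_isBas (w := fun j (z : α × (Fin d → ℝ)) => ω j z.1 z.2) h.data.dω J).and
        (dInj.and dSur)
    · exact h.data.dO.not
  · by_cases hx : x ∈ O b
    swap
    · exact ⟨.inr (.inr (.inr ())), hx⟩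
    by_cases hi : ∀ v, (∀ j, ω j b x v = 0) → F b x v = 0 → v = 0
    · obtain ⟨J, hJ⟩ := exists_isBas fun j => ω j b x
      by_cases hs : ∀ y, ∃ v, (∀ j, ω j b x v = 0) ∧ F b x v = y
      exacts [⟨.inr (.inr (.inl J)), hJ, hi, hs⟩, ⟨.inr (.inl J), hJ, hi, hs⟩]
    · obtain ⟨J, hJ⟩ := exists_isBas fun j => ext ω Φ j b x
      push Not at hi
      obtain ⟨v, v1, v2, v3⟩ := hi
      obtain ⟨k, hk⟩ := Function.ne_iff.1 v3
      refine ⟨.inl (J, k), hJ, v, ?_, hk⟩
      rintro (j | j)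
      · exact v1 j
      · have h1 := (((h.sm b).fst.contDiffAt ((h.data.openO b).mem_nhds hx)).differentiableAt
          one_ne_zero).hasFDerivAt
        have h2 := ((LinearMap.toContinuousLinearMap
          ((finBasis ℝ β).coord j)).hasFDerivAt.comp x h1).fderiv
        change fderiv ℝ ((LinearMap.toContinuousLinearMap ((finBasis ℝ β).coord j)) ∘
          fun y => (Φ b y).1) x v = 0
        rw [h2, ContinuousLinearMap.comp_apply]
        exact (congrArg _ v2).trans (map_zero _)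
  · rintro (c | J | J | _) D L' h' hD hDO
    · exact case_cut IH h' (fun b x hx => hD b hx) 𝒰
    · refine case_small h' (J := J) (fun b x hx => ⟨(hD b hx).1, (hD b hx).2.1, ?_⟩) 𝒰
      have := (hD b hx).2.2
      push Not at this
      exact this
    · exact case_full h' (fun b x hx => hD b hx) 𝒰
    · refine thin IH h' (fun b => ?_) 𝒰
      rw [eq_empty_of_forall_notMem fun x hx => hD b hx (hDO b hx), interior_empty]

end Bd

theorem TSet.bd {X : Set β} (h : TSet S X) :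
    ∃ Y, TSet S Y ∧ IsClosed Y ∧ interior Y = ∅ ∧ frontier X ⊆ Y := by
  obtain ⟨I, 𝒰, l, W, ⟨d, k, q, A, O, ω, Φ, h1, h2, h3, h4⟩, rfl⟩ := h
  choose a L h5 h6 using h4
  rw [funext h6]
  exact Bd.bl l d _ _ _ A O ω Φ a L ⟨h1, h2, h3, h5⟩ 𝒰

theorem exists_pfClosed : ∃ S : OStr, PfClosed S := by
  refine exists_pfClosed_of fun S => ⟨
    { T := fun _ _ _ _ X => TSet S X
      of_def := TSet.of_def
      union := TSet.union
      inter := TSet.inter
      pre := fun L _ h => h.pre L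
      proj := TSet.proj
      alt := TSet.alt
      bd := TSet.bd }, fun α _ _ _ O F D f Bp Bm h dO dF => ?_⟩
  exact TSet.of_leaf h.openO dO ((DF.const _).sub (dF.clm_comp (DF.const _)))
    (continuousOn_const.sub (h.smooth.continuousOn.clm_comp continuousOn_const)) h.isLeaf

end Pool.Agent.Shared.OMin
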