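import Pool.Agent.Shared.OMin.Def

/-! Definitions for the o-minimality of the Pfaffian closure. -/

namespace Pool.Agent.Shared.OMin

open Set Filter Topology

section
variable {E : Type} [NormedAddCommGroup E] [NormedSpace ℝ E]

/-- A Rolle pair: `L` is closed in `O`, has two sides `Lp`, `Lm`, and is locally the zero set of a
C1 function whose differential agrees with `ω` up to `O(ψ)`. No nonsingularity is required. -/
structure RPair (O : Set E) (ω : E → E →L[ℝ] ℝ) (L Lp Lm : Set E) : Prop where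
  openp : IsOpen Lp
  openm : IsOpen Lm
  disj : Disjoint Lp Lm
  cover : ∀ p, p ∈ Lp ∪ Lm ↔ p ∈ O ∧ p ∉ L
  sub : L ⊆ O
  loc : ∀ p ∈ L, ∃ (ψ : E → ℝ) (C : ℝ), ContDiffAt ℝ 1 ψ p ∧ ∀ᶠ q in 𝓝 p,
    (q ∈ L ↔ ψ q = 0) ∧ (q ∈ Lp ↔ 0 < ψ q) ∧ (q ∈ Lm ↔ ψ q < 0) ∧
      ‖fderiv ℝ ψ q - ω q‖ ≤ C * |ψ q|

def IsLeaf (O : Set E) (ω : E → E →L[ℝ] ℝ) (L : Set E) : Prop := ∃ Lp Lm, RPair O ω L Lp Lm

/-- union of at most `N` preconnected sets -/
def NConn {X : Type} [TopologicalSpace X] (N : ℕ) (W : Set X) : Prop :=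
  ∃ T : Fin N → Set X, (∀ i, IsPreconnected (T i)) ∧ W = ⋃ i, T i

/-- Kuratowski limit along an ultrafilter -/
def ULim {I X : Type} [TopologicalSpace X] (𝒰 : Ultrafilter I) (W : I → Set X) : Set X :=
  {z | ∀ V ∈ 𝓝 z, ∀ᶠ i in (𝒰 : Filter I), (W i ∩ V).Nonempty}

end

variable {α E β : Type}
  [NormedAddCommGroup α] [NormedSpace ℝ α] [FiniteDimensional ℝ α]
  [NormedAddCommGroup E] [NormedSpace ℝ E] [FiniteDimensional ℝ E]
  [NormedAddCommGroup β] [NormedSpace ℝ β] [FiniteDimensional ℝ β]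

/-- a definable family of sets `A a` inside open sets `O a` with continuous one-forms -/
structure PfData (S : OStr) {ι : Type} (A O : α → Set E) (ω : ι → α → E → E →L[ℝ] ℝ) :
    Prop where
  dA : DP S fun z : α × E => z.2 ∈ A z.1
  dO : DP S fun z : α × E => z.2 ∈ O z.1
  dω : ∀ i, DF S fun z : α × E => ω i z.1 z.2
  openO : ∀ a, IsOpen (O a)
  sub : ∀ a, A a ⊆ O a
  cont : ∀ i a, ContinuousOn (ω i a) (O a)

/-- `W` is an indexed family of images of Pfaffian sets, with fixed definable data on a space of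
dimension `d` -/
def PfFamD (S : OStr) (d : ℕ) {I : Type} (W : I → Set β) : Prop :=
  ∃ (k q : ℕ) (A O : (Fin k → ℝ) → Set (Fin d → ℝ))
    (ω : Fin q → (Fin k → ℝ) → (Fin d → ℝ) → (Fin d → ℝ) →L[ℝ] ℝ)
    (Φ : (Fin k → ℝ) → (Fin d → ℝ) → β),
    PfData S A O ω ∧ (DF S fun z : (Fin k → ℝ) × (Fin d → ℝ) => Φ z.1 z.2) ∧
    (∀ a, ContDiffOn ℝ 1 (Φ a) (O a)) ∧
    ∀ i, ∃ (a : Fin k → ℝ) (L : Fin q → Set (Fin d → ℝ)),
      (∀ j, IsLeaf (O a) (ω j a) (L j)) ∧ W i = Φ a '' (A a ∩ ⋂ j, L j)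

def PfFam (S : OStr) {I : Type} (W : I → Set β) : Prop := ∃ d, PfFamD S d W

/-- projections of limits of Pfaffian families -/
def TSet (S : OStr) (X : Set β) : Prop :=
  ∃ (I : Type) (𝒰 : Ultrafilter I) (l : ℕ) (W : I → Set (β × (Fin l → ℝ))),
    PfFam S W ∧ X = Prod.fst '' ULim 𝒰 W

/-- hypotheses of the abstract theorem of the complement -/
structure TClass (S : OStr) where
  T : ∀ (α : Type) [NormedAddCommGroup α] [NormedSpace ℝ α] [FiniteDimensional ℝ α],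
    Set α → Prop
  of_def : ∀ {α : Type} [NormedAddCommGroup α] [NormedSpace ℝ α] [FiniteDimensional ℝ α]
    {s : Set α}, S.D α s → T α s
  union : ∀ {α : Type} [NormedAddCommGroup α] [NormedSpace ℝ α] [FiniteDimensional ℝ α]
    {s t : Set α}, T α s → T α t → T α (s ∪ t)
  inter : ∀ {α : Type} [NormedAddCommGroup α] [NormedSpace ℝ α] [FiniteDimensional ℝ α]
    {s t : Set α}, T α s → T α t → T α (s ∩ t)
  pre : ∀ {α β : Type} [NormedAddCommGroup α] [NormedSpace ℝ α] [FiniteDimensional ℝ α]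
    [NormedAddCommGroup β] [NormedSpace ℝ β] [FiniteDimensional ℝ β]
    (L : α →L[ℝ] β) {s : Set β}, T β s → T α (L ⁻¹' s)
  proj : ∀ {α : Type} [NormedAddCommGroup α] [NormedSpace ℝ α] [FiniteDimensional ℝ α]
    {s : Set (α × ℝ)}, T (α × ℝ) s → T α {x | ∃ t, (x, t) ∈ s}
  alt : ∀ {α : Type} [NormedAddCommGroup α] [NormedSpace ℝ α] [FiniteDimensional ℝ α]
    {Y : Set (α × ℝ)}, T (α × ℝ) Y → ∃ N : ℕ, ∀ (a : α) (s t : Fin (N + 1) → ℝ),
      (∀ i, (a, s i) ∈ Y ∧ (a, t i) ∉ Y ∧ s i < t i) → ¬ ∀ i j, i < j → t i < s j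
  bd : ∀ {α : Type} [NormedAddCommGroup α] [NormedSpace ℝ α] [FiniteDimensional ℝ α]
    {X : Set α}, T α X → ∃ Y, T α Y ∧ IsClosed Y ∧ interior Y = ∅ ∧ frontier X ⊆ Y

end Pool.Agent.Shared.OMin
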