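import Pool.Agent.Shared.OMin.Top

/-! A3b: Baire category arguments, generic continuity and generic smoothness. -/

namespace Pool.Agent.Shared.OMin

open Set Filter Topology

variable {α β γ : Type}
  [NormedAddCommGroup α] [NormedSpace ℝ α] [FiniteDimensional ℝ α]
  [NormedAddCommGroup β] [NormedSpace ℝ β] [FiniteDimensional ℝ β]
  [NormedAddCommGroup γ] [NormedSpace ℝ γ] [FiniteDimensional ℝ γ] {S : OStr}

/-- Induction on finite dimensional real normed spaces. -/
theorem findim_induction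
    (P : ∀ (α : Type) [NormedAddCommGroup α] [NormedSpace ℝ α] [FiniteDimensional ℝ α], Prop)
    (h0 : ∀ (α : Type) [NormedAddCommGroup α] [NormedSpace ℝ α] [FiniteDimensional ℝ α],
      Subsingleton α → P α)
    (h1 : ∀ (α : Type) [NormedAddCommGroup α] [NormedSpace ℝ α] [FiniteDimensional ℝ α],
      P α → P (α × ℝ))
    (h2 : ∀ (α β : Type) [NormedAddCommGroup α] [NormedSpace ℝ α] [FiniteDimensional ℝ α]
      [NormedAddCommGroup β] [NormedSpace ℝ β] [FiniteDimensional ℝ β], (α ≃L[ℝ] β) → P α → P β)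
    (α : Type) [NormedAddCommGroup α] [NormedSpace ℝ α] [FiniteDimensional ℝ α] : P α := by
  obtain ⟨n, hn⟩ : ∃ n, Module.finrank ℝ α = n := ⟨_, rfl⟩
  induction n generalizing α with
  | zero => exact h0 α (Module.finrank_zero_iff.1 hn)
  | succ n ih =>
    refine h2 ((Fin n → ℝ) × ℝ) α (ContinuousLinearEquiv.ofFinrankEq ?_)
      (h1 _ (ih _ (by simp)))
    simp [hn]

theorem interior_eq_empty_of_forall {X : Type*} [TopologicalSpace X] {s : Set X}
    (h : ∀ W, IsOpen W → W.Nonempty → W ⊆ s → False) : interior s = ∅ := by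
  by_contra hne
  exact h _ isOpen_interior (nonempty_iff_ne_empty.2 hne) interior_subset

theorem interior_nonempty_of_open {X : Type*} [TopologicalSpace X] {s W : Set X}
    (hW : IsOpen W) (hne : W.Nonempty) (h : W ⊆ s) : (interior s).Nonempty :=
  hne.mono (interior_maximal h hW)

theorem baire_aux
    (H : ∀ s : Set α, (DP S fun x => x ∈ s) → interior s = ∅ → interior (closure s) = ∅)
    {ι : Type} [Countable ι] {s : ι → Set α} (h : ∀ i, DP S fun x => x ∈ s i)
    {V : Set α} (hV : IsOpen V) (hne : V.Nonempty) (hc : V ⊆ ⋃ i, s i) :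
    ∃ i, (interior (s i ∩ V)).Nonempty := by
  by_contra hcon
  push Not at hcon
  have : CompleteSpace α := FiniteDimensional.complete ℝ α
  have hd : ∀ i, Dense (closure (s i \ interior (s i)))ᶜ := fun i => by
    rw [← interior_eq_empty_iff_dense_compl]
    refine H _ ((h i).and (DP.set_interior (h i)).not) ?_
    refine interior_eq_empty_of_forall fun W hW ⟨x, hx⟩ hs => ?_
    exact (hs hx).2 (interior_maximal (fun y hy => (hs hy).1) hW hx)
  obtain ⟨x, hx1, hx2⟩ := (dense_iInter_of_isOpen (fun i => isClosed_closure.isOpen_compl)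
    hd).inter_open_nonempty V hV hne
  obtain ⟨i, hi⟩ := mem_iUnion.1 (hc hx1)
  refine mem_iInter.1 hx2 i (subset_closure ⟨hi, fun hin => ?_⟩)
  have : x ∈ interior (s i ∩ V) := by
    rw [interior_inter, hV.interior_eq]
    exact ⟨hin, hx1⟩
  rw [hcon i] at this
  exact this

theorem DP.exists_rat_Ioo {P : ℝ → Prop} (h : DP S P) {c d : ℝ} (hcd : c < d) :
    ∃ p q : ℚ, c < p ∧ (p : ℝ) < q ∧ q < d ∧
      ((∀ t : ℝ, p < t → t < q → P t) ∨ ∀ t : ℝ, p < t → t < q → ¬ P t) := by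
  have key : ∀ Q : ℝ → Prop, (∀ᶠ s in 𝓝[>] c, Q s) →
      ∃ p q : ℚ, c < p ∧ (p : ℝ) < q ∧ q < d ∧ ∀ t : ℝ, p < t → t < q → Q t := by
    intro Q hQ
    obtain ⟨e, he, hsub⟩ := mem_nhdsGT_iff_exists_Ioo_subset.1 hQ
    obtain ⟨p, hp1, hp2⟩ := exists_rat_btwn (lt_min (mem_Ioi.1 he) hcd)
    obtain ⟨q, hq1, hq2⟩ := exists_rat_btwn hp2
    exact ⟨p, q, hp1, hq1, hq2.trans_le (min_le_right _ _), fun t h1 h2 =>
      hsub ⟨hp1.trans h1, h2.trans (hq2.trans_le (min_le_left _ _))⟩⟩
  rcases h.ev_right c with h1 | h1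
  · obtain ⟨p, q, a1, a2, a3, a4⟩ := key _ h1
    exact ⟨p, q, a1, a2, a3, .inl a4⟩
  · obtain ⟨p, q, a1, a2, a3, a4⟩ := key _ h1
    exact ⟨p, q, a1, a2, a3, .inr a4⟩

/-- Definable sets with empty interior are nowhere dense. Induction on the dimension: for `X` in
`R^n x R` dense in a box, cover the base by the sets of `a` whose fibre contains or misses a given
rational interval, and use Baire and the induction hypothesis. -/
theorem DP.interior_closure {s : Set α} (h : DP S fun x => x ∈ s) (hs : interior s = ∅) :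
    interior (closure s) = ∅ := by
  revert s
  refine findim_induction (fun α _ _ _ => ∀ {s : Set α}, (DP S fun x => x ∈ s) →
    interior s = ∅ → interior (closure s) = ∅) ?_ ?_ ?_ α
  · intro α _ _ _ _ s _ hs
    rwa [(isClosed_discrete s).closure_eq]
  · intro α _ _ _ ih X hX hs
    refine interior_eq_empty_of_forall fun W hW ⟨⟨a, t⟩, hx⟩ hsub => ?_
    obtain ⟨U, J, hU, hJ, ha, ht, hUJ⟩ := isOpen_prod_iff.1 hW a t hx
    obtain ⟨c, d, ⟨hc, hd⟩, hcd⟩ := mem_nhds_iff_exists_Ioo_subset.1 (hJ.mem_nhds ht)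
    let A : ℚ × ℚ × Bool → Set α := fun i =>
      {a | (c < i.1 ∧ (i.1 : ℝ) < i.2.1 ∧ i.2.1 < d) ∧
        ∀ t : ℝ, i.1 < t → t < i.2.1 → ((a, t) ∈ X ↔ i.2.2 = true)}
    have hA : ∀ i, DP S fun a => a ∈ A i := fun i => by
      simp only [A, mem_ofPred_eq]
      refine (DP.const _).and (DP.all ?_)
      have : DP S fun z : α × ℝ => (z.1, z.2) ∈ X := hX
      fun_prop
    obtain ⟨⟨p, q, b⟩, hi⟩ := baire_aux (fun s => ih) hA hU ⟨a, ha⟩ (fun a' _ => by
      have h1 : DP S fun t : ℝ => (a', t) ∈ X := hX.mem (by fun_prop)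
      obtain ⟨p, q, a1, a2, a3, a4 | a4⟩ := h1.exists_rat_Ioo (hc.trans hd)
      · exact mem_iUnion.2 ⟨(p, q, true), ⟨a1, a2, a3⟩, fun t h1 h2 => by simp [a4 t h1 h2]⟩
      · exact mem_iUnion.2 ⟨(p, q, false), ⟨a1, a2, a3⟩, fun t h1 h2 => by simp [a4 t h1 h2]⟩)
    obtain ⟨a', ha'⟩ := id hi
    obtain ⟨⟨⟨a1, a2, a3⟩, -⟩, -⟩ := interior_subset ha'
    have hO : IsOpen (interior (A (p, q, b) ∩ U) ×ˢ Ioo (p : ℝ) q) :=
      isOpen_interior.prod isOpen_Ioo
    have hOne : (interior (A (p, q, b) ∩ U) ×ˢ Ioo (p : ℝ) q).Nonempty :=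
      hi.prod (nonempty_Ioo.2 a2)
    cases b
    · obtain ⟨⟨u, v⟩, hu, hv⟩ := hOne
      have h3 : (u, v) ∈ closure X := hsub (hUJ ⟨(interior_subset hu).2,
        hcd ⟨a1.trans hv.1, hv.2.trans a3⟩⟩)
      obtain ⟨⟨u', v'⟩, ⟨hu', hv'⟩, h4⟩ := mem_closure_iff.1 h3 _ hO ⟨hu, hv⟩
      simpa using ((interior_subset hu').1.2 v' hv'.1 hv'.2).1 h4
    · have := interior_nonempty_of_open (s := X) hO hOne fun z hz =>
        ((interior_subset hz.1).1.2 z.2 hz.2.1 hz.2.2).2 rfl
      rw [hs] at this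
      exact not_nonempty_empty this
  · intro α β _ _ _ _ _ _ e ih s h hs
    have h1 := ih (s := e ⁻¹' s) (h.clm (e : α →L[ℝ] β)) (by
      rw [← e.coe_toHomeomorph, ← Homeomorph.preimage_interior, hs, preimage_empty])
    rw [← e.coe_toHomeomorph, ← Homeomorph.preimage_closure, ← Homeomorph.preimage_interior,
      preimage_eq_empty_iff, e.toHomeomorph.surjective.range_eq, disjoint_univ] at h1
    exact h1

theorem DP.baire {ι : Type} [Countable ι] {s : ι → Set α} (h : ∀ i, DP S fun x => x ∈ s i)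
    {V : Set α} (hV : IsOpen V) (hne : V.Nonempty) (hc : V ⊆ ⋃ i, s i) :
    ∃ i, (interior (s i ∩ V)).Nonempty :=
  baire_aux (fun _ => DP.interior_closure) h hV hne hc

/-- Baire in predicate form. -/
theorem DP.baire' {ι : Type} [Countable ι] {P : ι → α → Prop} (h : ∀ i, DP S (P i))
    {V : Set α} (hV : IsOpen V) (hne : V.Nonempty) (hc : ∀ x ∈ V, ∃ i, P i x) :
    ∃ i, ∃ W, IsOpen W ∧ W.Nonempty ∧ W ⊆ V ∧ ∀ x ∈ W, P i x := by
  obtain ⟨i, hi⟩ := DP.baire (s := fun i => {x | P i x}) h hV hne fun x hx => mem_iUnion.2 (hc x hx)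
  exact ⟨i, _, isOpen_interior, hi, fun x hx => (interior_subset hx).2,
    fun x hx => (interior_subset hx).1⟩

/-- A definable property that fails on a set with empty interior holds on a smaller open set. -/
theorem DP.exists_open {P : α → Prop} (h : DP S P) (hP : interior {x | ¬ P x} = ∅)
    {V : Set α} (hV : IsOpen V) (hne : V.Nonempty) :
    ∃ W, IsOpen W ∧ W.Nonempty ∧ W ⊆ V ∧ ∀ x ∈ W, P x := by
  have h1 := DP.interior_closure (s := {x | ¬ P x}) h.not hP
  rw [interior_eq_empty_iff_dense_compl] at h1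
  refine ⟨V ∩ (closure {x | ¬ P x})ᶜ, hV.inter isClosed_closure.isOpen_compl,
    h1.inter_open_nonempty V hV hne, inter_subset_left, fun x hx => ?_⟩
  by_contra hx'
  exact hx.2 (subset_closure hx')

theorem DP.interior_union {s t : Set α} (hs : DP S fun x => x ∈ s) (h1 : interior s = ∅)
    (h2 : interior t = ∅) : interior (s ∪ t) = ∅ := by
  have := interior_mono (union_subset_union_left t (subset_closure (s := s)))
  rw [interior_union_isClosed_of_interior_empty isClosed_closure h2,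
    hs.interior_closure h1] at this
  exact subset_empty_iff.1 this

theorem DP.interior_frontier {s : Set α} (h : DP S fun x => x ∈ s) :
    interior (frontier s) = ∅ := by
  refine interior_eq_empty_of_forall fun W hW hne hsub => ?_
  obtain ⟨b, V, hV, ⟨x, hx⟩, hVW, hb⟩ := DP.baire' (S := S)
    (P := fun (b : Bool) x => x ∈ s ↔ b = true) (fun b => h.iff (DP.const _)) hW hne
    (fun x _ => by
      by_cases hx : x ∈ s
      · exact ⟨true, by simp [hx]⟩
      · exact ⟨false, by simp [hx]⟩)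
  have hf := hsub (hVW hx)
  cases b
  · obtain ⟨y, hy1, hy2⟩ := mem_closure_iff.1 hf.1 V hV hx
    simpa using (hb y hy1).1 hy2
  · exact hf.2 (interior_maximal (fun y hy => (hb y hy).2 rfl) hV hx)

/-- A countable basis of definable nonempty open sets. -/
theorem exists_dbasis (S : OStr) (β : Type) [NormedAddCommGroup β] [NormedSpace ℝ β]
    [FiniteDimensional ℝ β] : ∃ B : ℕ × ℕ → Set β, (∀ i, DP S fun y => y ∈ B i) ∧
      (∀ i, IsOpen (B i)) ∧ (∀ i, (B i).Nonempty) ∧
      ∀ y, ∀ W ∈ 𝓝 y, ∃ i, y ∈ B i ∧ B i ⊆ W := by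
  obtain ⟨ν, C, h1, h2, hC, h3⟩ := exists_dnorm S β
  have : ProperSpace β := FiniteDimensional.proper ℝ β
  let c := TopologicalSpace.denseSeq β
  refine ⟨fun i => {y | ν (y - c i.1) < 1 / (i.2 + 1)}, fun i => ?_, fun i => ?_, fun i => ?_,
    fun y W hW => ?_⟩
  · simp only [mem_ofPred_eq]
    fun_prop
  · exact isOpen_lt (by fun_prop) continuous_const
  · refine ⟨c i.1, ?_⟩
    have := (h3 0).2
    simp only [mem_ofPred_eq, sub_self]
    rw [norm_zero, mul_zero] at this
    exact this.trans_lt (by positivity)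
  · obtain ⟨ε, hε, hb⟩ := Metric.mem_nhds_iff.1 hW
    obtain ⟨m, hm⟩ := exists_nat_one_div_lt (show 0 < ε / 2 / C by positivity)
    obtain ⟨n, hn⟩ := (TopologicalSpace.denseRange_denseSeq β).exists_dist_lt y
      (show 0 < min (1 / ((m : ℝ) + 1) / C) (ε / 2) by positivity)
    rw [dist_eq_norm, lt_min_iff] at hn
    refine ⟨(n, m), ?_, fun z hz => hb ?_⟩
    · exact (h3 _).2.trans_lt (by rw [mul_comm]; exact (lt_div_iff₀ hC).1 hn.1)
    · have e1 : ‖z - c n‖ < ε / 2 := by
        refine (h3 _).1.trans_lt ?_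
        rw [mul_comm]
        exact (lt_div_iff₀ hC).1 (lt_trans hz hm)
      rw [Metric.mem_ball, dist_eq_norm]
      calc ‖z - y‖ = ‖(z - c n) - (y - c n)‖ := by congr 1; abel
        _ ≤ ‖z - c n‖ + ‖y - c n‖ := norm_sub_le _ _
        _ < ε := by linarith [hn.2]

theorem DP.fubini {X : Set (α × β)} (h : DP S fun z => z ∈ X)
    (hX : (interior {a | (interior {b | (a, b) ∈ X}).Nonempty}).Nonempty) :
    (interior X).Nonempty := by
  obtain ⟨B, h1, h2, h3, h4⟩ := exists_dbasis S β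
  obtain ⟨i, W, hW, hne, -, hP⟩ := DP.baire' (S := S)
    (P := fun i a => ∀ b, b ∈ B i → (a, b) ∈ X) (fun i => DP.all
      (((h1 i).mem (by fun_prop)).imp h)) isOpen_interior hX (fun a ha => by
      obtain ⟨b, hb⟩ := interior_subset ha
      obtain ⟨i, -, hi⟩ := h4 b _ (mem_interior_iff_mem_nhds.1 hb)
      exact ⟨i, fun b hb => hi hb⟩)
  exact interior_nonempty_of_open (hW.prod (h2 i)) (hne.prod (h3 i)) fun z hz =>
    hP z.1 hz.1 z.2 hz.2

/-- Baire applied to the sets of points where `f` jumps out of a basic open set. -/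
theorem DF.generic_continuous {f : α → β} (hf : DF S f) :
    interior {x | ¬ ContinuousAt f x} = ∅ := by
  obtain ⟨B, h1, h2, -, h4⟩ := exists_dbasis S β
  refine interior_eq_empty_of_forall fun V hV hne hsub => ?_
  obtain ⟨i, W, hW, ⟨x, hx⟩, -, hP⟩ := DP.baire' (S := S)
    (P := fun i x => f x ∈ B i ∧ ¬ ∀ᶠ y in 𝓝 x, f y ∈ B i) (fun i => ((h1 i).mem hf).and
      (DP.ev_nhds (P := fun _ y => f y ∈ B i) ((h1 i).mem (by fun_prop)) DF.id').not) hV hne
    (fun x hx => by
      by_contra hcon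
      push Not at hcon
      refine hsub hx fun U hU => ?_
      obtain ⟨i, a1, a2⟩ := h4 _ U hU
      exact (hcon i a1).mono fun y hy => a2 hy)
  exact (hP x hx).2 (mem_of_superset (hW.mem_nhds hx) fun y hy => (hP y hy).1)

theorem DF.generic_diff_real {f : ℝ → ℝ} (hf : DF S f) :
    interior {x | ¬ DifferentiableAt ℝ f x} = ∅ := by
  refine interior_eq_empty_of_forall fun V hV hne hsub => ?_
  obtain ⟨⟨n, σ⟩, W, hW, ⟨x, hx⟩, hWV, hP⟩ := DP.baire' (S := S)
    (P := fun (i : ℕ × Bool) (x : ℝ) => ∀ y : ℝ, x < y → y < x + 1 / ((i.1 : ℝ) + 1) →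
      (if i.2 then 1 else -1) * f x ≤ (if i.2 then 1 else -1) * f y)
    (fun i => by fun_prop) hV hne (fun x _ => by
      have key : ∀ Q : ℝ → Prop, (∀ᶠ s in 𝓝[>] x, Q s) →
          ∃ n : ℕ, ∀ y : ℝ, x < y → y < x + 1 / ((n : ℝ) + 1) → Q y := by
        intro Q hQ
        obtain ⟨e, he, hsub⟩ := mem_nhdsGT_iff_exists_Ioo_subset.1 hQ
        obtain ⟨n, hn⟩ := exists_nat_one_div_lt (sub_pos.2 (mem_Ioi.1 he))
        exact ⟨n, fun y h1 h2 => hsub ⟨h1, by linarith⟩⟩
      rcases DP.ev_right (S := S) (P := fun y => f x ≤ f y) (by fun_prop) x with h1 | h1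
      · obtain ⟨n, hn⟩ := key _ h1
        exact ⟨(n, true), fun y a1 a2 => by simpa using hn y a1 a2⟩
      · obtain ⟨n, hn⟩ := key _ h1
        exact ⟨(n, false), fun y a1 a2 => by simpa using (not_le.1 (hn y a1 a2)).le⟩)
  set c : ℝ := if σ then 1 else -1 with hc
  have hc0 : c ≠ 0 := by cases σ <;> simp [hc]
  obtain ⟨ε, hε, hb⟩ := Metric.isOpen_iff.1 hW x hx
  have hpos : (0 : ℝ) < 1 / (n + 1) := by positivity
  let I := Ioo x (x + Min.min ε (1 / ((n : ℝ) + 1)))
  have hI : I ⊆ W := fun y hy => hb (by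
    rw [Metric.mem_ball, Real.dist_eq, abs_lt]
    constructor <;> linarith [hy.1, hy.2, min_le_left ε (1 / ((n : ℝ) + 1))])
  have hm : MonotoneOn (fun y => c * f y) I := fun y hy z hz hyz => by
    rcases hyz.eq_or_lt with rfl | hlt
    · exact le_rfl
    · exact hP y (hI hy) z hlt (by linarith [hy.1, hz.2, min_le_right ε (1 / ((n : ℝ) + 1))])
  have hae := hm.ae_differentiableWithinAt measurableSet_Ioo
  have hne' : (MeasureTheory.volume.restrict I) ≠ 0 := by
    rw [Ne, MeasureTheory.Measure.restrict_eq_zero, Real.volume_Ioo, ENNReal.ofReal_eq_zero,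
      not_le]
    linarith [lt_min hε hpos]
  have : NeZero (MeasureTheory.volume.restrict I) := ⟨hne'⟩
  obtain ⟨y, hy1, hy2⟩ := ((MeasureTheory.ae_restrict_mem measurableSet_Ioo).and hae).exists
  refine hsub (hWV (hI hy1)) ?_
  have := (hy2.differentiableAt (isOpen_Ioo.mem_nhds hy1)).const_mul c⁻¹
  simpa [← mul_assoc, inv_mul_cancel₀ hc0] using this

theorem DF.generic_diff_scalar {f : α → ℝ} (hf : DF S f) :
    interior {x | ¬ DifferentiableAt ℝ f x} = ∅ := by
  revert f
  refine findim_induction (fun α _ _ _ => ∀ {f : α → ℝ}, DF S f →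
    interior {x | ¬ DifferentiableAt ℝ f x} = ∅) ?_ ?_ ?_ α
  · intro α _ _ _ _ f _
    refine interior_eq_empty_of_forall fun W _ ⟨x, hx⟩ hsub => hsub hx ?_
    rw [show f = fun _ => f x from funext fun y => by rw [Subsingleton.elim y x]]
    exact differentiableAt_const _
  · intro α _ _ _ ih f hf
    refine interior_eq_empty_of_forall fun V hV hne hsub => ?_
    have d1 : DF S fun z : (α × ℝ) × α => f (z.2, z.1.2) := by fun_prop
    have d2 : DF S fun z : (α × ℝ) × ℝ => f (z.1.1, z.2) := by fun_prop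
    obtain ⟨W1, o1, n1, s1, p1⟩ := DP.exists_open (S := S)
      (P := fun z : α × ℝ => DifferentiableAt ℝ (fun a => f (a, z.2)) z.1)
      (DP.diffAt (f := fun (z : α × ℝ) a => f (a, z.2)) d1 (by fun_prop))
      (interior_eq_empty_of_forall fun W hW ⟨z, hz⟩ hs => by
        have := interior_nonempty_of_open (W := (fun a => (a, z.2)) ⁻¹' W)
          (s := {a | ¬ DifferentiableAt ℝ (fun a => f (a, z.2)) a})
          (hW.preimage (by fun_prop)) ⟨z.1, hz⟩ fun a ha => hs ha
        rw [ih (by fun_prop)] at this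
        exact not_nonempty_empty this) hV hne
    obtain ⟨W2, o2, n2, s2, p2⟩ := DP.exists_open (S := S)
      (P := fun z : α × ℝ => DifferentiableAt ℝ (fun t => f (z.1, t)) z.2)
      (DP.diffAt (f := fun (z : α × ℝ) t => f (z.1, t)) d2 (by fun_prop))
      (interior_eq_empty_of_forall fun W hW ⟨z, hz⟩ hs => by
        have := interior_nonempty_of_open (W := (fun t => (z.1, t)) ⁻¹' W)
          (s := {t | ¬ DifferentiableAt ℝ (fun t => f (z.1, t)) t})
          (hW.preimage (by fun_prop)) ⟨z.2, hz⟩ fun a ha => hs ha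
        rw [DF.generic_diff_real (S := S) (by fun_prop)] at this
        exact not_nonempty_empty this) o1 n1
    have e1 : DF S fun z : α × ℝ => fderiv ℝ (fun a => f (a, z.2)) z.1 :=
      DF.fderiv_fam (f := fun (z : α × ℝ) a => f (a, z.2)) d1 (by fun_prop)
    have e2 : DF S fun z : α × ℝ => fderiv ℝ (fun t => f (z.1, t)) z.2 :=
      DF.fderiv_fam (f := fun (z : α × ℝ) t => f (z.1, t)) d2 (by fun_prop)
    obtain ⟨W3, o3, n3, s3, p3⟩ := DP.exists_open (S := S)
      (DP.contAt (f := fun (_ z : α × ℝ) => fderiv ℝ (fun a => f (a, z.2)) z.1)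
        (e1.comp (by fun_prop)) DF.id') e1.generic_continuous o2 n2
    obtain ⟨W4, o4, ⟨z, hz⟩, s4, p4⟩ := DP.exists_open (S := S)
      (DP.contAt (f := fun (_ z : α × ℝ) => fderiv ℝ (fun t => f (z.1, t)) z.2)
        (e2.comp (by fun_prop)) DF.id') e2.generic_continuous o3 n3
    refine hsub (s1 (s2 (s3 (s4 hz)))) ?_
    exact (hasStrictFDerivAt_uncurry_coprod (𝕜 := ℝ) (u := z) (f := fun a t => f (a, t))
      (f₁ := fun a t => fderiv ℝ (fun a => f (a, t)) a)
      (f₂ := fun a t => fderiv ℝ (fun t => f (a, t)) t)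
      (mem_of_superset (o4.mem_nhds hz) fun v hv => (p1 v (s2 (s3 (s4 hv)))).hasFDerivAt)
      (mem_of_superset (o4.mem_nhds hz) fun v hv => (p2 v (s3 (s4 hv))).hasFDerivAt)
      (p3 z (s4 hz)) (p4 z hz)).hasFDerivAt.differentiableAt
  · intro α β _ _ _ _ _ _ e ih f hf
    refine interior_eq_empty_of_forall fun V hV ⟨y, hy⟩ hsub => ?_
    have := interior_nonempty_of_open (W := e ⁻¹' V)
      (s := {x | ¬ DifferentiableAt ℝ (fun x => f (e x)) x}) (hV.preimage e.continuous)
      ⟨e.symm y, by simpa using hy⟩ fun x hx h => hsub hx (e.comp_right_differentiableAt_iff.1 h)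
    rw [ih (f := fun x => f (e x)) (hf.comp (DF.clm (e : α →L[ℝ] β)))] at this
    exact not_nonempty_empty this

theorem DP.diffAt_one {f : α → β} (hf : DF S f) : DP S fun x => DifferentiableAt ℝ f x :=
  DP.diffAt (f := fun (_ y : α) => f y) (by fun_prop) DF.id'

theorem DP.contAt_one {f : α → β} (hf : DF S f) : DP S fun x => ContinuousAt f x :=
  DP.contAt (f := fun (_ y : α) => f y) (by fun_prop) DF.id'

/-- Finitely many generic definable properties hold together on a smaller open set. -/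
theorem DP.exists_open_fin {ι : Type} [Finite ι] {P : ι → α → Prop} (h : ∀ i, DP S (P i))
    (hP : ∀ i, interior {x | ¬ P i x} = ∅) {V : Set α} (hV : IsOpen V) (hne : V.Nonempty) :
    ∃ W, IsOpen W ∧ W.Nonempty ∧ W ⊆ V ∧ ∀ x ∈ W, ∀ i, P i x := by
  refine DP.exists_open (DP.fin_and h) (interior_eq_empty_of_forall fun W hW hn hs => ?_) hV hne
  obtain ⟨i, W', a1, a2, -, a3⟩ := DP.baire' (P := fun i x => ¬ P i x) (fun i => (h i).not) hW hn
    fun x hx => not_forall.1 (hs hx)
  have := interior_nonempty_of_open (s := {x | ¬ P i x}) a1 a2 a3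
  rw [hP i] at this
  exact not_nonempty_empty this

theorem DF.generic_diff {f : α → β} (hf : DF S f) :
    interior {x | ¬ DifferentiableAt ℝ f x} = ∅ := by
  refine interior_eq_empty_of_forall fun V hV hne hsub => ?_
  let e : β ≃L[ℝ] (Fin (Module.finrank ℝ β) → ℝ) := ContinuousLinearEquiv.ofFinrankEq (by simp)
  have h1 : ∀ i, DF S fun x => e (f x) i := fun i =>
    (DF.apply i).comp ((DF.clm (e : β →L[ℝ] (Fin (Module.finrank ℝ β) → ℝ))).comp hf)
  obtain ⟨W, -, ⟨x, hx⟩, s1, p1⟩ := DP.exists_open_fin (fun i => DP.diffAt_one (h1 i))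
    (fun i => (h1 i).generic_diff_scalar) hV hne
  exact hsub (s1 hx) (e.comp_differentiableAt_iff.1 (differentiableAt_pi.2 (p1 x hx)))

/-- Definable maps are generically continuously differentiable. -/
theorem DF.generic_contDiff {f : α → β} (hf : DF S f) :
    interior {x | ¬ ContDiffAt ℝ 1 f x} = ∅ := by
  refine interior_eq_empty_of_forall fun V hV hne hsub => ?_
  obtain ⟨W1, o1, n1, s1, p1⟩ := (DP.diffAt_one hf).exists_open hf.generic_diff hV hne
  obtain ⟨W2, o2, ⟨x, hx⟩, s2, p2⟩ := (DP.contAt_one hf.fderiv_one).exists_open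
    hf.fderiv_one.generic_continuous o1 n1
  exact hsub (s1 (s2 hx)) (contDiffAt_one_iff.2 ⟨fderiv ℝ f, W2, o2.mem_nhds hx,
    fun y hy => (p2 y hy).continuousWithinAt, fun y hy => (p1 y (s2 hy)).hasFDerivAt⟩)

/-- A definable germ that does not tend to zero stays away from zero on one side. -/
theorem DF.not_tendsto_zero {h : ℝ → ℝ} (hh : DF S h) (hn : ¬ Tendsto h (𝓝[>] 0) (𝓝 0)) :
    ∃ (n : ℕ) (σ : Bool), ∀ᶠ t in 𝓝[>] 0, 1 / ((n : ℝ) + 1) ≤ (if σ then 1 else -1) * h t := by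
  by_contra hcon
  push Not at hcon
  refine hn (Metric.tendsto_nhds.2 fun ε hε => ?_)
  obtain ⟨n, hn⟩ := exists_nat_one_div_lt hε
  have key : ∀ σ : Bool, ∀ᶠ t in 𝓝[>] 0, ¬ 1 / ((n : ℝ) + 1) ≤ (if σ then 1 else -1) * h t :=
    fun σ => (DP.ev_right (S := S) (by fun_prop) 0).resolve_left
      (not_eventually.2 (by simpa using hcon n σ))
  filter_upwards [key true, key false] with t h1 h2
  simp only [if_true, one_mul, not_le, Bool.false_eq_true, if_false, neg_mul] at h1 h2
  rw [Real.dist_eq, sub_zero, abs_lt]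
  constructor <;> linarith

theorem exists_nat_of_eventually {Q : ℝ → Prop} (hQ : ∀ᶠ s in 𝓝[>] 0, Q s) :
    ∃ m : ℕ, ∀ t, 0 < t → t < 1 / ((m : ℝ) + 1) → Q t := by
  obtain ⟨e, he, hsub⟩ := mem_nhdsGT_iff_exists_Ioo_subset.1 hQ
  obtain ⟨n, hn⟩ := exists_nat_one_div_lt (mem_Ioi.1 he)
  exact ⟨n, fun y h1 h2 => hsub ⟨h1, h2.trans hn⟩⟩

/-- A definable property of the line that fails on a set with empty interior holds for right
germs. -/
theorem DP.ev_right_of_generic {P : ℝ → Prop} (h : DP S P) (hP : interior {t | ¬ P t} = ∅)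
    (a : ℝ) : ∀ᶠ t in 𝓝[>] a, P t := by
  refine (h.ev_right a).resolve_right fun h1 => ?_
  obtain ⟨e, he, hsub⟩ := mem_nhdsGT_iff_exists_Ioo_subset.1 h1
  have := interior_nonempty_of_open isOpen_Ioo (nonempty_Ioo.2 he) hsub
  rw [hP] at this
  exact not_nonempty_empty this

/-- Limits commute with derivatives generically. Otherwise, by Baire, on an open box and for all
`t < t0` the derivative of `G(.,t) - L` in direction v stays above (or below minus) a fixed 1/n,
which contradicts pointwise convergence to 0. -/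
theorem DF.generic_lim_fderiv {G : α × ℝ → ℝ} {L : α → ℝ} (hG : DF S G) (hL : DF S L) (v : α) :
    interior {x | Tendsto (fun t => G (x, t)) (𝓝[>] 0) (𝓝 (L x)) ∧
      ¬ Tendsto (fun t => fderiv ℝ G (x, t) (v, 0)) (𝓝[>] 0) (𝓝 (fderiv ℝ L x v))} = ∅ := by
  refine interior_eq_empty_of_forall fun V hV hne hsub => ?_
  have dG := DP.diffAt_one hG
  have fG := hG.fderiv_one
  have fL := hL.fderiv_one
  obtain ⟨W1, o1, n1, s1, p1⟩ := (DP.diffAt_one hL).exists_open hL.generic_diff hV hne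
  obtain ⟨W2, o2, n2, s2, p2⟩ := DP.exists_open (S := S)
    (P := fun x => ∀ᶠ t in 𝓝[>] 0, DifferentiableAt ℝ G (x, t))
    (DP.ev_nhdsGT (P := fun x t => DifferentiableAt ℝ G (x, t)) dG (DF.const 0))
    (interior_eq_empty_of_forall fun W hW hn hs => by
      have := DP.fubini (S := S) (X := {z | ¬ DifferentiableAt ℝ G z}) dG.not
        (interior_nonempty_of_open hW hn fun x hx => by
          by_contra hcon
          exact hs hx (DP.ev_right_of_generic (S := S) (dG.comp (by fun_prop))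
            (not_nonempty_iff_eq_empty.1 hcon) 0))
      rw [hG.generic_diff] at this
      exact not_nonempty_empty this) o1 n1
  obtain ⟨⟨n, σ, m⟩, W, o3, ⟨x, hx⟩, s3, p3⟩ := DP.baire' (S := S)
    (P := fun (i : ℕ × Bool × ℕ) x => ∀ t : ℝ, 0 < t → t < 1 / ((i.2.2 : ℝ) + 1) →
      DifferentiableAt ℝ G (x, t) ∧ 1 / ((i.1 : ℝ) + 1) ≤
        (if i.2.1 then 1 else -1) * (fderiv ℝ G (x, t) (v, 0) - fderiv ℝ L x v))
    (fun i => by
      refine DP.all (DP.imp (by fun_prop) (DP.imp (by fun_prop) (DP.and dG (DP.le (DF.const _)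
        (DF.mul (DF.const _) (DF.sub (fG.clm_apply (DF.const _))
          ((fL.comp (by fun_prop)).clm_apply (DF.const _)))))))))
    o2 n2 (fun x hx => by
      obtain ⟨n, σ, h1⟩ := DF.not_tendsto_zero (S := S)
        (h := fun t => fderiv ℝ G (x, t) (v, 0) - fderiv ℝ L x v)
        (DF.sub ((fG.comp (by fun_prop)).clm_apply (DF.const _)) (DF.const _))
        (fun h => (hsub (s1 (s2 hx))).2 (tendsto_sub_nhds_zero_iff.1 h))
      obtain ⟨m, hm⟩ := exists_nat_of_eventually ((p2 x hx).and h1)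
      exact ⟨(n, σ, m), hm⟩)
  simp only at p3
  set c : ℝ := if σ then 1 else -1
  have hc : Continuous fun s : ℝ => x + s • v := by fun_prop
  obtain ⟨δ, hδ, hb⟩ := Metric.isOpen_iff.1 (o3.preimage hc) 0 (by simpa using hx)
  have hmem : ∀ s ∈ Icc 0 (δ / 2), x + s • v ∈ W := fun s hs => hb (by
    rw [Metric.mem_ball, Real.dist_eq, sub_zero, abs_lt]
    constructor <;> linarith [hs.1, hs.2])
  have hlim : ∀ s ∈ Icc 0 (δ / 2), Tendsto (fun t => c * (G (x + s • v, t) - L (x + s • v)))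
      (𝓝[>] 0) (𝓝 0) := fun s hs => by
    simpa using (tendsto_sub_nhds_zero_iff.2 (hsub (s1 (s2 (s3 (hmem s hs))))).1).const_mul c
  have hl := (hlim (δ / 2) ⟨by linarith, le_rfl⟩).sub (hlim 0 ⟨le_rfl, by linarith⟩)
  have hpos : 0 < 1 / ((n : ℝ) + 1) * (δ / 2) := by positivity
  refine hpos.not_ge (le_of_le_of_eq (ge_of_tendsto hl ?_) (sub_self 0))
  filter_upwards [Ioo_mem_nhdsGT (show (0 : ℝ) < 1 / ((m : ℝ) + 1) by positivity)] with t ht
  have hd : ∀ s ∈ Icc 0 (δ / 2), HasDerivAt (fun s => c * (G (x + s • v, t) - L (x + s • v)))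
      (c * (fderiv ℝ G (x + s • v, t) (v, 0) - fderiv ℝ L (x + s • v) v)) s := fun s hs => by
    have a1 : HasDerivAt (fun s : ℝ => x + s • v) v s := by
      simpa using ((hasDerivAt_id s).smul_const v).const_add x
    have a2 : HasDerivAt (fun s : ℝ => (x + s • v, t)) (v, 0) s :=
      a1.prodMk (hasDerivAt_const s t)
    exact (((p3 _ (hmem s hs) t ht.1 ht.2).1.hasFDerivAt.comp_hasDerivAt s a2).sub
      ((p1 _ (s2 (s3 (hmem s hs)))).hasFDerivAt.comp_hasDerivAt s a1)).const_mul c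
  obtain ⟨s, hs, e⟩ := exists_hasDerivAt_eq_slope _ _ (half_pos hδ)
    (fun s hs => (hd s hs).continuousAt.continuousWithinAt) fun s hs => hd s (Ioo_subset_Icc_self hs)
  have := (p3 _ (hmem s (Ioo_subset_Icc_self hs)) t ht.1 ht.2).2
  rw [e, sub_zero, le_div_iff₀ (half_pos hδ)] at this
  exact this

/-- For a bounded definable germ `t g'(t)` tends to 0 (otherwise `g (2t) - g t` does not tend
to 0). -/
theorem DF.tendsto_mul_deriv {g : ℝ → ℝ} (hg : DF S g) {M : ℝ} (hb : ∀ᶠ s in 𝓝[>] 0, |g s| ≤ M) :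
    Tendsto (fun t => t * deriv g t) (𝓝[>] 0) (𝓝 0) := by
  by_contra hcon
  obtain ⟨n, σ, h1⟩ := DF.not_tendsto_zero (S := S) (h := fun t => t * deriv g t)
    (DF.mul DF.id' (DF.deriv_fam (f := fun (_ y : ℝ) => g y) (by fun_prop) DF.id')) hcon
  set c : ℝ := if σ then 1 else -1
  obtain ⟨m, hm⟩ := exists_nat_of_eventually
    (((DP.diffAt_one hg).ev_right_of_generic hg.generic_diff 0).and h1)
  obtain ⟨l, hl⟩ := hg.exists_tendsto_right hb
  have h2 : Tendsto (fun t : ℝ => 2 * t) (𝓝[>] 0) (𝓝[>] 0) := by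
    refine tendsto_nhdsWithin_iff.2 ⟨?_, ?_⟩
    · simpa using ((tendsto_id (x := 𝓝 (0 : ℝ))).const_mul 2).mono_left nhdsWithin_le_nhds
    · filter_upwards [self_mem_nhdsWithin] with t ht
      exact mul_pos two_pos (mem_Ioi.1 ht)
  have h3 := ((hl.comp h2).sub hl).const_mul c
  have hpos : 0 < 1 / ((n : ℝ) + 1) / 2 := by positivity
  refine hpos.not_ge (le_of_le_of_eq (ge_of_tendsto h3 ?_) (by simp))
  filter_upwards [Ioo_mem_nhdsGT (show (0 : ℝ) < 1 / ((m : ℝ) + 1) / 2 by positivity)] with t ht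
  have h4 : ∀ s ∈ Icc t (2 * t), 0 < s ∧ s < 1 / ((m : ℝ) + 1) := fun s hs =>
    ⟨ht.1.trans_le hs.1, by linarith [hs.2, ht.2]⟩
  obtain ⟨s, hs, e⟩ := exists_hasDerivAt_eq_slope g (deriv g) (show t < 2 * t by linarith [ht.1])
    (fun s hs => (hm s (h4 s hs).1 (h4 s hs).2).1.continuousAt.continuousWithinAt)
    fun s hs => (hm s (h4 s (Ioo_subset_Icc_self hs)).1
      (h4 s (Ioo_subset_Icc_self hs)).2).1.hasDerivAt
  have h5 := (hm s (h4 s (Ioo_subset_Icc_self hs)).1 (h4 s (Ioo_subset_Icc_self hs)).2).2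
  have h6 : g (2 * t) - g t = t * deriv g s := by
    rw [e, show 2 * t - t = t by ring, mul_div_cancel₀ _ ht.1.ne']
  simp only [Function.comp_apply]
  rw [h6]
  have h7 : 0 < c * deriv g s := by
    have : 0 < s * (c * deriv g s) := by linarith
    exact (pos_iff_pos_of_mul_pos this).1 (ht.1.trans hs.1)
  nlinarith [hs.2]

end Pool.Agent.Shared.OMin
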