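import Pool.Agent.Shared.OMin.TSet

/-! Boundary lemma, part 1: limits along ultrafilters, presentations, reduction to open pieces. -/

namespace Pool.Agent.Shared.OMin.Bd

open Set Filter Topology Module

section lim
variable {I X : Type} [TopologicalSpace X] {𝒰 : Ultrafilter I}

theorem isClosed_lim (𝒰 : Ultrafilter I) (W : I → Set X) : IsClosed (ULim 𝒰 W) := by
  rw [← isOpen_compl_iff, isOpen_iff_mem_nhds]
  intro z hz
  simp only [ULim, mem_compl_iff, mem_ofPred_eq, not_forall] at hz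
  obtain ⟨V, hV, h⟩ := hz
  filter_upwards [eventually_mem_nhds_iff.2 hV] with y hy hy'
  exact h (hy' V hy)

theorem lim_mono {W W' : I → Set X} (h : ∀ i, W i ⊆ W' i) : ULim 𝒰 W ⊆ ULim 𝒰 W' :=
  fun _ hz V hV => (hz V hV).mono fun i hi => hi.mono (inter_subset_inter_left _ (h i))

theorem lim_iUnion {κ : Type} [Finite κ] (W : κ → I → Set X) :
    ULim 𝒰 (fun i => ⋃ c, W c i) = ⋃ c, ULim 𝒰 (W c) := by
  refine Subset.antisymm (fun z hz => ?_)
    (iUnion_subset fun c => lim_mono fun i => subset_iUnion (fun c => W c i) c)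
  by_contra hn
  simp only [mem_iUnion, not_exists, ULim, mem_ofPred_eq, not_forall] at hn
  choose V hV h using hn
  have h1 : ∀ᶠ i in (𝒰 : Filter I), ∀ c, ¬ (W c i ∩ V c).Nonempty :=
    eventually_all.2 fun c => Ultrafilter.eventually_not.2 (h c)
  obtain ⟨i, ⟨x, hx, hx'⟩, h2⟩ := ((hz _ (iInter_mem.2 hV)).and h1).exists
  obtain ⟨c, hc⟩ := mem_iUnion.1 hx
  exact h2 c ⟨x, hc, mem_iInter.1 hx' c⟩

theorem ev_notMem {W : I → Set X} {C : Set X} (hC : IsCompact C)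
    (h : ∀ x ∈ C, x ∉ ULim 𝒰 W) : ∀ᶠ i in (𝒰 : Filter I), ∀ x ∈ C, x ∉ W i := by
  refine hC.induction_on (p := fun C => ∀ᶠ i in (𝒰 : Filter I), ∀ x ∈ C, x ∉ W i)
    (by simp) (fun s t hst ht => ht.mono fun i hi x hx => hi x (hst hx))
    (fun s t hs ht => (hs.and ht).mono fun i hi x hx => hx.elim (hi.1 x) (hi.2 x)) ?_
  intro x hx
  have := h x hx
  simp only [ULim, mem_ofPred_eq, not_forall] at this
  obtain ⟨V, hV, h⟩ := this
  refine ⟨V, mem_nhdsWithin_of_mem_nhds hV, (Ultrafilter.eventually_not.2 h).mono ?_⟩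
  exact fun i hi y hy hy' => hi ⟨y, hy', hy⟩

theorem mem_fst_lim {Y : Type} [TopologicalSpace Y] {W : I → Set (X × Y)} {K : Set Y}
    (hK : IsCompact K) {z : X}
    (h : ∀ V ∈ 𝓝 z, ∀ᶠ i in (𝒰 : Filter I), ∃ w ∈ W i, w.1 ∈ V ∧ w.2 ∈ K) :
    z ∈ Prod.fst '' ULim 𝒰 W := by
  by_contra hn
  have key : ∃ V ∈ 𝓝 z, ∀ᶠ i in (𝒰 : Filter I), ∀ w ∈ W i, w.1 ∈ V → w.2 ∉ K := by
    refine hK.induction_on
      (p := fun K => ∃ V ∈ 𝓝 z, ∀ᶠ i in (𝒰 : Filter I), ∀ w ∈ W i, w.1 ∈ V → w.2 ∉ K)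
      ⟨univ, univ_mem, by simp⟩ ?_ ?_ ?_
    · rintro s t hst ⟨V, hV, h⟩
      exact ⟨V, hV, h.mono fun i hi w hw h1 h2 => hi w hw h1 (hst h2)⟩
    · rintro s t ⟨V, hV, h⟩ ⟨V', hV', h'⟩
      exact ⟨V ∩ V', inter_mem hV hV', (h.and h').mono fun i hi w hw h1 h2 =>
        h2.elim (hi.1 w hw h1.1) (hi.2 w hw h1.2)⟩
    · intro y _
      have : (z, y) ∉ ULim 𝒰 W := fun h' => hn ⟨_, h', rfl⟩
      simp only [ULim, mem_ofPred_eq, not_forall] at this
      obtain ⟨N, hN, h⟩ := this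
      obtain ⟨V, hV, U, hU, hVU⟩ := mem_nhds_prod_iff.1 hN
      refine ⟨U, mem_nhdsWithin_of_mem_nhds hU, V, hV,
        (Ultrafilter.eventually_not.2 h).mono fun i hi w hw h1 h2 => hi ⟨w, hw, hVU ⟨h1, h2⟩⟩⟩
  obtain ⟨V, hV, h'⟩ := key
  obtain ⟨i, ⟨w, hw, h1, h2⟩, h3⟩ := ((h V hV).and h').exists
  exact h3 w hw h1 h2

theorem ev_of_map {γ : Type} {𝒱 : Ultrafilter (I × γ)} (h : 𝒱.map Prod.fst = 𝒰) {P : I → Prop} :
    (∀ᶠ z in (𝒱 : Filter (I × γ)), P z.1) ↔ ∀ᶠ i in (𝒰 : Filter I), P i := by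
  rw [← h, Ultrafilter.coe_map, eventually_map]

theorem lim_map {γ : Type} {𝒱 : Ultrafilter (I × γ)} (h : 𝒱.map Prod.fst = 𝒰) (W : I → Set X) :
    ULim 𝒱 (fun z => W z.1) = ULim 𝒰 W := by
  ext z
  exact forall₂_congr fun V _ => ev_of_map h (P := fun i => (W i ∩ V).Nonempty)

end lim

variable {α E E' β β' δ ι I I' : Type}
  [NormedAddCommGroup α] [NormedSpace ℝ α] [FiniteDimensional ℝ α]
  [NormedAddCommGroup E] [NormedSpace ℝ E] [FiniteDimensional ℝ E]
  [NormedAddCommGroup E'] [NormedSpace ℝ E'] [FiniteDimensional ℝ E']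
  [NormedAddCommGroup β] [NormedSpace ℝ β] [FiniteDimensional ℝ β]
  [NormedAddCommGroup β'] [NormedSpace ℝ β'] [FiniteDimensional ℝ β']
  [NormedAddCommGroup δ] [NormedSpace ℝ δ] [FiniteDimensional ℝ δ] {S : OStr}

/-- the conclusion of the boundary lemma -/
def Good (S : OStr) (X : Set β) : Prop :=
  ∃ Y, TSet S Y ∧ IsClosed Y ∧ interior Y = ∅ ∧ frontier X ⊆ Y

theorem Good.union {X X' : Set β} (h : Good S X) (h' : Good S X') : Good S (X ∪ X') := by
  obtain ⟨Y, a1, a2, a3, a4⟩ := h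
  obtain ⟨Y', b1, b2, b3, b4⟩ := h'
  refine ⟨Y ∪ Y', a1.union b1, a2.union b2, ?_, fun x hx => ?_⟩
  · rw [interior_union_isClosed_of_interior_empty a2 b3, a3]
  · rcases frontier_union_subset X X' hx with h | h
    exacts [.inl (a4 h.1), .inr (b4 h.2)]

theorem Good.iUnion {κ : Type} [Finite κ] {X : κ → Set β} (h : ∀ c, Good S (X c)) :
    Good S (⋃ c, X c) := by
  classical
  cases nonempty_fintype κ
  have : ∀ s : Finset κ, Good S (⋃ c ∈ s, X c) := by
    intro s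
    induction s using Finset.induction_on with
    | empty => exact ⟨∅, TSet.of_def (DP.const False), isClosed_empty, by simp, by simp⟩
    | insert c s _ ih =>
      rw [Finset.set_biUnion_insert]
      exact (h c).union ih
  simpa using this Finset.univ

/-- a presentation of a Pfaffian family -/
structure Pres (S : OStr) (A O : α → Set E) (ω : ι → α → E → E →L[ℝ] ℝ) (Φ : α → E → β)
    (a : I → α) (L : I → ι → Set E) : Prop where
  data : PfData S A O ω
  dΦ : DF S fun z : α × E => Φ z.1 z.2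
  sm : ∀ a, ContDiffOn ℝ 1 (Φ a) (O a)
  leaf : ∀ i j, IsLeaf (O (a i)) (ω j (a i)) (L i j)

/-- the presented family -/
def fam (A : α → Set E) (Φ : α → E → β) (a : I → α) (L : I → ι → Set E) : I → Set β :=
  fun i => Φ (a i) '' (A (a i) ∩ ⋂ j, L i j)

variable {A O : α → Set E} {ω : ι → α → E → E →L[ℝ] ℝ} {a : I → α} {L : I → ι → Set E}

theorem Pres.pfFam [Finite ι] {Φ : α → E → β} (h : Pres S A O ω Φ a L) :
    PfFam S (fam A Φ a L) :=
  ⟨_, PfFamD.mk' h.data h.dΦ h.sm fun i => ⟨a i, L i, h.leaf i, rfl⟩⟩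

theorem Pres.cut {Φ : α → E → β} (h : Pres S A O ω Φ a L) {B : α × δ → Set E}
    (hB : DP S fun z : (α × δ) × E => z.2 ∈ B z.1) (hs : ∀ p, B p ⊆ O p.1) (r : I' → I)
    (c : I' → δ) : Pres S B (fun p => O p.1) (fun j p => ω j p.1) (fun p => Φ p.1)
      (fun z => (a (r z), c z)) (fun z => L (r z)) where
  data :=
    { dA := hB
      dO := h.data.dO.comp (g := fun z : (α × δ) × E => (z.1.1, z.2)) (by fun_prop)
      dω := fun i => (h.data.dω i).comp (g := fun z : (α × δ) × E => (z.1.1, z.2)) (by fun_prop)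
      openO := fun p => h.data.openO p.1
      sub := hs
      cont := fun i p => h.data.cont i p.1 }
  dΦ := h.dΦ.comp (g := fun z : (α × δ) × E => (z.1.1, z.2)) (by fun_prop)
  sm p := h.sm p.1
  leaf z j := h.leaf (r z) j

theorem Pres.post {Φ : α → E → β} (h : Pres S A O ω Φ a L) (T : β →L[ℝ] β') :
    Pres S A O ω (fun a x => T (Φ a x)) a L where
  data := h.data
  dΦ := (DF.clm T).comp h.dΦ
  sm a := T.contDiff.comp_contDiffOn (h.sm a)
  leaf := h.leaf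

theorem Pres.pull {Φ : α → E → β} (h : Pres S A O ω Φ a L) {D : α → Set E'}
    (hD : DP S fun z : α × E' => z.2 ∈ D z.1) {φ : α → E' → E}
    (hφ : DF S fun z : α × E' => φ z.1 z.2) (ho : ∀ a, IsOpen (D a))
    (hc : ∀ a, ContDiffOn ℝ 1 (φ a) (D a)) (hm : ∀ a, MapsTo (φ a) (D a) (O a)) :
    Pres S D D (fun j a q => (ω j a (φ a q)).comp (fderiv ℝ (φ a) q)) (fun a q => Φ a (φ a q)) a
      (fun i j => D (a i) ∩ φ (a i) ⁻¹' L i j) where
  data :=
    { dA := hD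
      dO := hD
      dω := fun j => DF.clm_comp
        ((h.data.dω j).comp (g := fun z : α × E' => (z.1, φ z.1 z.2)) (DF.prodMk (by fun_prop) hφ))
        (DF.fderiv_fam (f := fun z : α × E' => φ z.1)
          (hφ.comp (g := fun z : (α × E') × E' => (z.1.1, z.2)) (by fun_prop)) (by fun_prop))
      openO := ho
      sub := fun _ => Subset.rfl
      cont := fun j a => ContinuousOn.clm_comp
        ((h.data.cont j a).comp (hc a).continuousOn (hm a))
        ((hc a).continuousOn_fderiv_of_isOpen (ho a) le_rfl) }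
  dΦ := h.dΦ.comp (g := fun z : α × E' => (z.1, φ z.1 z.2)) (DF.prodMk (by fun_prop) hφ)
  sm a := (h.sm a).comp (hc a) (hm a)
  leaf i j := (h.leaf i j).pullback (ho _) (hc _) (hm _)

theorem Pres.shrink {Φ : α → E → β} (h : Pres S A O ω Φ a L) {D : α → Set E}
    (hD : DP S fun z : α × E => z.2 ∈ D z.1) (ho : ∀ a, IsOpen (D a)) (hs : ∀ a, D a ⊆ O a) :
    Pres S D D ω Φ a (fun i j => D (a i) ∩ L i j) where
  data :=
    { dA := hD
      dO := hD
      dω := h.data.dω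
      openO := ho
      sub := fun _ => Subset.rfl
      cont := fun j a => (h.data.cont j a).mono (hs a) }
  dΦ := h.dΦ
  sm a := (h.sm a).mono (hs a)
  leaf i j := ((h.leaf i j).pullback (φ := id) (ho _) contDiffOn_id (hs _)).congr (ho _)
    fun q _ => by simp

theorem Pres.sub {Φ : α → E → β} (h : Pres S A O ω Φ a L) {B : α → Set E}
    (hB : DP S fun z : α × E => z.2 ∈ B z.1) (hs : ∀ a, B a ⊆ O a) : Pres S B O ω Φ a L where
  data := { h.data with dA := hB, sub := hs }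
  dΦ := h.dΦ
  sm := h.sm
  leaf := h.leaf

/-- the boundary lemma for data on a space of dimension `d` -/
def BL (S : OStr) (β β' : Type) [NormedAddCommGroup β] [NormedSpace ℝ β] [FiniteDimensional ℝ β]
    [NormedAddCommGroup β'] [NormedSpace ℝ β'] [FiniteDimensional ℝ β'] (d : ℕ) : Prop :=
  ∀ (α ι I : Type) [NormedAddCommGroup α] [NormedSpace ℝ α] [FiniteDimensional ℝ α] [Finite ι]
    (A O : α → Set (Fin d → ℝ)) (ω : ι → α → (Fin d → ℝ) → (Fin d → ℝ) →L[ℝ] ℝ)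
    (Φ : α → (Fin d → ℝ) → β × β') (a : I → α) (L : I → ι → Set (Fin d → ℝ)),
    Pres S A O ω Φ a L → ∀ 𝒰 : Ultrafilter I, Good S (Prod.fst '' ULim 𝒰 (fam A Φ a L))

omit [NormedSpace ℝ β'] [FiniteDimensional ℝ β'] in
theorem good_of_cover {κ : Type} [Finite κ] {W : I → Set (β × β')} {V : κ → I → Set (β × β')}
    (𝒰 : Ultrafilter I) (e : ∀ i, W i = ⋃ c, V c i)
    (h : ∀ c, Good S (Prod.fst '' ULim 𝒰 (V c))) : Good S (Prod.fst '' ULim 𝒰 W) := by
  rw [funext e, lim_iUnion, image_iUnion]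
  exact Good.iUnion h

theorem thin [Finite ι] {Φ : α → E → β × β'} (IH : ∀ d < finrank ℝ E, BL S β β' d)
    (h : Pres S A O ω Φ a L) (he : ∀ a, interior (A a) = ∅) (𝒰 : Ultrafilter I) :
    Good S (Prod.fst '' ULim 𝒰 (fam A Φ a L)) := by
  obtain ⟨N, d, D, φ, h1, h2⟩ := DP.param h.data.dA he
  have hm : ∀ j a, MapsTo (φ j a) (D j a) (A a) := fun j a q hq => by
    rw [h2 a]; exact mem_iUnion.2 ⟨j, q, hq, rfl⟩
  refine good_of_cover 𝒰 (V := fun j => fam (D j) (fun a q => Φ a (φ j a q)) a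
    (fun i k => D j (a i) ∩ φ j (a i) ⁻¹' L i k)) (fun i => ?_) fun j => ?_
  · ext w
    simp only [fam, mem_iUnion, mem_image, mem_inter_iff, mem_iInter, mem_preimage]
    constructor
    · rintro ⟨x, ⟨hx, hx'⟩, rfl⟩
      rw [h2] at hx
      obtain ⟨j, q, hq, rfl⟩ := mem_iUnion.1 hx
      exact ⟨j, q, ⟨hq, fun k => ⟨hq, hx' k⟩⟩, rfl⟩
    · rintro ⟨j, q, ⟨hq, hq'⟩, rfl⟩
      exact ⟨_, ⟨hm j _ hq, fun k => (hq' k).2⟩, rfl⟩
  · obtain ⟨b1, b2, b3, b4⟩ := h1 j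
    exact IH _ b1 _ _ _ _ _ _ _ _ _ (h.pull b2 b3 (fun a => (b4 a).1) (fun a => (b4 a).2)
      fun a => (hm j a).mono_right (h.data.sub a)) 𝒰

theorem reduce [Finite ι] {Φ : α → E → β × β'} (IH : ∀ d < finrank ℝ E, BL S β β' d)
    (h : Pres S A O ω Φ a L) {κ : Type} [Finite κ] {P : κ → α → Set E}
    (hP : ∀ c, DP S fun z : α × E => z.2 ∈ P c z.1) (hcov : ∀ a x, ∃ c, x ∈ P c a)
    (𝒰 : Ultrafilter I)
    (H : ∀ c (D : α → Set E) (L' : I → ι → Set E), Pres S D D ω Φ a L' → (∀ a, D a ⊆ P c a) →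
      (∀ a, D a ⊆ O a) → Good S (Prod.fst '' ULim 𝒰 (fam D Φ a L'))) :
    Good S (Prod.fst '' ULim 𝒰 (fam A Φ a L)) := by
  let D : κ → α → Set E := fun c a => interior (A a ∩ P c a)
  have hAP : ∀ c, DP S fun z : α × E => z.2 ∈ A z.1 ∩ P c z.1 := fun c => h.data.dA.and (hP c)
  have hD : ∀ c, DP S fun z : α × E => z.2 ∈ D c z.1 := fun c =>
    DP.mem_interior (A := fun a => A a ∩ P c a) (hAP c)
  have hDA : ∀ c a, D c a ⊆ A a := fun c a => interior_subset.trans inter_subset_left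
  let R : α → Set E := fun a => {x | x ∈ A a ∧ ∀ c, x ∉ D c a}
  have hR : DP S fun z : α × E => z.2 ∈ R z.1 := h.data.dA.and (DP.fin_and fun c => (hD c).not)
  have hRe : ∀ a, interior (R a) = ∅ := by
    intro a
    refine interior_eq_empty_of_forall fun W hW hne hs => ?_
    obtain ⟨c, W', b1, ⟨x, hx⟩, b3, b4⟩ := DP.baire' (S := S) (P := fun c x => x ∈ P c a)
      (fun c => (hP c).comp (g := fun x : E => (a, x)) (by fun_prop)) hW hne fun x _ => hcov a x
    exact (hs (b3 hx)).2 c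
      (interior_maximal (fun y hy => mem_inter (hs (b3 hy)).1 (b4 y hy)) b1 hx)
  refine good_of_cover 𝒰 (κ := Option κ) (V := fun c => Option.casesOn c (fam R Φ a L)
    fun c => fam (D c) Φ a fun i j => D c (a i) ∩ L i j) (fun i => ?_) fun c => ?_
  · ext w
    simp only [fam, mem_iUnion, mem_image, mem_inter_iff, mem_iInter]
    constructor
    · rintro ⟨x, ⟨hx, hx'⟩, rfl⟩
      by_cases hc : ∃ c, x ∈ D c (a i)
      · obtain ⟨c, hc⟩ := hc
        exact ⟨some c, x, ⟨hc, mem_iInter.2 fun k => ⟨hc, hx' k⟩⟩, rfl⟩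
      · exact ⟨none, x, ⟨⟨hx, fun c h' => hc ⟨c, h'⟩⟩, mem_iInter.2 hx'⟩, rfl⟩
    · rintro ⟨_ | c, x, ⟨hx, hx'⟩, rfl⟩
      · exact ⟨x, ⟨hx.1, mem_iInter.1 hx'⟩, rfl⟩
      · exact ⟨x, ⟨hDA c _ hx, fun k => (mem_iInter.1 hx' k).2⟩, rfl⟩
  · rcases c with _ | c
    · exact thin IH (h.sub hR fun a x hx => h.data.sub a hx.1) hRe 𝒰
    · exact H c _ _ (h.shrink (hD c) (fun _ => isOpen_interior)
        fun a => (hDA c a).trans (h.data.sub a))
        (fun a => interior_subset.trans inter_subset_right)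
        fun a => (hDA c a).trans (h.data.sub a)

end Pool.Agent.Shared.OMin.Bd
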