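import Pool.Agent.Shared.OMin.Bdry1

/-! Boundary lemma, part 2: local analysis on intersections of leaves. -/

namespace Pool.Agent.Shared.OMin.Bd

open Set Filter Topology Module Metric

variable {α E β ι : Type}
  [NormedAddCommGroup α] [NormedSpace ℝ α] [FiniteDimensional ℝ α]
  [NormedAddCommGroup E] [NormedSpace ℝ E] [FiniteDimensional ℝ E]
  [NormedAddCommGroup β] [NormedSpace ℝ β] [FiniteDimensional ℝ β] {S : OStr}

/-- the vectors with index in `J` form a basis of the span -/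
def IsBas (w : ι → β) (J : Set ι) : Prop :=
  (LinearIndependent ℝ fun j : J => w j) ∧ ∀ i, w i ∈ Submodule.span ℝ (range fun j : J => w j)

omit [FiniteDimensional ℝ β] in
theorem exists_isBas (w : ι → β) : ∃ J, IsBas w J := by
  obtain ⟨J, h1, h2⟩ := exists_maximal_linearIndepOn ℝ w
  refine ⟨J, h1, fun i => ?_⟩
  by_cases hi : i ∈ J
  · exact Submodule.subset_span ⟨⟨i, hi⟩, rfl⟩
  · obtain ⟨c, hc, h⟩ := h2 i hi
    rw [image_eq_range] at h
    exact (Submodule.smul_mem_iff _ hc).1 h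

theorem dp_isBas [Finite ι] {w : ι → α → β} (h : ∀ i, DF S (w i)) (J : Set ι) :
    DP S fun x => IsBas (fun i => w i x) J := by
  cases nonempty_fintype J
  have h1 : DF S fun z : α × (J → ℝ) => ∑ j : J, z.2 j • w j z.1 :=
    DF.sum _ fun j _ => DF.smul ((DF.apply j).comp (by fun_prop)) ((h j).comp (by fun_prop))
  refine (DP.and (DP.all (P := fun x (g : J → ℝ) => ∑ j : J, g j • w j x = 0 → g = 0)
    ((DP.eq h1 (DF.const 0)).imp (by fun_prop)))
    (DP.fin_and fun i => DP.ex (P := fun x (g : J → ℝ) => ∑ j : J, g j • w j x = w i x)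
      (DP.eq h1 ((h i).comp (by fun_prop))))).congr fun x => ?_
  simp only [IsBas, Fintype.linearIndependent_iff, Submodule.mem_span_range_iff_exists_fun,
    funext_iff, Pi.zero_apply]

/-- common kernel -/
def cker (w : ι → E →L[ℝ] ℝ) : Submodule ℝ E := ⨅ i, LinearMap.ker (w i : E →ₗ[ℝ] ℝ)

omit [FiniteDimensional ℝ E] in
theorem mem_cker {w : ι → E →L[ℝ] ℝ} {v : E} : v ∈ cker w ↔ ∀ i, w i v = 0 := by
  simp [cker]

variable {O : Set E} {ω : ι → E → E →L[ℝ] ℝ} {L : ι → Set E}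

theorem chart [Finite ι] (hO : IsOpen O) (hL : ∀ i, IsLeaf O (ω i) (L i)) {J : Set ι}
    (hJ : ∀ x ∈ O, IsBas (fun i => ω i x) J) {p : E} (hp : p ∈ O ∩ ⋂ i, L i) :
    ∃ σ : cker (fun i => ω i p) → E, ContDiffAt ℝ 1 σ 0 ∧ σ 0 = p ∧
      HasFDerivAt σ (cker fun i => ω i p).subtypeL 0 ∧ map σ (𝓝 0) = 𝓝[O ∩ ⋂ i, L i] p := by
  obtain ⟨σ, h1, h2, h3, h4, -⟩ := leaf_chart hO hL J hp.1 (mem_iInter.1 hp.2) (hJ p hp.1).1
    ((hO.eventually_mem hp.1).mono fun q hq => (hJ q hq).2) (cker fun i => ω i p) fun v => by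
      rw [mem_cker]
      refine ⟨fun h j _ => h j, fun h i => ?_⟩
      refine Submodule.span_induction (p := fun w _ => w v = 0) ?_ rfl ?_ ?_ ((hJ p hp.1).2 i)
      · rintro _ ⟨j, rfl⟩
        exact h j j.2
      · intro x y _ _ hx hy
        simp [hx, hy]
      · intro c x _ hx
        simp [hx]
  refine ⟨σ, h1, h2, h3, h4.trans (nhdsWithin_inter_of_mem ?_).symm⟩
  exact mem_nhdsWithin_of_mem_nhds (hO.mem_nhds hp.1)

theorem lagrange [Finite ι] (hO : IsOpen O) (hL : ∀ i, IsLeaf O (ω i) (L i)) {J : Set ι}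
    (hJ : ∀ x ∈ O, IsBas (fun i => ω i x) J) {p : E} (hp : p ∈ O ∩ ⋂ i, L i) {μ : E → ℝ}
    {μ' : E →L[ℝ] ℝ} (hμ : HasFDerivAt μ μ' p) (hmin : ∀ y ∈ O ∩ ⋂ i, L i, μ p ≤ μ y) {v : E}
    (hv : ∀ i, ω i p v = 0) : μ' v = 0 := by
  obtain ⟨σ, -, h2, h3, h4⟩ := chart hO hL hJ hp
  have h5 : IsLocalMin (μ ∘ σ) 0 := by
    have : ∀ᶠ y in map σ (𝓝 0), μ p ≤ μ y := by
      rw [h4]; exact eventually_nhdsWithin_of_forall hmin
    simpa [IsLocalMin, IsMinFilter, h2] using this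
  have h6 := h5.hasFDerivAt_eq_zero (HasFDerivAt.comp (0 : cker fun i => ω i p) (h2 ▸ hμ) h3)
  simpa using congrArg (fun T => T ⟨v, mem_cker.2 hv⟩) h6

theorem compact_leaves (hL : ∀ i, IsLeaf O (ω i) (L i)) {K : Set E} (hK : IsCompact K)
    (hs : K ⊆ O) : IsCompact (K ∩ ⋂ i, L i) := by
  have : K ∩ ⋂ i, L i = K ∩ ⋂ i, (O \ L i)ᶜ := by
    ext x
    simp only [mem_inter_iff, mem_iInter, mem_compl_iff, Set.mem_sdiff, not_and, not_not]
    exact ⟨fun h => ⟨h.1, fun i _ => h.2 i⟩, fun h => ⟨h.1, fun i => h.2 i (hs h.1)⟩⟩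
  rw [this]
  exact hK.inter_right (isClosed_iInter fun i => (hL i).isOpen_diff.isClosed_compl)

theorem exists_compact_patch (hO : IsOpen O) (hL : ∀ i, IsLeaf O (ω i) (L i)) {p : E}
    (hp : p ∈ O ∩ ⋂ i, L i) {U : Set E} (hU : U ∈ 𝓝[O ∩ ⋂ i, L i] p) :
    ∃ C ∈ 𝓝[O ∩ ⋂ i, L i] p, IsCompact C ∧ C ⊆ O ∩ ⋂ i, L i ∧ C ⊆ U := by
  have : ProperSpace E := FiniteDimensional.proper ℝ E
  obtain ⟨V, hV, hVU⟩ := mem_nhdsWithin_iff_exists_mem_nhds_inter.1 hU
  obtain ⟨K, hK, hKs, hKc⟩ := local_compact_nhds (inter_mem hV (hO.mem_nhds hp.1))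
  have hKO : K ⊆ O := hKs.trans inter_subset_right
  refine ⟨K ∩ ⋂ i, L i, ?_, compact_leaves hL hKc hKO, inter_subset_inter_left _ hKO,
    fun x hx => hVU ⟨(hKs hx.1).1, hKO hx.1, hx.2⟩⟩
  filter_upwards [mem_nhdsWithin_of_mem_nhds hK, self_mem_nhdsWithin] with x h1 h2 using ⟨h1, h2.2⟩

omit [NormedSpace ℝ β] [FiniteDimensional ℝ β] in
theorem meagre_of_local {M : Set E} {f : E → β}
    (h : ∀ p ∈ M, ∃ U ∈ 𝓝[M] p, IsMeagre (f '' U)) : IsMeagre (f '' M) := by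
  have : ProperSpace E := FiniteDimensional.proper ℝ E
  choose! U h1 h2 using h
  obtain ⟨t, ht, hc, hs⟩ := TopologicalSpace.countable_cover_nhdsWithin h1
  refine (isMeagre_biUnion hc fun p hp => h2 p (ht hp)).mono ?_
  rw [← image_iUnion₂]
  exact image_mono hs

theorem countable_bad {M : Set E} {f : E → β} {g : E → ℝ} (hf : ContinuousOn f M)
    (hg : ContinuousOn g M) (h : ∀ p ∈ M, ∃ U ∈ 𝓝[M] p, IsCompact U ∧ U ⊆ M ∧ InjOn f U) :
    {c | ¬ IsMeagre (f '' (M ∩ {x | g x = c}))}.Countable := by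
  have : ProperSpace E := FiniteDimensional.proper ℝ E
  have : ProperSpace β := FiniteDimensional.proper ℝ β
  choose! U h1 h2 h3 h4 using h
  obtain ⟨t, ht, hc, hs⟩ := TopologicalSpace.countable_cover_nhdsWithin h1
  have key : ∀ p ∈ t, {c | (interior (f '' (U p ∩ {x | g x = c}))).Nonempty}.Countable := by
    intro p hp
    refine PairwiseDisjoint.countable_of_nonempty_interior
      (s := fun c => f '' (U p ∩ {x | g x = c})) ?_ fun c hc => hc
    intro c _ c' _ hne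
    refine disjoint_left.2 ?_
    rintro _ ⟨x, hx, rfl⟩ ⟨y, hy, e⟩
    obtain rfl := h4 p (ht hp) hy.1 hx.1 e
    exact hne (hx.2.symm.trans hy.2)
  refine (hc.biUnion key).mono fun c hb => ?_
  by_contra hn
  simp only [mem_iUnion, not_exists, mem_ofPred_eq, not_nonempty_iff_eq_empty] at hn
  refine hb ((isMeagre_biUnion hc (f := fun p => f '' (U p ∩ {x | g x = c})) fun p hp => ?_).mono ?_)
  · have hk : IsCompact (U p ∩ {x | g x = c}) := (h2 p (ht hp)).of_isClosed_subset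
      ((hg.mono (h3 p (ht hp))).preimage_isClosed_of_isClosed (h2 p (ht hp)).isClosed
        (isClosed_singleton (x := c))) inter_subset_left
    have hk' := hk.image_of_continuousOn (hf.mono (inter_subset_left.trans (h3 p (ht hp))))
    exact (hk'.isClosed.isNowhereDense_iff.2 (hn p hp)).isMeagre
  · rintro _ ⟨x, hx, rfl⟩
    obtain ⟨p, hp, hx'⟩ := mem_iUnion₂.1 (hs hx.1)
    exact mem_iUnion₂.2 ⟨p, hp, x, ⟨hx', hx.2⟩, rfl⟩

/-- small rank: the image is meagre -/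
theorem meagre_of_rank [Finite ι] (hO : IsOpen O) (hL : ∀ i, IsLeaf O (ω i) (L i)) {J : Set ι}
    (hJ : ∀ x ∈ O, IsBas (fun i => ω i x) J) {f : E → β} (hf : ContDiffOn ℝ 1 f O)
    (hinj : ∀ x ∈ O, ∀ v, (∀ i, ω i x v = 0) → fderiv ℝ f x v = 0 → v = 0)
    (hns : ∀ x ∈ O, ∃ y, ∀ v, (∀ i, ω i x v = 0) → fderiv ℝ f x v ≠ y) :
    IsMeagre (f '' (O ∩ ⋂ i, L i)) := by
  refine meagre_of_local fun p hp => ?_
  obtain ⟨σ, h1, h2, -, h4⟩ := chart hO hL hJ hp
  let K := cker fun i => ω i p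
  have hlt : finrank ℝ K < finrank ℝ β := by
    let T : K →ₗ[ℝ] β := (fderiv ℝ f p : E →ₗ[ℝ] β).comp K.subtype
    have hT : Function.Injective T := by
      rw [← LinearMap.ker_eq_bot, LinearMap.ker_eq_bot']
      exact fun v hv => Subtype.ext (hinj p hp.1 v (mem_cker.1 v.2) hv)
    rw [← LinearMap.finrank_range_of_inj hT]
    refine Submodule.finrank_lt fun htop => ?_
    obtain ⟨y, hy⟩ := hns p hp.1
    obtain ⟨v, hv⟩ : y ∈ LinearMap.range T := htop ▸ Submodule.mem_top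
    exact hy v (mem_cker.1 v.2) hv
  have hG : ContDiffAt ℝ 1 (f ∘ σ) 0 :=
    ContDiffAt.comp 0 (by rw [h2]; exact hf.contDiffAt (hO.mem_nhds hp.1)) h1
  obtain ⟨u, hu, hGu⟩ := hG.contDiffOn le_rfl (by simp)
  obtain ⟨r, hr, hru⟩ := nhds_basis_closedBall.mem_iff.1 hu
  have : ProperSpace K := FiniteDimensional.proper ℝ K
  refine ⟨σ '' closedBall 0 r, h4 ▸ image_mem_map (closedBall_mem_nhds 0 hr), ?_⟩
  rw [image_image]
  have hc : IsCompact ((f ∘ σ) '' closedBall 0 r) :=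
    (isCompact_closedBall 0 r).image_of_continuousOn (hGu.mono hru).continuousOn
  have hd : dimH ((f ∘ σ) '' closedBall 0 r) < finrank ℝ β := by
    refine ((hGu.mono hru).dimH_image_le (convex_closedBall 0 r) Subset.rfl).trans_lt ?_
    refine (dimH_mono (subset_univ _)).trans_lt ?_
    rw [Real.dimH_univ_eq_finrank]
    exact_mod_cast hlt
  exact (hc.isClosed.isNowhereDense_iff.2
    (interior_eq_empty_iff_dense_compl.2 (dense_compl_of_dimH_lt_finrank hd))).isMeagre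

omit [FiniteDimensional ℝ β] in
/-- full rank: local homeomorphism -/
theorem local_homeo [Finite ι] (hO : IsOpen O) (hL : ∀ i, IsLeaf O (ω i) (L i)) {J : Set ι}
    (hJ : ∀ x ∈ O, IsBas (fun i => ω i x) J) {f : E → β} (hf : ContDiffOn ℝ 1 f O)
    (hinj : ∀ x ∈ O, ∀ v, (∀ i, ω i x v = 0) → fderiv ℝ f x v = 0 → v = 0)
    (hsu : ∀ x ∈ O, ∀ y, ∃ v, (∀ i, ω i x v = 0) ∧ fderiv ℝ f x v = y) {p : E}
    (hp : p ∈ O ∩ ⋂ i, L i) :
    map f (𝓝[O ∩ ⋂ i, L i] p) = 𝓝 (f p) ∧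
      ∃ U ∈ 𝓝[O ∩ ⋂ i, L i] p, IsCompact U ∧ U ⊆ O ∩ ⋂ i, L i ∧ InjOn f U := by
  obtain ⟨σ, h1, h2, h3, h4⟩ := chart hO hL hJ hp
  let K := cker fun i => ω i p
  let T : K →ₗ[ℝ] β := (fderiv ℝ f p : E →ₗ[ℝ] β).comp K.subtype
  have hT : Function.Bijective T := by
    constructor
    · rw [← LinearMap.ker_eq_bot, LinearMap.ker_eq_bot']
      exact fun v hv => Subtype.ext (hinj p hp.1 v (mem_cker.1 v.2) hv)
    · intro y
      obtain ⟨v, hv, e⟩ := hsu p hp.1 y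
      exact ⟨⟨v, mem_cker.2 hv⟩, e⟩
  let e : K ≃L[ℝ] β := (LinearEquiv.ofBijective T hT).toContinuousLinearEquiv
  have hfp : ContDiffAt ℝ 1 f (σ 0) := by
    rw [h2]
    exact hf.contDiffAt (hO.mem_nhds hp.1)
  have hG : ContDiffAt ℝ 1 (f ∘ σ) 0 := ContDiffAt.comp 0 hfp h1
  have hG' : HasFDerivAt (f ∘ σ) (e : K →L[ℝ] β) 0 := by
    have := HasFDerivAt.comp (0 : K) (hfp.differentiableAt one_ne_zero).hasFDerivAt h3
    rw [h2] at this
    exact this.congr_fderiv (by ext v; rfl)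
  have hS : HasStrictFDerivAt (f ∘ σ) (e : K →L[ℝ] β) 0 := hG.hasStrictFDerivAt' hG' one_ne_zero
  have : CompleteSpace K := FiniteDimensional.complete ℝ K
  refine ⟨?_, ?_⟩
  · rw [← h4, map_map, hS.map_nhds_eq_of_equiv, Function.comp_apply, h2]
  · obtain ⟨C, c1, c2, c3, c4⟩ := exists_compact_patch hO hL hp
      (h4 ▸ image_mem_map (m := σ) hS.eventually_left_inverse)
    refine ⟨C, c1, c2, c3, InjOn.mono c4 ?_⟩
    rintro _ ⟨u, hu, rfl⟩ _ ⟨u', hu', rfl⟩ e'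
    have : u = u' := by
      rw [← hu, ← hu']
      exact congrArg _ e'
    rw [this]

omit [NormedSpace ℝ E] [FiniteDimensional ℝ E] [NormedSpace ℝ β] [FiniteDimensional ℝ β] in
/-- the connectedness argument -/
theorem cross {M : Set E} {f : E → β} {m h : E → ℝ} {T r : ℝ} {B : Set β}
    (hB : IsPreconnected B) (hop : ∀ p ∈ M, map f (𝓝[M] p) = 𝓝 (f p)) (hf : ContinuousOn f M)
    (hm : ContinuousOn m M) (hh : ContinuousOn h M)
    (hK : IsCompact {x | x ∈ M ∧ m x ≤ T ∧ h x ≤ r})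
    (h1 : ∃ x ∈ M, f x ∈ B ∧ m x ≤ T ∧ h x ≤ r) (h2 : ∃ z ∈ B, ∀ x ∈ M, h x ≤ r → f x ≠ z)
    (h3 : ∀ x ∈ M, f x ∈ B → h x ≤ r → m x ≠ T) : ∃ x ∈ M, f x ∈ B ∧ h x = r := by
  by_contra hn
  set K := {x | x ∈ M ∧ m x ≤ T ∧ h x ≤ r}
  have key : ∀ x ∈ K, f x ∈ B → f x ∈ interior (f '' K) := by
    intro x hx hxB
    rw [mem_interior_iff_mem_nhds, ← hop x hx.1]
    refine image_mem_map ?_
    have a1 : m x < T := lt_of_le_of_ne hx.2.1 (h3 x hx.1 hxB hx.2.2)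
    have a2 : h x < r := lt_of_le_of_ne hx.2.2 fun e => hn ⟨x, hx.1, hxB, e⟩
    filter_upwards [self_mem_nhdsWithin, (hm x hx.1).eventually (eventually_lt_nhds a1),
      (hh x hx.1).eventually (eventually_lt_nhds a2)] with y b1 b2 b3 using ⟨b1, b2.le, b3.le⟩
  have hc : IsClosed (f '' K) := (hK.image_of_continuousOn (hf.mono fun x hx => hx.1)).isClosed
  obtain ⟨x, a1, a2, a3⟩ := h1
  have := hB.subset_of_closure_inter_subset (u := interior (f '' K)) isOpen_interior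
    ⟨f x, a2, key x ⟨a1, a3⟩ a2⟩ (by
      rintro y ⟨b1, b2⟩
      obtain ⟨x, hx, rfl⟩ := closure_minimal interior_subset hc b1
      exact key x hx b2)
  obtain ⟨z, hz, hz'⟩ := h2
  obtain ⟨x, hx, e⟩ := interior_subset (this hz)
  exact hz' x hx.1 hx.2.2 e

/-- a definable proper function on each member of a family of open sets -/
theorem exists_proper {d : ℕ} {D : α → Set (Fin d → ℝ)}
    (hD : DP S fun z : α × (Fin d → ℝ) => z.2 ∈ D z.1) (ho : ∀ a, IsOpen (D a)) :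
    ∃ m : α → (Fin d → ℝ) → ℝ, (DF S fun z : α × (Fin d → ℝ) => m z.1 z.2) ∧ ∀ a,
      ContinuousOn (m a) (D a) ∧ (∀ x, ‖x‖ ≤ m a x) ∧
        ∀ T, IsCompact {x | x ∈ D a ∧ m a x ≤ T} := by
  refine ⟨fun a x => ‖x‖ + (infDist x (D a)ᶜ)⁻¹, ?_, fun a => ?_⟩
  · refine DF.add (by fun_prop) (DF.inv ?_)
    have h1 : DP S fun w : ((α × (Fin d → ℝ)) × ℝ) × (Fin d → ℝ) => w.2 ∈ D w.1.1.1 :=
      hD.comp (g := fun w : ((α × (Fin d → ℝ)) × ℝ) × (Fin d → ℝ) => (w.1.1.1, w.2)) (by fun_prop)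
    have h2 := DF.sInf_fam (S := S)
      (A := fun z : α × (Fin d → ℝ) => {t | ∃ y, y ∉ D z.1 ∧ ‖z.2 - y‖ = t})
      (DP.ex (P := fun (w : (α × (Fin d → ℝ)) × ℝ) (y : Fin d → ℝ) =>
        y ∉ D w.1.1 ∧ ‖w.1.2 - y‖ = w.2) (h1.not.and (by fun_prop)))
    convert h2 using 2 with z
    rw [infDist_eq_iInf, iInf]
    congr 1
    ext t
    simp [dist_eq_norm]
  · have hc : ContinuousOn (fun x => ‖x‖ + (infDist x (D a)ᶜ)⁻¹) (D a) := by
      rcases ((D a)ᶜ).eq_empty_or_nonempty with he | hne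
      · simp only [he, infDist_empty]
        fun_prop
      · refine continuous_norm.continuousOn.add
          ((continuous_infDist_pt _).continuousOn.inv₀ fun x hx => ?_)
        exact (((ho a).isClosed_compl.notMem_iff_infDist_pos hne).1 fun h => h hx).ne'
    have h0 : ∀ x : Fin d → ℝ, 0 ≤ (infDist x (D a)ᶜ)⁻¹ := fun x => inv_nonneg.2 infDist_nonneg
    refine ⟨hc, fun x => le_add_of_nonneg_right (h0 x), fun T => ?_⟩
    obtain ⟨K, hK, hKD, hs⟩ : ∃ K, IsClosed K ∧ K ⊆ D a ∧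
        {x | x ∈ D a ∧ ‖x‖ + (infDist x (D a)ᶜ)⁻¹ ≤ T} ⊆ K := by
      rcases ((D a)ᶜ).eq_empty_or_nonempty with he | hne
      · exact ⟨univ, isClosed_univ, by rw [compl_empty_iff.1 he], subset_univ _⟩
      · refine ⟨{x | 1 ≤ T * infDist x (D a)ᶜ}, isClosed_le continuous_const
          (continuous_const.mul (continuous_infDist_pt _)), fun x hx => ?_, fun x hx => ?_⟩
        · by_contra hn
          simp only [mem_ofPred_eq, infDist_zero_of_mem (show x ∈ (D a)ᶜ from hn)] at hx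
          norm_num at hx
        · have h1 := ((ho a).isClosed_compl.notMem_iff_infDist_pos hne).1 fun h => h hx.1
          have h2 : (infDist x (D a)ᶜ)⁻¹ ≤ T := by linarith [hx.2, norm_nonneg x]
          rwa [inv_eq_one_div, div_le_iff₀ h1] at h2
    have e : {x | x ∈ D a ∧ ‖x‖ + (infDist x (D a)ᶜ)⁻¹ ≤ T} =
        K ∩ (fun x => ‖x‖ + (infDist x (D a)ᶜ)⁻¹) ⁻¹' Iic T :=
      Subset.antisymm (fun x hx => ⟨hs hx, hx.2⟩) fun x hx => ⟨hKD hx.1, hx.2⟩
    refine (isCompact_closedBall 0 T).of_isClosed_subset ?_ fun x hx => ?_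
    · rw [e]
      exact (hc.mono hKD).preimage_isClosed_of_isClosed hK isClosed_Iic
    · rw [mem_closedBall_zero_iff]
      linarith [hx.2, h0 x]

/-- sum of squares -/
def Q {l : ℕ} (y : Fin l → ℝ) : ℝ := ∑ c, y c ^ 2

theorem Q_nonneg {l : ℕ} (y : Fin l → ℝ) : 0 ≤ Q y := Finset.sum_nonneg fun _ _ => sq_nonneg _

theorem continuous_Q {l : ℕ} : Continuous (Q (l := l)) := by
  unfold Q
  fun_prop

theorem df_Q {l : ℕ} : DF S (Q (l := l)) := DF.sum _ fun c _ => (DF.apply c).pow 2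

theorem compact_Q {l : ℕ} (r : ℝ) : IsCompact {y : Fin l → ℝ | Q y ≤ r} := by
  refine (isCompact_closedBall 0 (|r| + 1)).of_isClosed_subset
    (isClosed_le continuous_Q continuous_const) fun y hy => ?_
  rw [mem_closedBall_zero_iff, pi_norm_le_iff_of_nonneg (by positivity)]
  intro c
  have h1 : y c ^ 2 ≤ Q y :=
    Finset.single_le_sum (f := fun c => y c ^ 2) (fun _ _ => sq_nonneg _) (Finset.mem_univ c)
  have h2 : Q y ≤ r := hy
  rw [Real.norm_eq_abs]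
  have := le_abs_self r
  have := sq_abs (y c)
  nlinarith [abs_nonneg (y c), abs_nonneg r, sq_nonneg (|y c| - 1)]

end Pool.Agent.Shared.OMin.Bd
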