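import Pool.Agent.Shared.OMin.Bdry2

/-! Boundary lemma, part 3: fibre cutting, and the two cases with discrete fibres. -/

namespace Pool.Agent.Shared.OMin.Bd

open Set Filter Topology Module Metric

variable {α β ι I : Type}
  [NormedAddCommGroup α] [NormedSpace ℝ α] [FiniteDimensional ℝ α]
  [NormedAddCommGroup β] [NormedSpace ℝ β] [FiniteDimensional ℝ β] {S : OStr} {d l : ℕ}
  {D : α → Set (Fin d → ℝ)} {ω : ι → α → (Fin d → ℝ) → (Fin d → ℝ) →L[ℝ] ℝ}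
  {Φ : α → (Fin d → ℝ) → β × (Fin l → ℝ)} {a : I → α} {L : I → ι → Set (Fin d → ℝ)}

theorem exists_avoid {B : Set ℝ} (hB : B.Countable) (r : ℝ) : ∃ t, t ∉ B ∧ r < t ∧ t < r + 1 := by
  obtain ⟨t, ht, ht'⟩ := (hB.dense_compl ℝ).inter_open_nonempty (Ioo r (r + 1)) isOpen_Ioo
    (nonempty_Ioo.2 (lt_add_one r))
  exact ⟨t, ht', ht.1, ht.2⟩

theorem exists_bound {J X : Type} (s : Finset J) (P : J → X → Prop) (m : X → ℝ) :
    ∃ T : ℝ, 0 < T ∧ ∀ j ∈ s, (∃ x, P j x) → ∃ x, P j x ∧ m x ≤ T := by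
  classical
  induction s using Finset.induction_on with
  | empty => exact ⟨1, one_pos, by simp⟩
  | insert j s _ ih =>
    obtain ⟨T, hT, h⟩ := ih
    by_cases hj : ∃ x, P j x
    · obtain ⟨x, hx⟩ := hj
      refine ⟨max T (m x), lt_max_of_lt_left hT, fun k hk hP => ?_⟩
      rcases Finset.mem_insert.1 hk with rfl | hk
      · exact ⟨x, hx, le_max_right _ _⟩
      · obtain ⟨y, hy, hy'⟩ := h k hk hP
        exact ⟨y, hy, le_max_of_le_left hy'⟩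
    · refine ⟨T, hT, fun k hk hP => ?_⟩
      rcases Finset.mem_insert.1 hk with rfl | hk
      exacts [absurd hP hj, h k hk hP]

/-- the forms together with the differentials of the coordinates of the first component -/
noncomputable def ext (ω : ι → α → (Fin d → ℝ) → (Fin d → ℝ) →L[ℝ] ℝ)
    (Φ : α → (Fin d → ℝ) → β × (Fin l → ℝ)) :
    ι ⊕ Fin (finrank ℝ β) → α → (Fin d → ℝ) → (Fin d → ℝ) →L[ℝ] ℝ
  | .inl j, a, x => ω j a x
  | .inr k, a, x => fderiv ℝ (fun y => (finBasis ℝ β).coord k (Φ a y).1) x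

theorem df_ext {A O : α → Set (Fin d → ℝ)} (h : Pres S A O ω Φ a L) :
    ∀ j, DF S fun z : α × (Fin d → ℝ) => ext ω Φ j z.1 z.2
  | .inl j => h.data.dω j
  | .inr k => DF.fderiv_fam (f := fun z : α × (Fin d → ℝ) =>
      fun y => (finBasis ℝ β).coord k (Φ z.1 y).1)
      ((DF.clm (LinearMap.toContinuousLinearMap ((finBasis ℝ β).coord k))).comp
        (h.dΦ.comp (g := fun z : (α × (Fin d → ℝ)) × (Fin d → ℝ) => (z.1.1, z.2))
          (by fun_prop)).fst) (by fun_prop)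

theorem min_crit [Finite ι] (h : Pres S D D ω Φ a L) {J : Set (ι ⊕ Fin (finrank ℝ β))}
    (i : I) (hJ : ∀ x ∈ D (a i), IsBas (fun j => ext ω Φ j (a i) x) J) {μ m : (Fin d → ℝ) → ℝ}
    (hμ : ContinuousOn μ (D (a i))) (hm : ∀ T, IsCompact {x | x ∈ D (a i) ∧ m x ≤ T}) {η : ℝ}
    (hη : 0 < η) (hle : ∀ x, η * m x ≤ μ x) {x : Fin d → ℝ} (hx : x ∈ D (a i) ∩ ⋂ j, L i j) :
    ∃ y ∈ D (a i) ∩ ⋂ j, L i j, (Φ (a i) y).1 = (Φ (a i) x).1 ∧ μ y ≤ μ x ∧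
      ∀ μ' : (Fin d → ℝ) →L[ℝ] ℝ, HasFDerivAt μ μ' y → ∀ v, (∀ j, ext ω Φ j (a i) y v = 0) → μ' v = 0 := by
  let L' : ι ⊕ Fin (finrank ℝ β) → Set (Fin d → ℝ) := Sum.elim (L i) fun k =>
    {p | p ∈ D (a i) ∧ (finBasis ℝ β).coord k (Φ (a i) p).1 = (finBasis ℝ β).coord k (Φ (a i) x).1}
  have hL' : ∀ j, IsLeaf (D (a i)) (ext ω Φ j (a i)) (L' j) := by
    rintro (j | k)
    · exact h.leaf i j
    · exact isLeaf_level (h.data.openO _)
        ((LinearMap.toContinuousLinearMap ((finBasis ℝ β).coord k)).contDiff.comp_contDiffOn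
          (h.sm _).fst) _
  have hxL : x ∈ ⋂ j, L' j := by
    refine mem_iInter.2 ?_
    rintro (j | k)
    exacts [mem_iInter.1 hx.2 j, ⟨hx.1, rfl⟩]
  have hxm : m x ≤ μ x / η := by
    rw [le_div_iff₀' hη]
    exact hle x
  obtain ⟨y, hy, hmin⟩ := (compact_leaves hL' (hm (μ x / η)) fun p hp => hp.1).exists_isMinOn
    ⟨x, ⟨hx.1, hxm⟩, hxL⟩ (hμ.mono fun p hp => hp.1.1)
  have hyx : μ y ≤ μ x := hmin ⟨⟨hx.1, hxm⟩, hxL⟩
  refine ⟨y, ⟨hy.1.1, mem_iInter.2 fun j => mem_iInter.1 hy.2 (.inl j)⟩,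
    (finBasis ℝ β).ext_elem fun k => (mem_iInter.1 hy.2 (.inr k)).2, hyx, fun μ' hd v hv => ?_⟩
  refine lagrange (h.data.openO _) hL' hJ ⟨hy.1.1, hy.2⟩ hd (fun p hp => ?_) hv
  by_cases hpm : m p ≤ μ x / η
  · exact hmin ⟨⟨hp.1, hpm⟩, hp.2⟩
  · rw [not_le, div_lt_iff₀' hη] at hpm
    linarith [hle p]

/-- fibre cutting -/
theorem case_cut [Finite ι] (IH : ∀ d' < finrank ℝ (Fin d → ℝ), BL S β (Fin l → ℝ) d')
    (h : Pres S D D ω Φ a L) {J : Set (ι ⊕ Fin (finrank ℝ β))} {k : Fin d}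
    (hJ : ∀ b, ∀ x ∈ D b, IsBas (fun j => ext ω Φ j b x) J ∧
      ∃ v : Fin d → ℝ, (∀ j, ext ω Φ j b x v = 0) ∧ v k ≠ 0) (𝒰 : Ultrafilter I) :
    Good S (Prod.fst '' ULim 𝒰 (fam D Φ a L)) := by
  obtain ⟨m, dm, hm⟩ := exists_proper h.data.dO h.data.openO
  let ν : α × ℝ × ℝ → (Fin d → ℝ) → ℝ := fun p x => Q (Φ p.1 x).2 + p.2.1 * (2 * m p.1 x)
  have dν : DF S fun z : (α × ℝ × ℝ) × (Fin d → ℝ) => ν z.1 z.2 :=
    DF.add (df_Q.comp (h.dΦ.comp (g := fun z : (α × ℝ × ℝ) × (Fin d → ℝ) => (z.1.1, z.2))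
      (by fun_prop)).snd) (DF.mul (by fun_prop) (DF.mul (DF.const _)
        (dm.comp (g := fun z : (α × ℝ × ℝ) × (Fin d → ℝ) => (z.1.1, z.2)) (by fun_prop))))
  let Cr : α × ℝ × ℝ → Set (Fin d → ℝ) := fun p => {x | x ∈ D p.1 ∧ ∀ v : Fin d → ℝ,
    (∀ j, ext ω Φ j p.1 x v = 0) → fderiv ℝ (ν p) x v + p.2.1 * (p.2.2 * v k) = 0}
  have dD : DP S fun z : (α × ℝ × ℝ) × (Fin d → ℝ) => z.2 ∈ D z.1.1 :=
    h.data.dO.comp (g := fun z : (α × ℝ × ℝ) × (Fin d → ℝ) => (z.1.1, z.2)) (by fun_prop)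
  have dν' : DF S fun w : ((α × ℝ × ℝ) × (Fin d → ℝ)) × (Fin d → ℝ) => ν w.1.1 w.2 :=
    dν.comp (g := fun w : ((α × ℝ × ℝ) × (Fin d → ℝ)) × (Fin d → ℝ) => (w.1.1, w.2)) (by fun_prop)
  have dCr : DP S fun z : (α × ℝ × ℝ) × (Fin d → ℝ) => z.2 ∈ Cr z.1 := by
    refine dD.and (DP.all (P := fun (z : (α × ℝ × ℝ) × (Fin d → ℝ)) (v : Fin d → ℝ) =>
      (∀ j, ext ω Φ j z.1.1 z.2 v = 0) →
        fderiv ℝ (ν z.1) z.2 v + z.1.2.1 * (z.1.2.2 * v k) = 0) (DP.imp (DP.fin_and fun j => ?_) ?_))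
    · exact DP.eq (DF.clm_apply ((df_ext h j).comp
        (g := fun w : ((α × ℝ × ℝ) × (Fin d → ℝ)) × (Fin d → ℝ) => (w.1.1.1, w.1.2))
        (by fun_prop)) (by fun_prop)) (DF.const _)
    · have h1 : DF S fun z : (α × ℝ × ℝ) × (Fin d → ℝ) => fderiv ℝ (ν z.1) z.2 :=
        DF.fderiv_fam (f := fun z : (α × ℝ × ℝ) × (Fin d → ℝ) => ν z.1) dν' (by fun_prop)
      exact DP.eq (DF.add (DF.clm_apply (h1.comp (by fun_prop)) (by fun_prop))
        (DF.mul (by fun_prop) (DF.mul (by fun_prop) ((DF.apply k).comp (by fun_prop)))))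
        (DF.const _)
  have dZ : DP S fun z : (α × ℝ × ℝ) × (Fin d → ℝ) => ¬ DifferentiableAt ℝ (ν z.1) z.2 :=
    (DP.diffAt (f := fun z : (α × ℝ × ℝ) × (Fin d → ℝ) => ν z.1) dν' (by fun_prop)).not
  let A' : α × ℝ × ℝ → Set (Fin d → ℝ) := fun p => {x | x ∈ D p.1 ∧
    (x ∈ Cr p ∨ ¬ DifferentiableAt ℝ (ν p) x) ∧ ¬ ∃ y, y ∈ interior (Cr p)}
  have dA' : DP S fun z : (α × ℝ × ℝ) × (Fin d → ℝ) => z.2 ∈ A' z.1 :=
    dD.and ((dCr.or dZ).and ((DP.ex (P := fun p y => y ∈ interior (Cr p))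
      (DP.mem_interior dCr)).comp (g := fun z : (α × ℝ × ℝ) × (Fin d → ℝ) => z.1)
        (by fun_prop)).not)
  have hA' : ∀ p, interior (A' p) = ∅ := by
    intro p
    by_cases hp : ∃ y, y ∈ interior (Cr p)
    · have : A' p = ∅ := eq_empty_of_forall_notMem fun x hx => hx.2.2 hp
      rw [this, interior_empty]
    · have h1 := DP.interior_union (S := S) (s := Cr p)
        (dCr.comp (g := fun x : Fin d → ℝ => (p, x)) (by fun_prop))
        (eq_empty_of_forall_notMem fun y hy => hp ⟨y, hy⟩)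
        (DF.generic_diff (f := ν p) (dν.comp (g := fun x : Fin d → ℝ => (p, x)) (by fun_prop)))
      exact subset_empty_iff.1 (h1 ▸ interior_mono fun x hx => hx.2.1)
  have hbad : ∀ b η, 0 < η → {t : ℝ | (interior (Cr (b, η, t))).Nonempty}.Countable := by
    intro b η hη
    refine PairwiseDisjoint.countable_of_nonempty_interior (s := fun t => Cr (b, η, t)) ?_
      fun _ ht => ht
    intro t _ t' _ hne
    refine disjoint_left.2 fun x hx hx' => hne ?_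
    obtain ⟨v, hv, hk⟩ := (hJ b x hx.1).2
    have e1 : fderiv ℝ (ν (b, η, t)) x v + η * (t * v k) = 0 := hx.2 v hv
    have e2 : fderiv ℝ (ν (b, η, t)) x v + η * (t' * v k) = 0 := hx'.2 v hv
    exact mul_right_cancel₀ hk (mul_left_cancel₀ hη.ne' (by linarith))
  obtain ⟨𝒱, h𝒱, hX⟩ := new_param (J := Set (β × (Fin l → ℝ))) (γ := ℝ × ℝ) 𝒰
    (fun V i c => (0 < c.1 ∧ 0 < c.2 ∧ c.2 < 1 ∧ ¬ (interior (Cr (a i, c))).Nonempty) ∧
      ((∃ x, x ∈ D (a i) ∩ ⋂ j, L i j ∧ Φ (a i) x ∈ V) →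
        ∃ x, (x ∈ D (a i) ∩ ⋂ j, L i j ∧ Φ (a i) x ∈ V) ∧ c.1 * m (a i) x ≤ 1)) fun s => by
    refine Eventually.of_forall fun i => ?_
    obtain ⟨T, hT, h1⟩ := exists_bound s
      (fun V x => x ∈ D (a i) ∩ ⋂ j, L i j ∧ Φ (a i) x ∈ V) (m (a i))
    obtain ⟨t, t1, t2, t3⟩ := exists_avoid (hbad (a i) T⁻¹ (inv_pos.2 hT)) 0
    refine ⟨(T⁻¹, t), fun V hV => ⟨⟨inv_pos.2 hT, t2, by simpa using t3, t1⟩, fun hx => ?_⟩⟩
    obtain ⟨x, hx, hx'⟩ := h1 V hV hx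
    exact ⟨x, hx, by rwa [inv_mul_le_iff₀ hT, mul_one]⟩
  have hP := h.cut dA' (fun p x hx => hx.1) (Prod.fst : I × ℝ × ℝ → I) Prod.snd
  have e : Prod.fst '' ULim 𝒰 (fam D Φ a L) = Prod.fst '' ULim 𝒱
      (fam A' (fun p => Φ p.1) (fun z : I × ℝ × ℝ => (a z.1, z.2)) fun z => L z.1) := by
    refine Subset.antisymm ?_ (image_mono ?_)
    · rintro _ ⟨w, hw, rfl⟩
      refine mem_fst_lim (compact_Q (Q w.2 + 4)) fun V hV => ?_
      have hV' : V ×ˢ {y | Q y < Q w.2 + 1} ∈ 𝓝 w :=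
        prod_mem_nhds hV
          ((isOpen_lt continuous_Q continuous_const).mem_nhds (lt_add_one (Q w.2)))
      filter_upwards [hX (V ×ˢ {y | Q y < Q w.2 + 1}), (ev_of_map h𝒱).2 (hw _ hV')]
      rintro ⟨i, η, t⟩ ⟨⟨hη, t0, t1, hg⟩, h1⟩ ⟨_, ⟨x', hx', rfl⟩, hxV⟩
      obtain ⟨x, ⟨hx, hxV⟩, hxm⟩ := h1 ⟨x', hx', hxV⟩
      dsimp only at hη t0 t1 hg hx hxV hxm
      obtain ⟨m1, m2, m3⟩ := hm (a i)
      have hk : ∀ y : Fin d → ℝ, |t * y k| ≤ m (a i) y := fun y => by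
        have h2 : |y k| ≤ ‖y‖ := norm_le_pi_norm y k
        rw [abs_mul, abs_of_pos t0]
        nlinarith [m2 y, abs_nonneg (y k)]
      obtain ⟨y, hy, y1, y2, y3⟩ := min_crit h i (fun x hx => (hJ _ x hx).1)
        (μ := fun y => ν (a i, η, t) y + η * (t * y k))
        (((continuous_Q.comp_continuousOn (h.sm _).continuousOn.snd).add
          (continuousOn_const.mul (continuousOn_const.mul m1))).add (by fun_prop)) m3 hη
        (fun y => by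
          have := mul_le_mul_of_nonneg_left (abs_le.1 (hk y)).1 hη.le
          have := Q_nonneg (Φ (a i) y).2
          simp only [ν]
          linarith) hx
      refine ⟨Φ (a i) y, ⟨y, ⟨⟨hy.1, ?_, hg⟩, hy.2⟩, rfl⟩, y1 ▸ hxV.1, ?_⟩
      · by_cases hd : DifferentiableAt ℝ (ν (a i, η, t)) y
        · refine .inl ⟨hy.1, fun v hv => ?_⟩
          have h3 : HasFDerivAt (fun y : Fin d → ℝ => η * (t * y k))
              (η • t • ContinuousLinearMap.proj (R := ℝ) (φ := fun _ : Fin d => ℝ) k) y :=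
            (η • t • ContinuousLinearMap.proj (R := ℝ) (φ := fun _ : Fin d => ℝ) k).hasFDerivAt
          exact y3 _ (hd.hasFDerivAt.add h3) v hv
        · exact .inr hd
      · have a1 := mul_le_mul_of_nonneg_left (abs_le.1 (hk y)).1 hη.le
        have a2 := mul_le_mul_of_nonneg_left (abs_le.1 (hk x)).2 hη.le
        have a3 : Q (Φ (a i) x).2 < Q w.2 + 1 := hxV.2
        have a4 := mul_nonneg hη.le ((norm_nonneg y).trans (m2 y))
        simp only [ν] at y2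
        change Q (Φ (a i) y).2 ≤ Q w.2 + 4
        linarith
    · rw [← lim_map h𝒱]
      exact lim_mono fun z => image_mono (inter_subset_inter_left _ fun x hx => hx.1)
  rw [e]
  exact thin IH hP hA' 𝒱

theorem case_small [Finite ι] (h : Pres S D D ω Φ a L) {J : Set ι}
    (hJ : ∀ b, ∀ x ∈ D b, IsBas (fun j => ω j b x) J ∧
      (∀ v, (∀ j, ω j b x v = 0) → fderiv ℝ (fun y => (Φ b y).1) x v = 0 → v = 0) ∧
      ∃ y, ∀ v, (∀ j, ω j b x v = 0) → fderiv ℝ (fun y => (Φ b y).1) x v ≠ y)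
    (𝒰 : Ultrafilter I) : Good S (Prod.fst '' ULim 𝒰 (fam D Φ a L)) := by
  refine ⟨_, (TSet.mk' 𝒰 h.pfFam).clos, isClosed_closure,
    TSet.interior_closure_of_meagre 𝒰 h.pfFam (Eventually.of_forall fun i => ?_),
    frontier_subset_closure⟩
  rw [fam, image_image]
  exact meagre_of_rank (h.data.openO _) (h.leaf i) (fun x hx => (hJ _ x hx).1) (h.sm _).fst
    (fun x hx => (hJ _ x hx).2.1) fun x hx => (hJ _ x hx).2.2

theorem case_full [Finite ι] (h : Pres S D D ω Φ a L) {J : Set ι}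
    (hJ : ∀ b, ∀ x ∈ D b, IsBas (fun j => ω j b x) J ∧
      (∀ v, (∀ j, ω j b x v = 0) → fderiv ℝ (fun y => (Φ b y).1) x v = 0 → v = 0) ∧
      ∀ y, ∃ v, (∀ j, ω j b x v = 0) ∧ fderiv ℝ (fun y => (Φ b y).1) x v = y)
    (𝒰 : Ultrafilter I) : Good S (Prod.fst '' ULim 𝒰 (fam D Φ a L)) := by
  obtain ⟨m, dm, hm⟩ := exists_proper h.data.dO h.data.openO
  let M : I → Set (Fin d → ℝ) := fun i => D (a i) ∩ ⋂ j, L i j
  let f : I → (Fin d → ℝ) → β := fun i x => (Φ (a i) x).1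
  let g : I → (Fin d → ℝ) → ℝ := fun i x => Q (Φ (a i) x).2
  have hloc := fun i p (hp : p ∈ M i) => local_homeo (h.data.openO _) (h.leaf i)
    (fun x hx => (hJ _ x hx).1) (h.sm _).fst (fun x hx => (hJ _ x hx).2.1)
    (fun x hx => (hJ _ x hx).2.2) hp
  have cf : ∀ i, ContinuousOn (f i) (M i) := fun i =>
    (h.sm _).continuousOn.fst.mono inter_subset_left
  have cg' : ∀ i, ContinuousOn (g i) (D (a i)) := fun i =>
    continuous_Q.comp_continuousOn (h.sm _).continuousOn.snd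
  have cg : ∀ i, ContinuousOn (g i) (M i) := fun i => (cg' i).mono inter_subset_left
  have cm : ∀ i, ContinuousOn (m (a i)) (M i) := fun i => (hm _).1.mono inter_subset_left
  obtain ⟨𝒱, h𝒱, hX⟩ := new_param (J := Set (β × (Fin l → ℝ))) (γ := ℝ) 𝒰
    (fun V i T => IsMeagre (f i '' (M i ∩ {x | m (a i) x = T})) ∧
      ((∃ x, x ∈ M i ∧ Φ (a i) x ∈ V) → ∃ x, (x ∈ M i ∧ Φ (a i) x ∈ V) ∧ m (a i) x ≤ T))
    fun s => by
      refine Eventually.of_forall fun i => ?_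
      obtain ⟨T, -, h1⟩ := exists_bound s (fun V x => x ∈ M i ∧ Φ (a i) x ∈ V) (m (a i))
      obtain ⟨t, t1, t2, -⟩ := exists_avoid
        (countable_bad (cf i) (cm i) fun p hp => (hloc i p hp).2) T
      refine ⟨t, fun V hV => ⟨not_not.1 t1, fun hx => ?_⟩⟩
      obtain ⟨x, hx, hx'⟩ := h1 V hV hx
      exact ⟨x, hx, hx'.trans t2.le⟩
  let P : Set β → ℝ → Prop := fun V r0 => ∀ r1, ∀ᶠ z in (𝒱 : Filter (I × ℝ)),
    ∀ r, r0 ≤ r → r ≤ r1 → ∃ x ∈ M z.1, f z.1 x ∈ V ∧ g z.1 x = r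
  obtain ⟨𝒲, h𝒲, hY⟩ := new_param (J := Set β) (γ := ℝ) 𝒱
    (fun V z R => IsMeagre (f z.1 '' (M z.1 ∩ {x | g z.1 x = R})) ∧
      ((∃ r0, P V r0) → ∃ x ∈ M z.1, f z.1 x ∈ V ∧ g z.1 x = R)) fun s => by
      obtain ⟨r0, -, h1⟩ := exists_bound s P id
      have h2 : ∀ V ∈ s, ∀ᶠ z in (𝒱 : Filter (I × ℝ)), (∃ r0, P V r0) →
          ∀ r, r0 ≤ r → r ≤ r0 + 1 → ∃ x ∈ M z.1, f z.1 x ∈ V ∧ g z.1 x = r := by
        intro V hV
        by_cases hP : ∃ r0, P V r0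
        · obtain ⟨r', h3, h4⟩ := h1 V hV hP
          exact (h3 (r0 + 1)).mono fun z hz _ r b1 b2 => hz r (le_trans h4 b1) b2
        · exact Eventually.of_forall fun _ h => absurd h hP
      filter_upwards [(eventually_all_finset s).2 h2] with z hz
      obtain ⟨t, t1, t2, t3⟩ := exists_avoid
        (countable_bad (cf z.1) (cg z.1) fun p hp => (hloc z.1 p hp).2) r0
      exact ⟨t, fun V hV => ⟨not_not.1 t1, fun hP => hz V hV hP t t2.le t3.le⟩⟩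
  have dD : DP S fun z : (α × ℝ) × (Fin d → ℝ) => z.2 ∈ D z.1.1 :=
    h.data.dO.comp (g := fun z : (α × ℝ) × (Fin d → ℝ) => (z.1.1, z.2)) (by fun_prop)
  have p1 := (h.cut (B := fun p : α × ℝ => {x | x ∈ D p.1 ∧ m p.1 x = p.2})
    (dD.and (DP.eq (dm.comp (g := fun z : (α × ℝ) × (Fin d → ℝ) => (z.1.1, z.2)) (by fun_prop))
      (by fun_prop))) (fun p x hx => hx.1) (Prod.fst : I × ℝ → I) Prod.snd).pfFam
  have p2 := ((h.cut (B := fun p : α × ℝ => {x | x ∈ D p.1 ∧ Q (Φ p.1 x).2 = p.2})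
    (dD.and (DP.eq (df_Q.comp (h.dΦ.comp
      (g := fun z : (α × ℝ) × (Fin d → ℝ) => (z.1.1, z.2)) (by fun_prop)).snd)
      (by fun_prop))) (fun p x hx => hx.1) (fun z : (I × ℝ) × ℝ => z.1.1) Prod.snd).post
      ((ContinuousLinearMap.inl ℝ β ℝ).comp (ContinuousLinearMap.fst ℝ β (Fin l → ℝ)))).pfFam
  have i1 := TSet.interior_closure_of_meagre 𝒱 p1 ((hX ∅).mono fun z hz => hz.1.mono (by
    rintro _ ⟨_, ⟨x, hx, rfl⟩, rfl⟩
    exact ⟨x, ⟨⟨hx.1.1, hx.2⟩, hx.1.2⟩, rfl⟩))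
  have i2 := TSet.interior_closure_of_meagre 𝒲 p2 ((hY ∅).mono fun z hz => hz.1.mono (by
    rintro _ ⟨_, ⟨x, hx, rfl⟩, rfl⟩
    exact ⟨x, ⟨⟨hx.1.1, hx.2⟩, hx.1.2⟩, rfl⟩))
  refine ⟨_, (TSet.mk' 𝒱 p1).clos.union (TSet.mk' 𝒲 p2).clos,
    isClosed_closure.union isClosed_closure, ?_, fun z hz => ?_⟩
  · rw [interior_union_isClosed_of_interior_empty isClosed_closure i2, i1]
  rw [mem_union, or_iff_not_imp_left]
  intro hz1
  refine subset_closure (mem_fst_lim (isCompact_singleton (x := (0 : ℝ))) fun V hV => ?_)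
  suffices hP : ∃ r0, P V r0 by
    filter_upwards [hY V] with u hu
    obtain ⟨x, x1, x2, x3⟩ := hu.2 hP
    exact ⟨_, ⟨x, ⟨⟨x1.1, x3⟩, x1.2⟩, rfl⟩, x2, rfl⟩
  have : ProperSpace β := FiniteDimensional.proper ℝ β
  obtain ⟨δ, hδ, hb⟩ := nhds_basis_closedBall.mem_iff.1
    (inter_mem hV (isClosed_closure.isOpen_compl.mem_nhds hz1))
  obtain ⟨_, hwB, w, hw, rfl⟩ := mem_closure_iff_nhds.1 hz.1 _ (ball_mem_nhds z hδ)
  obtain ⟨z', hz'B, hz'⟩ : (ball z δ ∩ (Prod.fst '' ULim 𝒰 (fam D Φ a L))ᶜ).Nonempty := by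
    have := hz.2
    rw [← mem_compl_iff, ← closure_compl] at this
    exact mem_closure_iff_nhds.1 this _ (ball_mem_nhds z hδ)
  refine ⟨Q w.2 + 1, fun r1 => ?_⟩
  have e1 := ev_notMem ((isCompact_closedBall z δ).prod (compact_Q (l := l) r1))
    fun u hu hu' => (hb hu.1).2 (subset_closure ⟨u, hu', rfl⟩)
  have e2 := ev_notMem (𝒰 := 𝒰) (W := fam D Φ a L)
    ((isCompact_singleton (x := z')).prod (compact_Q (l := l) r1))
    fun u hu hu' => hz' ⟨u, hu', hu.1⟩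
  have hV' : ball z δ ×ˢ {y | Q y < Q w.2 + 1} ∈ 𝓝 w :=
    prod_mem_nhds (isOpen_ball.mem_nhds hwB)
      ((isOpen_lt continuous_Q continuous_const).mem_nhds (lt_add_one (Q w.2)))
  filter_upwards [e1, (ev_of_map h𝒱).2 e2, (ev_of_map h𝒱).2 (hw _ hV'),
    hX (ball z δ ×ˢ {y | Q y < Q w.2 + 1})]
  rintro ⟨i, T⟩ b1 b2 ⟨_, ⟨x', hx', rfl⟩, hxV⟩ ⟨-, b4⟩ r hr0 hr1
  obtain ⟨x, ⟨hx, hxV⟩, hxm⟩ := b4 ⟨x', hx', hxV⟩
  have hK : IsCompact {x | x ∈ M i ∧ m (a i) x ≤ T ∧ g i x ≤ r} := by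
    have k1 := compact_leaves (h.leaf i) ((hm (a i)).2.2 T) fun p hp => hp.1
    have k2 := ((cg' i).mono fun p hp => hp.1.1).preimage_isClosed_of_isClosed k1.isClosed
      (isClosed_Iic (a := r))
    have e : {x | x ∈ M i ∧ m (a i) x ≤ T ∧ g i x ≤ r} =
        ({x | x ∈ D (a i) ∧ m (a i) x ≤ T} ∩ ⋂ j, L i j) ∩ g i ⁻¹' Iic r := Set.ext fun p =>
      ⟨fun hp => ⟨⟨⟨hp.1.1, hp.2.1⟩, hp.1.2⟩, hp.2.2⟩,
        fun hp => ⟨⟨hp.1.1.1, hp.1.2⟩, hp.1.1.2, hp.2⟩⟩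
    rw [e]
    exact k1.of_isClosed_subset k2 inter_subset_left
  obtain ⟨y, y1, y2, y3⟩ := cross (convex_ball z δ).isPreconnected (fun p hp => (hloc i p hp).1)
    (cf i) (cm i) (cg i) hK ⟨x, hx, hxV.1, hxm, (le_of_lt hxV.2).trans hr0⟩
    ⟨z', hz'B, fun p hp hp' e => b2 (Φ (a i) p) ⟨e, hp'.trans hr1⟩ ⟨p, hp, rfl⟩⟩
    fun p hp hpB hp' e => b1 (Φ (a i) p) ⟨ball_subset_closedBall hpB, hp'.trans hr1⟩
      ⟨p, ⟨⟨hp.1, e⟩, hp.2⟩, rfl⟩
  exact ⟨y, y1, (hb (ball_subset_closedBall y2)).1, y3⟩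

end Pool.Agent.Shared.OMin.Bd
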