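import Pool.Agent.Shared.OMin.Baire

/-! A3c, first part: uniform finiteness, enumeration of finite fibres, definable choice. -/

namespace Pool.Agent.Shared.OMin

open Set Filter Topology Module

variable {α β γ : Type}
  [NormedAddCommGroup α] [NormedSpace ℝ α] [FiniteDimensional ℝ α]
  [NormedAddCommGroup β] [NormedSpace ℝ β] [FiniteDimensional ℝ β]
  [NormedAddCommGroup γ] [NormedSpace ℝ γ] [FiniteDimensional ℝ γ] {S : OStr}

theorem DP.interior_iUnion {ι : Type} [Countable ι] {s : ι → Set α}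
    (h : ∀ i, DP S fun x => x ∈ s i) (he : ∀ i, interior (s i) = ∅) :
    interior (⋃ i, s i) = ∅ := by
  by_contra hne
  obtain ⟨i, x, hx⟩ := DP.baire h isOpen_interior (nonempty_iff_ne_empty.2 hne) interior_subset
  have : x ∈ interior (s i) := interior_mono inter_subset_left hx
  rw [he i] at this
  exact this

/-- a fibre of a definable family is definable -/
theorem DP.fibre {X : α → β → Prop} (h : DP S fun z : α × β => X z.1 z.2) (a : α) :
    DP S fun b => X a b :=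
  DP.comp (g := fun b : β => (a, b)) h (by fun_prop)

theorem DP.infinite_iff {s : Set ℝ} (h : DP S fun t => t ∈ s) :
    s.Infinite ↔ (interior s).Nonempty := by
  refine ⟨h.interior_nonempty_of_infinite, fun ⟨x, hx⟩ => ?_⟩
  exact infinite_of_mem_nhds x (mem_interior_iff_mem_nhds.1 hx)

theorem DP.finite_of_interior {s : Set ℝ} (h : DP S fun t => t ∈ s) (he : interior s = ∅) :
    s.Finite := by
  by_contra hs
  have := h.interior_nonempty_of_infinite hs
  rw [he] at this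
  exact not_nonempty_empty this

theorem DP.fib_infinite {X : α → ℝ → Prop} (h : DP S fun z : α × ℝ => X z.1 z.2) :
    DP S fun a => {t | X a t}.Infinite := by
  have h1 := DP.mem_interior (A := fun a => {t | X a t}) h
  refine (DP.ex (P := fun a t => t ∈ interior {t | X a t}) h1).congr fun a => ?_
  exact DP.infinite_iff (s := {t | X a t}) (h.fibre a)

/-- enumeration of fibres with at most `N` points -/
theorem DP.enumN (N : ℕ) : ∀ {X : α → ℝ → Prop}, (DP S fun z : α × ℝ => X z.1 z.2) →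
    ∃ ζ : Fin N → α → ℝ, (∀ j, DF S (ζ j)) ∧
      ∀ a, {t | X a t}.Finite → {t | X a t}.ncard ≤ N → ∀ t, X a t → ∃ j, t = ζ j a := by
  induction N with
  | zero =>
    intro X _
    refine ⟨fun _ _ => 0, fun j => j.elim0, fun a hf hN t ht => ?_⟩
    have : {t | X a t} = ∅ := (ncard_eq_zero hf).1 (Nat.le_zero.1 hN)
    exact absurd (show t ∈ {t | X a t} from ht) (by rw [this]; exact notMem_empty t)
  | succ N ih =>
    intro X h
    have hm : DF S fun a => sInf {t | X a t} := DF.sInf_fam (A := fun a => {t | X a t}) h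
    obtain ⟨ζ, hζ, hc⟩ := ih (X := fun a t => X a t ∧ t ≠ sInf {t | X a t})
      (h.and (DP.ne (by fun_prop) (DF.comp (g := fun z : α × ℝ => z.1) hm (by fun_prop))))
    refine ⟨Fin.cons (fun a => sInf {t | X a t}) ζ, fun j => Fin.cases hm hζ j,
      fun a hf hN t ht => ?_⟩
    by_cases h0 : t = sInf {t | X a t}
    · exact ⟨0, h0⟩
    · have hmem : sInf {t | X a t} ∈ {t | X a t} := Set.Nonempty.csInf_mem ⟨t, ht⟩ hf
      have he : {t | X a t ∧ t ≠ sInf {t | X a t}} = {t | X a t} \ {sInf {t | X a t}} := by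
        ext s; simp
      obtain ⟨j, hj⟩ := hc a (by rw [he]; exact hf.sdiff)
        (by rw [he, ncard_sdiff_singleton_of_mem hmem]; omega) t ⟨ht, h0⟩
      exact ⟨j.succ, hj⟩

/-- uniform finiteness over the base `α` -/
def UF (S : OStr) (α : Type) [NormedAddCommGroup α] [NormedSpace ℝ α] [FiniteDimensional ℝ α] :
    Prop :=
  ∀ X : α → ℝ → Prop, (DP S fun z : α × ℝ => X z.1 z.2) →
    ∃ N : ℕ, ∀ a, {t | X a t}.Finite → {t | X a t}.ncard ≤ N

theorem UF.enum (hU : UF S α) {X : α → ℝ → Prop} (h : DP S fun z : α × ℝ => X z.1 z.2) :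
    ∃ (N : ℕ) (ζ : Fin N → α → ℝ), (∀ j, DF S (ζ j)) ∧
      ∀ a, {t | X a t}.Finite → ∀ t, X a t → ∃ j, t = ζ j a := by
  obtain ⟨N, hN⟩ := hU X h
  obtain ⟨ζ, hζ, hc⟩ := DP.enumN N h
  exact ⟨N, ζ, hζ, fun a ha => hc a ha (hN a ha)⟩

/-- sample points in the complementary intervals of a finite set -/
theorem exists_sample {ι : Type} [Finite ι] (z : ι → ℝ) (s : ℝ) :
    (∃ j, s = z j) ∨ (∃ i j, ∀ k, z k ∉ uIcc s ((z i + z j) / 2)) ∨
      (∃ i, ∀ k, z k ∉ uIcc s (z i + 1)) ∨ (∃ i, ∀ k, z k ∉ uIcc s (z i - 1)) ∨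
      ∀ k, z k ∉ uIcc s 0 := by
  by_cases h0 : ∃ j, s = z j
  · exact .inl h0
  right
  push Not at h0
  have hlt : ∀ k, z k < s ∨ s < z k := fun k => lt_or_gt_of_ne (h0 k).symm
  by_cases hl : ∃ k, z k < s
  · obtain ⟨i, hi, hi'⟩ := Set.exists_max_image {k | z k < s} z (toFinite _) hl
    by_cases hr : ∃ k, s < z k
    · obtain ⟨j, hj, hj'⟩ := Set.exists_min_image {k | s < z k} z (toFinite _) hr
      refine .inl ⟨i, j, fun k hk => ?_⟩
      simp only [mem_ofPred_eq] at hi hj hi' hj'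
      rw [mem_uIcc] at hk
      rcases hlt k with h | h
      · have := hi' k h
        rcases hk with hk | hk <;> linarith [hk.1, hk.2]
      · have := hj' k h
        rcases hk with hk | hk <;> linarith [hk.1, hk.2]
    · refine .inr (.inl ⟨i, fun k hk => ?_⟩)
      simp only [mem_ofPred_eq] at hi hi'
      rw [mem_uIcc] at hk
      rcases hlt k with h | h
      · have := hi' k h
        rcases hk with hk | hk <;> linarith [hk.1, hk.2]
      · exact hr ⟨k, h⟩
  · by_cases hr : ∃ k, s < z k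
    · obtain ⟨j, hj, hj'⟩ := Set.exists_min_image {k | s < z k} z (toFinite _) hr
      refine .inr (.inr (.inl ⟨j, fun k hk => ?_⟩))
      simp only [mem_ofPred_eq] at hj hj'
      rw [mem_uIcc] at hk
      rcases hlt k with h | h
      · exact hl ⟨k, h⟩
      · have := hj' k h
        rcases hk with hk | hk <;> linarith [hk.1, hk.2]
    · refine .inr (.inr (.inr fun k _ => ?_))
      rcases hlt k with h | h
      · exact hl ⟨k, h⟩
      · exact hr ⟨k, h⟩

theorem UF.sample (hU : UF S α) {X : α → ℝ → Prop} (h : DP S fun z : α × ℝ => X z.1 z.2) :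
    ∃ (ι : Type) (_ : Finite ι) (η : ι → α → ℝ), (∀ j, DF S (η j)) ∧
      ∀ a, {t | X a t}.Finite → ∀ s, ∃ j, s = η j a ∨ ∀ t ∈ uIcc s (η j a), ¬ X a t := by
  obtain ⟨N, ζ, hζ, hc⟩ := hU.enum h
  refine ⟨Fin N ⊕ (Fin N × Fin N) ⊕ Fin N ⊕ Fin N ⊕ Unit, inferInstance,
    Sum.elim ζ (Sum.elim (fun p a => (ζ p.1 a + ζ p.2 a) / 2)
      (Sum.elim (fun i a => ζ i a + 1) (Sum.elim (fun i a => ζ i a - 1) fun _ _ => 0))), ?_, ?_⟩
  · rintro (j | ⟨i, j⟩ | j | j | j)
    · exact hζ j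
    · have := hζ i
      have := hζ j
      simp only [Sum.elim_inr, Sum.elim_inl]
      fun_prop
    · have := hζ j
      simp only [Sum.elim_inr, Sum.elim_inl]
      fun_prop
    · have := hζ j
      simp only [Sum.elim_inr, Sum.elim_inl]
      fun_prop
    · simp only [Sum.elim_inr]
      fun_prop
  · intro a ha s
    have key : ∀ r, (∀ k, ζ k a ∉ uIcc s r) → ∀ t ∈ uIcc s r, ¬ X a t := by
      intro r hr t ht hX
      obtain ⟨k, rfl⟩ := hc a ha t hX
      exact hr k ht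
    rcases exists_sample (fun j => ζ j a) s with ⟨j, hj⟩ | ⟨i, j, hj⟩ | ⟨j, hj⟩ | ⟨j, hj⟩ | hj
    · exact ⟨.inl j, .inl hj⟩
    · exact ⟨.inr (.inl (i, j)), .inr (key _ hj)⟩
    · exact ⟨.inr (.inr (.inl j)), .inr (key _ hj)⟩
    · exact ⟨.inr (.inr (.inr (.inl j))), .inr (key _ hj)⟩
    · exact ⟨.inr (.inr (.inr (.inr ()))), .inr (key _ hj)⟩

/-- points near which the size of the fibre is visibly constant -/
def Good (X : α → ℝ → Prop) (a : α) : Prop :=
  (∀ᶠ a' in 𝓝 a, {t | X a' t}.Infinite) ∨ ∃ δ : ℝ, ∀ᶠ a' in 𝓝 a,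
    (∀ t', X a' t' → ∃ t, X a t ∧ |t - t'| < δ) ∧
    (∀ t, X a t → ∃ t', X a' t' ∧ |t - t'| < δ) ∧
    (∀ t₁ t₂ t', X a t₁ → X a t₂ → X a' t' → |t₁ - t'| < δ → |t₂ - t'| < δ → t₁ = t₂) ∧
    (∀ t₁ t₂ t, X a' t₁ → X a' t₂ → X a t → |t - t₁| < δ → |t - t₂| < δ → t₁ = t₂)

theorem encard_le_of_rel {s t : Set ℝ} {R : ℝ → ℝ → Prop} (h1 : ∀ x ∈ s, ∃ y ∈ t, R x y)
    (h2 : ∀ x₁ ∈ s, ∀ x₂ ∈ s, ∀ y ∈ t, R x₁ y → R x₂ y → x₁ = x₂) : s.encard ≤ t.encard := by
  choose! f hf hR using h1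
  exact encard_le_encard_of_injOn (f := f) hf fun x₁ h₁ x₂ h₂ he =>
    h2 x₁ h₁ x₂ h₂ (f x₁) (hf x₁ h₁) (hR x₁ h₁) (he ▸ hR x₂ h₂)

omit [NormedSpace ℝ α] [FiniteDimensional ℝ α] in
theorem Good.encard_eq {X : α → ℝ → Prop} {a : α} (h : Good X a) :
    ∀ᶠ a' in 𝓝 a, {t | X a' t}.encard = {t | X a t}.encard := by
  rcases h with h | ⟨δ, h⟩
  · filter_upwards [h] with a' ha'
    rw [ha'.encard_eq, h.self_of_nhds.encard_eq]
  · filter_upwards [h] with a' ⟨h1, h2, h3, h4⟩
    apply le_antisymm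
    · exact encard_le_of_rel (R := fun t' t => |t - t'| < δ) h1
        fun x₁ h₁ x₂ h₂ y hy => h4 x₁ x₂ y h₁ h₂ hy
    · exact encard_le_of_rel (R := fun t t' => |t - t'| < δ) h2
        fun x₁ h₁ x₂ h₂ y hy => h3 x₁ x₂ y h₁ h₂ hy

theorem DP.good {X : α → β → ℝ → Prop} (h : DP S fun z : (α × β) × ℝ => X z.1.1 z.1.2 z.2) :
    DP S fun z : α × β => Good (X z.1) z.2 := by
  have hX : ∀ {δ : Type} [NormedAddCommGroup δ] [NormedSpace ℝ δ] [FiniteDimensional ℝ δ]
      {f : δ → α} {g : δ → β} {k : δ → ℝ}, DF S f → DF S g → DF S k →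
      DP S fun w => X (f w) (g w) (k w) := fun hf hg hk =>
    DP.comp (g := fun w => ((_, _), _)) h ((hf.prodMk hg).prodMk hk)
  have h1 := DP.fib_infinite (X := fun z : α × β => X z.1 z.2) h
  refine DP.or ?_ ?_
  · refine DP.ev_nhds (P := fun (z : α × β) b => {t | X z.1 b t}.Infinite) ?_ (by fun_prop)
    exact DP.comp (g := fun w : (α × β) × β => (w.1.1, w.2)) h1 (by fun_prop)
  · refine DP.ex (DP.ev_nhds ?_ (by fun_prop))
    refine DP.and (DP.all (DP.imp (hX (by fun_prop) (by fun_prop) (by fun_prop))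
      (DP.ex (DP.and (hX (by fun_prop) (by fun_prop) (by fun_prop)) (by fun_prop)))))
      (DP.and (DP.all (DP.imp (hX (by fun_prop) (by fun_prop) (by fun_prop))
      (DP.ex (DP.and (hX (by fun_prop) (by fun_prop) (by fun_prop)) (by fun_prop)))))
      (DP.and ?_ ?_))
    all_goals
      refine DP.all (DP.all (DP.all (DP.imp (hX (by fun_prop) (by fun_prop) (by fun_prop))
        (DP.imp (hX (by fun_prop) (by fun_prop) (by fun_prop))
        (DP.imp (hX (by fun_prop) (by fun_prop) (by fun_prop)) (by fun_prop))))))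

omit [NormedSpace ℝ α] [FiniteDimensional ℝ α] in
theorem good_of_cont {X : α → ℝ → Prop} {a : α} {k : ℕ} {ζ : Fin k → α → ℝ}
    (hc : ∀ j, ContinuousAt (ζ j) a) (hinj : ∀ i j, ζ i a = ζ j a → i = j)
    (hX : ∀ᶠ a' in 𝓝 a, ∀ t, X a' t ↔ ∃ j, t = ζ j a') : Good X a := by
  right
  have h1 : ∀ᶠ δ in 𝓝[>] (0 : ℝ), ∀ i j, |ζ i a - ζ j a| < 2 * δ → i = j := by
    rw [eventually_all]
    intro i
    rw [eventually_all]
    intro j
    by_cases hij : i = j
    · exact Eventually.of_forall fun _ _ => hij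
    · have hpos : 0 < |ζ i a - ζ j a| := abs_pos.2 (sub_ne_zero.2 fun he => hij (hinj i j he))
      have : ∀ᶠ δ in 𝓝 (0 : ℝ), δ < |ζ i a - ζ j a| / 2 := eventually_lt_nhds (by linarith)
      filter_upwards [nhdsWithin_le_nhds this] with δ hδ hlt
      linarith
  obtain ⟨δ, hδ, hδ0⟩ := (h1.and self_mem_nhdsWithin).exists
  have hδ0 : 0 < δ := hδ0
  have h2 : ∀ᶠ a' in 𝓝 a, ∀ j, |ζ j a - ζ j a'| < δ := by
    rw [eventually_all]
    intro j
    filter_upwards [Metric.tendsto_nhds.1 (hc j) δ hδ0] with a' ha'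
    rwa [Real.dist_eq, abs_sub_comm] at ha'
  have h0 := hX.self_of_nhds
  have h3 : ∀ a', (∀ j, |ζ j a - ζ j a'| < δ) → ∀ i j, |ζ i a - ζ j a'| < δ → i = j := by
    intro a' ha' i j hij
    refine hδ i j ?_
    have := ha' j
    rw [abs_lt] at *
    constructor <;> linarith [this.1, this.2, hij.1, hij.2]
  refine ⟨δ, ?_⟩
  filter_upwards [hX, h2] with a' hX' h2'
  refine ⟨fun t' ht' => ?_, fun t ht => ?_, fun t₁ t₂ t' h₁ h₂ h' e₁ e₂ => ?_,
    fun t₁ t₂ t h₁ h₂ h' e₁ e₂ => ?_⟩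
  · obtain ⟨j, rfl⟩ := (hX' t').1 ht'
    exact ⟨ζ j a, (h0 _).2 ⟨j, rfl⟩, h2' j⟩
  · obtain ⟨j, rfl⟩ := (h0 t).1 ht
    exact ⟨ζ j a', (hX' _).2 ⟨j, rfl⟩, h2' j⟩
  · obtain ⟨i, rfl⟩ := (h0 _).1 h₁
    obtain ⟨j, rfl⟩ := (h0 _).1 h₂
    obtain ⟨l, rfl⟩ := (hX' _).1 h'
    rw [h3 a' h2' i l e₁, h3 a' h2' j l e₂]
  · obtain ⟨i, rfl⟩ := (hX' _).1 h₁
    obtain ⟨j, rfl⟩ := (hX' _).1 h₂
    obtain ⟨l, rfl⟩ := (h0 _).1 h'
    rw [← h3 a' h2' l i e₁, ← h3 a' h2' l j e₂]

theorem DF.contAt_set {f : α → β} (hf : DF S f) : DP S fun x => ContinuousAt f x :=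
  DP.contAt (f := fun (_ : α) y => f y) (g := fun x => x) (by fun_prop) (by fun_prop)

theorem DP.interior_not_good {X : α → ℝ → Prop} (h : DP S fun z : α × ℝ => X z.1 z.2) :
    interior {a | ¬ Good X a} = ∅ := by
  by_contra hne
  choose ζ hζ hc using fun k => DP.enumN (S := S) k h
  let B : Option ℕ → Set α := fun o => Option.casesOn o {a | {t | X a t}.Infinite}
    fun k => {a | (∀ t, X a t ↔ ∃ j, t = ζ k j a) ∧ ∀ i j, ζ k i a = ζ k j a → i = j}
  have hB : ∀ o, DP S fun a => a ∈ B o := by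
    rintro (_ | k)
    · exact h.fib_infinite
    · refine DP.and (DP.all (DP.iff h (DP.fin_or fun j => ?_)))
        (DP.fin_and fun i => DP.fin_and fun j => DP.imp (DP.eq (hζ k i) (hζ k j)) (DP.const _))
      have := hζ k j
      fun_prop
  have hcov : interior {a | ¬ Good X a} ⊆ ⋃ o, B o := by
    intro a _
    by_cases hf : {t | X a t}.Finite
    · refine mem_iUnion.2 ⟨some {t | X a t}.ncard, ?_⟩
      have h1 : {t | X a t} ⊆ range fun j => ζ {t | X a t}.ncard j a := fun t ht => by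
        obtain ⟨j, hj⟩ := hc _ a hf le_rfl t ht
        exact ⟨j, hj.symm⟩
      have h2 : (range fun j => ζ {t | X a t}.ncard j a).ncard ≤ {t | X a t}.ncard := by
        rw [← image_univ]
        refine (ncard_image_le (toFinite _)).trans ?_
        simp [ncard_univ]
      have h3 := eq_of_subset_of_ncard_le h1 h2 (finite_range _)
      refine ⟨fun t => ⟨hc _ a hf le_rfl t, fun ⟨j, hj⟩ => ?_⟩, ?_⟩
      · have : t ∈ range fun j => ζ {t | X a t}.ncard j a := ⟨j, hj.symm⟩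
        rwa [← h3] at this
      · have h4 : ((fun j => ζ {t | X a t}.ncard j a) '' univ).ncard =
            (univ : Set (Fin {t | X a t}.ncard)).ncard := by
          rw [image_univ, ← h3]
          simp [ncard_univ]
        have h5 := (ncard_image_iff (toFinite _)).1 h4
        exact fun i j hij => h5 (mem_univ i) (mem_univ j) hij
    · exact mem_iUnion.2 ⟨none, hf⟩
  obtain ⟨o, a, ha⟩ := DP.baire hB isOpen_interior (nonempty_iff_ne_empty.2 hne) hcov
  rcases o with _ | k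
  · have h1 : ¬ Good X a := interior_subset (s := {a | ¬ Good X a}) (interior_subset ha).2
    exact h1 (.inl (mem_of_superset (mem_interior_iff_mem_nhds.1 ha) inter_subset_left))
  · have h1 : interior (⋃ j, {x | ¬ ContinuousAt (ζ k j) x}) = ∅ :=
      DP.interior_iUnion (fun j => (hζ k j).contAt_set.not) fun j => (hζ k j).generic_continuous
    have h2 : ¬ interior (B (some k) ∩ interior {a | ¬ Good X a}) ⊆
        ⋃ j, {x | ¬ ContinuousAt (ζ k j) x} := fun hsub => by
      have := interior_maximal hsub isOpen_interior ha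
      rw [h1] at this
      exact this
    obtain ⟨b, hb, hb'⟩ := not_subset.1 h2
    have h3 : ¬ Good X b := interior_subset (s := {a | ¬ Good X a}) (interior_subset hb).2
    refine h3 (good_of_cont (ζ := ζ k) (fun j => ?_) (interior_subset hb).1.2 ?_)
    · by_contra hj
      exact hb' (mem_iUnion.2 ⟨j, hj⟩)
    · filter_upwards [mem_interior_iff_mem_nhds.1 hb] with a' ha' using ha'.1.1

theorem UF.prod (hU : UF S α) : UF S (α × ℝ) := by
  intro X h
  have hG := DP.good (X := fun a s => X (a, s)) h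
  obtain ⟨ι, _, η, hη, hs⟩ := hU.sample (X := fun a s => ¬ Good (fun s => X (a, s)) s) hG.not
  have hN : ∀ j, ∃ N : ℕ, ∀ a, {t | X (a, η j a) t}.Finite → {t | X (a, η j a) t}.ncard ≤ N := by
    intro j
    have := hη j
    exact hU (fun a t => X (a, η j a) t)
      (DP.comp (g := fun z : α × ℝ => ((z.1, η j z.1), z.2)) h (by fun_prop))
  choose N hN using hN
  obtain ⟨M, hM⟩ := (finite_range N).bddAbove
  refine ⟨M, fun ⟨a, s⟩ hf => ?_⟩
  have hfin : {s | ¬ Good (fun s => X (a, s)) s}.Finite := by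
    refine DP.finite_of_interior (hG.not.fibre (X := fun a s => ¬ Good (fun s => X (a, s)) s) a) ?_
    exact DP.interior_not_good (S := S)
      (DP.comp (g := fun z : ℝ × ℝ => ((a, z.1), z.2)) h (by fun_prop))
  obtain ⟨j, hj⟩ := hs a hfin s
  have he : {t | X (a, s) t}.encard = {t | X (a, η j a) t}.encard := by
    rcases hj with hj | hj
    · rw [← hj]
    · refine isPreconnected_uIcc.induction₂'
        (fun x y => {t | X (a, x) t}.encard = {t | X (a, y) t}.encard) (fun x hx => ?_)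
        (fun _ _ _ _ _ _ h1 h2 => h1.trans h2) left_mem_uIcc right_mem_uIcc
      filter_upwards [nhdsWithin_le_nhds (not_not.1 (hj x hx)).encard_eq] with y hy
      exact ⟨hy.symm, hy⟩
  have hf' : {t | X (a, η j a) t}.Finite := by
    rw [← encard_lt_top_iff, ← he]
    exact hf.encard_lt_top
  have : {t | X (a, s) t}.ncard = {t | X (a, η j a) t}.ncard := by
    rw [ncard_def, ncard_def, he]
  rw [this]
  exact (hN j a hf').trans (hM ⟨j, rfl⟩)

theorem UF.equiv (hU : UF S α) (e : α ≃L[ℝ] β) : UF S β := by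
  intro X h
  have he : DF S e := DF.clm (e : α →L[ℝ] β)
  obtain ⟨N, hN⟩ := hU (fun a t => X (e a) t)
    (DP.comp (g := fun z : α × ℝ => (e z.1, z.2)) h (by fun_prop))
  refine ⟨N, fun b => ?_⟩
  simpa using hN (e.symm b)

/-- splitting off one coordinate -/
theorem exists_split {n : ℕ} (h : finrank ℝ α = n + 1) :
    Nonempty (((Fin n → ℝ) × ℝ) ≃L[ℝ] α) :=
  ⟨ContinuousLinearEquiv.ofFinrankEq (by simp [h])⟩

theorem uf_all (S : OStr) (α : Type) [NormedAddCommGroup α] [NormedSpace ℝ α]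
    [FiniteDimensional ℝ α] : UF S α := by
  have key : ∀ n : ℕ, UF S (Fin n → ℝ) := by
    intro n
    induction n with
    | zero =>
      intro X _
      exact ⟨{t | X 0 t}.ncard, fun a _ => by rw [Subsingleton.elim a 0]⟩
    | succ n ih =>
      obtain ⟨e⟩ := exists_split (α := Fin (n + 1) → ℝ) (n := n) (by simp)
      exact ih.prod.equiv e
  exact (key (finrank ℝ α)).equiv (ContinuousLinearEquiv.ofFinrankEq (by simp))

end Pool.Agent.Shared.OMin
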