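import Mathlib

/-! O-minimal structures on the real field, on all finite dimensional real normed spaces.
Definable predicates `DP` and definable maps `DF`, with `fun_prop` support. -/

namespace Pool.Agent.Shared.OMin

open Set Filter Topology

/-- An o-minimal expansion of the ordered field of reals (with all real parameters). -/
structure OStr where
  D : ∀ (α : Type) [NormedAddCommGroup α] [NormedSpace ℝ α] [FiniteDimensional ℝ α],
    Set α → Prop
  compl : ∀ {α : Type} [NormedAddCommGroup α] [NormedSpace ℝ α] [FiniteDimensional ℝ α]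
    {s : Set α}, D α s → D α sᶜ
  inter : ∀ {α : Type} [NormedAddCommGroup α] [NormedSpace ℝ α] [FiniteDimensional ℝ α]
    {s t : Set α}, D α s → D α t → D α (s ∩ t)
  pre : ∀ {α β : Type} [NormedAddCommGroup α] [NormedSpace ℝ α] [FiniteDimensional ℝ α]
    [NormedAddCommGroup β] [NormedSpace ℝ β] [FiniteDimensional ℝ β]
    (L : α →L[ℝ] β) {s : Set β}, D β s → D α (L ⁻¹' s)
  proj : ∀ {α : Type} [NormedAddCommGroup α] [NormedSpace ℝ α] [FiniteDimensional ℝ α]
    {s : Set (α × ℝ)}, D (α × ℝ) s → D α {x | ∃ t, (x, t) ∈ s}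
  mul : D (ℝ × ℝ × ℝ) {p | p.1 * p.2.1 = p.2.2}
  pos : D ℝ {x | 0 < x}
  sing : ∀ r : ℝ, D ℝ {r}
  omin : ∀ {s : Set ℝ}, D ℝ s → (frontier s).Finite

variable {α β γ δ : Type}
  [NormedAddCommGroup α] [NormedSpace ℝ α] [FiniteDimensional ℝ α]
  [NormedAddCommGroup β] [NormedSpace ℝ β] [FiniteDimensional ℝ β]
  [NormedAddCommGroup γ] [NormedSpace ℝ γ] [FiniteDimensional ℝ γ]
  [NormedAddCommGroup δ] [NormedSpace ℝ δ] [FiniteDimensional ℝ δ]

/-- Definable predicate. -/
@[fun_prop]
def DP (S : OStr) (P : α → Prop) : Prop := S.D α {x | P x}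

/-- Definable map (definable graph). -/
@[fun_prop]
def DF (S : OStr) (f : α → β) : Prop := S.D (α × β) {p | p.2 = f p.1}

variable {S : OStr}

theorem DP.congr {P Q : α → Prop} (h : DP S P) (e : ∀ x, Q x ↔ P x) : DP S Q := by
  have : Q = P := funext fun x => propext (e x)
  rwa [this]

theorem DP.clm {P : β → Prop} (h : DP S P) (L : α →L[ℝ] β) : DP S fun x => P (L x) :=
  S.pre L h

@[fun_prop]
theorem DP.not {P : α → Prop} (h : DP S P) : DP S fun x => ¬ P x := S.compl h

@[fun_prop]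
theorem DP.and {P Q : α → Prop} (h : DP S P) (h' : DP S Q) : DP S fun x => P x ∧ Q x :=
  S.inter h h'

@[fun_prop]
theorem DP.or {P Q : α → Prop} (h : DP S P) (h' : DP S Q) : DP S fun x => P x ∨ Q x :=
  (h.not.and h'.not).not.congr fun _ => by tauto

@[fun_prop]
theorem DP.imp {P Q : α → Prop} (h : DP S P) (h' : DP S Q) : DP S fun x => P x → Q x :=
  (h.not.or h').congr fun _ => by tauto

@[fun_prop]
theorem DP.iff {P Q : α → Prop} (h : DP S P) (h' : DP S Q) : DP S fun x => P x ↔ Q x :=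
  ((h.imp h').and (h'.imp h)).congr fun _ => by tauto

@[fun_prop]
theorem DP.const (p : Prop) : DP S fun _ : α => p := by
  have h0 : DP S fun _ : α => False :=
    (DP.clm (S := S) (P := fun x : ℝ => 0 < x) S.pos (0 : α →L[ℝ] ℝ)).congr fun x => by simp
  by_cases hp : p
  · exact h0.not.congr fun _ => by simp [hp]
  · exact h0.congr fun _ => by simp [hp]

theorem DP.ex_real {P : α → ℝ → Prop} (h : DP S fun z : α × ℝ => P z.1 z.2) :
    DP S fun x => ∃ y, P x y := S.proj h

theorem DP.ex_fin (m : ℕ) : ∀ {α : Type} [NormedAddCommGroup α] [NormedSpace ℝ α]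
    [FiniteDimensional ℝ α] {P : α → (Fin m → ℝ) → Prop},
    (DP S fun z : α × (Fin m → ℝ) => P z.1 z.2) → DP S fun x => ∃ y, P x y := by
  induction m with
  | zero =>
    intro α _ _ _ P h
    refine (h.clm (ContinuousLinearMap.inl ℝ α (Fin 0 → ℝ))).congr fun x => ?_
    simp only [ContinuousLinearMap.inl_apply]
    exact ⟨fun ⟨y, hy⟩ => by rwa [Subsingleton.elim y 0] at hy, fun hy => ⟨_, hy⟩⟩
  | succ m ih =>
    intro α _ _ _ P h
    let L : (α × (Fin m → ℝ)) × ℝ →L[ℝ] α × (Fin (m + 1) → ℝ) :=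
      LinearMap.toContinuousLinearMap
        { toFun := fun z => (z.1.1, Fin.cons z.2 z.1.2)
          map_add' := fun z w => by
            ext i
            · rfl
            · refine Fin.cases rfl (fun _ => rfl) i
          map_smul' := fun c z => by
            ext i
            · rfl
            · refine Fin.cases rfl (fun _ => rfl) i }
    have h1 : DP S fun z : α × (Fin m → ℝ) => ∃ t : ℝ, P z.1 (Fin.cons t z.2) :=
      DP.ex_real (P := fun (z : α × (Fin m → ℝ)) t => P z.1 (Fin.cons t z.2)) (h.clm L)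
    refine (ih (P := fun x y => ∃ t : ℝ, P x (Fin.cons t y)) h1).congr fun x => ?_
    constructor
    · rintro ⟨y, hy⟩
      exact ⟨Fin.tail y, y 0, by rwa [Fin.cons_self_tail]⟩
    · rintro ⟨y, t, hy⟩
      exact ⟨_, hy⟩

@[fun_prop]
theorem DP.ex {P : α → β → Prop} (h : DP S fun z : α × β => P z.1 z.2) :
    DP S fun x => ∃ y, P x y := by
  let e : (Fin (Module.finrank ℝ β) → ℝ) ≃L[ℝ] β :=
    (Module.finBasis ℝ β).equivFun.symm.toContinuousLinearEquiv
  have h1 : DP S fun z : α × (Fin (Module.finrank ℝ β) → ℝ) => P z.1 (e z.2) :=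
    h.clm ((ContinuousLinearMap.id ℝ α).prodMap
      (e : (Fin (Module.finrank ℝ β) → ℝ) →L[ℝ] β))
  refine (DP.ex_fin _ (P := fun x y => P x (e y)) h1).congr fun x => ?_
  exact ⟨fun ⟨y, hy⟩ => ⟨e.symm y, by simpa using hy⟩, fun ⟨y, hy⟩ => ⟨_, hy⟩⟩

@[fun_prop]
theorem DP.all {P : α → β → Prop} (h : DP S fun z : α × β => P z.1 z.2) :
    DP S fun x => ∀ y, P x y :=
  (DP.ex (P := fun x y => ¬ P x y) h.not).not.congr fun _ => by simp

theorem DP.fin_and {ι : Type*} [Finite ι] {P : ι → α → Prop} (h : ∀ i, DP S (P i)) :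
    DP S fun x => ∀ i, P i x := by
  classical
  cases nonempty_fintype ι
  have : ∀ s : Finset ι, DP S fun x => ∀ i ∈ s, P i x := by
    intro s
    induction s using Finset.induction_on with
    | empty => exact (DP.const True).congr fun _ => by simp
    | insert a s _ ih => exact ((h a).and ih).congr fun _ => by simp
  exact (this Finset.univ).congr fun _ => by simp

theorem DP.fin_or {ι : Type*} [Finite ι] {P : ι → α → Prop} (h : ∀ i, DP S (P i)) :
    DP S fun x => ∃ i, P i x :=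
  (DP.fin_and fun i => (h i).not).not.congr fun _ => by simp

theorem DP.finset_and {ι : Type*} {s : Set ι} (hs : s.Finite) {P : ι → α → Prop}
    (h : ∀ i ∈ s, DP S (P i)) : DP S fun x => ∀ i ∈ s, P i x := by
  have := hs.to_subtype
  exact (DP.fin_and (ι := s) (P := fun i => P i) fun i => h i i.2).congr fun _ => by simp

theorem DP.finset_or {ι : Type*} {s : Set ι} (hs : s.Finite) {P : ι → α → Prop}
    (h : ∀ i ∈ s, DP S (P i)) : DP S fun x => ∃ i ∈ s, P i x :=
  (DP.finset_and hs fun i hi => (h i hi).not).not.congr fun _ => by simp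

theorem DP.eq_zero : DP S fun x : α => x = 0 := by
  let b := Module.finBasis ℝ α
  have h : ∀ i, DP S fun x : α => b.coord i x = 0 := fun i =>
    DP.clm (S := S) (P := fun t : ℝ => t = 0) (S.sing 0)
      (LinearMap.toContinuousLinearMap (b.coord i))
  refine (DP.fin_and h).congr fun x => ⟨fun hx i => by simp [hx], fun hx => ?_⟩
  exact b.ext_elem fun i => by simpa using hx i

theorem DP.eq_const (c : α) : DP S fun x : α => x = c := by
  let b := Module.finBasis ℝ α
  have h : ∀ i, DP S fun x : α => b.coord i x = b.coord i c := fun i =>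
    DP.clm (S := S) (P := fun t : ℝ => t = b.coord i c) (S.sing _)
      (LinearMap.toContinuousLinearMap (b.coord i))
  refine (DP.fin_and h).congr fun x => ⟨fun hx i => by simp [hx], fun hx => ?_⟩
  exact b.ext_elem fun i => by simpa using hx i

theorem DF.clm (L : α →L[ℝ] β) : DF S L :=
  (DP.eq_zero.clm (S := S) (ContinuousLinearMap.snd ℝ α β -
    L ∘L ContinuousLinearMap.fst ℝ α β)).congr fun p => by simp [sub_eq_zero]

theorem DF.lin {f : α → β} (h : IsLinearMap ℝ f) : DF S f :=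
  DF.clm (LinearMap.toContinuousLinearMap (h.mk' f))

theorem DF.graph {f : α → β} (h : DF S f) : DP S fun p : α × β => p.2 = f p.1 := h

@[fun_prop]
theorem DP.comp {P : β → Prop} {g : α → β} (h : DP S P) (hg : DF S g) :
    DP S fun x => P (g x) :=
  (DP.ex (P := fun x y => y = g x ∧ P y)
    (hg.graph.and (h.clm (ContinuousLinearMap.snd ℝ α β)))).congr fun _ => by simp

@[fun_prop]
theorem DF.id' : DF S fun x : α => x := DF.clm (ContinuousLinearMap.id ℝ α)

@[fun_prop]
theorem DF.const (c : β) : DF S fun _ : α => c :=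
  (DP.eq_const c).clm (ContinuousLinearMap.snd ℝ α β)

theorem DF.mk' {f : α → β} (h : DP S fun p : α × β => p.2 = f p.1) : DF S f := h

@[fun_prop]
theorem DF.comp {f : β → γ} {g : α → β} (hf : DF S f) (hg : DF S g) :
    DF S fun x => f (g x) := by
  have h1 : DP S fun z : (α × γ) × β => z.2 = g z.1.1 :=
    hg.graph.clm ((ContinuousLinearMap.fst ℝ α γ).prodMap (ContinuousLinearMap.id ℝ β))
  have h2 : DP S fun z : (α × γ) × β => z.1.2 = f z.2 :=
    hf.graph.clm ((ContinuousLinearMap.snd ℝ (α × γ) β).prod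
      (ContinuousLinearMap.snd ℝ α γ ∘L ContinuousLinearMap.fst ℝ (α × γ) β))
  exact (DP.ex (P := fun (p : α × γ) y => y = g p.1 ∧ p.2 = f y) (h1.and h2)).congr
    fun _ => by simp

@[fun_prop]
theorem DF.prodMk {f : α → β} {g : α → γ} (hf : DF S f) (hg : DF S g) :
    DF S fun x => (f x, g x) := by
  have h1 : DP S fun z : α × β × γ => z.2.1 = f z.1 :=
    hf.graph.clm ((ContinuousLinearMap.id ℝ α).prodMap (ContinuousLinearMap.fst ℝ β γ))
  have h2 : DP S fun z : α × β × γ => z.2.2 = g z.1 :=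
    hg.graph.clm ((ContinuousLinearMap.id ℝ α).prodMap (ContinuousLinearMap.snd ℝ β γ))
  exact (h1.and h2).congr fun _ => by simp [Prod.ext_iff]

@[fun_prop]
theorem DF.fst {f : α → β × γ} (hf : DF S f) : DF S fun x => (f x).1 :=
  (DF.clm (ContinuousLinearMap.fst ℝ β γ)).comp hf

@[fun_prop]
theorem DF.snd {f : α → β × γ} (hf : DF S f) : DF S fun x => (f x).2 :=
  (DF.clm (ContinuousLinearMap.snd ℝ β γ)).comp hf

@[fun_prop]
theorem DF.add {f g : α → β} (hf : DF S f) (hg : DF S g) : DF S fun x => f x + g x :=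
  (DF.clm (ContinuousLinearMap.fst ℝ β β + ContinuousLinearMap.snd ℝ β β)).comp (hf.prodMk hg)

@[fun_prop]
theorem DF.neg {f : α → β} (hf : DF S f) : DF S fun x => - f x :=
  (DF.clm (-ContinuousLinearMap.id ℝ β)).comp hf

@[fun_prop]
theorem DF.sub {f g : α → β} (hf : DF S f) (hg : DF S g) : DF S fun x => f x - g x :=
  (DF.clm (ContinuousLinearMap.fst ℝ β β - ContinuousLinearMap.snd ℝ β β)).comp (hf.prodMk hg)

@[fun_prop]
theorem DP.eq {f g : α → β} (hf : DF S f) (hg : DF S g) : DP S fun x => f x = g x :=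
  (DP.eq_zero.comp (hf.sub hg)).congr fun _ => by simp [sub_eq_zero]

@[fun_prop]
theorem DP.ne {f g : α → β} (hf : DF S f) (hg : DF S g) : DP S fun x => f x ≠ g x :=
  (DP.eq hf hg).not

@[fun_prop]
theorem DP.lt {f g : α → ℝ} (hf : DF S f) (hg : DF S g) : DP S fun x => f x < g x :=
  (DP.comp (P := fun t : ℝ => 0 < t) S.pos (hg.sub hf)).congr fun _ => by simp

@[fun_prop]
theorem DP.le {f g : α → ℝ} (hf : DF S f) (hg : DF S g) : DP S fun x => f x ≤ g x :=
  (DP.lt hg hf).not.congr fun _ => by simp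

@[fun_prop]
theorem DP.gt {f g : α → ℝ} (hf : DF S f) (hg : DF S g) : DP S fun x => f x > g x :=
  DP.lt hg hf

@[fun_prop]
theorem DP.ge {f g : α → ℝ} (hf : DF S f) (hg : DF S g) : DP S fun x => f x ≥ g x :=
  DP.le hg hf

@[fun_prop]
theorem DF.mul {f g : α → ℝ} (hf : DF S f) (hg : DF S g) : DF S fun x => f x * g x := by
  have h : DF S fun z : α × ℝ => (f z.1, g z.1, z.2) := by fun_prop
  exact (DP.comp (P := fun p : ℝ × ℝ × ℝ => p.1 * p.2.1 = p.2.2) S.mul h).congr
    fun _ => by simp [eq_comm]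

@[fun_prop]
theorem DF.apply {ι : Type} [Fintype ι] (i : ι) : DF S fun x : ι → ℝ => x i :=
  DF.clm (ContinuousLinearMap.proj (R := ℝ) (φ := fun _ : ι => ℝ) i)

@[fun_prop]
theorem DF.pi {ι : Type} [Fintype ι] {f : α → ι → ℝ} (h : ∀ i, DF S fun x => f x i) :
    DF S fun x i => f x i := by
  refine DF.mk' ((DP.fin_and (P := fun i (p : α × (ι → ℝ)) => p.2 i = f p.1 i)
    fun i => ?_).congr fun _ => funext_iff)
  have := h i
  fun_prop

theorem DF.of_coord {f : α → β} {ι : Type} [Fintype ι] (b : Module.Basis ι ℝ β)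
    (h : ∀ i, DF S fun x => b.coord i (f x)) : DF S f := by
  have h1 : DF S fun x => (fun i => b.coord i (f x) : ι → ℝ) := DF.pi h
  have h2 := (DF.clm (S := S) (b.equivFun.symm.toContinuousLinearEquiv : (ι → ℝ) →L[ℝ] β)).comp h1
  convert h2 using 2 with x
  apply b.equivFun.injective
  ext i
  simp

theorem DF.ite {P : α → Prop} [DecidablePred P] {f g : α → β} (hP : DP S P) (hf : DF S f)
    (hg : DF S g) : DF S fun x => if P x then f x else g x := by
  refine DF.mk' (DP.congr (P := fun p : α × β =>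
    (P p.1 ∧ p.2 = f p.1) ∨ (¬ P p.1 ∧ p.2 = g p.1)) (by fun_prop) fun p => ?_)
  by_cases h : P p.1 <;> simp [h]

@[fun_prop]
theorem DF.inv {f : α → ℝ} (hf : DF S f) : DF S fun x => (f x)⁻¹ := by
  refine DF.mk' (DP.congr (P := fun p : α × ℝ =>
    (f p.1 = 0 ∧ p.2 = 0) ∨ (p.2 * f p.1 = 1)) (by fun_prop) fun p => ?_)
  by_cases h : f p.1 = 0
  · simp [h]
  · simp only [h, false_and, false_or]
    exact (mul_eq_one_iff_eq_inv₀ h).symm

@[fun_prop]
theorem DF.div {f g : α → ℝ} (hf : DF S f) (hg : DF S g) : DF S fun x => f x / g x := by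
  simp only [div_eq_mul_inv]; fun_prop

@[fun_prop]
theorem DF.pow {f : α → ℝ} (hf : DF S f) (n : ℕ) : DF S fun x => f x ^ n := by
  induction n with
  | zero => simpa using DF.const 1
  | succ n ih => simp only [pow_succ]; fun_prop

@[fun_prop]
theorem DF.max {f g : α → ℝ} (hf : DF S f) (hg : DF S g) : DF S fun x => max (f x) (g x) := by
  simp only [max_def]; exact DF.ite (by fun_prop) hg hf

@[fun_prop]
theorem DF.min {f g : α → ℝ} (hf : DF S f) (hg : DF S g) : DF S fun x => min (f x) (g x) := by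
  simp only [min_def]; exact DF.ite (by fun_prop) hf hg

@[fun_prop]
theorem DF.abs {f : α → ℝ} (hf : DF S f) : DF S fun x => |f x| := by
  simp only [abs_eq_max_neg]; fun_prop

@[fun_prop]
theorem DF.sqrt {f : α → ℝ} (hf : DF S f) : DF S fun x => √(f x) := by
  refine DF.mk' (DP.congr (P := fun p : α × ℝ =>
    (f p.1 ≤ 0 ∧ p.2 = 0) ∨ (0 ≤ p.2 ∧ p.2 ^ 2 = f p.1)) (by fun_prop) fun p => ?_)
  constructor
  · intro h
    rcases le_total (f p.1) 0 with h0 | h0
    · exact .inl ⟨h0, by rw [h, Real.sqrt_eq_zero'.2 h0]⟩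
    · exact .inr ⟨h ▸ Real.sqrt_nonneg _, by rw [h, Real.sq_sqrt h0]⟩
  · rintro (⟨h0, h⟩ | ⟨h0, h⟩)
    · rw [h, Real.sqrt_eq_zero'.2 h0]
    · rw [← h, Real.sqrt_sq h0]

theorem DF.sum {ι : Type*} (s : Finset ι) {f : ι → α → β} (h : ∀ i ∈ s, DF S (f i)) :
    DF S fun x => ∑ i ∈ s, f i x := by
  classical
  induction s using Finset.induction_on with
  | empty => simpa using DF.const 0
  | insert a s ha ih =>
    simp only [Finset.sum_insert ha]
    exact (h a (by simp)).add (ih fun i hi => h i (by simp [hi]))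

theorem DF.prod {ι : Type*} (s : Finset ι) {f : ι → α → ℝ} (h : ∀ i ∈ s, DF S (f i)) :
    DF S fun x => ∏ i ∈ s, f i x := by
  classical
  induction s using Finset.induction_on with
  | empty => simpa using DF.const 1
  | insert a s ha ih =>
    simp only [Finset.prod_insert ha]
    exact (h a (by simp)).mul (ih fun i hi => h i (by simp [hi]))

/-- Bilinear maps are definable. -/
theorem DF.bilin (B : β →ₗ[ℝ] γ →ₗ[ℝ] δ) {f : α → β} {g : α → γ} (hf : DF S f) (hg : DF S g) :
    DF S fun x => B (f x) (g x) := by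
  let b := Module.finBasis ℝ β
  let c := Module.finBasis ℝ δ
  refine DF.of_coord c fun k => ?_
  have : ∀ x, c.coord k (B (f x) (g x)) =
      ∑ i, b.coord i (f x) * ((c.coord k).comp (B (b i))) (g x) := by
    intro x
    conv_lhs => rw [← b.sum_repr (f x), map_sum, LinearMap.sum_apply, map_sum]
    simp
  simp only [this]
  refine DF.sum _ fun i _ => DF.mul ?_ ?_
  · exact (DF.clm (LinearMap.toContinuousLinearMap (b.coord i))).comp hf
  · exact (DF.clm (LinearMap.toContinuousLinearMap ((c.coord k).comp (B (b i))))).comp hg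

@[fun_prop]
theorem DF.smul {f : α → ℝ} {g : α → β} (hf : DF S f) (hg : DF S g) :
    DF S fun x => f x • g x := DF.bilin (LinearMap.lsmul ℝ β) hf hg

@[fun_prop]
theorem DF.clm_apply {f : α → β →L[ℝ] γ} {g : α → β} (hf : DF S f) (hg : DF S g) :
    DF S fun x => f x (g x) :=
  DF.bilin (ContinuousLinearMap.coeLM ℝ) hf hg

@[fun_prop]
theorem DF.clm_comp {f : α → γ →L[ℝ] δ} {g : α → β →L[ℝ] γ} (hf : DF S f) (hg : DF S g) :
    DF S fun x => (f x).comp (g x) :=
  DF.bilin (β := γ →L[ℝ] δ) (γ := β →L[ℝ] γ) (δ := β →L[ℝ] δ)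
    (LinearMap.mk₂ ℝ (fun A B => A.comp B) (fun _ _ _ => by ext; simp) (fun _ _ _ => by ext; simp)
      (fun _ _ _ => by ext; simp) (fun _ _ _ => by ext; simp)) hf hg

theorem DF.of_apply {f : α → β →L[ℝ] γ} (h : ∀ v, DF S fun x => f x v) : DF S f := by
  let b := Module.finBasis ℝ β
  refine DF.mk' ((DP.fin_and (P := fun i (p : α × (β →L[ℝ] γ)) => p.2 (b i) = f p.1 (b i))
    fun i => ?_).congr fun p => ⟨fun hp i => by rw [hp], fun hp => ?_⟩)
  · have := h (b i)
    fun_prop
  · ext1 v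
    exact congrArg (fun L : β →ₗ[ℝ] γ => L v) (b.ext (f₁ := (p.2 : β →ₗ[ℝ] γ))
      (f₂ := (f p.1 : β →ₗ[ℝ] γ)) hp)

/-- Membership in a fixed definable set. -/
theorem DP.mem {s : Set β} (hs : DP S fun y => y ∈ s) {g : α → β} (hg : DF S g) :
    DP S fun x => g x ∈ s := hs.comp hg

/-- A function whose graph is described by a definable relation. -/
theorem DF.of_rel {f : α → β} {R : α → β → Prop} (h : DP S fun p : α × β => R p.1 p.2)
    (e : ∀ x y, R x y ↔ y = f x) : DF S f :=
  DF.mk' (h.congr fun p => (e p.1 p.2).symm)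

/-- `RolleGraph O F D f Bp Bm`: the graph `W` of `f` over the open set `D` is a separating
integral manifold of the Pfaffian equation `dw = F(x,w) dx` in the open set `O`;
`Bp` and `Bm` are the two sides. -/
structure RolleGraph (O : Set (α × ℝ)) (F : α × ℝ → α →L[ℝ] ℝ) (D : Set α) (f : α → ℝ)
    (Bp Bm : Set (α × ℝ)) : Prop where
  openO : IsOpen O
  smooth : ContDiffOn ℝ 1 F O
  openD : IsOpen D
  mem : ∀ x ∈ D, (x, f x) ∈ O
  deriv : ∀ x ∈ D, HasFDerivAt f (F (x, f x)) x
  openp : IsOpen Bp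
  openm : IsOpen Bm
  disj : Disjoint Bp Bm
  cover : ∀ p, p ∈ Bp ∪ Bm ↔ p ∈ O ∧ ¬ (p.1 ∈ D ∧ p.2 = f p.1)
  side : ∀ x ∈ D, ∀ᶠ p in 𝓝 (x, f x), (f p.1 < p.2 → p ∈ Bp) ∧ (p.2 < f p.1 → p ∈ Bm)

/-- The structure is Pfaffian closed: separating integral graphs of definable Pfaffian
equations are definable. -/
def PfClosed (S : OStr) : Prop :=
  ∀ (α : Type) [NormedAddCommGroup α] [NormedSpace ℝ α] [FiniteDimensional ℝ α]
    (O : Set (α × ℝ)) (F : α × ℝ → α →L[ℝ] ℝ) (D : Set α) (f : α → ℝ) (Bp Bm : Set (α × ℝ)),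
    RolleGraph O F D f Bp Bm → DP S (fun p => p ∈ O) → DF S F →
      DP S fun p : α × ℝ => p.1 ∈ D ∧ p.2 = f p.1


end Pool.Agent.Shared.OMin
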