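import Pool.Agent.Shared.OMin.Infin

/-! T2: derivations on the definable closure of a generic tuple; differential subfields. -/

namespace Pool.Agent.Shared.OMin

open Set Filter Topology

variable {S : OStr} {P Q Z y : ℕ → U} {k l m r : ℕ} {a b : U} {E E' K N : IntermediateField ℝ U}

theorem DF.pdv {G : (Fin k → ℝ) → ℝ} (hG : DF S G) (i : ℕ) : DF S (pdv G i) :=
  hG.fderiv_one.clm_apply (DF.const _)

theorem pd_ev (h : Gen S P k) {G : (Fin k → ℝ) → ℝ} (hG : DF S G) (i : ℕ) :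
    pd S P k i (ev G P) = ev (pdv G i) P := by
  have hex : ∃ H : (Fin k → ℝ) → ℝ, DF S H ∧ ev G P = ev H P := ⟨G, hG, rfl⟩
  unfold pd
  rw [dif_pos hex, ev_eq_iff]
  filter_upwards [h.nhds (DP.eq hG hex.choose_spec.1) (ev_eq_iff.1 hex.choose_spec.2)] with ω h1
  unfold pdv
  rw [EventuallyEq.fderiv_eq (f₁ := G) (f := hex.choose) h1]

theorem pd_mem (i : ℕ) (b : U) : pd S P k i b ∈ dcl S P k := by
  unfold pd
  split_ifs with h
  · exact ev_mem_dcl (h.choose_spec.1.pdv i)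
  · exact zero_mem _

theorem Agree.pd_eq (h : Agree P Q k) : pd S P k = pd S Q k := by
  funext i b
  unfold pd ev
  rw [h.tp_eq]

theorem pd_of_ge {i : ℕ} (hi : k ≤ i) (b : U) : pd S P k i b = 0 := by
  have h0 : uv k i = 0 := funext fun j => if_neg (by omega)
  unfold pd
  split_ifs with h
  · rw [ev_eq_zero_iff]
    exact Eventually.of_forall fun ω => by simp [pdv, h0]
  · rfl

theorem Gen.diffAt {α : Type} [NormedAddCommGroup α] [NormedSpace ℝ α] [FiniteDimensional ℝ α]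
    (h : Gen S P k) {G : (Fin k → ℝ) → α} (hG : DF S G) :
    At (fun x => DifferentiableAt ℝ G x) P :=
  (h.contDiffAt hG).mono fun _ h => h.differentiableAt one_ne_zero

theorem pd_add (h : Gen S P k) (ha : a ∈ dcl S P k) (hb : b ∈ dcl S P k) (i : ℕ) :
    pd S P k i (a + b) = pd S P k i a + pd S P k i b := by
  obtain ⟨G, hG, rfl⟩ := ha
  obtain ⟨H, hH, rfl⟩ := hb
  rw [← ev_add, pd_ev h (hG.add hH), pd_ev h hG, pd_ev h hH, ← ev_add, ev_eq_iff]
  filter_upwards [h.diffAt hG, h.diffAt hH] with ω h1 h2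
  simp [pdv, fderiv_fun_add h1 h2]

theorem pd_real (h : Gen S P k) (c : ℝ) (i : ℕ) : pd S P k i (algebraMap ℝ U c) = 0 := by
  rw [← ev_const (k := k) c P, pd_ev h (DF.const c), ev_eq_zero_iff]
  exact Eventually.of_forall fun ω => by simp [pdv]

theorem pd_zero (h : Gen S P k) (i : ℕ) : pd S P k i 0 = 0 := by
  simpa using pd_real h 0 i

theorem pd_one (h : Gen S P k) (i : ℕ) : pd S P k i 1 = 0 := by
  simpa using pd_real h 1 i

theorem pd_neg (h : Gen S P k) (ha : a ∈ dcl S P k) (i : ℕ) :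
    pd S P k i (-a) = - pd S P k i a := by
  have := pd_add h ha (neg_mem ha) i
  rw [add_neg_cancel, pd_zero h] at this
  linear_combination -this

theorem pd_sub (h : Gen S P k) (ha : a ∈ dcl S P k) (hb : b ∈ dcl S P k) (i : ℕ) :
    pd S P k i (a - b) = pd S P k i a - pd S P k i b := by
  rw [sub_eq_add_neg, pd_add h ha (neg_mem hb), pd_neg h hb, sub_eq_add_neg]

theorem pd_mul (h : Gen S P k) (ha : a ∈ dcl S P k) (hb : b ∈ dcl S P k) (i : ℕ) :
    pd S P k i (a * b) = pd S P k i a * b + a * pd S P k i b := by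
  obtain ⟨G, hG, rfl⟩ := ha
  obtain ⟨H, hH, rfl⟩ := hb
  rw [← ev_mul, pd_ev h (hG.mul hH), pd_ev h hG, pd_ev h hH, ← ev_mul, ← ev_mul, ← ev_add,
    ev_eq_iff]
  filter_upwards [h.diffAt hG, h.diffAt hH] with ω h1 h2
  simp only [pdv, fderiv_fun_mul h1 h2, add_apply, smul_apply, smul_eq_mul]
  ring

theorem pd_inv (h : Gen S P k) (ha : a ∈ dcl S P k) (i : ℕ) :
    pd S P k i a⁻¹ = - pd S P k i a / a ^ 2 := by
  by_cases h0 : a = 0
  · simp [h0, pd_zero h]
  · have := pd_mul h ha (inv_mem ha) i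
    rw [mul_inv_cancel₀ h0, pd_one h] at this
    field_simp
    field_simp at this
    linear_combination -this

theorem pd_sum (h : Gen S P k) {ι : Type} (s : Finset ι) {f : ι → U}
    (hf : ∀ j ∈ s, f j ∈ dcl S P k) (i : ℕ) :
    pd S P k i (∑ j ∈ s, f j) = ∑ j ∈ s, pd S P k i (f j) := by
  classical
  induction s using Finset.induction_on with
  | empty => simpa using pd_zero h i
  | insert j s hj ih =>
    rw [Finset.sum_insert hj, Finset.sum_insert hj, pd_add h (hf j (by simp))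
      (sum_mem fun j hj => hf j (by simp [hj])), ih fun j hj => hf j (by simp [hj])]

theorem pd_coord (h : Gen S P k) {i j : ℕ} (hj : j < k) :
    pd S P k i (P j) = if i = j then 1 else 0 := by
  have e : pdv (fun x : Fin k → ℝ => x ⟨j, hj⟩) i = fun _ => if i = j then 1 else 0 := by
    funext x
    simp [pdv, (hasFDerivAt_apply (𝕜 := ℝ) (⟨j, hj⟩ : Fin k) x).fderiv, uv, eq_comm]
  rw [← ev_coord (⟨j, hj⟩ : Fin k) P, pd_ev h (DF.apply _), e, ev_const]
  split_ifs <;> simp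

theorem ev_comp {F : (Fin k → ℝ) → Fin m → ℝ} (hF : ∀ᶠ ω in 𝔲, tp y m ω = F (tp P k ω))
    (G : (Fin m → ℝ) → ℝ) : ev G y = ev (fun x => G (F x)) P :=
  (ev_eq (by filter_upwards [out_ev G y, hF] with ω h1 h2; rw [h1, h2])).symm

/-- chain rule -/
theorem pd_chain (h : Gen S P k) (hy : ∀ j < m, y j ∈ dcl S P k) {G : (Fin m → ℝ) → ℝ}
    (hG : DF S G) (hd : At (fun x => DifferentiableAt ℝ G x) y) (i : ℕ) :
    pd S P k i (ev G y) = ∑ j ∈ Finset.range m, ev (pdv G j) y * pd S P k i (y j) := by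
  obtain ⟨F, hF, e⟩ := InD.tp hy
  have e1 : ∀ j : Fin m, ev (pdv G j) y * pd S P k i (y j) =
      ev (fun x => pdv G j (F x) * pdv (fun x => F x j) i x) P := fun j => by
    rw [← ev_coord j y, ev_comp e, ev_comp e, pd_ev h ((DF.apply j).comp hF), ← ev_mul]
  rw [Finset.sum_range, Finset.sum_congr rfl fun j _ => e1 j, ← ev_sum, ev_comp e,
    pd_ev h (hG.comp hF), ev_eq_iff]
  filter_upwards [h.diffAt hF, hd, e] with ω h1 h2 h3
  rw [h3] at h2
  have e2 : fderiv ℝ F (tp P k ω) (uv k i) =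
      ∑ j : Fin m, (fderiv ℝ (fun x => F x j) (tp P k ω) (uv k i)) • uv m j := by
    funext j
    simp [uv, fderiv_apply h1, Fin.val_inj]
  simp only [pdv]
  rw [fderiv_fun_comp _ h2 h1, ContinuousLinearMap.comp_apply, e2, map_sum]
  exact Finset.sum_congr rfl fun j _ => by rw [map_smul, smul_eq_mul, mul_comm]

theorem pd_change (h : Gen S P k) (hQ : Gen S Q m) (hy : ∀ j < m, Q j ∈ dcl S P k)
    (hb : b ∈ dcl S Q m) (i : ℕ) :
    pd S P k i b = ∑ j ∈ Finset.range m, pd S Q m j b * pd S P k i (Q j) := by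
  obtain ⟨G, hG, rfl⟩ := hb
  simp only [pd_ev hQ hG]
  exact pd_chain h hy hG (hQ.diffAt hG) i

theorem pd_of_le (h : Gen S P l) (hl : k ≤ l) (hb : b ∈ dcl S P k) (i : ℕ) :
    pd S P l i b = pd S P k i b := by
  rw [pd_change h (h.mono hl) (fun j hj => self_mem_dcl (by omega)) hb,
    Finset.sum_congr rfl fun j hj => by rw [pd_coord h ((Finset.mem_range.1 hj).trans_le hl)]]
  simp only [mul_ite, mul_one, mul_zero, Finset.sum_ite_eq, Finset.mem_range]
  split_ifs with hi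
  · rfl
  · exact (pd_of_ge (by omega) b).symm

/-- the linear map `(x, s) ↦ (x, σ s)` -/
noncomputable def snocL (r : ℕ) (σ : ℝ) : ((Fin r → ℝ) × ℝ) →L[ℝ] (Fin (r + 1) → ℝ) :=
  LinearMap.toContinuousLinearMap
    { toFun := fun z => Fin.snoc z.1 (σ * z.2)
      map_add' := fun z w => funext fun j => by
        refine Fin.lastCases ?_ (fun j => ?_) j <;> simp [mul_add]
      map_smul' := fun c z => funext fun j => by
        refine Fin.lastCases ?_ (fun j => ?_) j <;> simp [mul_left_comm] }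

theorem snocL_apply (σ : ℝ) (z : (Fin r → ℝ) × ℝ) :
    snocL r σ z = Fin.snoc z.1 (σ * z.2) := rfl

theorem snocL_uv (σ : ℝ) {i : ℕ} (hi : i < r) : snocL r σ (uv r i, 0) = uv (r + 1) i :=
  funext fun j => by
    refine Fin.lastCases ?_ (fun j => ?_) j <;> simp [snocL_apply, uv, hi.ne']

theorem snocL_last (σ : ℝ) : snocL r σ (0, 1) = σ • uv (r + 1) r :=
  funext fun j => by
    refine Fin.lastCases ?_ (fun j => ?_) j <;> simp [snocL_apply, uv, Nat.ne_of_lt]

theorem hasDerivAt_snocL {G : (Fin (r + 1) → ℝ) → ℝ} (σ : ℝ) (x : Fin r → ℝ) (s : ℝ)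
    (h : DifferentiableAt ℝ G (snocL r σ (x, s))) :
    HasDerivAt (fun s => G (snocL r σ (x, s))) (σ * pdv G r (snocL r σ (x, s))) s := by
  have h1 : HasDerivAt (fun s : ℝ => snocL r σ (x, s)) (snocL r σ (0, 1)) s :=
    (snocL r σ).hasFDerivAt.comp_hasDerivAt s ((hasDerivAt_const s x).prodMk (hasDerivAt_id s))
  have h2 := h.hasFDerivAt.comp_hasDerivAt s h1
  rw [snocL_last, map_smul] at h2
  exact h2

/-- an element killed by the last derivative does not depend on the last coordinate -/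
theorem mem_of_pd_eq_zero (h : Gen S P (k + 1)) (hb : b ∈ dcl S P (k + 1))
    (h0 : pd S P (k + 1) k b = 0) : b ∈ dcl S P k := by
  obtain ⟨G, hG, rfl⟩ := hb
  rw [pd_ev h hG, ev_eq_zero_iff] at h0
  have hL := DF.clm (S := S) (snocL k 1)
  have hX : DP S fun z : (Fin k → ℝ) × ℝ => ∃ t, ∀ᶠ s in 𝓝 t, G (snocL k 1 (z.1, s)) = z.2 :=
    DP.ex (DP.ev_nhds (P := fun (w : ((Fin k → ℝ) × ℝ) × ℝ) s => G (snocL k 1 (w.1.1, s)) = w.1.2)
      (DP.eq (hG.comp (hL.comp (by fun_prop))) (by fun_prop)) (by fun_prop))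
  refine fin_mem (X := fun x c => ∃ t, ∀ᶠ s in 𝓝 t, G (snocL k 1 (x, s)) = c) InD.tp_self hX
    (Eventually.of_forall fun ω => ?_) ?_
  · by_contra hinf
    have h1 := DP.interior_nonempty_of_infinite
      (hX.comp (g := fun c : ℝ => (tp P k ω, c)) (by fun_prop)) hinf
    have h2 : {c | ∃ t, ∀ᶠ s in 𝓝 t, G (snocL k 1 (tp P k ω, s)) = c}.Countable := by
      refine (countable_range fun q : ℚ => G (snocL k 1 (tp P k ω, q))).mono ?_
      rintro c ⟨t, ht⟩
      obtain ⟨_, ⟨q, rfl⟩, h3⟩ := Rat.denseRange_cast.inter_nhds_nonempty ht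
      exact ⟨q, h3⟩
    exact h1.ne_empty (interior_eq_empty_iff_dense_compl.2 (h2.dense_compl ℝ))
  · filter_upwards [h.nhds ((DP.diffAt (f := fun _ : Fin (k + 1) → ℝ => G) (hG.comp (by fun_prop))
      DF.id').and (DP.eq (hG.pdv k) (DF.const 0))) ((h.diffAt hG).and h0), out_ev G P] with ω h1 h2
    have e : tp P (k + 1) ω = snocL k 1 (tp P k ω, out (P k) ω) := by
      rw [tp_succ, snocL_apply, one_mul]
    rw [e] at h1 h2
    obtain ⟨ε, hε, h3⟩ := Metric.eventually_nhds_iff_ball.1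
      ((show Continuous fun s : ℝ => snocL k 1 (tp P k ω, s) by fun_prop).continuousAt.eventually h1)
    have h4 : ∀ s ∈ Metric.ball (out (P k) ω) ε,
        HasDerivAt (fun s => G (snocL k 1 (tp P k ω, s))) 0 s := fun s hs => by
      simpa [(h3 s hs).2] using hasDerivAt_snocL 1 (tp P k ω) s (h3 s hs).1
    refine ⟨out (P k) ω, ?_⟩
    filter_upwards [Metric.ball_mem_nhds _ hε] with s hs
    rw [h2]
    exact Metric.isOpen_ball.is_const_of_deriv_eq_zero (convex_ball _ _).isPreconnected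
      (fun s hs => (h4 s hs).differentiableAt.differentiableWithinAt) (fun s hs => (h4 s hs).deriv)
      hs (Metric.mem_ball_self hε)

/-- the Jacobian of a change of generic coordinates is invertible -/
theorem jac_ne_zero (hQ : Gen S Q k) (hy : ∀ j < k, Q j ∈ dcl S P k) :
    Matrix.det (Matrix.of fun i j : Fin k => pd S P k j (Q i)) ≠ 0 := by
  obtain ⟨hP, e⟩ := hQ.of_span hy
  refine Matrix.det_ne_zero_of_left_inverse (B := Matrix.of fun i j : Fin k => pd S Q k j (P i)) ?_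
  ext i j
  have := pd_change hP hQ hy (e ▸ self_mem_dcl i.2) j
  rw [Finset.sum_range, pd_coord hP i.2] at this
  simp [Matrix.mul_apply, ← this, Matrix.one_apply, Fin.val_inj, eq_comm]

/-- closure under derivatives does not depend on coordinates inside the field -/
theorem PC.change (hE : PC S P k E) (hle : E ≤ dcl S P k) (hQ : Gen S Q k)
    (hy : ∀ j < k, Q j ∈ E) : PC S Q k E := by
  intro i b hb
  by_cases hi : k ≤ i
  · rw [pd_of_ge hi]; exact zero_mem _
  have hy' : ∀ j < k, Q j ∈ dcl S P k := fun j hj => hle (hy j hj)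
  obtain ⟨hP, e⟩ := hQ.of_span hy'
  let J : Matrix (Fin k) (Fin k) E := Matrix.of fun i j => ⟨pd S P k j (Q i), hE j _ (hy i i.2)⟩
  have hJ : J.det ≠ 0 := fun h0 => jac_ne_zero hQ hy' (by
    have := (algebraMap E U).map_det J
    rw [h0, map_zero] at this
    exact this.symm)
  have h1 := J.mul_nonsing_inv (Ne.isUnit hJ)
  have h2 : pd S Q k i b = ∑ j : Fin k, pd S P k j b * (J⁻¹ j ⟨i, by omega⟩ : E) := by
    simp only [pd_change hP hQ hy' (e ▸ hle hb), Finset.sum_range, Finset.sum_mul]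
    rw [Finset.sum_comm]
    have h3 : ∀ l : Fin k, ∑ j : Fin k, pd S Q k l b * pd S P k j (Q l) *
        (J⁻¹ j ⟨i, by omega⟩ : E) = if l = ⟨i, by omega⟩ then pd S Q k l b else 0 := fun l => by
      have h4 := congrArg (algebraMap E U) (congrFun (congrFun h1 l) ⟨i, by omega⟩)
      rw [Matrix.mul_apply, map_sum, Matrix.one_apply] at h4
      simp only [mul_assoc, ← Finset.mul_sum]
      erw [show ∑ j : Fin k, pd S P k j (Q l) * (J⁻¹ j ⟨i, by omega⟩ : E) = _ from h4]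
      split_ifs <;> simp
    simp [h3]
  rw [h2]
  exact sum_mem fun j _ => mul_mem (hE j b hb) (SetLike.coe_mem _)

theorem inf_iff_tendsto {F : (Fin r → ℝ) × ℝ → ℝ} {L : (Fin r → ℝ) → ℝ} (hF : DF S F) (hL : DF S L)
    {ε : U} (h0 : 0 < ε) (hε : Inf (dcl S Z r) ε)
    (ha : ∀ᶠ ω in 𝔲, out a ω = F (tp Z r ω, out ε ω) - L (tp Z r ω)) :
    Inf (dcl S Z r) a ↔ At (fun x => Tendsto (fun s => F (x, s)) (𝓝[>] 0) (𝓝 (L x))) Z := by
  have key : ∀ δ ∈ dcl S Z r, |a| < δ ↔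
      ∀ᶠ ω in 𝔲, ∀ᶠ s in 𝓝[>] 0, |F (tp Z r ω, s) - L (tp Z r ω)| < out δ ω := by
    intro δ hδ
    rw [← inf_iff (X := fun (z : (Fin r → ℝ) × ℝ) s => |F (z.1, s) - L z.1| < z.2)
      (InD.tp_self.prod (mem_dcl_iff.1 hδ)) (by fun_prop) h0 hε, lt_iff]
    refine eventually_congr ?_
    filter_upwards [out_abs a, ha] with ω h1 h2
    rw [h1, h2]
  constructor
  · intro h
    by_contra hn
    obtain ⟨δ, hδ, h1⟩ := dcl_choice (X := fun x δ => 0 < δ ∧ ¬ ∀ᶠ s in 𝓝[>] 0,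
      |F (x, s) - L x| < δ) InD.tp_self ((DP.lt (DF.const 0) DF.id'.snd).and (DP.ev_nhdsGT
        (P := fun (z : (Fin r → ℝ) × ℝ) s => |F (z.1, s) - L z.1| < z.2) (by fun_prop)
        (DF.const 0)).not) ((ev_not.2 hn).mono fun ω h => by
        simpa [Metric.tendsto_nhds, Real.dist_eq] using h)
    have h2 : 0 < δ := lt_iff.2 (by
      filter_upwards [h1, out_zero] with ω h3 h4
      rw [h4]; exact h3.1)
    obtain ⟨ω, h3, h4⟩ := (h1.and ((key δ hδ).1 (h δ hδ h2))).exists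
    exact h3.2 h4
  · intro h δ hδ h2
    rw [key δ hδ]
    filter_upwards [h, lt_iff.1 h2, out_zero] with ω h3 h4 h5
    simpa [Real.dist_eq] using Metric.tendsto_nhds.1 h3 _ (h5 ▸ h4)

theorem exists_sign {t : U} (ht : Inf N t) (h0 : t ≠ 0) :
    ∃ (σ : ℝ) (ε : U), 0 < ε ∧ Inf N ε ∧ ∀ᶠ ω in 𝔲, out t ω = σ * out ε ω := by
  rcases h0.lt_or_gt with h | h
  · exact ⟨-1, -t, neg_pos.2 h, ht.neg, (out_neg t).mono fun ω h => by rw [h]; ring⟩
  · exact ⟨1, t, h, ht, Eventually.of_forall fun ω => by ring⟩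

theorem Gen.upd_inf (hZ : Gen S Z r) {t : U} (ht : Inf (dcl S Z r) t) (h0 : t ≠ 0) :
    Gen S (OMin.upd Z r t) (r + 1) :=
  hZ.upd (Inf.notMem (zero_mem _) (by simpa using ht) h0)

/-- standard part commutes with derivatives (DF.generic_lim_fderiv; treat both signs of t) -/
theorem pd_st (hZ : Gen S Z r) {t e ρ : U} (ht : Inf (dcl S Z r) t) (h0 : t ≠ 0)
    (he : e ∈ dcl S (upd Z r t) (r + 1)) (hρ : ρ ∈ dcl S Z r) (hn : Inf (dcl S Z r) (e - ρ))
    {i : ℕ} (hi : i < r) :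
    Inf (dcl S Z r) (pd S (upd Z r t) (r + 1) i e - pd S Z r i ρ) := by
  obtain ⟨G, hG, rfl⟩ := he
  obtain ⟨L, hL, rfl⟩ := hρ
  obtain ⟨σ, ε, e0, e1, e2⟩ := exists_sign ht h0
  have hP := hZ.upd_inf ht h0
  have hF : DF S fun z => G (snocL r σ z) := hG.comp (DF.clm _)
  have e3 : ∀ᶠ ω in 𝔲, tp (upd Z r t) (r + 1) ω = snocL r σ (tp Z r ω, out ε ω) :=
    e2.mono fun ω h => by rw [tp_upd, h, snocL_apply]
  have h1 := (inf_iff_tendsto hF hL e0 e1 (by
    filter_upwards [out_sub (ev G (upd Z r t)) (ev L Z), out_ev G (upd Z r t), out_ev L Z, e3]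
      with ω h1 h2 h3 h4
    rw [h1, h2, h3, h4])).1 hn
  have hF' : DF S fun z => fderiv ℝ (fun z => G (snocL r σ z)) z (uv r i, 0) :=
    hF.fderiv_one.clm_apply (DF.const _)
  have h2 := hZ.not_at ((DP.tendsto_nhdsGT (f := fun x s => G (snocL r σ (x, s))) hF (DF.const 0)
    hL).and (DP.tendsto_nhdsGT (f := fun x s => fderiv ℝ (fun z => G (snocL r σ z)) (x, s)
      (uv r i, 0)) hF' (DF.const 0) (hL.pdv i)).not) (DF.generic_lim_fderiv hF hL (uv r i))
  rw [pd_ev hP hG, pd_ev hZ hL]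
  refine (inf_iff_tendsto hF' (hL.pdv i) e0 e1 ?_).2 ?_
  · filter_upwards [out_sub (ev (pdv G i) (upd Z r t)) (ev (pdv L i) Z),
      out_ev (pdv G i) (upd Z r t), out_ev (pdv L i) Z, e3, hP.diffAt hG] with ω h1 h2 h3 h4 h5
    rw [h4] at h5
    rw [h1, h2, h3, h4, fderiv_fun_comp _ h5 (snocL r σ).differentiableAt,
      ContinuousLinearMap.comp_apply, (snocL r σ).fderiv, snocL_uv σ hi]
    rfl
  · filter_upwards [h1, h2] with ω h3 h4
    by_contra h5
    exact h4 ⟨h3, h5⟩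

theorem inf_mul_pd (hZ : Gen S Z r) {t e : U} (ht : Inf (dcl S Z r) t) (h0 : t ≠ 0)
    (he : e ∈ dcl S (upd Z r t) (r + 1)) (hb : Bdd (dcl S Z r) e) :
    Inf (dcl S Z r) (t * pd S (upd Z r t) (r + 1) r e) := by
  obtain ⟨G, hG, rfl⟩ := he
  obtain ⟨M, hM, hb⟩ := hb
  obtain ⟨σ, ε, e0, e1, e2⟩ := exists_sign ht h0
  have hP := hZ.upd_inf ht h0
  have hF : DF S fun z => G (snocL r σ z) := hG.comp (DF.clm _)
  have e3 : ∀ᶠ ω in 𝔲, tp (upd Z r t) (r + 1) ω = snocL r σ (tp Z r ω, out ε ω) :=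
    e2.mono fun ω h => by rw [tp_upd, h, snocL_apply]
  have h1 := (inf_iff (X := fun (z : (Fin r → ℝ) × ℝ) s => |G (snocL r σ (z.1, s))| ≤ z.2)
    (InD.tp_self.prod (mem_dcl_iff.1 hM))
    (DP.le (hF.comp (g := fun w : ((Fin r → ℝ) × ℝ) × ℝ => (w.1.1, w.2)) (by fun_prop)).abs
      (by fun_prop)) e0 e1).1 (by
    filter_upwards [le_iff.1 hb, out_abs (ev G (upd Z r t)), out_ev G (upd Z r t), e3]
      with ω h1 h2 h3 h4
    rwa [h2, h3, h4] at h1)
  rw [pd_ev hP hG]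
  refine (inf_iff_tendsto (F := fun z => z.2 * deriv (fun s => G (snocL r σ (z.1, s))) z.2)
    (DF.mul (by fun_prop) (DF.deriv_fam (f := fun (z : (Fin r → ℝ) × ℝ) s => G (snocL r σ (z.1, s)))
      (hF.comp (g := fun w : ((Fin r → ℝ) × ℝ) × ℝ => (w.1.1, w.2)) (by fun_prop)) (by fun_prop)))
    (DF.const 0) e0 e1 ?_).2 ?_
  · filter_upwards [out_mul t (ev (pdv G r) (upd Z r t)), out_ev (pdv G r) (upd Z r t), e2, e3,
      hP.diffAt hG] with ω h1 h2 h3 h4 h5
    rw [h4] at h5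
    rw [h1, h2, h3, h4, (hasDerivAt_snocL σ _ _ h5).deriv]
    ring
  · filter_upwards [h1] with ω h2
    exact DF.tendsto_mul_deriv (hF.comp (g := fun s : ℝ => (tp Z r ω, s)) (by fun_prop)) h2

/-- The standard part field is a differential field if the derivatives of the centre are
approximated to first order. In the coordinates (Z,t), t = e - c:
d_i k = d_i^(Z,e) k + d_e k * d_i c, and d_e k = d_t k, t d_t k infinitesimal. -/
theorem pc_stF (hZ : Gen S Z r) {e c : U} (hc : c ∈ dcl S Z r) (ht : Inf (dcl S Z r) (e - c))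
    (h0 : e ≠ c) (hK : K ≤ dcl S (upd Z r e) (r + 1)) (hp : PC S (upd Z r e) (r + 1) K)
    (hF : ∀ i < r, ∃ F ∈ K, ∃ M ∈ dcl S Z r, |F - pd S Z r i c| ≤ M * |e - c|) :
    PC S Z r (stF (dcl S Z r) K) := by
  rintro i ρ ⟨hρ, κ, hκ, hn⟩
  by_cases hi : r ≤ i
  · rw [pd_of_ge hi]; exact zero_mem _
  have hi : i < r := by omega
  have t0 := sub_ne_zero.2 h0
  have hP := hZ.upd_inf ht t0
  have hQ := hZ.upd (Inf.notMem hc ht h0)
  have hc' : c ∈ dcl S (upd Z r (e - c)) (r + 1) := dcl_le_upd _ hc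
  have hy : ∀ j < r + 1, upd Z r e j ∈ dcl S (upd Z r (e - c)) (r + 1) := fun j hj => by
    rcases (show j = r ∨ j < r by omega) with rfl | h
    · simpa using add_mem (mem_dcl_upd (e - c)) hc'
    · rw [upd_of_ne h.ne]
      exact dcl_le_upd _ (self_mem_dcl h)
  have hκ' := dcl_le hy (hK hκ)
  have key : ∀ j, pd S (upd Z r (e - c)) (r + 1) j κ =
      (if j < r then pd S (upd Z r e) (r + 1) j κ else 0) +
      pd S (upd Z r e) (r + 1) r κ * ((if j = r then 1 else 0) + pd S Z r j c) := fun j => by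
    have e1 : ∀ l ∈ Finset.range r, pd S (upd Z r e) (r + 1) l κ *
        pd S (upd Z r (e - c)) (r + 1) j (upd Z r e l) =
        if j = l then pd S (upd Z r e) (r + 1) l κ else 0 := fun l hl => by
      have hl := Finset.mem_range.1 hl
      rw [upd_of_ne hl.ne, ← upd_of_ne (P := Z) hl.ne (e - c), pd_coord hP (by omega)]
      split_ifs <;> simp
    have e2 := pd_add hP (mem_dcl_upd (e - c)) hc' j
    have e3 := pd_coord hP (i := j) (Nat.lt_succ_self r)
    rw [upd_self] at e3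
    rw [sub_add_cancel, e3, pd_of_le (b := c) hP r.le_succ
      (by rw [(agree_upd (P := Z) (e - c)).dcl_eq]; exact hc), (agree_upd (e - c)).pd_eq] at e2
    rw [pd_change hP hQ hy (hK hκ), Finset.sum_range_succ, Finset.sum_congr rfl e1, upd_self, e2]
    simp
  obtain ⟨F, hF1, M, hM, hF2⟩ := hF i hi
  have h1 := pd_st hZ ht t0 hκ' hρ hn hi
  have h2 := inf_mul_pd hZ ht t0 hκ' (Bdd.of_near hρ hn)
  rw [key, if_pos hi, if_neg hi.ne, zero_add] at h1
  rw [key, if_neg (lt_irrefl r), if_pos rfl, pd_of_ge le_rfl c, zero_add, add_zero, mul_one] at h2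
  refine ⟨pd_mem i ρ, _, add_mem (hp i κ hκ) (mul_mem (hp r κ hκ) hF1), ?_⟩
  have h3 := h1.add (h2.mul_bdd (b := (F - pd S Z r i c) / (e - c)) ⟨M, hM, by
    rwa [abs_div, div_le_iff₀ (abs_pos.2 t0)]⟩)
  convert h3 using 1
  field_simp
  ring

end Pool.Agent.Shared.OMin
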