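import Pool.Agent.Shared.OMin.Deriv

/-! T2b: differential subfields, standard part fields. -/

namespace Pool.Agent.Shared.OMin

open Set Filter Topology

variable {S : OStr} {P Q Z y : ℕ → U} {k l m r : ℕ} {a b : U} {E E' K N : IntermediateField ℝ U}

/-! ### fields -/

theorem alg_iff : IsAlgebraic E b ↔
    ∃ q : Polynomial U, q ≠ 0 ∧ (∀ i, q.coeff i ∈ E) ∧ q.eval b = 0 := by
  constructor
  · rintro ⟨p, hp, h⟩
    refine ⟨p.map (algebraMap E U), (Polynomial.map_ne_zero_iff (algebraMap E U).injective).2 hp,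
      fun i => ?_, by rwa [Polynomial.eval_map_algebraMap]⟩
    rw [Polynomial.coeff_map]
    exact (p.coeff i).2
  · rintro ⟨q, hq, h1, h2⟩
    obtain ⟨p, rfl⟩ := (Polynomial.mem_lifts (f := algebraMap E U) q).1
      ((Polynomial.lifts_iff_coeff_lifts q).2 fun i => ⟨⟨_, h1 i⟩, rfl⟩)
    exact ⟨p, fun h => hq (by simp [h]), by rwa [Polynomial.eval_map_algebraMap] at h2⟩

theorem alg_mono (h : E ≤ E') (hb : IsAlgebraic E b) : IsAlgebraic E' b := by
  obtain ⟨q, h0, h1, h2⟩ := alg_iff.1 hb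
  exact alg_iff.2 ⟨q, h0, fun i => h (h1 i), h2⟩

/-- a polynomial with a simple root -/
theorem exists_simple (hb : IsAlgebraic E b) : ∃ q : Polynomial U, (∀ i, q.coeff i ∈ E) ∧
    q.eval b = 0 ∧ q.derivative.eval b ≠ 0 := by
  refine ⟨(minpoly E b).map (algebraMap E U), fun i => ?_, ?_, ?_⟩
  · rw [Polynomial.coeff_map]
    exact ((minpoly E b).coeff i).2
  · rw [Polynomial.eval_map_algebraMap, minpoly.aeval]
  · rw [Polynomial.derivative_map, Polynomial.eval_map_algebraMap]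
    exact (minpoly.irreducible hb.isIntegral).separable.aeval_derivative_ne_zero (minpoly.aeval E b)

theorem le_rcl (E : IntermediateField ℝ U) : E ≤ rcl E := fun b hb =>
  mem_rcl.2 (isAlgebraic_algebraMap (⟨b, hb⟩ : E))

theorem rc_rcl (E : IntermediateField ℝ U) : RC (rcl E) := fun b hb => by
  have h : IsAlgebraic (algebraicClosure E U) b := hb
  exact mem_rcl.2 (h.restrictScalars E)

theorem rcl_mono (h : E ≤ E') : rcl E ≤ rcl E' := fun _ hb => mem_rcl.2 (alg_mono h (mem_rcl.1 hb))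

theorem RC.rcl_le (hK : RC K) (h : E ≤ K) : rcl E ≤ K :=
  fun b hb => hK b (alg_mono h (mem_rcl.1 hb))

theorem le_adj (E : IntermediateField ℝ U) (w : U) : E ≤ adj E w := le_sup_left.trans (le_rcl _)

theorem mem_adj (E : IntermediateField ℝ U) (w : U) : w ∈ adj E w :=
  (le_sup_right.trans (le_rcl _) : IntermediateField.adjoin ℝ {w} ≤ adj E w)
    (IntermediateField.mem_adjoin_simple_self ℝ w)

theorem rc_adj (E : IntermediateField ℝ U) (w : U) : RC (adj E w) := rc_rcl _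

theorem adj_mono (h : E ≤ E') (w : U) : adj E w ≤ adj E' w := rcl_mono (sup_le_sup_right h _)

theorem RC.adj_le (hK : RC K) (h : E ≤ K) {w : U} (hw : w ∈ K) : adj E w ≤ K :=
  hK.rcl_le (sup_le h (IntermediateField.adjoin_simple_le_iff.2 hw))

theorem stF_le : stF N K ≤ N := fun _ h => h.1

theorem stF_mono (h : E ≤ K) : stF N E ≤ stF N K :=
  fun _ ⟨h1, e, he, h2⟩ => ⟨h1, e, h he, h2⟩

theorem le_stF (h : E ≤ N) (h' : E ≤ K) : E ≤ stF N K :=
  fun b hb => ⟨h hb, b, h' hb, by simpa using Inf.zero N⟩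

theorem out_eval (q : Polynomial U) (x : U) : ∀ᶠ ω in 𝔲, out (q.eval x) ω =
    ∑ i : Fin (q.natDegree + 1), out (q.coeff i) ω * out x ω ^ (i : ℕ) := by
  rw [Polynomial.eval_eq_sum_range, Finset.sum_range]
  filter_upwards [out_sum Finset.univ fun i : Fin (q.natDegree + 1) => q.coeff i * x ^ (i : ℕ),
    eventually_all.2 fun i : Fin (q.natDegree + 1) => out_mul (q.coeff i) (x ^ (i : ℕ)),
    eventually_all.2 fun i : Fin (q.natDegree + 1) => out_pow x i] with ω h1 h2 h3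
  rw [h1]
  exact Finset.sum_congr rfl fun i _ => by rw [h2, h3]

/-- intermediate value theorem for polynomials over `U` (transfer, `Sm` choice of a root by `sat`) -/
theorem poly_ivt (q : Polynomial U) {a b : U} (hab : a < b) (h : q.eval a * q.eval b < 0) :
    ∃ c, a < c ∧ c < b ∧ q.eval c = 0 := by
  obtain ⟨c, hc⟩ := sat ((sm_tup fun i : Fin (q.natDegree + 1) => q.coeff i).prod
    ((sm_out a).prod (sm_out b))) (I := Unit)
    (fun _ z t => z.2.1 < t ∧ t < z.2.2 ∧ ∑ i : Fin (q.natDegree + 1), z.1 i * t ^ (i : ℕ) = 0)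
    (fun s => by
      filter_upwards [lt_iff.1 hab, lt_iff.1 h, out_mul (q.eval a) (q.eval b), out_zero,
        out_eval q a, out_eval q b] with ω h1 h2 h3 h4 h5 h6
      rw [h3, h4, h5, h6] at h2
      have hf : ContinuousOn
          (fun t : ℝ => ∑ i : Fin (q.natDegree + 1), out (q.coeff i) ω * t ^ (i : ℕ))
          (Icc (out a ω) (out b ω)) := by fun_prop
      rcases mul_neg_iff.1 h2 with h2 | h2
      · obtain ⟨t, ht, e⟩ := intermediate_value_Ioo' h1.le hf ⟨h2.2, h2.1⟩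
        exact ⟨t, fun _ _ => ⟨ht.1, ht.2, e⟩⟩
      · obtain ⟨t, ht, e⟩ := intermediate_value_Ioo h1.le hf h2
        exact ⟨t, fun _ _ => ⟨ht.1, ht.2, e⟩⟩)
  refine ⟨c, lt_iff.2 ((hc ()).mono fun ω h => h.1), lt_iff.2 ((hc ()).mono fun ω h => h.2.1),
    eq_iff.2 ?_⟩
  filter_upwards [hc (), out_eval q c, out_zero] with ω h1 h2 h3
  rw [h2, h3]
  exact h1.2.2

theorem exists_small (T : Finset U) (h : ∀ t ∈ T, ∃ δ ∈ N, 0 < δ ∧ δ ≤ |t - b|) :
    ∃ δ ∈ N, 0 < δ ∧ ∀ t ∈ T, δ < |t - b| := by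
  classical
  induction T using Finset.induction_on with
  | empty => exact ⟨1, N.one_mem, one_pos, by simp⟩
  | insert t T _ ih =>
    obtain ⟨δ, h1, h2, h3⟩ := ih fun s hs => h s (Finset.mem_insert_of_mem hs)
    obtain ⟨ε, k1, k2, k3⟩ := h t (Finset.mem_insert_self _ _)
    have h4 : ε / 2 ∈ N := N.div_mem k1 (by exact_mod_cast N.natCast_mem 2)
    refine ⟨min δ (ε / 2), ?_, lt_min h2 (by positivity), fun s hs => ?_⟩
    · rcases min_choice δ (ε / 2) with e | e <;> rw [e] <;> assumption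
    · rcases Finset.mem_insert.1 hs with rfl | hs
      · exact (min_le_right _ _).trans_lt (by linarith)
      · exact (min_le_left _ _).trans_lt (h3 s hs)

theorem eval_mem {q : Polynomial U} (h : ∀ i, q.coeff i ∈ N) {x : U} (hx : x ∈ N) :
    q.eval x ∈ N := by
  rw [Polynomial.eval_eq_sum]
  exact N.sum_mem fun i _ => N.mul_mem (h i) (pow_mem hx i)

theorem Inf.sum {ι : Type} (s : Finset ι) {f : ι → U} (h : ∀ i ∈ s, Inf N (f i)) :
    Inf N (∑ i ∈ s, f i) :=
  Finset.sum_induction f (Inf N) (fun _ _ => Inf.add) (Inf.zero N) h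

/-- Hensel type argument: lift the minimal polynomial, it changes sign around the simple root -/
theorem rc_stF (hN : RC N) (hK : RC K) : RC (stF N K) := by
  classical
  intro b hb
  have hbN : b ∈ N := hN b (alg_mono stF_le hb)
  refine ⟨hbN, ?_⟩
  obtain ⟨p, hp, hp0, hp1⟩ := exists_simple hb
  have hpN : ∀ i, p.coeff i ∈ N := fun i => stF_le (hp i)
  choose e he he' using fun i => (hp i).2
  let q : Polynomial U := ∑ i ∈ p.support, Polynomial.monomial i (e i)
  have hq : ∀ i, q.coeff i ∈ K := fun i => by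
    simp only [q, Polynomial.finsetSum_coeff, Polynomial.coeff_monomial]
    exact K.sum_mem fun j _ => by split_ifs; exacts [he j, K.zero_mem]
  have hqp : ∀ x ∈ N, Inf N (q.eval x - p.eval x) := fun x hx => by
    rw [Polynomial.eval_eq_sum (p := p), Polynomial.sum_def]
    simp only [q, Polynomial.eval_finsetSum, Polynomial.eval_monomial]
    rw [← Finset.sum_sub_distrib]
    exact Inf.sum _ fun i _ => by
      rw [← sub_mul]; exact (he' i).mul_bdd (Bdd.of_mem (pow_mem hx i))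
  obtain ⟨r, hr⟩ := Polynomial.dvd_iff_isRoot.2 hp0
  have hrb : r.eval b ≠ 0 := by
    rw [hr] at hp1
    simpa using hp1
  have hr0 : r ≠ 0 := by rintro rfl; simp at hrb
  have hp' : p ≠ 0 := by rintro rfl; simp at hp1
  by_contra hcon
  obtain ⟨δ, h1, h2, h3⟩ := exists_small (N := N) (b := b) (q.roots.toFinset ∪ r.roots.toFinset)
    fun t ht => by
      simp only [Finset.mem_union, Multiset.mem_toFinset, Polynomial.mem_roots',
        Polynomial.IsRoot.def] at ht
      rcases ht with ht | ht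
      · by_contra hn
        exact hcon ⟨t, hK t (alg_iff.2 ⟨q, ht.1, hq, ht.2⟩),
          fun δ k1 k2 => not_le.1 fun k3 => hn ⟨δ, k1, k2, k3⟩⟩
      · refine ⟨_, abs_mem_if (N.sub_mem (hN t (alg_iff.2 ⟨p, hp', hpN, ?_⟩)) hbN),
          abs_pos.2 (sub_ne_zero.2 fun h => hrb (h ▸ ht.2)), le_rfl⟩
        rw [hr]
        simp [ht.2]
  have nr : ∀ s : Polynomial U, s = q ∨ s = r → s ≠ 0 → ∀ c, b - δ ≤ c → c ≤ b + δ →
      s.eval c ≠ 0 := by
    intro s hs h0 c c1 c2 hc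
    refine (h3 c ?_).not_ge (abs_le.2 ⟨by linarith, by linarith⟩)
    rcases hs with rfl | rfl <;> simp [h0, hc]
  have nn : ∀ s : Polynomial U, s = q ∨ s = r → 0 ≤ s.eval (b - δ) * s.eval (b + δ) := by
    intro s hs
    by_contra hn
    obtain ⟨c, c1, c2, c3⟩ := poly_ivt s (by linarith) (not_le.1 hn)
    exact nr s hs (by rintro rfl; simp at hn) c c1.le c2.le c3
  have k1 : 0 < r.eval (b - δ) * r.eval (b + δ) := (nn r (Or.inr rfl)).lt_of_ne'
    (mul_ne_zero (nr r (Or.inr rfl) hr0 _ le_rfl (by linarith))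
      (nr r (Or.inr rfl) hr0 _ (by linarith) le_rfl))
  have k2 : p.eval (b - δ) * p.eval (b + δ) < 0 := by
    have : p.eval (b - δ) * p.eval (b + δ) = -(δ ^ 2 * (r.eval (b - δ) * r.eval (b + δ))) := by
      rw [hr]
      simp only [Polynomial.eval_mul, Polynomial.eval_sub, Polynomial.eval_X, Polynomial.eval_C]
      ring
    rw [this, neg_lt_zero]
    positivity
  have m1 := N.sub_mem hbN h1
  have m2 := N.add_mem hbN h1
  have k3 := ((hqp _ m1).mul_bdd (Bdd.of_near (eval_mem hpN m2) (hqp _ m2))).add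
    (Inf.bdd_mul (Bdd.of_mem (eval_mem hpN m1)) (hqp _ m2)) _
    (N.neg_mem (N.mul_mem (eval_mem hpN m1) (eval_mem hpN m2))) (neg_pos.2 k2)
  have k4 := nn q (Or.inl rfl)
  have k5 := (abs_lt.1 k3).2
  linarith

/-- the elements of `F` whose derivative lies in `F` -/
def pcF (h : Gen S P k) (F : IntermediateField ℝ U) (hF : F ≤ dcl S P k) (i : ℕ) :
    IntermediateField ℝ U where
  carrier := {b | b ∈ F ∧ pd S P k i b ∈ F}
  mul_mem' := fun ha hb => ⟨F.mul_mem ha.1 hb.1, by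
    rw [pd_mul h (hF ha.1) (hF hb.1)]
    exact F.add_mem (F.mul_mem ha.2 hb.1) (F.mul_mem ha.1 hb.2)⟩
  add_mem' := fun ha hb => ⟨F.add_mem ha.1 hb.1, by
    rw [pd_add h (hF ha.1) (hF hb.1)]
    exact F.add_mem ha.2 hb.2⟩
  algebraMap_mem' c := ⟨F.algebraMap_mem c, by rw [pd_real h]; exact F.zero_mem⟩
  inv_mem' := fun _ ha => ⟨F.inv_mem ha.1, by
    rw [pd_inv h (hF ha.1)]
    exact F.div_mem (F.neg_mem ha.2) (pow_mem ha.1 2)⟩

theorem PC.sup (h : Gen S P k) (hE : PC S P k E) (hE' : PC S P k E') (hle : E ≤ dcl S P k)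
    (hle' : E' ≤ dcl S P k) : PC S P k (E ⊔ E') := fun i _ hb =>
  ((sup_le
    (fun c hc => ⟨(le_sup_left : E ≤ E ⊔ E') hc, (le_sup_left : E ≤ E ⊔ E') (hE i c hc)⟩)
    (fun c hc => ⟨(le_sup_right : E' ≤ E ⊔ E') hc, (le_sup_right : E' ≤ E ⊔ E') (hE' i c hc)⟩) :
    E ⊔ E' ≤ pcF h (E ⊔ E') (sup_le hle hle') i) hb).2

theorem pd_pow (h : Gen S P k) (hb : b ∈ dcl S P k) (i n : ℕ) :
    pd S P k i (b ^ n) = n * b ^ (n - 1) * pd S P k i b := by
  induction n with
  | zero => simpa using pd_real h 1 i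
  | succ n ih =>
    rw [pow_succ, pd_mul h (pow_mem hb n) hb, ih]
    rcases n with _ | n
    · simp
    · simp only [Nat.add_sub_cancel]
      push_cast
      ring

theorem PC.rcl (h : Gen S P k) (hE : PC S P k E) (hle : E ≤ dcl S P k) : PC S P k (rcl E) := by
  intro i b hb
  have hbd : b ∈ dcl S P k := rc_dcl.rcl_le hle hb
  obtain ⟨p, hp, hp0, hp1⟩ := exists_simple (mem_rcl.1 hb)
  have e : pd S P k i (p.eval b) = (∑ n ∈ p.support, pd S P k i (p.coeff n) * b ^ n) +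
      p.derivative.eval b * pd S P k i b := by
    rw [Polynomial.derivative_eval, Polynomial.eval_eq_sum, Polynomial.sum_def,
      Polynomial.sum_def, pd_sum h _ fun n _ => mul_mem (hle (hp n)) (pow_mem hbd n),
      Finset.sum_mul, ← Finset.sum_add_distrib]
    exact Finset.sum_congr rfl fun n _ => by
      rw [pd_mul h (hle (hp n)) (pow_mem hbd n), pd_pow h hbd]
      ring
  have e0 : pd S P k i 0 = 0 := by simpa using pd_real h 0 i
  rw [hp0, e0] at e
  have : pd S P k i b =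
      -(∑ n ∈ p.support, pd S P k i (p.coeff n) * b ^ n) / p.derivative.eval b := by
    rw [eq_div_iff hp1]
    linear_combination -e
  rw [this]
  refine div_mem (neg_mem (sum_mem fun n _ =>
    mul_mem (le_rcl E (hE i _ (hp n))) (pow_mem hb n))) (eval_mem (fun n => ?_) hb)
  rw [Polynomial.coeff_derivative]
  exact mul_mem (le_rcl E (hp _)) (add_mem (natCast_mem _ n) (one_mem _))

theorem DFld.sup (h : Gen S P k) (hE : DFld S P k E) (hE' : DFld S P k E') :
    DFld S P k (rcl (E ⊔ E')) :=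
  ⟨rc_dcl.rcl_le (sup_le hE.le hE'.le), rc_rcl _,
    (PC.sup h hE.pc hE'.pc hE.le hE'.le).rcl h (sup_le hE.le hE'.le)⟩

theorem DFld.adj (h : Gen S P (k + 1)) (hE : DFld S P k E) : DFld S P (k + 1) (adj E (P k)) := by
  have h1 : E ≤ dcl S P (k + 1) := hE.le.trans (dcl_mono k.le_succ)
  have h2 : IntermediateField.adjoin ℝ {P k} ≤ dcl S P (k + 1) :=
    IntermediateField.adjoin_simple_le_iff.2 (self_mem_dcl k.lt_succ_self)
  have h3 : PC S P (k + 1) E := fun i b hb => by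
    rw [pd_of_le h k.le_succ (hE.le hb)]
    exact hE.pc i b hb
  have h4 : PC S P (k + 1) (IntermediateField.adjoin ℝ {P k}) := fun i b hb =>
    ((IntermediateField.adjoin_simple_le_iff.2 ⟨IntermediateField.mem_adjoin_simple_self ℝ _, by
      rw [pd_coord h k.lt_succ_self]
      split_ifs
      exacts [one_mem _, zero_mem _]⟩ : IntermediateField.adjoin ℝ {P k} ≤ pcF h _ h2 i) hb).2
  exact ⟨rc_dcl.rcl_le (sup_le h1 h2), rc_rcl _, (PC.sup h h3 h4 h1 h2).rcl h (sup_le h1 h2)⟩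

theorem DFld.congr (hE : DFld S P k E) (h : Agree P Q k) : DFld S Q k E :=
  ⟨h.dcl_eq ▸ hE.le, hE.rc, fun i b hb => h.pd_eq ▸ hE.pc i b hb⟩

theorem dfld_bot : DFld S P 0 ⊥ :=
  ⟨bot_le, dcl_zero (S := S) (P := P) ▸ rc_dcl, fun i b _ => by
    rw [pd_of_ge i.zero_le]
    exact zero_mem _⟩

theorem dfld_dcl : DFld S P k (dcl S P k) := ⟨le_rfl, rc_dcl, fun i b _ => pd_mem i b⟩

/-! ### the bounded coordinate -/

theorem sq1_mem (h : a ∈ E) : sq1 a ∈ E := E.div_mem h (E.add_mem E.one_mem (abs_mem_if h))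

theorem sq1i_mem (h : a ∈ E) : sq1i a ∈ E := E.div_mem h (E.sub_mem E.one_mem (abs_mem_if h))

theorem abs_sq1 (a : U) : |sq1 a| = |a| / (1 + |a|) := by
  rw [sq1, abs_div, abs_of_pos (a := 1 + |a|) (by positivity)]

theorem abs_sq1_lt (a : U) : |sq1 a| < 1 := by
  rw [abs_sq1, div_lt_one (by positivity)]
  linarith

theorem sq1i_sq1 (a : U) : sq1i (sq1 a) = a := by
  have : 1 + |a| ≠ 0 := by positivity
  rw [sq1i, abs_sq1, sq1]
  field_simp
  ring

theorem abs_sq1_sub_le (a b : U) : |sq1 a - sq1 b| ≤ |a - b| := by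
  have ha : 0 < 1 + |a| := by positivity
  have hb : 0 < 1 + |b| := by positivity
  rw [sq1, sq1, div_sub_div _ _ ha.ne' hb.ne', abs_div, abs_of_pos (mul_pos ha hb),
    div_le_iff₀ (mul_pos ha hb)]
  have e : a * (1 + |b|) - (1 + |a|) * b = (a - b) * (1 + |b|) + b * (|b| - |a|) := by ring
  rcases le_total |b| |a| with h | h
  · have h2 : |b * (|b| - |a|)| ≤ |b| * |a - b| := by
      rw [abs_mul, abs_sub_comm a b]
      exact mul_le_mul_of_nonneg_left (abs_abs_sub_abs_le _ _) (abs_nonneg _)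
    have h3 := abs_add_le ((a - b) * (1 + |b|)) (b * (|b| - |a|))
    rw [abs_mul, abs_of_pos hb] at h3
    rw [e]
    nlinarith [abs_nonneg (a - b), abs_nonneg a, abs_nonneg b,
      mul_nonneg (abs_nonneg (a - b)) (mul_nonneg (abs_nonneg a) (abs_nonneg b)),
      mul_le_mul_of_nonneg_right h (abs_nonneg (a - b))]
  · have e' : a * (1 + |b|) - (1 + |a|) * b = (a - b) * (1 + |a|) + a * (|b| - |a|) := by ring
    have h2 : |a * (|b| - |a|)| ≤ |a| * |a - b| := by
      rw [abs_mul, abs_sub_comm a b]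
      exact mul_le_mul_of_nonneg_left (abs_abs_sub_abs_le _ _) (abs_nonneg _)
    have h3 := abs_add_le ((a - b) * (1 + |a|)) (a * (|b| - |a|))
    rw [abs_mul, abs_of_pos ha] at h3
    rw [e']
    nlinarith [abs_nonneg (a - b), abs_nonneg a, abs_nonneg b,
      mul_nonneg (abs_nonneg (a - b)) (mul_nonneg (abs_nonneg a) (abs_nonneg b)),
      mul_le_mul_of_nonneg_right h (abs_nonneg (a - b))]

theorem sq1_injective : Function.Injective sq1 := Function.LeftInverse.injective sq1i_sq1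

theorem sq1i_lip {ρ u : U} (hρ : ρ ∈ N) (h : Inf N (u - sq1 ρ)) :
    ∃ M ∈ N, 0 ≤ M ∧ |sq1i u - ρ| ≤ M * |u - sq1 ρ| := by
  have h2 : (2 : U) ∈ N := by exact_mod_cast N.natCast_mem 2
  have hv := abs_sq1_lt ρ
  have e := sq1i_sq1 ρ
  have hm := N.sub_mem N.one_mem (abs_mem_if (sq1_mem hρ))
  generalize sq1 ρ = v at *
  subst e
  have hη : 0 < 1 - |v| := by linarith
  have h1 := h _ (N.div_mem hm h2) (by positivity)
  have h3 : (1 - |v|) / 2 ≤ 1 - |u| := by linarith [abs_sub_abs_le_abs_sub u v]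
  have hu : 0 < 1 - |u| := lt_of_lt_of_le (by positivity) h3
  refine ⟨2 / (1 - |v|) ^ 2, N.div_mem h2 (pow_mem hm 2), by positivity, ?_⟩
  have e : u * (1 - |v|) - (1 - |u|) * v = (u - v) * (1 - |v|) + v * (|u| - |v|) := by ring
  have h4 : |v * (|u| - |v|)| ≤ |v| * |u - v| := by
    rw [abs_mul]
    exact mul_le_mul_of_nonneg_left (abs_abs_sub_abs_le _ _) (abs_nonneg _)
  have h5 := abs_add_le ((u - v) * (1 - |v|)) (v * (|u| - |v|))
  rw [abs_mul, abs_of_pos hη] at h5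
  rw [sq1i, sq1i, div_sub_div _ _ hu.ne' hη.ne', abs_div, abs_of_pos (mul_pos hu hη), e]
  calc _ ≤ |u - v| / ((1 - |v|) / 2 * (1 - |v|)) :=
        div_le_div₀ (abs_nonneg _) (by linarith) (by positivity)
          (mul_le_mul_of_nonneg_right h3 hη.le)
    _ = _ := by field_simp

theorem Inf.of_sq1 {ρ u : U} (hρ : ρ ∈ N) (h : Inf N (u - sq1 ρ)) : Inf N (sq1i u - ρ) := by
  obtain ⟨M, hM, h0, h1⟩ := sq1i_lip hρ h
  exact (Inf.bdd_mul (Bdd.of_mem hM) h).of_le (by rwa [abs_mul, abs_of_nonneg h0])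

theorem lip_of_sq1 {ρ u t M : U} (hρ : ρ ∈ N) (hM : M ∈ N) (ht : Inf N t)
    (h : |u - sq1 ρ| ≤ M * |t|) : ∃ M' ∈ N, |sq1i u - ρ| ≤ M' * |t| := by
  obtain ⟨M', hM', h0, h1⟩ := sq1i_lip hρ ((Inf.bdd_mul (Bdd.of_mem hM) ht).of_le (h.trans (by
    rw [abs_mul]
    exact mul_le_mul_of_nonneg_right (le_abs_self M) (abs_nonneg t))))
  exact ⟨M' * M, N.mul_mem hM' hM, h1.trans (by
    rw [mul_assoc]
    exact mul_le_mul_of_nonneg_left h h0)⟩

end Pool.Agent.Shared.OMin
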