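import Pool.Agent.Shared.OMin.BDefs

/-! Meagre sets with boundedly many connected pieces in boxes are uniformly porous. -/

namespace Pool.Agent.Shared.OMin

open Set Filter Topology Metric

/-- one half of the Kuratowski-Ulam theorem -/
theorem meagre_slices {T Y X : Type} [TopologicalSpace T] [TopologicalSpace Y] [TopologicalSpace X]
    [SecondCountableTopology Y] {f : T × Y → X} (hf : Continuous f) (ho : IsOpenMap f) {Z : Set X}
    (hZ : IsMeagre Z) : ∀ᶠ t in residual T, IsMeagre {y | f (t, y) ∈ Z} := by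
  obtain ⟨S, h1, h2, h3, h4⟩ := mem_residual_iff.1 hZ
  have hB := TopologicalSpace.isBasis_countableBasis Y
  have h5 : ∀ U ∈ S, ∀ B ∈ TopologicalSpace.countableBasis Y,
      ∀ᶠ t in residual T, ∃ y ∈ B, f (t, y) ∈ U := fun U hU B hb => by
    refine mem_of_superset (residual_of_dense_open (isOpenMap_fst _
      (((h1 U hU).preimage hf).inter ((hB.isOpen hb).preimage continuous_snd)))
      (dense_iff_inter_open.2 fun A hA hne => ?_)) ?_
    · obtain ⟨z, a1, a2⟩ := ((h2 U hU).preimage ho).inter_open_nonempty _ (hA.prod (hB.isOpen hb))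
        (hne.prod (TopologicalSpace.nonempty_of_mem_countableBasis hb))
      exact ⟨z.1, a1.1, z, ⟨a2, a1.2⟩, rfl⟩
    · rintro _ ⟨z, a1, rfl⟩
      exact ⟨z.2, a1.2, a1.1⟩
  filter_upwards [(eventually_countable_ball h3).2 fun U hU =>
    (eventually_countable_ball (TopologicalSpace.countable_countableBasis Y)).2 (h5 U hU)] with t ht
  filter_upwards [(eventually_countable_ball h3).2 fun U hU => residual_of_dense_open
    ((h1 U hU).preimage (hf.comp (Continuous.prodMk_right t)))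
    (hB.dense_iff.2 fun B hb _ => (ht U hU B hb).imp fun y hy => ⟨hy.1, hy.2⟩)] with y hy
  exact h4 hy

theorem mem_box {n : ℕ} {z : Fin (n + 1) → ℝ} {a b ρ : ℝ} {u : Fin n → ℝ} (h : 0 ≤ ρ) :
    z ∈ Icc (Fin.cons a fun i => u i - ρ) (Fin.cons b fun i => u i + ρ) ↔
      z 0 ∈ Icc a b ∧ Fin.tail z ∈ closedBall u ρ := by
  simp only [mem_Icc, Pi.le_def, Fin.forall_fin_succ, Fin.cons_zero, Fin.cons_succ, mem_closedBall,
    dist_pi_le_iff h, Fin.tail, Real.dist_eq, abs_le, forall_and, sub_le_iff_le_add',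
    neg_le_sub_iff_le_add, add_comm ρ]
  tauto

theorem mem_ball_succ {n : ℕ} {z c : Fin (n + 1) → ℝ} {ρ : ℝ} (h : 0 ≤ ρ) :
    z ∈ closedBall c ρ ↔ z 0 ∈ Icc (c 0 - ρ) (c 0 + ρ) ∧ Fin.tail z ∈ closedBall (Fin.tail c) ρ := by
  rw [← Real.closedBall_eq_Icc]
  simp only [mem_closedBall, dist_pi_le_iff h, Fin.forall_fin_succ, Fin.tail]

theorem NConn.slice {n N : ℕ} {Z : Set (Fin (n + 1) → ℝ)} (h : ∀ a b, NConn N (Z ∩ Icc a b))
    (t : ℝ) (a b : Fin n → ℝ) : NConn N ({y | Fin.cons t y ∈ Z} ∩ Icc a b) := by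
  obtain ⟨T, h1, h2⟩ := h (Fin.cons t a) (Fin.cons t b)
  refine ⟨fun i => Fin.tail '' T i, fun i => (h1 i).image _ continuous_id.finTail.continuousOn, ?_⟩
  rw [← image_iUnion, ← h2]
  ext y
  refine ⟨fun hy => ⟨Fin.cons t y, ⟨hy.1, Fin.cons_le_cons.2 ⟨le_rfl, hy.2.1⟩,
    Fin.cons_le_cons.2 ⟨le_rfl, hy.2.2⟩⟩, by simp⟩, ?_⟩
  rintro ⟨z, ⟨a1, a2, a3⟩, rfl⟩
  have a4 : t = z 0 := le_antisymm (a2 0) (a3 0)
  exact ⟨by simpa [a4] using a1, fun i => a2 i.succ, fun i => a3 i.succ⟩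

theorem grid (n N : ℕ) : ∃ δ : ℝ, 0 < δ ∧ ∀ Z : Set (Fin n → ℝ), IsMeagre Z →
    (∀ a b, NConn N (Z ∩ Icc a b)) → ∀ (c : Fin n → ℝ) (r : ℝ), 0 < r →
      ∃ x, Metric.closedBall x (δ * r) ⊆ Metric.closedBall c r ∧
        Disjoint (Metric.closedBall x (δ * r)) Z := by
  induction n with
  | zero =>
    refine ⟨1, one_pos, fun Z hZ _ c r _ => ⟨c, by simp, disjoint_right.2 fun z hz _ => ?_⟩⟩
    obtain ⟨y, hy⟩ := (dense_of_mem_residual hZ).nonempty
    exact hy (Subsingleton.elim z y ▸ hz)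
  | succ n ih =>
    obtain ⟨δ, hδ, ih⟩ := ih
    obtain ⟨Y, -, hY, hY'⟩ :=
      finite_cover_balls_of_compact (isCompact_closedBall (0 : Fin n → ℝ) 1) (half_pos hδ)
    have := hY.fintype
    obtain ⟨M, hM⟩ : ∃ M, M = Fintype.card (Y × Fin N) + 1 := ⟨_, rfl⟩
    have hM0 : (0 : ℝ) < M := by rw [hM]; positivity
    refine ⟨min (1 / M / 2) (δ / 2), by positivity, fun Z hZ hN c r hr => ?_⟩
    by_contra hc
    push Not at hc
    obtain ⟨η, hη, hη'⟩ : ∃ η : ℝ, 0 < η ∧ M * η = r := ⟨r / M, by positivity, by field_simp⟩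
    have h1 : min (1 / (M : ℝ) / 2) (δ / 2) * r ≤ η / 2 := by
      refine (mul_le_mul_of_nonneg_right (min_le_left _ _) hr.le).trans_eq ?_
      rw [← hη']
      field_simp
    have h2 : min (1 / (M : ℝ) / 2) (δ / 2) * r ≤ δ / 2 * r :=
      mul_le_mul_of_nonneg_right (min_le_right _ _) hr.le
    have h3 := dense_of_mem_residual (meagre_slices (Fin.consEquivL ℝ fun _ => ℝ).continuous
      (Fin.consEquivL ℝ fun _ => ℝ).isOpenMap hZ)
    choose T hT hT' using fun y : Y => hN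
      (Fin.cons (c 0 - r) fun i => (Fin.tail c + r • (y : Fin n → ℝ)) i - δ / 2 * r)
      (Fin.cons (c 0 + r) fun i => (Fin.tail c + r • (y : Fin n → ℝ)) i + δ / 2 * r)
    have h4 : ∀ k : Fin M, ∃ (t : ℝ) (y : Y × Fin N) (z : Fin (n + 1) → ℝ),
        c 0 - r + 2 * (k : ℕ) * η ≤ t ∧ t ≤ z 0 ∧ z 0 ≤ c 0 - r + 2 * ((k : ℕ) + 1) * η ∧
        z ∈ T y.1 y.2 ∧ ∀ w ∈ T y.1 y.2, w 0 ≠ t := fun k => by
      obtain ⟨t, a1, a2, a3⟩ := h3.exists_between
        (show c 0 - r + 2 * (k : ℕ) * η < c 0 - r + (2 * (k : ℕ) + 1) * η by linarith)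
      obtain ⟨x, a4, a5⟩ := ih _ a1 (NConn.slice hN t) (Fin.tail c) r hr
      have a6 : r⁻¹ • (x - Fin.tail c) ∈ closedBall (0 : Fin n → ℝ) 1 := by
        rw [mem_closedBall_zero_iff, norm_smul, norm_inv, Real.norm_of_nonneg hr.le,
          inv_mul_le_iff₀ hr, mul_one, ← dist_eq_norm]
        exact a4 (mem_closedBall_self (by positivity))
      obtain ⟨y, a7, a8⟩ := mem_iUnion₂.1 (hY' a6)
      have a9 : closedBall (Fin.tail c + r • y) (δ / 2 * r) ⊆ closedBall x (δ * r) := by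
        refine closedBall_subset_closedBall' ?_
        have : Fin.tail c + r • y - x = -r • (r⁻¹ • (x - Fin.tail c) - y) := by
          rw [smul_sub, smul_smul, neg_mul, mul_inv_cancel₀ hr.ne']
          module
        rw [dist_eq_norm, this, norm_smul, norm_neg, Real.norm_of_nonneg hr.le, ← dist_eq_norm]
        nlinarith [mem_ball.1 a8]
      have a10 : ((k : ℕ) + 1) * η ≤ r := by
        rw [← hη']
        exact mul_le_mul_of_nonneg_right (by exact_mod_cast k.2) hη.le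
      have a11 : 0 ≤ (k : ℕ) * η := by positivity
      have a12 : ∀ z ∈ closedBall (Fin.cons (c 0 - r + (2 * (k : ℕ) + 3 / 2) * η)
          (Fin.tail c + r • y) : Fin (n + 1) → ℝ) (min (1 / (M : ℝ) / 2) (δ / 2) * r),
          (c 0 - r + (2 * (k : ℕ) + 1) * η ≤ z 0 ∧ z 0 ≤ c 0 - r + 2 * ((k : ℕ) + 1) * η) ∧
            Fin.tail z ∈ closedBall (Fin.tail c + r • y) (δ / 2 * r) := fun z hz => by
        rw [mem_ball_succ (by positivity), Fin.cons_zero, Fin.tail_cons] at hz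
        exact ⟨⟨by linarith [hz.1.1], by linarith [hz.1.2]⟩, closedBall_subset_closedBall h2 hz.2⟩
      obtain ⟨z, b1, b2⟩ := not_disjoint_iff.1 (hc _ fun z hz => (mem_ball_succ hr.le).2
        ⟨⟨by linarith [(a12 z hz).1.1], by linarith [(a12 z hz).1.2]⟩, a4 (a9 (a12 z hz).2)⟩)
      obtain ⟨⟨b3, b4⟩, b5⟩ := a12 z b1
      obtain ⟨i, b6⟩ := mem_iUnion.1 ((hT' ⟨y, a7⟩).subset
        ⟨b2, (mem_box (by positivity)).2 ⟨⟨by linarith, by linarith⟩, b5⟩⟩)
      refine ⟨t, (⟨y, a7⟩, i), z, a2.le, by linarith, b4, b6, fun w hw e => ?_⟩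
      obtain ⟨b7, b8⟩ := (hT' ⟨y, a7⟩).superset (mem_iUnion.2 ⟨i, hw⟩)
      refine disjoint_left.1 a5 (a9 ((mem_box (by positivity)).1 b8).2) ?_
      show Fin.cons t (Fin.tail w) ∈ Z
      rwa [← e, Fin.cons_self_tail]
    choose t y z b1 b2 b3 b4 b5 using h4
    have h5 : ∀ k k' : Fin M, k < k' → y k ≠ y k' := fun k k' h e => by
      have a1 : ((k : ℕ) + 1 : ℝ) * η ≤ (k' : ℕ) * η :=
        mul_le_mul_of_nonneg_right (by exact_mod_cast h) hη.le
      obtain ⟨w, a2, a3⟩ := (hT _ _).intermediate_value (e ▸ b4 k) (b4 k')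
        (continuous_apply 0).continuousOn ⟨show _ ≤ t k' by linarith [b3 k, b1 k'], b2 k'⟩
      exact b5 k' w a2 a3
    obtain ⟨k, k', a1, a2⟩ := Fintype.exists_ne_map_eq_of_card_lt y (by simp [hM])
    exact a1.lt_or_gt.elim (fun h => h5 k k' h a2) fun h => h5 k' k h a2.symm

end Pool.Agent.Shared.OMin
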