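import Pool.Agent.Shared.OMin.Types

/-! T1b: infinitesimals over definable closures. -/

namespace Pool.Agent.Shared.OMin

open Set Filter Topology

variable {α β : Type}
  [NormedAddCommGroup α] [NormedSpace ℝ α] [FiniteDimensional ℝ α]
  [NormedAddCommGroup β] [NormedSpace ℝ β] [FiniteDimensional ℝ β]
  {S : OStr} {P Q Z y y' : ℕ → U} {k l m r : ℕ}

/-! ### infinitesimals -/

theorem infin_small {ι : Type*} (s : Finset ι) (c : ι → ℝ) :
    ∃ t : ℝ, 0 < t ∧ ∀ i ∈ s, 0 < c i → t < c i := by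
  have h : ∀ᶠ t in 𝓝[>] (0 : ℝ), ∀ i ∈ s, 0 < c i → t < c i := by
    refine (eventually_all_finset s).2 fun i _ => ?_
    by_cases hc : 0 < c i
    · exact ((eventually_lt_nhds hc).filter_mono nhdsWithin_le_nhds).mono fun t ht _ => ht
    · exact Eventually.of_forall fun t h => absurd h hc
  exact ((show ∀ᶠ t in 𝓝[>] (0 : ℝ), 0 < t from self_mem_nhdsWithin).and h).exists

theorem infin_pos_iff {a : U} : 0 < a ↔ ∀ᶠ ω in 𝔲, 0 < out a ω := by
  rw [lt_iff]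
  exact eventually_congr (out_zero.mono fun ω h => by rw [h])

theorem infin_abs_lt_iff {a b c : U} :
    |a - b| < c ↔ ∀ᶠ ω in 𝔲, |out a ω - out b ω| < out c ω := by
  rw [lt_iff]
  refine eventually_congr ?_
  filter_upwards [out_abs (a - b), out_sub a b] with ω h1 h2
  rw [h1, h2]

theorem Inf.ev_lt {t : U} (ht : Inf (dcl S P k) t) {f : Ω → ℝ} (hf : InD S P k f) :
    ∀ᶠ ω in 𝔲, 0 < f ω → |out t ω| < f ω := by
  rcases ev_em (fun ω => 0 < f ω) with h | h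
  · have h0 : 0 < cl f := infin_pos_iff.2 (by
      filter_upwards [h, out_cl hf.sm] with ω h1 h2
      rwa [h2])
    filter_upwards [lt_iff.1 (ht _ hf.cl_mem h0), out_cl hf.sm, out_abs t] with ω h1 h2 h3 _
    rwa [h2, h3] at h1
  · exact h.mono fun ω h1 h2 => absurd h2 h1

theorem inf_of_ev {t : U} (h : ∀ G : (Fin k → ℝ) → ℝ, DF S G →
    ∀ᶠ ω in 𝔲, 0 < G (tp P k ω) → |out t ω| < G (tp P k ω)) : Inf (dcl S P k) t := by
  rintro _ ⟨G, hG, rfl⟩ h0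
  rw [lt_iff]
  filter_upwards [h G hG, infin_pos_iff.1 h0, out_ev G P, out_abs t] with ω h1 h2 h3 h4
  rw [h3] at h2
  rw [h3, h4]
  exact h1 h2

/-- a definable property that holds near a definable point holds infinitely close to it -/
theorem infin_adj {p : Ω → α} (hp : InD S P k p) {X : α → ℝ → Prop}
    (hX : DP S fun z : α × ℝ => X z.1 z.2) {f w : U} (hf : f ∈ dcl S P k)
    (hw : Inf (dcl S P k) (w - f)) (h : ∀ᶠ ω in 𝔲, ∀ᶠ s in 𝓝 (out f ω), X (p ω) s) :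
    ∀ᶠ ω in 𝔲, X (p ω) (out w ω) := by
  have h1 : DP S fun z : ((α × ℝ) × ℝ) × ℝ => X z.1.1.1 z.2 :=
    hX.comp (g := fun z : ((α × ℝ) × ℝ) × ℝ => (z.1.1.1, z.2)) (by fun_prop)
  have h2 : DP S fun z : (α × ℝ) × ℝ => ∀ s, |s - z.1.2| < z.2 → X z.1.1 s :=
    DP.all (P := fun (z : (α × ℝ) × ℝ) s => |s - z.1.2| < z.2 → X z.1.1 s)
      (DP.imp (by fun_prop) h1)
  obtain ⟨b, hb, h3⟩ := dcl_choice (hp.prod (mem_dcl_iff.1 hf))
    (X := fun z d => 0 < d ∧ ∀ s, |s - z.2| < d → X z.1 s) (DP.and (by fun_prop) h2) (by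
      filter_upwards [h] with ω hω
      obtain ⟨d, hd, h4⟩ := Metric.eventually_nhds_iff.1 hω
      exact ⟨d, hd, fun s hs => h4 (by rwa [Real.dist_eq])⟩)
  have h0 : 0 < b := infin_pos_iff.2 (h3.mono fun ω h => h.1)
  filter_upwards [h3, infin_abs_lt_iff.1 (hw b hb h0)] with ω h4 h5
  exact h4.2 _ h5

theorem infin_right {p : Ω → α} (hp : InD S P k p) {X : α → ℝ → Prop}
    (hX : DP S fun z : α × ℝ => X z.1 z.2) {f w : U} (hf : f ∈ dcl S P k) (h0 : f < w)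
    (hw : Inf (dcl S P k) (w - f)) (h : ∀ᶠ ω in 𝔲, ∀ᶠ s in 𝓝[>] (out f ω), X (p ω) s) :
    ∀ᶠ ω in 𝔲, X (p ω) (out w ω) := by
  have h1 : DP S fun z : (α × ℝ) × ℝ => X z.1.1 z.2 :=
    hX.comp (g := fun z : (α × ℝ) × ℝ => (z.1.1, z.2)) (by fun_prop)
  have h2 := infin_adj (hp.prod (mem_dcl_iff.1 hf)) (X := fun z s => z.2 < s → X z.1 s)
    (DP.imp (by fun_prop) h1) hf hw (h.mono fun ω hω => eventually_nhdsWithin_iff.1 hω)
  filter_upwards [h2, lt_iff.1 h0] with ω h3 h4 using h3 h4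

theorem infin_left {p : Ω → α} (hp : InD S P k p) {X : α → ℝ → Prop}
    (hX : DP S fun z : α × ℝ => X z.1 z.2) {f w : U} (hf : f ∈ dcl S P k) (h0 : w < f)
    (hw : Inf (dcl S P k) (w - f)) (h : ∀ᶠ ω in 𝔲, ∀ᶠ s in 𝓝[<] (out f ω), X (p ω) s) :
    ∀ᶠ ω in 𝔲, X (p ω) (out w ω) := by
  have h1 : DP S fun z : (α × ℝ) × ℝ => X z.1.1 z.2 :=
    hX.comp (g := fun z : (α × ℝ) × ℝ => (z.1.1, z.2)) (by fun_prop)
  have h2 := infin_adj (hp.prod (mem_dcl_iff.1 hf)) (X := fun z s => s < z.2 → X z.1 s)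
    (DP.imp (by fun_prop) h1) hf hw (h.mono fun ω hω => eventually_nhdsWithin_iff.1 hω)
  filter_upwards [h2, lt_iff.1 h0] with ω h3 h4 using h3 h4

theorem infin_fibre {X : α → ℝ → Prop} (hX : DP S fun z : α × ℝ => X z.1 z.2) (a : α) :
    DP S (X a) := hX.comp (g := fun s : ℝ => (a, s)) (by fun_prop)

theorem exists_inf (S : OStr) (P : ℕ → U) (k : ℕ) : ∃ ε, 0 < ε ∧ Inf (dcl S P k) ε := by
  obtain ⟨b, hb⟩ := sat (sm_tp P k) (I := (Fin k → ℝ) → ℝ)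
    (fun G x t => 0 < t ∧ (0 < G x → t < G x)) fun s => Eventually.of_forall fun ω => by
      obtain ⟨t, h0, ht⟩ := infin_small s fun G => G (tp P k ω)
      exact ⟨t, fun G hG => ⟨h0, ht G hG⟩⟩
  refine ⟨b, infin_pos_iff.2 ((hb 0).mono fun ω h => h.1), inf_of_ev fun G _ => ?_⟩
  filter_upwards [hb G] with ω h
  rw [abs_of_pos h.1]
  exact h.2

theorem Inf.notMem {N : IntermediateField ℝ U} {f w : U} (hf : f ∈ N) (h : Inf N (w - f))
    (hne : w ≠ f) : w ∉ N := fun hw =>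
  hne (sub_eq_zero.1 (h.eq_zero (N.sub_mem hw hf)))

theorem adj_right_iff {p : Ω → α} (hp : InD S P k p) {X : α → ℝ → Prop}
    (hX : DP S fun z : α × ℝ => X z.1 z.2) {f w : U} (hf : f ∈ dcl S P k) (h0 : f < w)
    (hw : Inf (dcl S P k) (w - f)) :
    (∀ᶠ ω in 𝔲, X (p ω) (out w ω)) ↔ ∀ᶠ ω in 𝔲, ∀ᶠ s in 𝓝[>] (out f ω), X (p ω) s := by
  refine ⟨fun h => ?_, infin_right hp hX hf h0 hw⟩
  refine (ev_em _).resolve_right fun h1 => ?_
  have h2 := infin_right hp (X := fun a s => ¬ X a s) hX.not hf h0 hw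
    (h1.mono fun ω hω => ((infin_fibre hX (p ω)).ev_right _).resolve_left hω)
  obtain ⟨ω, h3, h4⟩ := (h.and h2).exists
  exact h4 h3

theorem inf_iff {p : Ω → α} (hp : InD S P k p) {X : α → ℝ → Prop}
    (hX : DP S fun z : α × ℝ => X z.1 z.2) {ε : U} (h0 : 0 < ε) (hε : Inf (dcl S P k) ε) :
    (∀ᶠ ω in 𝔲, X (p ω) (out ε ω)) ↔ ∀ᶠ ω in 𝔲, ∀ᶠ s in 𝓝[>] 0, X (p ω) s := by
  rw [adj_right_iff hp hX (dcl S P k).zero_mem h0 (by simpa using hε)]
  exact eventually_congr (out_zero.mono fun ω h => by rw [h])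

theorem adj_left_iff {p : Ω → α} (hp : InD S P k p) {X : α → ℝ → Prop}
    (hX : DP S fun z : α × ℝ => X z.1 z.2) {f w : U} (hf : f ∈ dcl S P k) (h0 : w < f)
    (hw : Inf (dcl S P k) (w - f)) :
    (∀ᶠ ω in 𝔲, X (p ω) (out w ω)) ↔ ∀ᶠ ω in 𝔲, ∀ᶠ s in 𝓝[<] (out f ω), X (p ω) s := by
  refine ⟨fun h => ?_, infin_left hp hX hf h0 hw⟩
  refine (ev_em _).resolve_right fun h1 => ?_
  have h2 := infin_left hp (X := fun a s => ¬ X a s) hX.not hf h0 hw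
    (h1.mono fun ω hω => ((infin_fibre hX (p ω)).ev_left _).resolve_left hω)
  obtain ⟨ω, h3, h4⟩ := (h.and h2).exists
  exact h4 h3

/-- an intermediate infinitesimal (finite satisfiability by an element of `dcl Z r`) -/
theorem exists_inf_between {t : U} (ht : Inf (dcl S Z r) t) :
    ∃ ε, 0 < ε ∧ Inf (dcl S Z r) ε ∧ Inf (dcl S (upd Z r ε) (r + 1)) t := by
  obtain ⟨b, hb⟩ := sat ((sm_tp Z r).prod (sm_out t))
    (I := {G : (Fin (r + 1) → ℝ) → ℝ // DF S G})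
    (fun G z s => 0 < s ∧ (0 < G.1 (Fin.snoc z.1 0) → s < G.1 (Fin.snoc z.1 0)) ∧
      (0 < G.1 (Fin.snoc z.1 s) → |z.2| < G.1 (Fin.snoc z.1 s))) fun s => by
      obtain ⟨c, hc, h1⟩ := dcl_choice (InD.tp_self (S := S) (P := Z) (k := r))
        (X := fun x e => 0 < e ∧ ∀ G ∈ (s : Set {G : (Fin (r + 1) → ℝ) → ℝ // DF S G}),
          0 < G.1 (Fin.snoc x 0) → e < G.1 (Fin.snoc x 0))
        (DP.and (by fun_prop) (DP.finset_and s.finite_toSet fun G _ => by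
          have := G.2
          fun_prop))
        (Eventually.of_forall fun ω => infin_small s fun G => G.1 (Fin.snoc (tp Z r ω) 0))
      have h2 : ∀ᶠ ω in 𝔲, ∀ G ∈ s, 0 < G.1 (Fin.snoc (tp Z r ω) (out c ω)) →
          |out t ω| < G.1 (Fin.snoc (tp Z r ω) (out c ω)) :=
        (eventually_all_finset s).2 fun G _ => ht.ev_lt
          ((InD.tp_self.prod (mem_dcl_iff.1 hc)).comp
            (G := fun z : (Fin r → ℝ) × ℝ => G.1 (Fin.snoc z.1 z.2)) (by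
              have := G.2
              fun_prop))
      filter_upwards [h1, h2] with ω h3 h4
      exact ⟨out c ω, fun G hG => ⟨h3.1, h3.2 G hG, h4 G hG⟩⟩
  refine ⟨b, infin_pos_iff.2 ((hb ⟨fun _ => 0, DF.const 0⟩).mono fun ω h => h.1),
    inf_of_ev fun G hG => ?_, inf_of_ev fun G hG => ?_⟩
  · filter_upwards [hb ⟨fun x => G (Fin.init x), by fun_prop⟩] with ω h
    rw [abs_of_pos h.1]
    simpa only [Fin.init_snoc] using h.2.1
  · filter_upwards [hb ⟨G, hG⟩] with ω h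
    rw [tp_upd]
    exact h.2.2

theorem infin_st {t e : U} (F : Filter ℝ)
    (hiff : ∀ (Q : ℕ → U) (l : ℕ), Inf (dcl S Q l) t → ∀ p : Ω → (Fin r → ℝ) × ℝ × ℝ,
      InD S Q l p → ∀ X : (Fin r → ℝ) × ℝ × ℝ → ℝ → Prop,
      (DP S fun z : ((Fin r → ℝ) × ℝ × ℝ) × ℝ => X z.1 z.2) →
      ((∀ᶠ ω in 𝔲, X (p ω) (out t ω)) ↔ ∀ᶠ ω in 𝔲, ∀ᶠ s in F, X (p ω) s))
    (hex : ∀ g : ℝ → ℝ, DF S g → ∀ M : ℝ, (∀ᶠ s in F, |g s| ≤ M) → ∃ l, Tendsto g F (𝓝 l))
    (hdp : ∀ g : (Fin r → ℝ) × ℝ → ℝ → ℝ, (DF S fun z : ((Fin r → ℝ) × ℝ) × ℝ => g z.1 z.2) →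
      DP S fun x => Tendsto (g x) F (𝓝 x.2))
    (ht : Inf (dcl S Z r) t) (he : e ∈ dcl S (upd Z r t) (r + 1))
    (hb : Bdd (dcl S Z r) e) : ∃ ρ ∈ dcl S Z r, ∀ (Q : ℕ → U) (l : ℕ), dcl S Z r ≤ dcl S Q l →
      Inf (dcl S Q l) t → Inf (dcl S Q l) (e - ρ) := by
  obtain ⟨G, hG, rfl⟩ := he
  obtain ⟨M, hM, hb⟩ := hb
  have h1 := (hiff Z r ht _ (InD.tp_self.prod ((mem_dcl_iff.1 hM).prod (InD.const 0)))
    (fun z s => |G (Fin.snoc z.1 s)| ≤ z.2.1) (by fun_prop)).1 (by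
      filter_upwards [le_iff.1 hb, out_abs (ev G (upd Z r t)), out_ev G (upd Z r t)]
        with ω h1 h2 h3
      rwa [h2, h3, tp_upd] at h1)
  obtain ⟨ρ, hρ, h2⟩ := dcl_choice (InD.tp_self (S := S) (P := Z) (k := r))
    (X := fun x c => Tendsto (fun s => G (Fin.snoc x s)) F (𝓝 c))
    (hdp (fun z s => G (Fin.snoc z.1 s)) (by fun_prop))
    (h1.mono fun ω hω => hex _ (by fun_prop) _ hω)
  refine ⟨ρ, hρ, fun Q l hle hQ δ hδ h0 => ?_⟩
  have h3 := (hiff Q l hQ _ ((InD.tp_self.mono hle).prod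
    ((mem_dcl_iff.1 (hle hρ)).prod (mem_dcl_iff.1 hδ)))
    (fun z s => |G (Fin.snoc z.1 s) - z.2.1| < z.2.2) (by fun_prop)).2 (by
      filter_upwards [h2, infin_pos_iff.1 h0] with ω h3 h4
      exact Metric.tendsto_nhds.1 h3 _ h4)
  rw [infin_abs_lt_iff]
  filter_upwards [h3, out_ev G (upd Z r t)] with ω h4 h5
  rwa [h5, tp_upd]

/-- existence of standard parts; the same element is the standard part over every bigger
definable closure over which `t` is still infinitesimal -/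
theorem exists_st {t e : U} (ht : Inf (dcl S Z r) t) (he : e ∈ dcl S (upd Z r t) (r + 1))
    (hb : Bdd (dcl S Z r) e) : ∃ ρ ∈ dcl S Z r, ∀ (Q : ℕ → U) (l : ℕ), dcl S Z r ≤ dcl S Q l →
      Inf (dcl S Q l) t → Inf (dcl S Q l) (e - ρ) := by
  rcases lt_trichotomy t 0 with h | h | h
  · refine infin_st (𝓝[<] 0) (fun Q l hQ p hp X hX => ?_)
      (fun g hg M hM => hg.exists_tendsto_left hM)
      (fun g hg => DP.tendsto_nhdsLT hg (DF.const 0) (by fun_prop)) ht he hb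
    rw [adj_left_iff hp hX (dcl S Q l).zero_mem h (by simpa using hQ)]
    exact eventually_congr (out_zero.mono fun ω h => by rw [h])
  · refine ⟨e, dcl_le (fun i hi => ?_) he, fun Q l _ _ => by simpa using Inf.zero _⟩
    rcases (Nat.lt_succ_iff.1 hi).eq_or_lt with h1 | h1
    · rw [h1, upd_self, h]
      exact (dcl S Z r).zero_mem
    · rw [upd_of_ne h1.ne]
      exact self_mem_dcl h1
  · exact infin_st (𝓝[>] 0) (fun Q l hQ p hp X hX => inf_iff hp hX h hQ)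
      (fun g hg M hM => hg.exists_tendsto_right hM)
      (fun g hg => DP.tendsto_nhdsGT hg (DF.const 0) (by fun_prop)) ht he hb

theorem infin_near {p : Ω → α} (hp : InD S P k p) (hy : ∀ i < m, y i ∈ dcl S P k)
    (hn : ∀ i < m, Inf (dcl S P k) (y' i - y i)) {X : α → (Fin m → ℝ) → Prop}
    (hX : DP S fun z : α × (Fin m → ℝ) => X z.1 z.2)
    (h : ∀ᶠ ω in 𝔲, ∀ᶠ z in 𝓝 (tp y m ω), X (p ω) z) : ∀ᶠ ω in 𝔲, X (p ω) (tp y' m ω) := by
  have h1 : DP S fun z : ((α × (Fin m → ℝ)) × ℝ) × (Fin m → ℝ) => X z.1.1.1 z.2 :=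
    hX.comp (g := fun z : ((α × (Fin m → ℝ)) × ℝ) × (Fin m → ℝ) => (z.1.1.1, z.2)) (by fun_prop)
  have h2 : DP S fun z : (α × (Fin m → ℝ)) × ℝ =>
      ∀ s : Fin m → ℝ, (∀ i, |s i - z.1.2 i| < z.2) → X z.1.1 s :=
    DP.all (P := fun (z : (α × (Fin m → ℝ)) × ℝ) (s : Fin m → ℝ) =>
      (∀ i, |s i - z.1.2 i| < z.2) → X z.1.1 s) (DP.imp (DP.fin_and fun i => by fun_prop) h1)
  obtain ⟨b, hb, h3⟩ := dcl_choice (hp.prod (InD.tp hy))
    (X := fun z d => 0 < d ∧ ∀ s : Fin m → ℝ, (∀ i, |s i - z.2 i| < d) → X z.1 s)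
    (DP.and (by fun_prop) h2) (by
      filter_upwards [h] with ω hω
      obtain ⟨d, hd, h4⟩ := Metric.eventually_nhds_iff.1 hω
      exact ⟨d, hd, fun s hs => h4 ((dist_pi_lt_iff hd).2 fun i => by
        rw [Real.dist_eq]; exact hs i)⟩)
  have h0 : 0 < b := infin_pos_iff.2 (h3.mono fun ω h => h.1)
  have h4 : ∀ᶠ ω in 𝔲, ∀ i : Fin m, |out (y' i) ω - out (y i) ω| < out b ω :=
    eventually_all.2 fun i => infin_abs_lt_iff.1 (hn i i.2 b hb h0)
  filter_upwards [h3, h4] with ω h5 h6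
  exact h5.2 _ h6

theorem nhds_near (hy : ∀ i < m, y i ∈ dcl S P k) (hn : ∀ i < m, Inf (dcl S P k) (y' i - y i))
    {X : (Fin m → ℝ) → Prop} (hX : DP S X) (h : At (fun x => ∀ᶠ z in 𝓝 x, X z) y) :
    At X y' :=
  infin_near (InD.const (0 : ℝ)) hy hn (X := fun _ z => X z)
    (hX.comp (g := fun z : ℝ × (Fin m → ℝ) => z.2) (by fun_prop)) h

theorem cont_near (hy : ∀ i < m, y i ∈ dcl S P k) (hn : ∀ i < m, Inf (dcl S P k) (y' i - y i))
    {G : (Fin m → ℝ) → ℝ} (hG : DF S G) (h : At (fun x => ContinuousAt G x) y) :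
    Inf (dcl S P k) (ev G y' - ev G y) := by
  intro δ hδ h0
  have h1 := infin_near ((InD.tp hy).prod (mem_dcl_iff.1 hδ)) hy hn
    (X := fun a z => |G z - G a.1| < a.2) (by fun_prop) (by
      filter_upwards [h, infin_pos_iff.1 h0] with ω h1 h2
      exact Metric.tendsto_nhds.1 h1 _ h2)
  rw [infin_abs_lt_iff]
  filter_upwards [h1, out_ev G y, out_ev G y'] with ω h2 h3 h4
  rwa [h3, h4]

theorem lip_near (hy : ∀ i < m, y i ∈ dcl S P k) {f w : U} (hf : f ∈ dcl S P k)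
    (hw : Inf (dcl S P k) (w - f)) {G : (Fin (m + 1) → ℝ) → ℝ} (hG : DF S G)
    (h : At (fun x => DifferentiableAt ℝ G x) (upd y m f)) :
    ∃ M ∈ dcl S P k, |ev G (upd y m w) - ev G (upd y m f)| ≤ M * |w - f| := by
  have h1 : DP S fun z : ((Fin m → ℝ) × ℝ) × ℝ => ∀ᶠ s in 𝓝 z.1.2,
      |G (Fin.snoc z.1.1 s) - G (Fin.snoc z.1.1 z.1.2)| ≤ z.2 * |s - z.1.2| :=
    DP.ev_nhds (P := fun (z : ((Fin m → ℝ) × ℝ) × ℝ) s =>
      |G (Fin.snoc z.1.1 s) - G (Fin.snoc z.1.1 z.1.2)| ≤ z.2 * |s - z.1.2|) (by fun_prop)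
      (by fun_prop)
  obtain ⟨M, hM, h2⟩ := dcl_choice ((InD.tp hy).prod (mem_dcl_iff.1 hf))
    (X := fun z c => ∀ᶠ s in 𝓝 z.2,
      |G (Fin.snoc z.1 s) - G (Fin.snoc z.1 z.2)| ≤ c * |s - z.2|) h1 (by
      filter_upwards [h] with ω hω
      rw [tp_upd] at hω
      have h3 : DifferentiableAt ℝ
          (fun s : ℝ => (Fin.snoc (tp y m ω) s : Fin (m + 1) → ℝ)) (out f ω) := by
        refine differentiableAt_pi.2 fun i => ?_
        refine Fin.lastCases ?_ (fun j => ?_) i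
        · simp
        · simp
      exact (DifferentiableAt.comp (out f ω) hω h3).isBigO_sub.bound)
  refine ⟨M, hM, ?_⟩
  have h3 := infin_adj (((InD.tp hy).prod (mem_dcl_iff.1 hf)).prod (mem_dcl_iff.1 hM))
    (X := fun z s => |G (Fin.snoc z.1.1 s) - G (Fin.snoc z.1.1 z.1.2)| ≤ z.2 * |s - z.1.2|)
    (by fun_prop) hf hw h2
  rw [le_iff]
  filter_upwards [h3, out_abs (ev G (upd y m w) - ev G (upd y m f)),
    out_sub (ev G (upd y m w)) (ev G (upd y m f)), out_ev G (upd y m w), out_ev G (upd y m f),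
    out_mul M |w - f|, out_abs (w - f), out_sub w f] with ω a1 a2 a3 a4 a5 a6 a7 a8
  rwa [a2, a3, a4, a5, a6, a7, a8, tp_upd, tp_upd]

/-- a tuple infinitely close to a generic tuple has the same type -/
theorem near_sameTp (hg : Gen S y m) (hy : ∀ i < m, y i ∈ dcl S P k)
    (hn : ∀ i < m, Inf (dcl S P k) (y' i - y i)) :
    SameTp S y' y m ∧ ∀ G : (Fin m → ℝ) → ℝ, DF S G → Inf (dcl S P k) (ev G y' - ev G y) := by
  have h1 : ∀ X : (Fin m → ℝ) → Prop, DP S X → At X y → At X y' := fun X hX h =>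
    nhds_near hy hn hX (hg.nhds hX h)
  refine ⟨fun X hX => ⟨fun h => ?_, h1 X hX⟩, fun G hG => cont_near hy hn hG
    (Eventually.mono (hg.contDiffAt hG) fun ω h => h.continuousAt)⟩
  refine (ev_em _).resolve_right fun h2 => ?_
  obtain ⟨ω, h3, h4⟩ := (Eventually.and h (h1 _ hX.not h2)).exists
  exact h4 h3

/-- change of the lift of the residue field, small part -/
theorem near_inf (hg : Gen S y m) (hy : ∀ i < m, y i ∈ dcl S P k)
    (hn : ∀ i < m, Inf (dcl S P k) (y' i - y i)) {e : U} (he : Inf (dcl S P k) e) :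
    Inf (dcl S y' m) e := by
  rintro _ ⟨G, hG, rfl⟩ h0
  obtain ⟨h1, h2⟩ := near_sameTp hg hy hn
  have h3 : 0 < ev G y := ev_pos_iff.2 ((h1 _ (by fun_prop)).1 (ev_pos_iff.1 h0))
  have h4 : ev G y / 2 ∈ dcl S P k :=
    (dcl S P k).div_mem (ev_mem hy hG) (by exact_mod_cast (dcl S P k).natCast_mem 2)
  have h5 := abs_lt.1 (h2 G hG _ h4 (by positivity))
  have h6 := he _ h4 (by positivity)
  linarith [h5.1]

/-- change of the lift of the residue field -/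
theorem near_inf_iff (hg : Gen S y k) (hy : ∀ i < k, y i ∈ dcl S P k)
    (hn : ∀ i < k, Inf (dcl S P k) (y' i - y i)) {e : U} :
    Inf (dcl S y' k) e ↔ Inf (dcl S P k) e := by
  refine ⟨fun he δ hδ h0 => ?_, near_inf hg hy hn⟩
  obtain ⟨h1, h2⟩ := near_sameTp hg hy hn
  have h7 := hδ
  rw [(hg.of_span hy).2] at h7
  obtain ⟨G, hG, rfl⟩ := h7
  have h3 : 0 < ev G y' := ev_pos_iff.2 ((h1 _ (by fun_prop)).2 (ev_pos_iff.1 h0))
  have h4 : ev G y' / 2 ∈ dcl S y' k :=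
    (dcl S y' k).div_mem (ev_mem_dcl hG) (by exact_mod_cast (dcl S y' k).natCast_mem 2)
  have h5 := abs_lt.1 (h2 G hG _ hδ h0)
  have h6 := he _ h4 (by positivity)
  linarith [h5.2]

end Pool.Agent.Shared.OMin
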