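import Pool.Agent.Shared.OMin.Leaves
import Pool.Agent.Shared.OMin.Cells

/-! The Khovanskii bound: intersections of Rolle leaves with the sets of a definable family have
uniformly finitely many connected pieces. Auxiliary results are in the namespace `Khov`. -/

namespace Pool.Agent.Shared.OMin

open Set Filter Topology Module

namespace Khov

/-! ### Unions of preconnected sets -/

section NConn
variable {X Y : Type} [TopologicalSpace X] [TopologicalSpace Y]

theorem nconn_of_fintype {κ : Type} [Fintype κ] {W : Set X} (T : κ → Set X)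
    (hT : ∀ i, IsPreconnected (T i)) (hW : W = ⋃ i, T i) : NConn (Fintype.card κ) W := by
  let e := Fintype.equivFin κ
  refine ⟨fun j => T (e.symm j), fun j => hT _, ?_⟩
  rw [hW]
  exact (e.symm.surjective.iUnion_comp T).symm

theorem nconn_iUnion {κ : Type} [Fintype κ] {N : κ → ℕ} {W : κ → Set X}
    (h : ∀ k, NConn (N k) (W k)) : NConn (∑ k, N k) (⋃ k, W k) := by
  choose T hT hW using h
  have := nconn_of_fintype (W := ⋃ k, W k) (fun z : Σ k, Fin (N k) => T z.1 z.2)
    (fun z => hT _ _) (by simp only [iUnion_sigma, ← hW])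
  simpa using this

theorem nconn_union {N M : ℕ} {W W' : Set X} (h : NConn N W) (h' : NConn M W') :
    NConn (N + M) (W ∪ W') := by
  obtain ⟨T, hT, rfl⟩ := h
  obtain ⟨T', hT', rfl⟩ := h'
  have := nconn_of_fintype (W := (⋃ i, T i) ∪ ⋃ i, T' i) (Sum.elim T T')
    (by rintro (i | i) <;> simp [hT, hT']) (by simp [iUnion_sum])
  simpa using this

theorem nconn_mono {N M : ℕ} {W : Set X} (h : NConn N W) (hNM : N ≤ M) : NConn M W := by
  have h0 : NConn (M - N) (∅ : Set X) := ⟨fun _ => ∅, fun _ => isPreconnected_empty, by simp⟩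
  have := nconn_union h h0
  rwa [union_empty, Nat.add_sub_cancel' hNM] at this

theorem nconn_image {N : ℕ} {W : Set X} (h : NConn N W) {f : X → Y} (hf : ContinuousOn f W) :
    NConn N (f '' W) := by
  obtain ⟨T, hT, rfl⟩ := h
  exact ⟨fun i => f '' T i, fun i => (hT i).image f (hf.mono (subset_iUnion T i)),
    image_iUnion⟩

theorem nconn_one {W : Set X} (h : IsPreconnected W) : NConn 1 W :=
  ⟨fun _ => W, fun _ => h, (iUnion_const W).symm⟩

/-- If every connected component of `W` meets the subset `Z`, then `W` has at most as many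
pieces as `Z`. -/
theorem nconn_of_meets {N : ℕ} {W Z : Set X} (h : NConn N Z) (hZ : Z ⊆ W)
    (hm : ∀ x ∈ W, (connectedComponentIn W x ∩ Z).Nonempty) : NConn N W := by
  classical
  obtain ⟨T, hT, rfl⟩ := h
  refine ⟨fun i => if hi : (T i).Nonempty then connectedComponentIn W hi.some else ∅,
    fun i => ?_, Subset.antisymm (fun x hx => ?_) (iUnion_subset fun i => ?_)⟩
  · by_cases hi : (T i).Nonempty
    · simp only [hi, dif_pos]; exact isPreconnected_connectedComponentIn
    · simp only [hi, dif_neg, not_false_iff]; exact isPreconnected_empty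
  · obtain ⟨z, hz, hz'⟩ := hm x hx
    obtain ⟨i, hi⟩ := mem_iUnion.1 hz'
    have hne : (T i).Nonempty := ⟨z, hi⟩
    refine mem_iUnion.2 ⟨i, ?_⟩
    simp only [hne, dif_pos]
    have h1 : z ∈ connectedComponentIn W hne.some :=
      (hT i).subset_connectedComponentIn hne.some_mem ((subset_iUnion T i).trans hZ) hi
    rw [connectedComponentIn_eq h1, ← connectedComponentIn_eq hz]
    exact mem_connectedComponentIn hx
  · by_cases hi : (T i).Nonempty
    · simp only [hi, dif_pos]; exact connectedComponentIn_subset _ _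
    · simp [hi]

/-- A relatively open and closed subset has at most as many pieces. -/
theorem nconn_clopen {N : ℕ} {W W' : Set X} (h : NConn N W) (hs : W' ⊆ W)
    (ho : ∀ x ∈ W', W' ∈ 𝓝[W] x) (hc : ∀ x ∈ W, x ∉ W' → W'ᶜ ∈ 𝓝[W] x) : NConn N W' := by
  obtain ⟨T, hT, rfl⟩ := h
  refine ⟨fun i => T i ∩ W', fun i => ?_, ?_⟩
  · have hsub : T i ⊆ ⋃ i, T i := subset_iUnion T i
    change IsPreconnected (T i ∩ W')
    rcases (T i ∩ W').eq_empty_or_nonempty with h0 | ⟨x, hx⟩
    · rw [h0]; exact isPreconnected_empty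
    · have : T i ⊆ W' := by
        choose! u hu hxu hus using fun x (hx : x ∈ W') => mem_nhdsWithin.1 (ho x hx)
        choose! v hv hxv hvs using fun x (hx : x ∈ ⋃ i, T i) (hx' : x ∉ W') =>
          mem_nhdsWithin.1 (hc x hx hx')
        by_contra hn
        obtain ⟨y, hy, hy'⟩ := not_subset.1 hn
        obtain ⟨z, hz, hz1, hz2⟩ := hT i (⋃ x ∈ W', u x) (⋃ x ∈ (⋃ i, T i) \ W', v x)
          (isOpen_biUnion hu) (isOpen_biUnion fun x hx => hv x hx.1 hx.2)
          (fun w hw => by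
            by_cases hw' : w ∈ W'
            · exact .inl (mem_biUnion hw' (hxu w hw'))
            · exact .inr (mem_biUnion (show w ∈ (⋃ i, T i) \ W' from ⟨hsub hw, hw'⟩)
                (hxv w (hsub hw) hw')))
          ⟨x, hx.1, mem_biUnion hx.2 (hxu x hx.2)⟩
          ⟨y, hy, mem_biUnion (show y ∈ (⋃ i, T i) \ W' from ⟨hsub hy, hy'⟩)
            (hxv y (hsub hy) hy')⟩
        obtain ⟨a, ha, hza⟩ := mem_iUnion₂.1 hz1
        obtain ⟨b, hb, hzb⟩ := mem_iUnion₂.1 hz2
        exact hvs b hb.1 hb.2 ⟨hzb, hsub hz⟩ (hus a ha ⟨hza, hsub hz⟩)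
      rw [inter_eq_left.2 this]; exact hT i
  · rw [← iUnion_inter, inter_eq_right.2 hs]

theorem nconn_inter_of_subsingleton {N : ℕ} {W L : Set X} (h : NConn N W)
    (hs : ∀ C, IsPreconnected C → C ⊆ W → (C ∩ L).Subsingleton) : NConn N (W ∩ L) := by
  obtain ⟨T, hT, rfl⟩ := h
  exact ⟨fun i => T i ∩ L, fun i => (hs _ (hT i) (subset_iUnion T i)).isPreconnected,
    iUnion_inter _ _⟩

/-- connected components are relatively closed -/
theorem closure_component_inter {W : Set X} {x : X} (hx : x ∈ W) :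
    closure (connectedComponentIn W x) ∩ W = connectedComponentIn W x := by
  refine Subset.antisymm ?_ (subset_inter subset_closure (connectedComponentIn_subset _ _))
  have h1 : connectedComponentIn W x ⊆ closure (connectedComponentIn W x) ∩ W :=
    subset_inter subset_closure (connectedComponentIn_subset _ _)
  exact (isPreconnected_connectedComponentIn.subset_closure h1
    inter_subset_left).subset_connectedComponentIn (h1 (mem_connectedComponentIn hx))
    inter_subset_right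

/-- Only countably many members of a family have interior points, if every point of a dense set
lies in countably many members. -/
theorem countable_bad [SecondCountableTopology X] {P : Type} {G : Set X} (hG : Dense G)
    {B : P → Set X} (hB : ∀ x ∈ G, {t | x ∈ B t}.Countable) :
    {t | (interior (B t)).Nonempty}.Countable := by
  obtain ⟨Q, hQG, hQc, hQd⟩ := hG.exists_countable_dense_subset
  refine (hQc.biUnion fun x hx => hB x (hQG hx)).mono fun t ht => ?_
  obtain ⟨x, hx, hxQ⟩ := hQd.inter_open_nonempty _ isOpen_interior ht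
  exact mem_biUnion hxQ (show x ∈ B t from interior_subset hx)

end NConn

variable {α E E' β : Type}
  [NormedAddCommGroup α] [NormedSpace ℝ α] [FiniteDimensional ℝ α]
  [NormedAddCommGroup E] [NormedSpace ℝ E] [FiniteDimensional ℝ E]
  [NormedAddCommGroup E'] [NormedSpace ℝ E'] [FiniteDimensional ℝ E']
  [NormedAddCommGroup β] [NormedSpace ℝ β] [FiniteDimensional ℝ β] {S : OStr}

/-! ### Coordinates, the proper function, the moment curve -/

/-- linear coordinates -/
noncomputable def crd (E : Type) [NormedAddCommGroup E] [NormedSpace ℝ E] [FiniteDimensional ℝ E] :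
    E ≃L[ℝ] (Fin (finrank ℝ E) → ℝ) :=
  (Module.finBasis ℝ E).equivFun.toContinuousLinearEquiv

@[fun_prop]
theorem df_crd {f : α → E} (hf : DF S f) : DF S fun x => crd E (f x) :=
  (DF.clm (crd E : E →L[ℝ] (Fin (finrank ℝ E) → ℝ))).comp hf

/-- A definable nonnegative function, continuous on the open set `D a`, whose sublevel sets in
`D a` are closed in the ambient space. -/
theorem exists_kappa {D : α → Set E} (hD : DP S fun z : α × E => z.2 ∈ D z.1)
    (ho : ∀ a, IsOpen (D a)) :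
    ∃ κ : α → E → ℝ, (DF S fun z : α × E => κ z.1 z.2) ∧ (∀ a x, 0 ≤ κ a x) ∧
      (∀ a, ContinuousOn (κ a) (D a)) ∧ ∀ a c, IsClosed {x | x ∈ D a ∧ κ a x ≤ c} := by
  let δ : α → E → ℝ := fun a x => Metric.infDist (crd E x) (crd E '' (D a)ᶜ)
  have hδc : ∀ a, Continuous (δ a) := fun a =>
    (Metric.continuous_infDist_pt _).comp (crd E).continuous
  have hcl : ∀ a, IsClosed (crd E '' (D a)ᶜ) := fun a =>
    (crd E).toHomeomorph.isClosedMap _ (ho a).isClosed_compl
  have hpos : ∀ a x, ((D a)ᶜ).Nonempty → (x ∈ D a ↔ 0 < δ a x) := by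
    intro a x hne
    rw [← (hcl a).notMem_iff_infDist_pos (hne.image _), (crd E).injective.mem_set_image]
    simp
  have h0 : ∀ a x, (D a)ᶜ = ∅ → δ a x = 0 := fun a x h => by simp [δ, h]
  refine ⟨fun a x => (δ a x)⁻¹, ?_, fun a x => inv_nonneg.2 Metric.infDist_nonneg, fun a => ?_,
    fun a c => ?_⟩
  · refine DF.inv ?_
    have h1 : DF S fun z : α × E =>
        sInf {t | ∃ y, y ∉ D z.1 ∧ t = ‖crd E z.2 - crd E y‖} := by
      refine DF.sInf_fam (A := fun z : α × E => {t | ∃ y, y ∉ D z.1 ∧ t = ‖crd E z.2 - crd E y‖}) ?_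
      refine DP.ex (P := fun (w : (α × E) × ℝ) y => y ∉ D w.1.1 ∧ w.2 = ‖crd E w.1.2 - crd E y‖) ?_
      refine DP.and (DP.not ?_) (by fun_prop)
      exact hD.comp (g := fun w : ((α × E) × ℝ) × E => (w.1.1.1, w.2)) (by fun_prop)
    convert h1 using 2 with z
    simp only [δ, Metric.infDist_eq_iInf, iInf]
    congr 1
    ext t
    simp only [mem_range, Subtype.exists, mem_image, mem_compl_iff, mem_ofPred_eq, dist_eq_norm]
    constructor
    · rintro ⟨_, ⟨y, hy, rfl⟩, rfl⟩
      exact ⟨y, hy, rfl⟩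
    · rintro ⟨y, hy, rfl⟩
      exact ⟨_, ⟨y, hy, rfl⟩, rfl⟩
  · rcases ((D a)ᶜ).eq_empty_or_nonempty with he | hne
    · simp only [h0 a _ he]; exact continuousOn_const
    · exact (hδc a).continuousOn.inv₀ fun x hx => ((hpos a x hne).1 hx).ne'
  · rcases ((D a)ᶜ).eq_empty_or_nonempty with he | hne
    · have : D a = univ := compl_empty_iff.1 he
      simp only [h0 a _ he, this, mem_univ, true_and]
      exact isClosed_const
    · have : {x | x ∈ D a ∧ (δ a x)⁻¹ ≤ c} = {x | 1 ≤ c * δ a x} := by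
        ext x
        simp only [mem_ofPred_eq, hpos a x hne]
        constructor
        · rintro ⟨h1, h2⟩
          rwa [inv_le_iff_one_le_mul₀ h1] at h2
        · intro h
          have h1 : 0 < δ a x := by
            have h3 : 0 ≤ δ a x := Metric.infDist_nonneg
            rcases h3.eq_or_lt with h2 | h2
            · rw [← h2] at h; norm_num at h
            · exact h2
          exact ⟨h1, by rwa [inv_le_iff_one_le_mul₀ h1]⟩
      rw [this]
      exact isClosed_le continuous_const (continuous_const.mul (hδc a))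

/-- Euclidean squared distance from `x` to the point with parameter `t` of the moment curve -/
noncomputable def sqd (t : ℝ) (x : E) : ℝ := ∑ k, (crd E x k - t ^ (k.1 + 1)) ^ 2

theorem sqd_nonneg (t : ℝ) (x : E) : 0 ≤ sqd t x := Finset.sum_nonneg fun _ _ => sq_nonneg _

@[fun_prop]
theorem df_sqd {g : α → ℝ} {f : α → E} (hg : DF S g) (hf : DF S f) :
    DF S fun x => sqd (g x) (f x) := by
  unfold sqd
  refine DF.sum _ fun k _ => ?_
  have h1 : DF S fun x => crd E (f x) k := (DF.apply k).comp (df_crd hf)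
  fun_prop

theorem contDiff_sqd (t : ℝ) {n : WithTop ℕ∞} : ContDiff ℝ n (sqd t : E → ℝ) := by
  unfold sqd
  refine ContDiff.sum fun k _ => ContDiff.pow (ContDiff.sub ?_ contDiff_const) 2
  exact (contDiff_apply ℝ ℝ k).comp (crd E).contDiff

theorem continuous_sqd (t : ℝ) : Continuous (sqd t : E → ℝ) :=
  (contDiff_sqd t (n := 0)).continuous

theorem differentiable_sqd (t : ℝ) : Differentiable ℝ (sqd t : E → ℝ) :=
  (contDiff_sqd t (n := 1)).differentiable one_ne_zero

theorem isBounded_sqd (t c : ℝ) : Bornology.IsBounded {x : E | sqd t x ≤ c} := by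
  have h1 : Bornology.IsBounded (Metric.closedBall
      (fun k : Fin (finrank ℝ E) => t ^ (k.1 + 1)) (√c)) := Metric.isBounded_closedBall
  refine ((crd E).symm.lipschitz.isBounded_image h1).subset fun x hx => ?_
  refine ⟨crd E x, ?_, by simp⟩
  rw [Metric.mem_closedBall, dist_pi_le_iff (Real.sqrt_nonneg c)]
  intro k
  rw [Real.dist_eq]
  refine Real.abs_le_sqrt (le_trans ?_ hx)
  exact Finset.single_le_sum (f := fun k => (crd E x k - t ^ (k.1 + 1)) ^ 2)
    (fun _ _ => sq_nonneg _) (Finset.mem_univ k)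

theorem fderiv_sqd (t : ℝ) (x v : E) :
    fderiv ℝ (sqd t) x v = ∑ k, 2 * (crd E x k - t ^ (k.1 + 1)) * crd E v k := by
  have h : ∀ k : Fin (finrank ℝ E), HasFDerivAt (fun y : E => crd E y k - t ^ (k.1 + 1))
      ((ContinuousLinearMap.proj k).comp (crd E : E →L[ℝ] (Fin (finrank ℝ E) → ℝ))) x :=
    fun k => ((ContinuousLinearMap.proj k).comp
      (crd E : E →L[ℝ] (Fin (finrank ℝ E) → ℝ))).hasFDerivAt.sub_const _
  have h2 := HasFDerivAt.fun_sum (u := Finset.univ) fun k _ => (h k).pow 2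
  have h3 : fderiv ℝ (sqd t) x = _ := h2.fderiv
  rw [h3]
  simp

/-- For `v ≠ 0` the derivative of `sqd t` at `x` in direction `v` takes each value for finitely
many `t` only. -/
theorem finite_moment (x : E) {v : E} (hv : v ≠ 0) (c : ℝ) :
    {t | fderiv ℝ (sqd t) x v = c}.Finite := by
  classical
  let p : Polynomial ℝ := ∑ k : Fin (finrank ℝ E), Polynomial.monomial (k.1 + 1) (2 * crd E v k) +
    Polynomial.C (c - ∑ k, 2 * crd E x k * crd E v k)
  have hp : p ≠ 0 := by
    intro h0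
    apply hv
    apply (crd E).injective
    ext k
    have := congrArg (fun q : Polynomial ℝ => q.coeff (k.1 + 1)) h0
    simp only [p, Polynomial.coeff_add, Polynomial.finsetSum_coeff, Polynomial.coeff_monomial,
      Polynomial.coeff_C, add_left_inj, Fin.val_inj, Finset.sum_ite_eq', Finset.mem_univ,
      if_true, Nat.add_eq_zero_iff, one_ne_zero, and_false, if_false, add_zero,
      Polynomial.coeff_zero] at this
    simp only [map_zero, Pi.zero_apply]
    linarith
  refine (p.roots.toFinset.finite_toSet).subset fun t ht => ?_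
  simp only [Finset.mem_coe, Multiset.mem_toFinset, Polynomial.mem_roots hp, Polynomial.IsRoot.def]
  simp only [mem_ofPred_eq, fderiv_sqd] at ht
  simp only [p, Polynomial.eval_add, Polynomial.eval_finsetSum, Polynomial.eval_monomial,
    Polynomial.eval_C, ← ht]
  rw [← Finset.sum_sub_distrib, ← Finset.sum_add_distrib]
  exact Finset.sum_eq_zero fun k _ => by ring

/-! ### Leaves -/

theorem leaf_restrict {O D : Set E} {ω : E → E →L[ℝ] ℝ} {L : Set E} (h : IsLeaf O ω L)
    (hD : IsOpen D) (hs : D ⊆ O) : IsLeaf D ω (D ∩ L) := by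
  have := h.pullback hD (φ := id) contDiffOn_id hs
  simpa using this

theorem inter_iInter_inter {X ι : Type} (D : Set X) (L : ι → Set X) :
    D ∩ ⋂ i, (D ∩ L i) = D ∩ ⋂ i, L i := by
  ext x
  simp only [mem_inter_iff, mem_iInter]
  exact ⟨fun h => ⟨h.1, fun i => (h.2 i).2⟩, fun h => ⟨h.1, fun i => ⟨h.1, h.2 i⟩⟩⟩

/-- leaves are closed in `O` -/
theorem isClosed_inter_leaves {ι : Type} {O : Set E} {ω : ι → E → E →L[ℝ] ℝ} {L : ι → Set E}
    (hL : ∀ i, IsLeaf O (ω i) (L i)) {F : Set E} (hF : IsClosed F) (hFO : F ⊆ O) :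
    IsClosed (F ∩ ⋂ i, L i) := by
  have : F ∩ ⋂ i, L i = F ∩ ⋂ i, (O \ L i)ᶜ := by
    ext x
    simp only [mem_inter_iff, mem_iInter, mem_compl_iff, Set.mem_sdiff, not_and, not_not]
    exact ⟨fun h => ⟨h.1, fun i _ => h.2 i⟩, fun h => ⟨h.1, fun i => h.2 i (hFO h.1)⟩⟩
  rw [this]
  exact hF.inter (isClosed_iInter fun i => (hL i).isOpen_diff.isClosed_compl)

section Chart
variable {ι : Type} [Finite ι] {O : Set E} (hO : IsOpen O) {ω : ι → E → E →L[ℝ] ℝ}
  {L : ι → Set E} (hL : ∀ i, IsLeaf O (ω i) (L i)) (J : Set ι) {p : E} (hp : p ∈ O)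
  (hpL : ∀ i, p ∈ L i) (hind : LinearIndependent ℝ fun j : J => ω j p)
  (hspan : ∀ᶠ q in 𝓝 p, ∀ i, ω i q ∈ Submodule.span ℝ (range fun j : J => ω j q))
include hO hL hp hpL hind hspan

/-- `leaf_chart` with the common kernel made explicit -/
theorem chart : ∃ K : Submodule ℝ E, (∀ v, v ∈ K ↔ ∀ j ∈ J, ω j p v = 0) ∧
    ∃ σ : K → E, ContDiffAt ℝ 1 σ 0 ∧ σ 0 = p ∧ HasFDerivAt σ K.subtypeL 0 ∧
      map σ (𝓝 0) = 𝓝[⋂ i, L i] p ∧ map σ (𝓝 0) = 𝓝[⋂ j ∈ J, L j] p := by
  have hK : ∀ v, v ∈ (⨅ j ∈ J, LinearMap.ker (ω j p : E →ₗ[ℝ] ℝ)) ↔ ∀ j ∈ J, ω j p v = 0 := by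
    intro v
    simp [Submodule.mem_iInf]
  exact ⟨_, hK, leaf_chart hO hL J hp hpL hind hspan _ hK⟩

/-- the intersection of the leaves is locally connected -/
theorem component_mem_nhdsWithin :
    connectedComponentIn (O ∩ ⋂ i, L i) p ∈ 𝓝[⋂ i, L i] p := by
  obtain ⟨K, -, σ, hσ, h0, -, hm, -⟩ := chart hO hL J hp hpL hind hspan
  have h1 : ∀ᶠ k in 𝓝 (0 : K), σ k ∈ O ∩ ⋂ i, L i := by
    have : O ∩ ⋂ i, L i ∈ map σ (𝓝 0) := by
      rw [hm]
      exact inter_mem (mem_nhdsWithin_of_mem_nhds (hO.mem_nhds hp)) self_mem_nhdsWithin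
    exact this
  have h2 : ∀ᶠ k in 𝓝 (0 : K), ContDiffAt ℝ 1 σ k := hσ.eventually (by simp)
  obtain ⟨ε, hε, hb⟩ := Metric.eventually_nhds_iff_ball.1 (h1.and h2)
  have h3 : IsPreconnected (σ '' Metric.ball 0 ε) :=
    (convex_ball (0 : K) ε).isPreconnected.image σ fun k hk =>
      (hb k hk).2.continuousAt.continuousWithinAt
  rw [← hm]
  refine mem_of_superset (image_mem_map (Metric.ball_mem_nhds 0 hε)) ?_
  refine h3.subset_connectedComponentIn ⟨0, Metric.mem_ball_self hε, h0⟩ ?_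
  rintro _ ⟨k, hk, rfl⟩
  exact (hb k hk).1

/-- Lagrange multipliers on an intersection of leaves -/
theorem lagrange {μ : E → ℝ} (hmin : IsLocalMinOn μ (⋂ i, L i) p) (hd : DifferentiableAt ℝ μ p)
    {v : E} (hv : ∀ j ∈ J, ω j p v = 0) : fderiv ℝ μ p v = 0 := by
  obtain ⟨K, hK, σ, -, h0, hσ, hm, -⟩ := chart hO hL J hp hpL hind hspan
  have h1 : IsLocalMin (μ ∘ σ) 0 := by
    have : ∀ᶠ q in map σ (𝓝 0), μ p ≤ μ q := by rw [hm]; exact hmin
    refine (eventually_map.1 this).mono fun k hk => ?_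
    simpa [h0] using hk
  have h2 : HasFDerivAt (μ ∘ σ) ((fderiv ℝ μ p).comp K.subtypeL) 0 :=
    HasFDerivAt.comp 0 (by rw [h0]; exact hd.hasFDerivAt) hσ
  have h3 := h1.hasFDerivAt_eq_zero h2
  simpa using congrArg (fun T : K →L[ℝ] ℝ => T ⟨v, (hK v).2 hv⟩) h3

/-- near `p` the leaves with index in `J` cut out the whole intersection -/
theorem iInter_mem_nhdsWithin : (⋂ i, L i) ∈ 𝓝[⋂ j ∈ J, L j] p := by
  obtain ⟨K, -, σ, -, -, -, hm, hm'⟩ := chart hO hL J hp hpL hind hspan
  rw [← hm', hm]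
  exact self_mem_nhdsWithin

end Chart

/-- A function with compact sublevel sets in `O` has a minimum on each connected component of
an intersection of leaves. -/
theorem exists_min_component {ι : Type} {O : Set E} {ω : ι → E → E →L[ℝ] ℝ} {L : ι → Set E}
    (hL : ∀ i, IsLeaf O (ω i) (L i)) {μ : E → ℝ} (hμ : ContinuousOn μ O)
    (hc : ∀ c, IsCompact {x | x ∈ O ∧ μ x ≤ c}) {x : E} (hx : x ∈ O ∩ ⋂ i, L i) :
    ∃ p ∈ connectedComponentIn (O ∩ ⋂ i, L i) x,
      IsMinOn μ (connectedComponentIn (O ∩ ⋂ i, L i) x) p := by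
  set C := connectedComponentIn (O ∩ ⋂ i, L i) x
  have hxC : x ∈ C := mem_connectedComponentIn hx
  have hC : closure C ∩ (O ∩ ⋂ i, L i) = C := closure_component_inter hx
  have hk : IsCompact (closure C ∩ ({y | y ∈ O ∧ μ y ≤ μ x} ∩ ⋂ i, L i)) :=
    (hc (μ x)).of_isClosed_subset (isClosed_closure.inter
      (isClosed_inter_leaves hL (hc _).isClosed fun y hy => hy.1)) fun y hy => hy.2.1
  obtain ⟨p, hp, hmin⟩ := hk.exists_isMinOn ⟨x, subset_closure hxC, ⟨hx.1, le_rfl⟩, hx.2⟩
    (hμ.mono fun y hy => hy.2.1.1)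
  refine ⟨p, hC ▸ ⟨hp.1, hp.2.1.1, hp.2.2⟩, fun y hy => ?_⟩
  have hy' : y ∈ O ∩ ⋂ i, L i := connectedComponentIn_subset _ _ hy
  rcases le_total (μ y) (μ x) with h | h
  · exact hmin ⟨subset_closure hy, ⟨hy'.1, h⟩, hy'.2⟩
  · exact le_trans hp.2.1.2 h

/-- sublevel sets of `sqd t + κ` -/
theorem isCompact_sublevel {D : Set E} {κ : E → ℝ} (h0 : ∀ x, 0 ≤ κ x)
    (hcl : ∀ c, IsClosed {x | x ∈ D ∧ κ x ≤ c}) {g : E → ℝ} (hg : ContinuousOn g D)
    (t : ℝ) {η : ℝ} (hη : 0 < η) (hle : ∀ x ∈ D, η * (sqd t x + κ x) ≤ g x) (c : ℝ) :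
    IsCompact {x | x ∈ D ∧ g x ≤ c} := by
  have h1 : ∀ x ∈ D, g x ≤ c → sqd t x + κ x ≤ c / η := fun x hx h => by
    rw [le_div_iff₀ hη, mul_comm]; exact (hle x hx).trans h
  refine Metric.isCompact_of_isClosed_isBounded ?_ ((isBounded_sqd t (c / η)).subset
    fun x hx => ?_)
  · have : {x | x ∈ D ∧ g x ≤ c} = {x | x ∈ D ∧ κ x ≤ c / η} ∩ g ⁻¹' Iic c := by
      ext x
      refine ⟨fun h => ⟨⟨h.1, ?_⟩, h.2⟩, fun h => ⟨h.1.1, h.2⟩⟩
      have := h1 x h.1 h.2
      have := sqd_nonneg t x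
      linarith
    rw [this]
    exact (hg.mono fun x hx => hx.1).preimage_isClosed_of_isClosed (hcl _) isClosed_Iic
  · have := h1 x hx.1 hx.2
    have := h0 x
    change sqd t x ≤ c / η
    linarith

/-! ### Linear algebra of the forms -/

theorem dp_linInd {ι : Type} [Finite ι] {w : ι → α → β} (h : ∀ i, DF S (w i)) :
    DP S fun x => LinearIndependent ℝ fun i => w i x := by
  cases nonempty_fintype ι
  refine DP.congr (P := fun x => ∀ c : ι → ℝ, ∑ i, c i • w i x = 0 → c = 0) ?_ fun x => ?_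
  · refine DP.all (P := fun x (c : ι → ℝ) => ∑ i, c i • w i x = 0 → c = 0)
      (DP.imp (DP.eq (DF.sum _ fun i _ => ?_) (by fun_prop)) (by fun_prop))
    exact DF.smul ((DF.apply i).comp (by fun_prop)) ((h i).comp (by fun_prop))
  · rw [Fintype.linearIndependent_iff]
    simp only [funext_iff, Pi.zero_apply]

theorem dp_mem_span {ι : Type} [Finite ι] {w : ι → α → β} (h : ∀ i, DF S (w i)) {u : α → β}
    (hu : DF S u) : DP S fun x => u x ∈ Submodule.span ℝ (range fun i => w i x) := by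
  cases nonempty_fintype ι
  refine DP.congr (P := fun x => ∃ c : ι → ℝ, ∑ i, c i • w i x = u x) ?_ fun x =>
    Submodule.mem_span_range_iff_exists_fun ℝ
  refine DP.ex (P := fun x (c : ι → ℝ) => ∑ i, c i • w i x = u x)
    (DP.eq (DF.sum _ fun i _ => ?_) (hu.comp (by fun_prop)))
  exact DF.smul ((DF.apply i).comp (by fun_prop)) ((h i).comp (by fun_prop))

omit [FiniteDimensional ℝ β] in
theorem exists_basis_subset {ι : Type} (w : ι → β) : ∃ J : Set ι,
    (LinearIndependent ℝ fun j : J => w j) ∧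
      ∀ i, w i ∈ Submodule.span ℝ (range fun j : J => w j) := by
  obtain ⟨J, -, -, h1, h2⟩ := exists_linearIndepOn_extension (K := ℝ) (v := w)
    (linearIndepOn_empty ℝ w) (empty_subset univ)
  refine ⟨J, h2, fun i => ?_⟩
  have := h1 (mem_image_of_mem w (mem_univ i))
  rwa [image_eq_range] at this

theorem finrank_forms : finrank ℝ (E →L[ℝ] ℝ) = finrank ℝ E := by
  rw [← (LinearMap.toContinuousLinearMap : (E →ₗ[ℝ] ℝ) ≃ₗ[ℝ] E →L[ℝ] ℝ).finrank_eq]
  exact Subspace.dual_finrank_eq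

theorem exists_ker_of_card_lt {ι : Type} [Finite ι] (w : ι → E →L[ℝ] ℝ)
    (h : Nat.card ι < finrank ℝ E) : ∃ v, v ≠ 0 ∧ ∀ i, w i v = 0 := by
  cases nonempty_fintype ι
  have : LinearMap.ker (LinearMap.pi fun i => (w i : E →ₗ[ℝ] ℝ)) ≠ ⊥ :=
    LinearMap.ker_ne_bot_of_finrank_lt (by simpa using h)
  obtain ⟨v, hv, hv0⟩ := Submodule.exists_mem_ne_zero_of_ne_bot this
  exact ⟨v, hv0, fun i => congrFun (LinearMap.mem_ker.1 hv) i⟩

theorem card_le_of_linInd {ι : Type} [Finite ι] {w : ι → E →L[ℝ] ℝ}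
    (h : LinearIndependent ℝ w) : Nat.card ι ≤ finrank ℝ E := by
  cases nonempty_fintype ι
  rw [← finrank_forms, Nat.card_eq_fintype_card]
  exact h.fintype_card_le_finrank

theorem eq_zero_of_card_eq {ι : Type} [Finite ι] {w : ι → E →L[ℝ] ℝ}
    (h : LinearIndependent ℝ w) (hc : Nat.card ι = finrank ℝ E) {v : E} (hv : ∀ i, w i v = 0) :
    v = 0 := by
  cases nonempty_fintype ι
  have htop := h.span_eq_top_of_card_eq_finrank' (by
    rw [finrank_forms, ← hc, Nat.card_eq_fintype_card])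
  apply (crd E).injective
  ext k
  obtain ⟨c, hc⟩ := (Submodule.mem_span_range_iff_exists_fun ℝ).1 (htop ▸ Submodule.mem_top :
    (ContinuousLinearMap.proj k).comp (crd E : E →L[ℝ] (Fin (finrank ℝ E) → ℝ)) ∈
      Submodule.span ℝ (range w))
  have := congrArg (fun T : E →L[ℝ] ℝ => T v) hc
  simpa [hv] using this.symm

omit [FiniteDimensional ℝ E] in
theorem exists_dual_vector {ι : Type} [Finite ι] {w : ι → E →L[ℝ] ℝ}
    (h : LinearIndependent ℝ w) (i₀ : ι) : ∃ v, (∀ i, i ≠ i₀ → w i v = 0) ∧ 0 < w i₀ v := by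
  have h' : LinearIndependent ℝ fun i => (w i : E →ₗ[ℝ] ℝ) :=
    h.map' (ContinuousLinearMap.coeLM ℝ) (LinearMap.ker_eq_bot.2 ContinuousLinearMap.coe_injective)
  have h1 : ∃ v, (∀ i, i ≠ i₀ → w i v = 0) ∧ w i₀ v ≠ 0 := by
    by_contra hn
    push Not at hn
    have := mem_span_of_iInf_ker_le_ker (L := fun i : {i // i ≠ i₀} => (w i : E →ₗ[ℝ] ℝ))
      (K := (w i₀ : E →ₗ[ℝ] ℝ)) fun v hv => hn v fun i hi => by
        simpa using (Submodule.mem_iInf _).1 hv ⟨i, hi⟩
    refine h'.notMem_span_image (s := {i | i ≠ i₀}) (x := i₀) (by simp) ?_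
    rwa [image_eq_range]
  obtain ⟨v, hv, hv0⟩ := h1
  refine ⟨w i₀ v • v, fun i hi => by simp [hv i hi], ?_⟩
  simpa using mul_self_pos.2 hv0

/-! ### Generic critical sets -/

/-- points of `D` that are critical for `μ` along the directions `K`, or where `μ` is not
differentiable -/
def Crit (D : Set E) (K : E → E → Prop) (μ : E → ℝ) : Set E :=
  {x | x ∈ D ∧ (DifferentiableAt ℝ μ x → ∀ v, K x v → fderiv ℝ μ x v = 0)}

theorem dp_crit {D : α → Set E} (hD : DP S fun z : α × E => z.2 ∈ D z.1) {K : α → E → E → Prop}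
    (hK : DP S fun z : (α × E) × E => K z.1.1 z.1.2 z.2) {μ : α → E → ℝ}
    (hμ : DF S fun z : α × E => μ z.1 z.2) :
    DP S fun z : α × E => z.2 ∈ Crit (D z.1) (K z.1) (μ z.1) := by
  have hμ' : DF S fun z : (α × E) × E => μ z.1.1 z.2 :=
    hμ.comp (g := fun z : (α × E) × E => (z.1.1, z.2)) (by fun_prop)
  refine hD.and (DP.imp (DP.diffAt (f := fun z : α × E => μ z.1) hμ' (by fun_prop)) ?_)
  refine DP.all (P := fun (z : α × E) v => K z.1 z.2 v → fderiv ℝ (μ z.1) z.2 v = 0)
    (hK.imp (DP.eq (DF.clm_apply ?_ (by fun_prop)) (by fun_prop)))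
  exact (DF.fderiv_fam (f := fun z : α × E => μ z.1) hμ' (g := fun z => z.2) (by fun_prop)).comp
    (g := fun z : (α × E) × E => z.1) (by fun_prop)

/-- For all but countably many points of the moment curve the critical set has empty interior. -/
theorem countable_crit {D G : Set E} (hG : Dense G) {g : E → ℝ}
    (hg : ∀ x ∈ G, x ∈ D → DifferentiableAt ℝ g x) {K : E → E → Prop}
    (hK : ∀ x ∈ D, ∃ v, v ≠ 0 ∧ K x v) {η : ℝ} (hη : η ≠ 0) :
    {t | (interior (Crit D K fun y => g y + η * sqd t y)).Nonempty}.Countable := by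
  refine countable_bad hG fun x hx => ?_
  by_cases hxD : x ∈ D
  · obtain ⟨v, hv, hKv⟩ := hK x hxD
    refine ((finite_moment x hv (-(fderiv ℝ g x v) / η)).subset fun t ht => ?_).countable
    have h1 : HasFDerivAt (fun y => g y + η * sqd t y)
        (fderiv ℝ g x + η • fderiv ℝ (sqd t) x) x :=
      (hg x hx hxD).hasFDerivAt.add ((differentiable_sqd t x).hasFDerivAt.const_mul η)
    have h2 := ht.2 h1.differentiableAt v hKv
    rw [h1.fderiv] at h2
    simp only [add_apply, smul_apply, smul_eq_mul] at h2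
    simp only [mem_ofPred_eq]
    field_simp
    linarith
  · convert countable_empty
    exact eq_empty_of_forall_notMem fun t ht => hxD ht.1

theorem dense_diff {f : E → β} (hf : DF S f) : Dense {x | DifferentiableAt ℝ f x} := by
  have := interior_eq_empty_iff_dense_compl.1 hf.generic_diff
  simpa [compl_ofPred] using this

theorem exists_not_mem_of_countable {B : Set ℝ} (h : B.Countable) : ∃ t, t ∉ B := by
  by_contra hn
  push Not at hn
  exact Cardinal.not_countable_real (by rwa [eq_univ_of_forall hn] at h)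

/-! ### The induction -/

/-- the conclusion of the Khovanskii bound -/
def Kh {ι : Type} (A O : α → Set E) (ω : ι → α → E → E →L[ℝ] ℝ) : Prop :=
  ∃ N : ℕ, ∀ (a : α) (L : ι → Set E),
    (∀ i, IsLeaf (O a) (ω i a) (L i)) → NConn N (A a ∩ ⋂ i, L i)

def KhAll (S : OStr) (E : Type) [NormedAddCommGroup E] [NormedSpace ℝ E]
    [FiniteDimensional ℝ E] : Prop :=
  ∀ (α : Type) [NormedAddCommGroup α] [NormedSpace ℝ α] [FiniteDimensional ℝ α] (ι : Type)
    [Finite ι] (A O : α → Set E) (ω : ι → α → E → E →L[ℝ] ℝ), PfData S A O ω → Kh A O ω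

def KhThin (S : OStr) (E : Type) [NormedAddCommGroup E] [NormedSpace ℝ E]
    [FiniteDimensional ℝ E] : Prop :=
  ∀ (α : Type) [NormedAddCommGroup α] [NormedSpace ℝ α] [FiniteDimensional ℝ α] (ι : Type)
    [Finite ι] (A O : α → Set E) (ω : ι → α → E → E →L[ℝ] ℝ), PfData S A O ω →
      (∀ a, interior (A a) = ∅) → Kh A O ω

/-- pull back of the data along a definable family of C1 maps -/
theorem pfData_pullback {ι : Type} {A O : α → Set E} {ω : ι → α → E → E →L[ℝ] ℝ}
    (h : PfData S A O ω) {D : α → Set E'} (hD : DP S fun z : α × E' => z.2 ∈ D z.1)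
    {φ : α → E' → E} (hφ : DF S fun z : α × E' => φ z.1 z.2) (ho : ∀ a, IsOpen (D a))
    (hc : ∀ a, ContDiffOn ℝ 1 (φ a) (D a)) (hm : ∀ a, MapsTo (φ a) (D a) (O a)) :
    PfData S D D fun i a q => (ω i a (φ a q)).comp (fderiv ℝ (φ a) q) where
  dA := hD
  dO := hD
  dω i := by
    refine DF.clm_comp ((h.dω i).comp (g := fun z : α × E' => (z.1, φ z.1 z.2)) (by fun_prop)) ?_
    exact DF.fderiv_fam (f := fun z : α × E' => φ z.1)
      (hφ.comp (g := fun z : (α × E') × E' => (z.1.1, z.2)) (by fun_prop)) (by fun_prop)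
  openO := ho
  sub _ := Subset.rfl
  cont i a := ((h.cont i a).comp (hc a).continuousOn (hm a)).clm_comp
    ((hc a).continuousOn_fderiv_of_isOpen (ho a) le_rfl)

theorem thin_of_ih (ih : ∀ m < finrank ℝ E, KhAll S (Fin m → ℝ)) : KhThin S E := by
  intro α _ _ _ ι _ A O ω h he
  obtain ⟨N, d, D, φ, hj, hA⟩ := h.dA.param he
  have hm : ∀ j a, MapsTo (φ j a) (D j a) (O a) := fun j a q hq =>
    h.sub a (by rw [hA a]; exact mem_iUnion.2 ⟨j, mem_image_of_mem _ hq⟩)
  have := fun j => ih (d j) (hj j).1 α ι _ _ _ (pfData_pullback h (hj j).2.1 (hj j).2.2.1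
    (fun a => ((hj j).2.2.2 a).1) (fun a => ((hj j).2.2.2 a).2) (hm j))
  choose M hM using this
  refine ⟨∑ j, M j, fun a L hL => ?_⟩
  have h1 := fun j => nconn_image (hM j a (fun i => D j a ∩ φ j a ⁻¹' L i) fun i =>
    (hL i).pullback ((hj j).2.2.2 a).1 ((hj j).2.2.2 a).2 (hm j a))
    (((hj j).2.2.2 a).2.continuousOn.mono inter_subset_left)
  convert nconn_iUnion h1 using 1
  rw [hA a, iUnion_inter]
  refine iUnion_congr fun j => ?_
  rw [inter_iInter_inter, ← preimage_iInter, image_inter_preimage]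

/-- a definable family is a finite union of open pieces on which one of finitely many definable
conditions holds, and a remainder with empty interior -/
theorem interior_remainder {A : α → Set E} (hA : DP S fun z : α × E => z.2 ∈ A z.1) {κ : Type}
    [Finite κ] {P : κ → α → E → Prop} (hP : ∀ k, DP S fun z : α × E => P k z.1 z.2)
    (hc : ∀ a, ∀ x ∈ A a, ∃ k, P k a x) (a : α) :
    interior (A a \ ⋃ k, interior {x | x ∈ A a ∧ P k a x}) = ∅ := by
  by_contra hne
  obtain ⟨k, x, hx⟩ := DP.baire (S := S) (s := fun k => {x | x ∈ A a ∧ P k a x})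
    (fun k => (hA.and (hP k)).comp (g := fun x : E => (a, x)) (by fun_prop)) isOpen_interior
    (nonempty_iff_ne_empty.2 hne) fun x hx => by
      have := (interior_subset hx).1
      obtain ⟨k, hk⟩ := hc a x this
      exact mem_iUnion.2 ⟨k, this, hk⟩
  exact (interior_subset (interior_subset hx).2).2
    (mem_iUnion.2 ⟨k, interior_mono inter_subset_left hx⟩)

theorem split (hT : KhThin S E) {ι : Type} [Finite ι] {A O : α → Set E}
    {ω : ι → α → E → E →L[ℝ] ℝ} (h : PfData S A O ω) {κ : Type} [Finite κ]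
    {P : κ → α → E → Prop} (hP : ∀ k, DP S fun z : α × E => P k z.1 z.2)
    (hc : ∀ a, ∀ x ∈ A a, ∃ k, P k a x)
    (H : ∀ k (D : α → Set E), PfData S D D ω → (∀ a, ∀ x ∈ D a, x ∈ A a ∧ P k a x) →
      Kh D D ω) : Kh A O ω := by
  cases nonempty_fintype κ
  let D : κ → α → Set E := fun k a => interior {x | x ∈ A a ∧ P k a x}
  have hD : ∀ k, DP S fun z : α × E => z.2 ∈ D k z.1 := fun k =>
    DP.mem_interior (A := fun a => {x | x ∈ A a ∧ P k a x}) (h.dA.and (hP k))
  have hDA : ∀ k a, D k a ⊆ A a := fun k a x hx => (interior_subset hx).1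
  have h1 := fun k => H k (D k) ⟨hD k, hD k, h.dω, fun _ => isOpen_interior, fun _ => Subset.rfl,
    fun i a => (h.cont i a).mono ((hDA k a).trans (h.sub a))⟩ fun a x hx =>
      (interior_subset (s := {x | x ∈ A a ∧ P k a x}) hx)
  choose M hM using h1
  obtain ⟨N, hN⟩ := hT α ι (fun a => A a \ ⋃ k, D k a) O ω
    ⟨(h.dA.and (DP.fin_or hD).not).congr fun z => by simp, h.dO, h.dω, h.openO,
      fun a => sdiff_subset.trans (h.sub a), h.cont⟩ (interior_remainder h.dA hP hc)
  refine ⟨N + ∑ k, M k, fun a L hL => ?_⟩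
  have h2 := fun k => hM k a (fun i => D k a ∩ L i) fun i =>
    leaf_restrict (hL i) isOpen_interior ((hDA k a).trans (h.sub a))
  convert nconn_union (hN a L hL) (nconn_iUnion h2) using 1
  simp only [inter_iInter_inter]
  rw [← iUnion_inter, ← union_inter_distrib_right,
    sdiff_union_of_subset (iUnion_subset fun k => hDA k a)]

/-- fewer independent forms than the dimension -/
theorem kh_lt (hT : KhThin S E) {ι : Type} [Finite ι] {D : α → Set E}
    {ω : ι → α → E → E →L[ℝ] ℝ} (h : PfData S D D ω)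
    (hind : ∀ a, ∀ x ∈ D a, LinearIndependent ℝ fun i => ω i a x)
    (hc : Nat.card ι < finrank ℝ E) : Kh D D ω := by
  obtain ⟨κ, hκ, hκ0, hκc, hκs⟩ := exists_kappa h.dA h.openO
  let μ : α × ℝ → E → ℝ := fun z y => κ z.1 y + 1 * sqd z.2 y
  have hμ : DF S fun w : (α × ℝ) × E => μ w.1 w.2 :=
    (hκ.comp (g := fun w : (α × ℝ) × E => (w.1.1, w.2)) (by fun_prop)).add (by fun_prop)
  let B : α × ℝ → Set E := fun z => Crit (D z.1) (fun x v => ∀ i, ω i z.1 x v = 0) (μ z)
  have hD : DP S fun w : (α × ℝ) × E => w.2 ∈ D w.1.1 :=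
    h.dA.comp (g := fun w : (α × ℝ) × E => (w.1.1, w.2)) (by fun_prop)
  have hω : ∀ i, DF S fun w : (α × ℝ) × E => ω i w.1.1 w.2 := fun i =>
    (h.dω i).comp (g := fun w : (α × ℝ) × E => (w.1.1, w.2)) (by fun_prop)
  have hB : DP S fun w : (α × ℝ) × E => w.2 ∈ B w.1 := by
    refine dp_crit (D := fun z : α × ℝ => D z.1) hD (K := fun z x v => ∀ i, ω i z.1 x v = 0)
      (DP.fin_and fun i => ?_) hμ
    exact DP.eq (DF.clm_apply ((hω i).comp (g := fun w : ((α × ℝ) × E) × E => w.1) (by fun_prop))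
      (by fun_prop)) (by fun_prop)
  have hB' : DP S fun z : α × ℝ => ∀ y, y ∉ interior (B z) :=
    DP.all (P := fun z y => y ∉ interior (B z)) (DP.mem_interior hB).not
  obtain ⟨N, hN⟩ := hT (α × ℝ) ι (fun z => {x | x ∈ B z ∧ ∀ y, y ∉ interior (B z)})
    (fun z => D z.1) (fun i z => ω i z.1)
    ⟨hB.and (hB'.comp (g := fun w : (α × ℝ) × E => w.1) (by fun_prop)), hD, hω,
      fun z => h.openO _, fun z x hx => hx.1.1, fun i z => h.cont i _⟩ fun z => by
      refine eq_empty_of_forall_notMem fun x hx => ?_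
      exact (interior_subset hx).2 x (interior_mono (fun y hy => hy.1) hx)
  refine ⟨N, fun a L hL => ?_⟩
  obtain ⟨t, ht⟩ := exists_not_mem_of_countable (countable_crit (D := D a)
    (dense_diff (hκ.comp (g := fun x : E => (a, x)) (by fun_prop))) (g := κ a)
    (fun x hx _ => hx) (K := fun x v => ∀ i, ω i a x v = 0)
    (fun x _ => exists_ker_of_card_lt _ hc) one_ne_zero)
  refine nconn_of_meets (hN (a, t) L hL) (inter_subset_inter_left _ fun x hx => hx.1.1)
    fun x hx => ?_
  have hμc : ContinuousOn (μ (a, t)) (D a) :=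
    (hκc a).add (continuous_const.mul (continuous_sqd t)).continuousOn
  obtain ⟨p, hp, hmin⟩ := exists_min_component hL hμc
    (isCompact_sublevel (hκ0 a) (hκs a) hμc t one_pos fun y _ => by simp [μ, add_comm]) hx
  have hpW : p ∈ D a ∩ ⋂ i, L i := connectedComponentIn_subset _ _ hp
  have hi : LinearIndependent ℝ fun j : (univ : Set ι) => ω j a p :=
    (hind a p hpW.1).comp _ Subtype.val_injective
  have hs : ∀ᶠ q in 𝓝 p, ∀ i, ω i a q ∈
      Submodule.span ℝ (range fun j : (univ : Set ι) => ω j a q) :=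
    .of_forall fun q i => Submodule.subset_span ⟨⟨i, trivial⟩, rfl⟩
  refine ⟨p, hp, ⟨⟨hpW.1, fun hd v hv => ?_⟩, fun y hy => ht ⟨y, hy⟩⟩, hpW.2⟩
  refine lagrange (h.openO a) hL univ hpW.1 (mem_iInter.1 hpW.2) hi hs ?_ hd fun j _ => hv j
  have := component_mem_nhdsWithin (h.openO a) hL univ hpW.1 (mem_iInter.1 hpW.2) hi hs
  rw [← connectedComponentIn_eq hp] at this
  exact Filter.mem_of_superset this hmin

theorem pfData_comp {ι ι' : Type} {A O : α → Set E} {ω : ι → α → E → E →L[ℝ] ℝ}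
    (h : PfData S A O ω) (f : ι' → ι) : PfData S A O fun j => ω (f j) :=
  ⟨h.dA, h.dO, fun j => h.dω (f j), h.openO, h.sub, fun j => h.cont (f j)⟩

/-- as many independent forms as the dimension -/
theorem kh_eq (hT : KhThin S E) {ι : Type} [Finite ι] {D : α → Set E}
    {ω : ι → α → E → E →L[ℝ] ℝ} (h : PfData S D D ω)
    (hind : ∀ a, ∀ x ∈ D a, LinearIndependent ℝ fun i => ω i a x)
    (hc : Nat.card ι = finrank ℝ E) (i₀ : ι) : Kh D D ω := by
  classical
  let ℓ : Fin (finrank ℝ E) × Bool → E →L[ℝ] ℝ := fun k => (if k.2 then (1 : ℝ) else -1) •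
    (ContinuousLinearMap.proj k.1).comp (crd E : E →L[ℝ] (Fin (finrank ℝ E) → ℝ))
  refine split hT h (κ := Fin (finrank ℝ E) × Bool) (P := fun k a x =>
    ∃ v, (∀ i, i ≠ i₀ → ω i a x v = 0) ∧ 0 < ℓ k v ∧ 0 < ω i₀ a x v) (fun k => ?_)
    (fun a x hx => ?_) fun k D' h' hD' => ?_
  · have h1 : ∀ i, DF S fun w : (α × E) × E => ω i w.1.1 w.1.2 w.2 := fun i =>
      DF.clm_apply ((h.dω i).comp (g := fun w : (α × E) × E => w.1) (by fun_prop)) (by fun_prop)
    refine DP.ex (P := fun (z : α × E) v =>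
      (∀ i, i ≠ i₀ → ω i z.1 z.2 v = 0) ∧ 0 < ℓ k v ∧ 0 < ω i₀ z.1 z.2 v) ?_
    refine DP.and (DP.fin_and fun i => (DP.const _).imp (DP.eq (h1 i) (by fun_prop)))
      (DP.and (DP.lt (by fun_prop) ((DF.clm (ℓ k)).comp (by fun_prop)))
        (DP.lt (by fun_prop) (h1 i₀)))
  · obtain ⟨v, hv, hv0⟩ := exists_dual_vector (hind a x hx) i₀
    have hne : crd E v ≠ 0 := by
      intro h0
      rw [(crd E).map_eq_zero_iff.1 h0] at hv0
      simp at hv0
    obtain ⟨k, hk⟩ := Function.ne_iff.1 hne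
    rcases lt_or_gt_of_ne hk with hk | hk
    · exact ⟨(k, false), v, hv, by simpa [ℓ] using hk, hv0⟩
    · exact ⟨(k, true), v, hv, by simpa [ℓ] using hk, hv0⟩
  · have hi' : ∀ a, ∀ x ∈ D' a, LinearIndependent ℝ fun i : {i // i ≠ i₀} => ω i a x :=
      fun a x hx => (hind a x (hD' a x hx).1).comp _ Subtype.val_injective
    obtain ⟨N, hN⟩ := kh_lt hT (pfData_comp h' fun i : {i // i ≠ i₀} => i.1) hi' (by
      rw [← hc]
      exact Finite.card_subtype_lt (x := i₀) (by simp))
    refine ⟨N, fun a L hL => ?_⟩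
    choose! v hv using fun x (hx : x ∈ D' a) => (hD' a x hx).2
    have h1 := nconn_inter_of_subsingleton (L := L i₀) (hN a (fun i => L i) fun i => hL i)
      fun C hC hCW => leaf_once (h'.openO a) (fun i : {i // i ≠ i₀} => hL i) (hL i₀) (hi' a)
        (v := v) (ℓ := ℓ k) (fun q hq => ⟨fun u => ⟨fun hu => ?_, ?_⟩, (hv q hq).2⟩) hC hCW
    · convert h1 using 1
      ext x
      simp only [mem_inter_iff, mem_iInter, Subtype.forall]
      refine ⟨fun hx => ⟨⟨hx.1, fun i _ => hx.2 i⟩, hx.2 i₀⟩, fun hx => ⟨hx.1.1, fun i => ?_⟩⟩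
      by_cases hi : i = i₀
      · rw [hi]; exact hx.2
      · exact hx.1.2 i hi
    · refine ⟨ω i₀ a q u / ω i₀ a q (v q), sub_eq_zero.1 ?_⟩
      refine eq_zero_of_card_eq (hind a q (hD' a q hq).1) hc fun i => ?_
      by_cases hi : i = i₀
      · have := (hv q hq).2.2.ne'
        simp only [hi, map_sub, map_smul, smul_eq_mul]
        field_simp
        ring
      · simp [hu ⟨i, hi⟩, (hv q hq).1 i hi]
    · rintro ⟨c, rfl⟩ i
      simp [(hv q hq).1 i i.2]

theorem kh_ind (hT : KhThin S E) {ι : Type} [Finite ι] {D : α → Set E}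
    {ω : ι → α → E → E →L[ℝ] ℝ} (h : PfData S D D ω)
    (hind : ∀ a, ∀ x ∈ D a, LinearIndependent ℝ fun i => ω i a x) : Kh D D ω := by
  rcases lt_trichotomy (Nat.card ι) (finrank ℝ E) with hc | hc | hc
  · exact kh_lt hT h hind hc
  · rcases isEmpty_or_nonempty ι with hι | ⟨⟨i₀⟩⟩
    · have : Subsingleton E := Module.finrank_zero_iff.1 (by rw [← hc]; simp)
      exact ⟨1, fun a L _ => nconn_one (subsingleton_of_subsingleton.isPreconnected)⟩
    · exact kh_eq hT h hind hc i₀
  · refine ⟨1, fun a L _ => nconn_one (Set.Subsingleton.isPreconnected fun x hx => ?_)⟩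
    exact absurd (card_le_of_linInd (hind a x hx.1)) hc.not_ge

theorem all_of_thin (hT : KhThin S E) : KhAll S E := by
  intro α _ _ _ ι _ A O ω h
  refine split hT h (κ := Set ι) (P := fun J a x => (LinearIndependent ℝ fun j : J => ω j a x) ∧
    ∀ i, ω i a x ∈ Submodule.span ℝ (range fun j : J => ω j a x)) (fun J => ?_)
    (fun a x _ => exists_basis_subset fun i => ω i a x) fun J D h' hD => ?_
  · exact (dp_linInd fun j : J => h.dω j).and
      (DP.fin_and fun i => dp_mem_span (fun j : J => h.dω j) (h.dω i))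
  · obtain ⟨N, hN⟩ := kh_ind hT (pfData_comp h' fun j : J => j.1) fun a x hx => (hD a x hx).2.1
    refine ⟨N, fun a L hL => nconn_clopen (hN a (fun j => L j) fun j => hL j)
      (inter_subset_inter_right _ fun x hx => mem_iInter.2 fun j => mem_iInter.1 hx j)
      (fun x hx => ?_) fun x hx hx' => ?_⟩
    · have h1 := iInter_mem_nhdsWithin (h'.openO a) hL J hx.1 (mem_iInter.1 hx.2)
        (hD a x hx.1).2.1 (Filter.mem_of_superset ((h'.openO a).mem_nhds hx.1)
          fun q hq => (hD a q hq).2.2)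
      rw [biInter_eq_iInter] at h1
      exact inter_mem (mem_nhdsWithin_of_mem_nhds ((h'.openO a).mem_nhds hx.1))
        (nhdsWithin_mono _ inter_subset_right h1)
    · have : ∃ i, x ∉ L i := by
        by_contra hn
        push Not at hn
        exact hx' ⟨hx.1, mem_iInter.2 hn⟩
      obtain ⟨i, hi⟩ := this
      refine mem_nhdsWithin_of_mem_nhds (Filter.mem_of_superset
        ((hL i).isOpen_diff.mem_nhds ⟨hx.1, hi⟩) fun y hy hy' => hy.2 (mem_iInter.1 hy'.2 i))

theorem khAll (S : OStr) (n : ℕ) : ∀ (E : Type) [NormedAddCommGroup E] [NormedSpace ℝ E]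
    [FiniteDimensional ℝ E], finrank ℝ E = n → KhAll S E := by
  induction n using Nat.strong_induction_on with
  | _ n ih =>
    intro E _ _ _ hn
    exact all_of_thin (thin_of_ih fun m hm => ih m (hn ▸ hm) _ (by simp))

end Khov

variable {α E : Type}
  [NormedAddCommGroup α] [NormedSpace ℝ α] [FiniteDimensional ℝ α]
  [NormedAddCommGroup E] [NormedSpace ℝ E] [FiniteDimensional ℝ E] {S : OStr}

theorem khovanskii {ι : Type} [Finite ι] {A O : α → Set E} {ω : ι → α → E → E →L[ℝ] ℝ}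
    (h : PfData S A O ω) : ∃ N : ℕ, ∀ (a : α) (L : ι → Set E),
      (∀ i, IsLeaf (O a) (ω i a) (L i)) → NConn N (A a ∩ ⋂ i, L i) :=
  Khov.khAll S _ E rfl α ι A O ω h

end Pool.Agent.Shared.OMin
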