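import Pool.Agent.Shared.OMin.BDefs

/-! Analysis of Rolle pairs: pull backs, local charts of intersections of leaves, and the Rolle
property along one dimensional intersections. -/

namespace Pool.Agent.Shared.OMin

open Set Filter Topology Module

variable {α E E' β : Type}
  [NormedAddCommGroup α] [NormedSpace ℝ α] [FiniteDimensional ℝ α]
  [NormedAddCommGroup E] [NormedSpace ℝ E] [FiniteDimensional ℝ E]
  [NormedAddCommGroup E'] [NormedSpace ℝ E'] [FiniteDimensional ℝ E']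
  [NormedAddCommGroup β] [NormedSpace ℝ β] [FiniteDimensional ℝ β] {S : OStr}

set_option linter.unusedSectionVars false

theorem RolleGraph.isLeaf {O : Set (α × ℝ)} {F : α × ℝ → α →L[ℝ] ℝ} {D : Set α} {f : α → ℝ}
    {Bp Bm : Set (α × ℝ)} (h : RolleGraph O F D f Bp Bm) :
    IsLeaf O (fun p => ContinuousLinearMap.snd ℝ α ℝ - (F p).comp (ContinuousLinearMap.fst ℝ α ℝ))
      {p | p.1 ∈ D ∧ p.2 = f p.1} := by
  refine ⟨Bp, Bm, h.openp, h.openm, h.disj, h.cover, fun p hp => ?_, ?_⟩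
  · have := h.mem _ hp.1
    rwa [← hp.2] at this
  rintro ⟨x, t⟩ ⟨hD, rfl : t = f x⟩
  have hc : ContinuousOn (fun y => (y, f y)) D :=
    continuousOn_id.prodMk fun y hy => (h.deriv y hy).continuousAt.continuousWithinAt
  have hf : ContDiffAt ℝ 1 f x := contDiffAt_one_iff.2 ⟨fun y => F (y, f y), D,
    h.openD.mem_nhds hD, h.smooth.continuousOn.comp hc h.mem, h.deriv⟩
  obtain ⟨K, U, hU, hK⟩ :=
    (h.smooth.contDiffAt (h.openO.mem_nhds (h.mem x hD))).exists_lipschitzOnWith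
  have h1 : ContinuousAt (fun q : α × ℝ => (q.1, f q.1)) (x, f x) :=
    (hc.continuousAt (h.openD.mem_nhds hD)).comp (f := Prod.fst) continuousAt_fst
  refine ⟨fun q => q.2 - f q.1, K, contDiffAt_snd.sub (hf.comp (f := Prod.fst) _ contDiffAt_fst), ?_⟩
  filter_upwards [continuousAt_fst.eventually (h.openD.mem_nhds hD), h.side x hD, hU,
    h1.eventually hU] with q a1 a2 a3 a4
  have a5 : q ∈ Bp ∪ Bm → q.2 ≠ f q.1 := fun e e' => ((h.cover q).1 e).2 ⟨a1, e'⟩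
  refine ⟨(and_iff_right a1).trans sub_eq_zero.symm, ⟨fun e => ?_, fun e => a2.1 (sub_pos.1 e)⟩,
    ⟨fun e => ?_, fun e => a2.2 (sub_neg.1 e)⟩, ?_⟩
  · exact sub_pos.2 ((a5 (.inl e)).lt_or_gt.resolve_left fun e' =>
      disjoint_left.1 h.disj e (a2.2 e'))
  · exact sub_neg.2 ((a5 (.inr e)).lt_or_gt.resolve_right fun e' =>
      disjoint_left.1 h.disj (a2.1 e') e)
  · have a6 : HasFDerivAt (fun q : α × ℝ => q.2 - f q.1) _ q :=
      hasFDerivAt_snd.sub ((h.deriv _ a1).comp q hasFDerivAt_fst)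
    have a7 : ‖q - (q.1, f q.1)‖ = |q.2 - f q.1| := by simp [Prod.norm_def]
    rw [a6.fderiv, sub_sub_sub_cancel_left, ← ContinuousLinearMap.sub_comp, ← a7]
    refine (ContinuousLinearMap.opNorm_comp_le _ _).trans ?_
    exact (mul_le_of_le_one_right (norm_nonneg _) (ContinuousLinearMap.norm_fst_le ..)).trans
      (hK.norm_sub_le a3 a4)

theorem IsLeaf.pullback {O : Set E} {ω : E → E →L[ℝ] ℝ} {L : Set E} (h : IsLeaf O ω L)
    {O' : Set E'} (hO' : IsOpen O') {φ : E' → E} (hφ : ContDiffOn ℝ 1 φ O') (hm : MapsTo φ O' O) :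
    IsLeaf O' (fun q => (ω (φ q)).comp (fderiv ℝ φ q)) (O' ∩ φ ⁻¹' L) := by
  obtain ⟨Lp, Lm, h⟩ := h
  refine ⟨O' ∩ φ ⁻¹' Lp, O' ∩ φ ⁻¹' Lm, hφ.continuousOn.isOpen_inter_preimage hO' h.openp,
    hφ.continuousOn.isOpen_inter_preimage hO' h.openm,
    (h.disj.preimage φ).mono inter_subset_right inter_subset_right, fun p => ?_,
    inter_subset_left, fun p hp => ?_⟩
  · rw [← inter_union_distrib_left, ← preimage_union, mem_inter_iff, mem_preimage, h.cover]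
    exact and_congr_right fun e => by simp [e, hm e]
  obtain ⟨ψ, C, h1, h2⟩ := h.loc _ hp.2
  have h3 := hφ.contDiffAt (hO'.mem_nhds hp.1)
  have h4 := (h3.continuousAt_fderiv (by simp)).norm.eventually (gt_mem_nhds (lt_add_one _))
  refine ⟨ψ ∘ φ, C * (‖fderiv ℝ φ p‖ + 1), h1.comp p h3, ?_⟩
  filter_upwards [hO'.mem_nhds hp.1, h3.continuousAt.eventually h2, h4,
    h3.continuousAt.eventually (h1.eventually (by simp)), h3.eventually (by simp)]
    with q a1 a2 a3 a4 a5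
  refine ⟨by simp [a1, a2.1], by simp [a1, a2.2.1], by simp [a1, a2.2.2.1], ?_⟩
  rw [fderiv_comp q (a4.differentiableAt (by simp)) (a5.differentiableAt (by simp)),
    ← ContinuousLinearMap.sub_comp, mul_right_comm]
  exact (ContinuousLinearMap.opNorm_comp_le _ _).trans
    (mul_le_mul a2.2.2.2 a3.le (norm_nonneg _) ((norm_nonneg _).trans a2.2.2.2))

theorem IsLeaf.congr {O : Set E} {ω ω' : E → E →L[ℝ] ℝ} {L : Set E} (h : IsLeaf O ω L)
    (hO : IsOpen O) (e : EqOn ω ω' O) : IsLeaf O ω' L := by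
  obtain ⟨Lp, Lm, h⟩ := h
  refine ⟨Lp, Lm, h.openp, h.openm, h.disj, h.cover, h.sub, fun p hp => ?_⟩
  obtain ⟨ψ, C, h1, h2⟩ := h.loc _ hp
  refine ⟨ψ, C, h1, ?_⟩
  filter_upwards [hO.mem_nhds (h.sub hp), h2] with q a1 a2
  rwa [← e a1]

theorem isLeaf_level {O : Set E} (hO : IsOpen O) {ψ : E → ℝ} (hψ : ContDiffOn ℝ 1 ψ O) (c : ℝ) :
    IsLeaf O (fderiv ℝ ψ) {p | p ∈ O ∧ ψ p = c} := by
  refine ⟨O ∩ ψ ⁻¹' Ioi c, O ∩ ψ ⁻¹' Iio c, hψ.continuousOn.isOpen_inter_preimage hO isOpen_Ioi,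
    hψ.continuousOn.isOpen_inter_preimage hO isOpen_Iio,
    ((Iio_disjoint_Ioi_of_le le_rfl).symm.preimage ψ).mono inter_subset_right inter_subset_right,
    fun p => ?_, fun p hp => hp.1, fun p hp => ⟨fun q => ψ q - c, 0,
      (hψ.contDiffAt (hO.mem_nhds hp.1)).sub contDiffAt_const, ?_⟩⟩
  · rw [← inter_union_distrib_left]
    exact and_congr_right fun e => by simp [e, eq_comm]
  filter_upwards [hO.mem_nhds hp.1] with q a1
  simp [a1, sub_eq_zero, fderiv_sub_const]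

theorem IsLeaf.isOpen_diff {O : Set E} {ω : E → E →L[ℝ] ℝ} {L : Set E} (h : IsLeaf O ω L) :
    IsOpen (O \ L) := by
  obtain ⟨Lp, Lm, h⟩ := h
  rw [show O \ L = Lp ∪ Lm from Set.ext fun p => (h.cover p).symm]
  exact h.openp.union h.openm

theorem IsLeaf.subset {O : Set E} {ω : E → E →L[ℝ] ℝ} {L : Set E} (h : IsLeaf O ω L) : L ⊆ O :=
  h.elim fun _ h => h.elim fun _ h => h.sub

/-- Gronwall along rays -/
theorem eventually_zero_of_fderiv_le {g : β → ℝ} {b : β} {C : ℝ} (h0 : g b = 0)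
    (h : ∀ᶠ y in 𝓝 b, DifferentiableAt ℝ g y ∧ ‖fderiv ℝ g y‖ ≤ C * |g y|) :
    ∀ᶠ y in 𝓝 b, g y = 0 := by
  obtain ⟨r, hr, h⟩ := Metric.eventually_nhds_iff_ball.1 h
  filter_upwards [Metric.ball_mem_nhds b hr] with y hy
  have h1 : ∀ t ∈ Icc (0 : ℝ) 1, b + t • (y - b) ∈ Metric.ball b r := fun t ht =>
    (convex_ball b r).add_smul_sub_mem (Metric.mem_ball_self hr) hy ht
  have h2 : ∀ t ∈ Icc (0 : ℝ) 1, HasDerivAt (fun t : ℝ => g (b + t • (y - b)))
      (fderiv ℝ g (b + t • (y - b)) (y - b)) t := fun t ht => by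
    have := (h _ (h1 t ht)).1.hasFDerivAt.comp_hasDerivAt t
      (((hasDerivAt_id t).smul_const (y - b)).const_add b)
    rwa [one_smul] at this
  have h3 := eq_zero_of_abs_deriv_le_mul_abs_self_of_eq_zero_right (K := C * ‖y - b‖)
    (fun s hs => (h2 s hs).continuousAt.continuousWithinAt)
    (fun s hs => (h2 s (Ico_subset_Icc_self hs)).hasDerivWithinAt) (by simpa using h0)
    (fun s hs => by
      rw [mul_right_comm]
      exact (ContinuousLinearMap.le_opNorm _ _).trans (mul_le_mul_of_nonneg_right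
        (h _ (h1 s (Ico_subset_Icc_self hs))).2 (norm_nonneg _))) 1 (by simp)
  simpa using h3

theorem range_pi_eq_top {J : Type} [Fintype J] {w : J → E →L[ℝ] ℝ} (h : LinearIndependent ℝ w) :
    (ContinuousLinearMap.pi w).range = ⊤ := by
  classical
  by_contra h1
  obtain ⟨φ, h2, h3⟩ := Submodule.exists_le_ker_of_lt_top _ (lt_top_iff_ne_top.2 h1)
  have h4 := Fintype.linearIndependent_iff.1 h (fun j => φ fun i => if j = i then 1 else 0) (by
    ext v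
    have := h3 ⟨v, rfl⟩
    rw [LinearMap.mem_ker, LinearMap.pi_apply_eq_sum_univ] at this
    simpa [mul_comm] using this)
  refine h2 (LinearMap.ext fun x => ?_)
  rw [LinearMap.pi_apply_eq_sum_univ]
  simp [h4]

/-- charts with a prescribed affine coordinate `π - c` -/
theorem leaf_chart_gen {ι : Type} [Finite ι] {O : Set E} {ω : ι → E → E →L[ℝ] ℝ}
    {L : ι → Set E} (hL : ∀ i, IsLeaf O (ω i) (L i)) (J : Set ι) {p : E}
    (hpL : ∀ i, p ∈ L i) (hind : LinearIndependent ℝ fun j : J => ω j p)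
    (hspan : ∀ᶠ q in 𝓝 p, ∀ i, ω i q ∈ Submodule.span ℝ (range fun j : J => ω j q))
    (π : E →L[ℝ] β) (g : β →L[ℝ] E) (c : β) (hπ : ∀ y, π (g y) = y)
    (hg : ∀ v, (∃ y, g y = v) ↔ ∀ j ∈ J, ω j p v = 0) :
    ∃ σ : β → E, ContDiffAt ℝ 1 σ (π p - c) ∧ σ (π p - c) = p ∧ HasFDerivAt σ g (π p - c) ∧
      map σ (𝓝 (π p - c)) = 𝓝[⋂ i, L i] p ∧ map σ (𝓝 (π p - c)) = 𝓝[⋂ j ∈ J, L j] p ∧
      ∀ᶠ y in 𝓝 (π p - c), π (σ y) - c = y := by
  have := Fintype.ofFinite J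
  have := FiniteDimensional.complete ℝ E
  have := FiniteDimensional.complete ℝ β
  choose Lp Lm hL using hL
  choose ψ C h1 h2 using fun i => (hL i).loc p (hpL i)
  have h3 : ∀ i, ∀ᶠ q in 𝓝 p, q ∈ L i → HasFDerivAt (ψ i) (ω i q) q := fun i => by
    filter_upwards [h2 i, (h1 i).eventually (by simp)] with q a1 a2 a3
    have := a1.2.2.2
    rw [a1.1.1 a3, abs_zero, mul_zero, norm_le_zero_iff, sub_eq_zero] at this
    exact this ▸ (a2.differentiableAt (by simp)).hasFDerivAt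
  have h4 : ContDiffAt ℝ 1 (fun q (j : J) => ψ j q) p := contDiffAt_pi.2 fun j => h1 j
  have h5 : ContDiffAt ℝ 1 (fun q => π q - c) p := π.contDiff.contDiffAt.sub contDiffAt_const
  have h6 : ∀ v, v ∈ (ContinuousLinearMap.pi fun j : J => ω j p).ker ↔ ∃ y, g y = v := fun v => by
    simp [hg, funext_iff]
  let φ : ImplicitFunctionData ℝ E (J → ℝ) β :=
    { leftFun := fun q j => ψ j q
      leftDeriv := ContinuousLinearMap.pi fun j : J => ω j p
      rightFun := fun q => π q - c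
      rightDeriv := π
      pt := p
      hasStrictFDerivAt_leftFun := h4.hasStrictFDerivAt'
        (hasFDerivAt_pi.2 fun j => (h3 j).self_of_nhds (hpL j)) (by simp)
      hasStrictFDerivAt_rightFun := π.hasStrictFDerivAt.sub_const c
      range_leftDeriv := range_pi_eq_top hind
      range_rightDeriv := LinearMap.range_eq_top.2 fun y => ⟨g y, hπ y⟩
      isCompl_ker := ⟨Submodule.disjoint_def.2 fun v a1 a2 => by
          obtain ⟨y, rfl⟩ := (h6 v).1 a1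
          rw [show y = 0 from (hπ y).symm.trans a2, map_zero],
        codisjoint_iff.2 (Submodule.eq_top_iff'.2 fun v => Submodule.mem_sup.2
          ⟨g (π v), (h6 _).2 ⟨_, rfl⟩, v - g (π v), by simp [hπ], by simp⟩)⟩ }
  let σ := φ.implicitFunction (φ.leftFun φ.pt)
  have b1 : ContDiffAt ℝ 1 σ (π p - c) :=
    (φ.contDiffAt_implicitFunction (n := 1) h4 h5 (by simp)).comp (f := fun y => (φ.leftFun p, y))
      (π p - c) (contDiffAt_const.prodMk contDiffAt_id)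
  have b2 : σ (π p - c) = p := φ.implicitFunction_apply_image.self_of_nhds
  have b3 : Tendsto σ (𝓝 (π p - c)) (𝓝 p) := by simpa only [b2] using b1.continuousAt.tendsto
  have b4 : map σ (𝓝 (π p - c)) = 𝓝[⋂ j ∈ J, L j] p := by
    have := φ.map_implicitFunction_nhdsWithin_preimage univ
    rw [preimage_univ, nhdsWithin_univ, univ_inter] at this
    refine this.trans (nhdsWithin_eq_iff_eventuallyEq.2 ?_)
    filter_upwards [eventually_all.2 h2] with q a1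
    have a2 : ∀ j, ψ j p = 0 := fun j => (h2 j).self_of_nhds.1.1 (hpL j)
    refine propext (show q ∈ φ.leftFun ⁻¹' {φ.leftFun p} ↔ q ∈ ⋂ j ∈ J, L j from ?_)
    simp [φ, funext_iff, a2, fun j => (a1 j).1]
  have b5 : ∀ᶠ y in 𝓝 (π p - c), σ y ∈ ⋂ j ∈ J, L j := by
    rw [← eventually_map (P := fun q => q ∈ ⋂ j ∈ J, L j), b4]
    exact self_mem_nhdsWithin
  have b6 : ∀ᶠ y in 𝓝 (π p - c), ∀ j ∈ J, ψ j (σ y) = 0 := by
    filter_upwards [b5, b3.eventually (eventually_all.2 h2)] with y a1 a2 j hj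
    exact (a2 j).1.1 (mem_iInter₂.1 a1 j hj)
  have b7 : ∀ i, ∀ᶠ y in 𝓝 (π p - c), ψ i (σ y) = 0 := fun i => by
    refine eventually_zero_of_fderiv_le (C := C i * (‖fderiv ℝ σ (π p - c)‖ + 1))
      (b2.symm ▸ (h2 i).self_of_nhds.1.1 (hpL i)) ?_
    filter_upwards [b5, b6.eventually_nhds, b3.eventually (eventually_all.2 h3),
      b3.eventually hspan, b3.eventually (h2 i), b3.eventually ((h1 i).eventually (by simp)),
      b1.eventually (by simp),
      (b1.continuousAt_fderiv (by simp)).norm.eventually (gt_mem_nhds (lt_add_one _))]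
      with y a1 a2 a3 a4 a5 a6 a7 a8
    have a9 := (a7.differentiableAt (by simp)).hasFDerivAt
    have a10 := (a6.differentiableAt (by simp)).hasFDerivAt.comp y a9
    have a11 : (ω i (σ y)).comp (fderiv ℝ σ y) = 0 := by
      refine Submodule.span_induction (p := fun w _ => w.comp (fderiv ℝ σ y) = 0) ?_ (by simp)
        (fun _ _ _ _ e e' => by rw [ContinuousLinearMap.add_comp, e, e', add_zero])
        (fun _ _ _ e => by rw [ContinuousLinearMap.smul_comp, e, smul_zero]) (a4 i)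
      rintro _ ⟨j, rfl⟩
      exact ((a3 j (mem_iInter₂.1 a1 j j.2)).comp y a9).unique
        ((hasFDerivAt_const (0 : ℝ) y).congr_of_eventuallyEq (a2.mono fun z e => e j j.2))
    refine ⟨a10.differentiableAt, ?_⟩
    rw [show fderiv ℝ (fun y => ψ i (σ y)) y = _ from a10.fderiv, ← sub_zero (_ ∘L _), ← a11,
      ← ContinuousLinearMap.sub_comp, mul_right_comm]
    exact (ContinuousLinearMap.opNorm_comp_le _ _).trans
      (mul_le_mul a5.2.2.2 a8.le (norm_nonneg _) ((norm_nonneg _).trans a5.2.2.2))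
  refine ⟨σ, b1, b2, (φ.hasStrictFDerivAt_implicitFunction g (ContinuousLinearMap.ext hπ)
    (ContinuousLinearMap.ext fun y => (h6 _).2 ⟨y, rfl⟩)).hasFDerivAt, le_antisymm
      (tendsto_nhdsWithin_iff.2 ⟨b3, ?_⟩) (b4 ▸ nhdsWithin_mono _ fun q hq => ?_), b4, ?_⟩
  · filter_upwards [eventually_all.2 b7, b3.eventually (eventually_all.2 h2)] with y a1 a2
    exact mem_iInter.2 fun i => (a2 i).1.2 (a1 i)
  · exact mem_iInter₂.2 fun j _ => mem_iInter.1 hq j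
  · exact φ.rightFun_implicitFunction.curry_nhds.self_of_nhds

/-- Local structure. The leaves with index in `J` cut out a C1 submanifold with tangent space the
common kernel (implicit function theorem for the local equations); on it each other local equation
satisfies a Gronwall inequality, hence vanishes near `p`. -/
theorem leaf_chart {ι : Type} [Finite ι] {O : Set E} (hO : IsOpen O) {ω : ι → E → E →L[ℝ] ℝ}
    {L : ι → Set E} (hL : ∀ i, IsLeaf O (ω i) (L i)) (J : Set ι) {p : E} (hp : p ∈ O)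
    (hpL : ∀ i, p ∈ L i) (hind : LinearIndependent ℝ fun j : J => ω j p)
    (hspan : ∀ᶠ q in 𝓝 p, ∀ i, ω i q ∈ Submodule.span ℝ (range fun j : J => ω j q))
    (K : Submodule ℝ E) (hK : ∀ v, v ∈ K ↔ ∀ j ∈ J, ω j p v = 0) :
    ∃ σ : K → E, ContDiffAt ℝ 1 σ 0 ∧ σ 0 = p ∧ HasFDerivAt σ K.subtypeL 0 ∧
      map σ (𝓝 0) = 𝓝[⋂ i, L i] p ∧ map σ (𝓝 0) = 𝓝[⋂ j ∈ J, L j] p := by
  have _ := hO.mem_nhds hp
  obtain ⟨π, hπ⟩ := Submodule.ClosedComplemented.of_finiteDimensional K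
  obtain ⟨σ, h1, h2, h3, h4, h5, -⟩ := leaf_chart_gen hL J hpL hind hspan π K.subtypeL (π p) hπ
    fun v => by simp [← hK]
  rw [sub_self] at h1 h2 h3 h4 h5
  exact ⟨σ, h1, h2, h3, h4, h5⟩

/-- a continuous section of `ℓ` over `I` with values in `W` -/
def IsSec (W : Set E) (ℓ : E → ℝ) (s : ℝ → E) (I : Set ℝ) : Prop :=
  ContinuousOn s I ∧ ∀ t ∈ I, s t ∈ W ∧ ℓ (s t) = t

theorem IsSec.mono {W : Set E} {ℓ : E → ℝ} {s : ℝ → E} {I I' : Set ℝ} (h : IsSec W ℓ s I)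
    (e : I' ⊆ I) : IsSec W ℓ s I' := ⟨h.1.mono e, fun t ht => h.2 t (e ht)⟩

theorem IsSec.eventually_eq {W : Set E} {ℓ : E → ℝ} {s σ : ℝ → E} {I : Set ℝ} (h : IsSec W ℓ s I)
    {t : ℝ} (ht : t ∈ I) (hσ : ∀ᶠ q in 𝓝[W] s t, σ (ℓ q) = q) : ∀ᶠ u in 𝓝[I] t, σ u = s u := by
  filter_upwards [((h.1 t ht).tendsto_nhdsWithin fun u hu => (h.2 u hu).1).eventually hσ,
    self_mem_nhdsWithin] with u a1 a2
  rwa [(h.2 u a2).2] at a1

theorem IsSec.unique {W : Set E} {ℓ : E → ℝ} (hW : ∀ p ∈ W, ∃ σ : ℝ → E, ∀ᶠ q in 𝓝[W] p, σ (ℓ q) = q)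
    {s s' : ℝ → E} {I : Set ℝ} (hI : IsPreconnected I) (h : IsSec W ℓ s I) (h' : IsSec W ℓ s' I)
    {t u : ℝ} (ht : t ∈ I) (hu : u ∈ I) (e : s t = s' t) : s u = s' u := by
  refine (hI.induction₂ (fun t u => s t = s' t ↔ s u = s' u) (fun t ht => ?_)
    (fun _ _ _ _ _ _ a b => a.trans b) (fun _ _ _ _ a => a.symm) ht hu).1 e
  by_cases e : s t = s' t
  · obtain ⟨σ, hσ⟩ := hW _ (h.2 t ht).1
    filter_upwards [h.eventually_eq ht hσ, h'.eventually_eq ht (e ▸ hσ)] with u a1 a2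
    exact iff_of_true e (a1.symm.trans a2)
  · filter_upwards [((h.1 t ht).sub (h'.1 t ht)).tendsto.eventually_ne (sub_ne_zero.2 e)] with u a
    exact iff_of_false e (sub_ne_zero.1 a)

/-- any two points of a connected piece of a set that is locally a graph over `ℓ` are joined by a
section -/
theorem exists_sec {W : Set E} {ℓ : E → ℝ} (hℓ : Continuous ℓ)
    (hW : ∀ p ∈ W, ∃ σ : ℝ → E, (∀ᶠ q in 𝓝[W] p, σ (ℓ q) = q) ∧
      ∀ᶠ t in 𝓝 (ℓ p), ContinuousAt σ t ∧ σ t ∈ W ∧ ℓ (σ t) = t)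
    {C : Set E} (hC : IsPreconnected C) (hCW : C ⊆ W) {p q : E} (hp : p ∈ C) (hq : q ∈ C) :
    ∃ s, IsSec W ℓ s (uIcc (ℓ p) (ℓ q)) ∧ s (ℓ p) = p ∧ s (ℓ q) = q := by
  classical
  refine hC.induction₂ (fun p q => ∃ s, IsSec W ℓ s (uIcc (ℓ p) (ℓ q)) ∧ s (ℓ p) = p ∧ s (ℓ q) = q)
    (fun p hp => ?_) ?_ (fun p q _ _ ⟨s, a1, a2, a3⟩ => ⟨s, uIcc_comm (ℓ p) _ ▸ a1, a3, a2⟩) hp hq
  · obtain ⟨σ, h1, h2⟩ := hW p (hCW hp)
    obtain ⟨r, hr, h2⟩ := Metric.eventually_nhds_iff_ball.1 h2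
    filter_upwards [nhdsWithin_mono _ hCW h1,
      nhdsWithin_le_nhds (hℓ.continuousAt.eventually (Metric.ball_mem_nhds _ hr))] with q a1 a2
    have a3 := (convex_ball (ℓ p) r).ordConnected.uIcc_subset (Metric.mem_ball_self hr) a2
    exact ⟨σ, ⟨fun t ht => (h2 t (a3 ht)).1.continuousWithinAt, fun t ht => (h2 t (a3 ht)).2⟩,
      h1.self_of_nhdsWithin (hCW hp), a1⟩
  rintro p q r - - - ⟨s, a1, a2, a3⟩ ⟨s', b1, b2, b3⟩
  have c1 : EqOn ((uIcc (ℓ p) (ℓ q)).piecewise s s') s (uIcc (ℓ p) (ℓ q)) := piecewise_eqOn _ _ _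
  have c2 : EqOn ((uIcc (ℓ p) (ℓ q)).piecewise s s') s' (uIcc (ℓ q) (ℓ r)) := fun t ht => by
    by_cases h : t ∈ uIcc (ℓ p) (ℓ q)
    · exact (c1 h).trans (IsSec.unique (fun p hp => (hW p hp).imp fun _ h => h.1)
        (ordConnected_uIcc.inter ordConnected_uIcc).isPreconnected (a1.mono inter_subset_left)
        (b1.mono inter_subset_right) ⟨right_mem_uIcc, left_mem_uIcc⟩ ⟨h, ht⟩ (a3.trans b2.symm))
    · exact piecewise_eq_of_notMem _ _ _ h
  refine ⟨_, IsSec.mono ⟨(a1.1.congr c1).union_of_isClosed (b1.1.congr c2) isCompact_uIcc.isClosed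
    isCompact_uIcc.isClosed, ?_⟩ uIcc_subset_uIcc_union_uIcc, (c1 left_mem_uIcc).trans a2,
    (c2 right_mem_uIcc).trans b3⟩
  rintro t (ht | ht)
  · rw [c1 ht]
    exact a1.2 t ht
  · rw [c2 ht]
    exact b1.2 t ht

theorem RPair.cross_loc {O : Set E} {ω : E → E →L[ℝ] ℝ} {L Lp Lm : Set E} (h : RPair O ω L Lp Lm)
    {γ : ℝ → E} {v : E} {t : ℝ} (hγ : HasDerivAt γ v t) (hp : γ t ∈ L) (hv : 0 < ω (γ t) v) :
    (∀ᶠ s in 𝓝[>] t, γ s ∈ Lp) ∧ ∀ᶠ s in 𝓝[<] t, γ s ∈ Lm := by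
  obtain ⟨ψ, C, h1, h2⟩ := h.loc _ hp
  have h3 := h2.self_of_nhds.1.1 hp
  have h4 := h2.self_of_nhds.2.2.2
  rw [h3, abs_zero, mul_zero, norm_le_zero_iff, sub_eq_zero] at h4
  have h5 := (h1.differentiableAt (by simp)).hasFDerivAt.comp_hasDerivAt t hγ
  rw [h4, hasDerivAt_iff_tendsto_slope] at h5
  have h6 := h5.eventually (lt_mem_nhds hv)
  have h7 := hγ.continuousAt.eventually h2
  simp only [slope_def_field, Function.comp_apply, h3, sub_zero] at h6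
  constructor
  · filter_upwards [nhdsGT_le_nhdsNE t h6, nhdsWithin_le_nhds h7, self_mem_nhdsWithin]
      with s a1 a2 a3
    exact a2.2.1.2 ((div_pos_iff_of_pos_right (sub_pos.2 a3)).1 a1)
  · filter_upwards [nhdsLT_le_nhdsNE t h6, nhdsWithin_le_nhds h7, self_mem_nhdsWithin]
      with s a1 a2 a3
    refine a2.2.2.1.2 (not_le.1 fun a4 => ?_)
    exact absurd a1 (not_lt.2 (div_nonpos_of_nonneg_of_nonpos a4 (sub_neg.2 a3).le))

/-- Rolle: a connected piece of a one dimensional intersection of leaves meets a transversal leaf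
at most once. `v` is a direction field spanning the common kernel, `ℓ` a linear coordinate with
`ℓ (v q) > 0`. -/
theorem leaf_once {ι : Type} [Finite ι] {O : Set E} (hO : IsOpen O) {ω : ι → E → E →L[ℝ] ℝ}
    {L : ι → Set E} (hL : ∀ i, IsLeaf O (ω i) (L i)) {ω₀ : E → E →L[ℝ] ℝ} {L₀ : Set E}
    (h₀ : IsLeaf O ω₀ L₀) (hind : ∀ q ∈ O, LinearIndependent ℝ fun i => ω i q)
    {v : E → E} {ℓ : E →L[ℝ] ℝ}
    (hv : ∀ q ∈ O, (∀ u, (∀ i, ω i q u = 0) ↔ ∃ c : ℝ, u = c • v q) ∧ 0 < ℓ (v q) ∧ 0 < ω₀ q (v q))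
    {C : Set E} (hC : IsPreconnected C) (hCW : C ⊆ O ∩ ⋂ i, L i) :
    (C ∩ L₀).Subsingleton := by
  obtain ⟨Lp, Lm, h₀⟩ := h₀
  have h1 : ∀ p ∈ O ∩ ⋂ i, L i, ∃ σ : ℝ → E, ((∀ᶠ q in 𝓝[O ∩ ⋂ i, L i] p, σ (ℓ q) = q) ∧
      ∀ᶠ t in 𝓝 (ℓ p), ContinuousAt σ t ∧ σ t ∈ O ∩ ⋂ i, L i ∧ ℓ (σ t) = t) ∧
      HasDerivAt σ ((ℓ (v p))⁻¹ • v p) (ℓ p) := fun p hp => by
    obtain ⟨a1, a2, -⟩ := hv p hp.1
    obtain ⟨σ, b1, b2, b3, b4, -, b5⟩ := leaf_chart_gen hL univ (mem_iInter.1 hp.2)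
      ((hind p hp.1).comp _ Subtype.val_injective)
      (.of_forall fun q i => Submodule.subset_span ⟨⟨i, trivial⟩, rfl⟩) ℓ
      (ContinuousLinearMap.toSpanSingleton ℝ ((ℓ (v p))⁻¹ • v p)) 0
      (fun y => by simp [a2.ne']) fun u => by
        simp only [mem_univ, forall_const, a1, ContinuousLinearMap.toSpanSingleton_apply, smul_smul]
        exact ⟨fun ⟨y, e⟩ => ⟨_, e.symm⟩, fun ⟨y, e⟩ => ⟨y * ℓ (v p), by simp [e, a2.ne']⟩⟩
    simp only [sub_zero] at b1 b2 b3 b4 b5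
    rw [← nhdsWithin_inter_of_mem (nhdsWithin_le_nhds (hO.mem_nhds hp.1))] at b4
    refine ⟨σ, ⟨?_, ?_⟩, by simpa using b3.hasDerivAt⟩
    · rw [← b4, eventually_map]
      exact b5.mono fun t e => by rw [e]
    · have b6 : ∀ᶠ q in map σ (𝓝 (ℓ p)), q ∈ O ∩ ⋂ i, L i := b4 ▸ self_mem_nhdsWithin
      filter_upwards [b1.eventually (by simp), b6, b5] with t a3 a4 a5
      exact ⟨a3.continuousAt, a4, a5⟩
  have h2 : ∀ (s : ℝ → E) (a b : ℝ), a < b → IsSec (O ∩ ⋂ i, L i) ℓ s (Icc a b) → s a ∈ L₀ →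
      s b ∉ L₀ := fun s a b hab hs ha hb => by
    have a1 : ∀ t ∈ Icc a b, s t ∈ L₀ → (∀ᶠ u in 𝓝[Icc a b ∩ Ioi t] t, s u ∈ Lp) ∧
        ∀ᶠ u in 𝓝[Icc a b ∩ Iio t] t, s u ∈ Lm := fun t ht e => by
      obtain ⟨a1, a2⟩ := hs.2 t ht
      obtain ⟨σ, ⟨a3, -⟩, a4⟩ := h1 _ a1
      have a5 := hs.eventually_eq ht a3
      have a6 := a5.self_of_nhdsWithin ht
      rw [a2] at a4
      obtain ⟨a7, a8⟩ := h₀.cross_loc a4 (a6 ▸ e) (by
        rw [a6, map_smul]
        exact mul_pos (inv_pos.2 (hv _ a1.1).2.1) (hv _ a1.1).2.2)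
      constructor
      · filter_upwards [nhdsWithin_mono _ inter_subset_left a5,
          nhdsWithin_mono _ inter_subset_right a7] with u b1 b2 using b1 ▸ b2
      · filter_upwards [nhdsWithin_mono _ inter_subset_left a5,
          nhdsWithin_mono _ inter_subset_right a8] with u b1 b2 using b1 ▸ b2
    have a2 : Icc a b ⊆ s ⁻¹' Lmᶜ := by
      refine IsClosed.Icc_subset_of_forall_mem_nhdsWithin ?_
        (fun e => ((h₀.cover _).1 (.inr e)).2 ha) fun t ht => ?_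
      · rw [inter_comm]
        exact hs.1.preimage_isClosed_of_isClosed isClosed_Icc h₀.openm.isClosed_compl
      · have a3 := Ico_subset_Icc_self ht.2
        have a4 : ∀ᶠ u in 𝓝[Icc a b ∩ Ioi t] t, s u ∈ Lp := by
          by_cases e : s t ∈ L₀
          · exact (a1 t a3 e).1
          · exact nhdsWithin_mono _ inter_subset_left ((hs.1 t a3).eventually (h₀.openp.mem_nhds
              (((h₀.cover _).2 ⟨(hs.2 t a3).1.1, e⟩).resolve_right ht.1)))
        rw [nhdsWithin_inter_of_mem (nhdsWithin_mono _ Ioi_subset_Ici_self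
          (Icc_mem_nhdsGE_of_mem ht.2))] at a4
        filter_upwards [a4] with u hu using disjoint_left.1 h₀.disj hu
    have a3 := (a1 b (right_mem_Icc.2 hab.le) hb).2
    rw [nhdsWithin_inter_of_mem (Icc_mem_nhdsLT hab)] at a3
    obtain ⟨u, a4, a5⟩ := (a3.and (Icc_mem_nhdsLT hab)).exists
    exact a2 a5 a4
  intro p hp q hq
  obtain ⟨s, a1, a2, a3⟩ := exists_sec ℓ.continuous (fun p hp => (h1 p hp).imp fun _ h => h.1) hC
    hCW hp.1 hq.1
  rcases lt_trichotomy (ℓ p) (ℓ q) with h | h | h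
  · rw [uIcc_of_le h.le] at a1
    exact (h2 s _ _ h a1 (a2.symm ▸ hp.2) (a3.symm ▸ hq.2)).elim
  · rw [← a2, h, a3]
  · rw [uIcc_of_ge h.le] at a1
    exact (h2 s _ _ h a1 (a3.symm ▸ hq.2) (a2.symm ▸ hp.2)).elim

end Pool.Agent.Shared.OMin
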