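import Mathlib

/-! A saturated nonstandard extension `U` of the real field. Elements of `U` are classes of real
functions on an index set `Ω` modulo an ultrafilter `𝔲`; `out a` is a representative. Every
statement about finitely many elements is expressed as `∀ᶠ ω in 𝔲, ...`. -/

namespace Pool.Agent.Shared.OMin

open Set Filter Topology

noncomputable section

structure Lev where
  Ω : Type
  u : Ultrafilter Ω

def Lev.Task (L : Lev) : Type :=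
  {F : Filter (L.Ω × ℝ) // ∀ X ∈ F, ∀ᶠ ω in (L.u : Filter L.Ω), ∃ t, (ω, t) ∈ X}

def Lev.flt (L : Lev) : Filter (L.Ω × (L.Task → ℝ)) :=
  comap Prod.fst (L.u : Filter L.Ω) ⊓ ⨅ τ : L.Task, comap (fun ω => (ω.1, ω.2 τ)) τ.1

instance Lev.flt_neBot (L : Lev) : L.flt.NeBot := by
  classical
  rw [← forall_mem_nonempty_iff_neBot]
  intro s hs
  obtain ⟨s1, h1, s2, h2, rfl⟩ := mem_inf_iff.1 hs
  obtain ⟨A, hA, hA1⟩ := mem_comap.1 h1
  obtain ⟨I, hI, V, hV, rfl⟩ := mem_iInf.1 h2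
  choose X hX hXV using fun i : I => mem_comap.1 (hV i)
  have := hI.to_subtype
  have h3 : ∀ᶠ ω in (L.u : Filter L.Ω), ω ∈ A ∧ ∀ i : I, ∃ t, (ω, t) ∈ X i :=
    (show ∀ᶠ ω in (L.u : Filter L.Ω), ω ∈ A from hA).and
      (eventually_all.2 fun i => i.1.2 _ (hX i))
  obtain ⟨ω, hω, ht⟩ := h3.exists
  choose t ht using ht
  refine ⟨(ω, fun τ => if h : τ ∈ I then t ⟨τ, h⟩ else 0), hA1 hω, mem_iInter.2 fun i => hXV i ?_⟩
  simpa [i.2] using ht i

def Lev.step (L : Lev) : Lev := ⟨L.Ω × (L.Task → ℝ), Ultrafilter.of L.flt⟩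

def lev : ℕ → Lev
  | 0 => ⟨Unit, pure ()⟩
  | n + 1 => (lev n).step

/-- The index set. -/
def Ω : Type := ∀ n, (lev n).Task → ℝ

def prj : ∀ n, Ω → (lev n).Ω
  | 0, _ => ()
  | n + 1, ω => (prj n ω, ω n)

theorem prj_congr : ∀ n (ω ω' : Ω), (∀ k < n, ω k = ω' k) → prj n ω = prj n ω'
  | 0, _, _, _ => rfl
  | n + 1, ω, ω', h => by
    simp only [prj]
    rw [prj_congr n ω ω' fun k hk => h k (by omega), h n (by omega)]

theorem prj_surj : ∀ n, Function.Surjective (prj n)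
  | 0 => fun _ => ⟨fun _ _ => 0, rfl⟩
  | n + 1 => by
    rintro ⟨x, ρ⟩
    obtain ⟨ω, rfl⟩ := prj_surj n x
    refine ⟨Function.update ω n ρ, ?_⟩
    have h1 : prj n (Function.update ω n ρ) = prj n ω :=
      prj_congr n (Function.update ω n ρ) ω fun k hk => Function.update_of_ne hk.ne _ _
    have h2 : Function.update ω n ρ n = ρ := Function.update_self ..
    exact Prod.ext h1 h2

def flt0 (n : ℕ) : Filter Ω := comap (prj n) ((lev n).u : Filter (lev n).Ω)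

theorem flt0_anti : Antitone flt0 := by
  refine antitone_nat_of_succ_le fun n => ?_
  have h : ((lev (n + 1)).u : Filter (lev (n + 1)).Ω) ≤ comap Prod.fst ((lev n).u : Filter _) :=
    (Ultrafilter.of_le (lev n).flt).trans inf_le_left
  exact (comap_mono h).trans (le_of_eq comap_comap)

instance flt0_neBot : (⨅ n, flt0 n).NeBot := by
  have : Nonempty Ω := ⟨fun _ _ => 0⟩
  exact iInf_neBot_of_directed flt0_anti.directed_ge fun n =>
    comap_neBot_iff_frequently.2 (by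
      simp [(prj_surj n).range_eq])

/-- The ultrafilter. -/
def 𝔘 : Ultrafilter Ω := Ultrafilter.of (⨅ n, flt0 n)

/-- The ultrafilter as a filter. -/
abbrev 𝔲 : Filter Ω := (𝔘 : Filter Ω)

theorem map_prj (n : ℕ) : map (prj n) 𝔲 = ((lev n).u : Filter _) := by
  have h : map (prj n) 𝔲 ≤ ((lev n).u : Filter _) :=
    map_le_iff_le_comap.2 ((Ultrafilter.of_le _).trans (iInf_le flt0 n))
  have := (Ultrafilter.coe_le_coe (f := 𝔘.map (prj n)) (g := (lev n).u)).1 h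
  rw [← this]; rfl

theorem prj_le {m n : ℕ} (h : m ≤ n) : ∃ g : (lev n).Ω → (lev m).Ω, ∀ ω, prj m ω = g (prj n ω) := by
  induction h with
  | refl => exact ⟨id, fun _ => rfl⟩
  | step _ ih =>
    obtain ⟨g, hg⟩ := ih
    exact ⟨fun x => g x.1, hg⟩

/-- Small points: functions on `Ω` that factor through a finite level. -/
def Sm {α : Type} (p : Ω → α) : Prop := ∃ n, ∃ g : (lev n).Ω → α, p =ᶠ[𝔲] fun ω => g (prj n ω)

section Sm
variable {α β : Type}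

theorem Sm.congr {p q : Ω → α} (h : Sm p) (e : q =ᶠ[𝔲] p) : Sm q := by
  obtain ⟨n, g, hg⟩ := h
  exact ⟨n, g, e.trans hg⟩

theorem Sm.const (c : α) : Sm fun _ => c := ⟨0, fun _ => c, EventuallyEq.rfl⟩

theorem Sm.comp (φ : α → β) {p : Ω → α} (h : Sm p) : Sm fun ω => φ (p ω) := by
  obtain ⟨n, g, hg⟩ := h
  exact ⟨n, fun x => φ (g x), hg.fun_comp φ⟩

theorem Sm.mono {p : Ω → α} {m n : ℕ} (h : m ≤ n) {g : (lev m).Ω → α}
    (hg : p =ᶠ[𝔲] fun ω => g (prj m ω)) : ∃ g' : (lev n).Ω → α, p =ᶠ[𝔲] fun ω => g' (prj n ω) := by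
  obtain ⟨r, hr⟩ := prj_le h
  exact ⟨fun x => g (r x), hg.trans (Eventually.of_forall fun ω => by simp [hr])⟩

theorem Sm.prod {p : Ω → α} {q : Ω → β} (hp : Sm p) (hq : Sm q) : Sm fun ω => (p ω, q ω) := by
  obtain ⟨m, f, hf⟩ := hp
  obtain ⟨n, g, hg⟩ := hq
  obtain ⟨f', hf'⟩ := Sm.mono (le_max_left m n) hf
  obtain ⟨g', hg'⟩ := Sm.mono (le_max_right m n) hg
  exact ⟨max m n, fun x => (f' x, g' x), hf'.prodMk hg'⟩

theorem Sm.comp₂ {γ : Type} (φ : α → β → γ) {p : Ω → α} {q : Ω → β} (hp : Sm p) (hq : Sm q) :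
    Sm fun ω => φ (p ω) (q ω) := (hp.prod hq).comp fun z => φ z.1 z.2

theorem Sm.pi {ι : Type} [Finite ι] {p : ι → Ω → α} (h : ∀ i, Sm (p i)) :
    Sm fun ω i => p i ω := by
  choose n g hg using h
  obtain ⟨N, hN⟩ := (Set.finite_range n).bddAbove
  choose g' hg' using fun i => Sm.mono (hN (mem_range_self i)) (hg i)
  refine ⟨N, fun x i => g' i x, ?_⟩
  filter_upwards [eventually_all.2 hg'] with ω hω
  exact funext hω

end Sm

def Usub : Subfield (Germ 𝔲 ℝ) where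
  carrier := {x | ∃ f : Ω → ℝ, Sm f ∧ x = (f : Germ 𝔲 ℝ)}
  mul_mem' := by
    rintro _ _ ⟨f, hf, rfl⟩ ⟨g, hg, rfl⟩
    exact ⟨fun ω => f ω * g ω, Sm.comp₂ (· * ·) hf hg, rfl⟩
  one_mem' := ⟨fun _ => 1, Sm.const _, rfl⟩
  add_mem' := by
    rintro _ _ ⟨f, hf, rfl⟩ ⟨g, hg, rfl⟩
    exact ⟨fun ω => f ω + g ω, Sm.comp₂ (· + ·) hf hg, rfl⟩
  zero_mem' := ⟨fun _ => 0, Sm.const _, rfl⟩
  neg_mem' := by
    rintro _ ⟨f, hf, rfl⟩
    exact ⟨fun ω => - f ω, hf.comp (- ·), rfl⟩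
  inv_mem' := by
    rintro _ ⟨f, hf, rfl⟩
    exact ⟨fun ω => (f ω)⁻¹, hf.comp (·⁻¹), rfl⟩

/-- The nonstandard reals. -/
def U : Type := Usub

instance : Field U := inferInstanceAs (Field Usub)
instance : LinearOrder U := inferInstanceAs (LinearOrder Usub)
instance : IsStrictOrderedRing U := inferInstanceAs (IsStrictOrderedRing Usub)

/-- A representative function. -/
def out (a : U) : Ω → ℝ := a.2.choose

theorem sm_out (a : U) : Sm (out a) := a.2.choose_spec.1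

theorem coe_out (a : U) : ((out a : Ω → ℝ) : Germ 𝔲 ℝ) = a.1 := a.2.choose_spec.2.symm

theorem eq_iff {a b : U} : a = b ↔ ∀ᶠ ω in 𝔲, out a ω = out b ω := by
  refine Subtype.ext_iff.trans ?_
  rw [← coe_out, ← coe_out, Germ.coe_eq]; rfl

theorem le_iff {a b : U} : a ≤ b ↔ ∀ᶠ ω in 𝔲, out a ω ≤ out b ω := by
  change a.1 ≤ b.1 ↔ _
  rw [← coe_out, ← coe_out, Germ.coe_le]; rfl

theorem ev_not {P : Ω → Prop} : (∀ᶠ ω in 𝔲, ¬ P ω) ↔ ¬ ∀ᶠ ω in 𝔲, P ω :=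
  Ultrafilter.eventually_not

theorem ev_or {P Q : Ω → Prop} : (∀ᶠ ω in 𝔲, P ω ∨ Q ω) ↔ (∀ᶠ ω in 𝔲, P ω) ∨ ∀ᶠ ω in 𝔲, Q ω :=
  Ultrafilter.eventually_or

theorem ev_em (P : Ω → Prop) : (∀ᶠ ω in 𝔲, P ω) ∨ ∀ᶠ ω in 𝔲, ¬ P ω := 𝔘.em P

theorem ev_exists_finite {ι : Type*} [Finite ι] {P : ι → Ω → Prop}
    (h : ∀ᶠ ω in 𝔲, ∃ i, P i ω) : ∃ i, ∀ᶠ ω in 𝔲, P i ω := by
  by_contra hc
  have : ∀ᶠ ω in 𝔲, ∀ i, ¬ P i ω := eventually_all.2 fun i => ev_not.2 fun h' => hc ⟨i, h'⟩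
  obtain ⟨ω, ⟨i, hi⟩, h2⟩ := (h.and this).exists
  exact h2 i hi

theorem lt_iff {a b : U} : a < b ↔ ∀ᶠ ω in 𝔲, out a ω < out b ω := by
  rw [← not_le, le_iff, ← ev_not]; simp

theorem ne_iff {a b : U} : a ≠ b ↔ ∀ᶠ ω in 𝔲, out a ω ≠ out b ω := by
  rw [Ne, eq_iff, ← ev_not]

theorem out_add (a b : U) : ∀ᶠ ω in 𝔲, out (a + b) ω = out a ω + out b ω := by
  have : ((out (a + b) : Ω → ℝ) : Germ 𝔲 ℝ) = ((out a + out b : Ω → ℝ) : Germ 𝔲 ℝ) := by
    rw [Germ.coe_add, coe_out, coe_out, coe_out]; rfl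
  exact Germ.coe_eq.1 this

theorem out_mul (a b : U) : ∀ᶠ ω in 𝔲, out (a * b) ω = out a ω * out b ω := by
  have : ((out (a * b) : Ω → ℝ) : Germ 𝔲 ℝ) = ((out a * out b : Ω → ℝ) : Germ 𝔲 ℝ) := by
    rw [Germ.coe_mul, coe_out, coe_out, coe_out]; rfl
  exact Germ.coe_eq.1 this

theorem out_neg (a : U) : ∀ᶠ ω in 𝔲, out (-a) ω = - out a ω := by
  have : ((out (-a) : Ω → ℝ) : Germ 𝔲 ℝ) = ((- out a : Ω → ℝ) : Germ 𝔲 ℝ) := by
    rw [Germ.coe_neg, coe_out, coe_out]; rfl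
  exact Germ.coe_eq.1 this

theorem out_inv (a : U) : ∀ᶠ ω in 𝔲, out a⁻¹ ω = (out a ω)⁻¹ := by
  have : ((out a⁻¹ : Ω → ℝ) : Germ 𝔲 ℝ) = (((out a)⁻¹ : Ω → ℝ) : Germ 𝔲 ℝ) := by
    rw [Germ.coe_inv, coe_out, coe_out]; rfl
  exact Germ.coe_eq.1 this

theorem out_zero : ∀ᶠ ω in 𝔲, out (0 : U) ω = 0 := by
  have : ((out (0 : U) : Ω → ℝ) : Germ 𝔲 ℝ) = ((0 : Ω → ℝ) : Germ 𝔲 ℝ) := by
    rw [coe_out]; rfl
  exact Germ.coe_eq.1 this

theorem out_one : ∀ᶠ ω in 𝔲, out (1 : U) ω = 1 := by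
  have : ((out (1 : U) : Ω → ℝ) : Germ 𝔲 ℝ) = ((1 : Ω → ℝ) : Germ 𝔲 ℝ) := by
    rw [coe_out]; rfl
  exact Germ.coe_eq.1 this

theorem out_sub (a b : U) : ∀ᶠ ω in 𝔲, out (a - b) ω = out a ω - out b ω := by
  rw [sub_eq_add_neg]
  filter_upwards [out_add a (-b), out_neg b] with ω h1 h2
  rw [h1, h2, sub_eq_add_neg]

theorem out_div (a b : U) : ∀ᶠ ω in 𝔲, out (a / b) ω = out a ω / out b ω := by
  rw [div_eq_mul_inv]
  filter_upwards [out_mul a b⁻¹, out_inv b] with ω h1 h2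
  rw [h1, h2, div_eq_mul_inv]

theorem out_pow (a : U) (n : ℕ) : ∀ᶠ ω in 𝔲, out (a ^ n) ω = out a ω ^ n := by
  induction n with
  | zero => simpa using out_one
  | succ n ih =>
    rw [pow_succ]
    filter_upwards [out_mul (a ^ n) a, ih] with ω h1 h2
    rw [h1, h2, pow_succ]

theorem out_abs (a : U) : ∀ᶠ ω in 𝔲, out |a| ω = |out a ω| := by
  rcases le_total 0 a with h | h
  · rw [abs_of_nonneg h]
    filter_upwards [le_iff.1 h, out_zero] with ω h1 h2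
    rw [abs_of_nonneg (h2 ▸ h1)]
  · rw [abs_of_nonpos h]
    filter_upwards [le_iff.1 h, out_zero, out_neg a] with ω h1 h2 h3
    rw [abs_of_nonpos (h2 ▸ h1), h3]

theorem out_sum {ι : Type*} (s : Finset ι) (a : ι → U) :
    ∀ᶠ ω in 𝔲, out (∑ i ∈ s, a i) ω = ∑ i ∈ s, out (a i) ω := by
  classical
  induction s using Finset.induction_on with
  | empty => simpa using out_zero
  | insert i s hi ih =>
    simp only [Finset.sum_insert hi]
    filter_upwards [out_add (a i) (∑ j ∈ s, a j), ih] with ω h1 h2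
    rw [h1, h2]

open Classical in
/-- The element of `U` given by a small real function. -/
def cl (f : Ω → ℝ) : U := if h : Sm f then ⟨(f : Germ 𝔲 ℝ), f, h, rfl⟩ else 0

theorem out_cl {f : Ω → ℝ} (h : Sm f) : ∀ᶠ ω in 𝔲, out (cl f) ω = f ω := by
  have : ((out (cl f) : Ω → ℝ) : Germ 𝔲 ℝ) = (f : Germ 𝔲 ℝ) := by
    have e : cl f = ⟨(f : Germ 𝔲 ℝ), f, h, rfl⟩ := dif_pos h
    rw [coe_out, e]
  exact Germ.coe_eq.1 this

theorem cl_eq {f : Ω → ℝ} {a : U} (h : ∀ᶠ ω in 𝔲, out a ω = f ω) : cl f = a := by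
  have hs : Sm f := (sm_out a).congr (EventuallyEq.symm h)
  rw [eq_iff]
  filter_upwards [out_cl hs, h] with ω h1 h2
  rw [h1, h2]

def ofRealHom : ℝ →+* U where
  toFun r := cl fun _ => r
  map_one' := cl_eq out_one
  map_zero' := cl_eq out_zero
  map_mul' r s := cl_eq (by
    filter_upwards [out_mul (cl fun _ => r) (cl fun _ => s), out_cl (Sm.const r),
      out_cl (Sm.const s)] with ω h1 h2 h3
    rw [h1, h2, h3])
  map_add' r s := cl_eq (by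
    filter_upwards [out_add (cl fun _ => r) (cl fun _ => s), out_cl (Sm.const r),
      out_cl (Sm.const s)] with ω h1 h2 h3
    rw [h1, h2, h3])

instance : Algebra ℝ U := ofRealHom.toAlgebra

theorem out_real (r : ℝ) : ∀ᶠ ω in 𝔲, out (algebraMap ℝ U r) ω = r := out_cl (Sm.const r)

theorem real_lt {r s : ℝ} : algebraMap ℝ U r < algebraMap ℝ U s ↔ r < s := by
  rw [lt_iff]
  constructor
  · intro h
    obtain ⟨ω, h1, h2, h3⟩ := (h.and ((out_real r).and (out_real s))).exists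
    rwa [h2, h3] at h1
  · intro h
    filter_upwards [out_real r, out_real s] with ω h2 h3
    rwa [h2, h3]

theorem real_pos {r : ℝ} (h : 0 < r) : 0 < algebraMap ℝ U r := by
  simpa using real_lt.2 h

theorem out_smul (r : ℝ) (a : U) : ∀ᶠ ω in 𝔲, out (r • a) ω = r * out a ω := by
  rw [Algebra.smul_def]
  filter_upwards [out_mul (algebraMap ℝ U r) a, out_real r] with ω h1 h2
  rw [h1, h2]

/-- The point of `ι → ℝ` given by a tuple. -/
def tup {ι : Type} (a : ι → U) (ω : Ω) : ι → ℝ := fun i => out (a i) ω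

theorem sm_tup {ι : Type} [Finite ι] (a : ι → U) : Sm (tup a) := Sm.pi fun i => sm_out (a i)

/-- Saturation. -/
theorem sat {α : Type} {p : Ω → α} (hp : Sm p) {I : Type*} (X : I → α → ℝ → Prop)
    (h : ∀ s : Finset I, ∀ᶠ ω in 𝔲, ∃ t, ∀ i ∈ s, X i (p ω) t) :
    ∃ b : U, ∀ i, ∀ᶠ ω in 𝔲, X i (p ω) (out b ω) := by
  classical
  obtain ⟨n, g, hg⟩ := hp
  let F : Filter ((lev n).Ω × ℝ) := ⨅ i, 𝓟 {z | X i (g z.1) z.2}
  have hF : ∀ Y ∈ F, ∀ᶠ ω in ((lev n).u : Filter (lev n).Ω), ∃ t, (ω, t) ∈ Y := by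
    intro Y hY
    obtain ⟨J, hJ, V, hV, rfl⟩ := mem_iInf.1 hY
    rw [← map_prj, eventually_map]
    filter_upwards [h hJ.toFinset, hg] with ω ⟨t, ht⟩ h2
    refine ⟨t, mem_iInter.2 fun i => mem_principal.1 (hV i) ?_⟩
    have := ht i (hJ.mem_toFinset.2 i.2)
    rwa [h2] at this
  let τ : (lev n).Task := ⟨F, hF⟩
  have hb : Sm fun ω : Ω => ω n τ := ⟨n + 1, fun x => x.2 τ, EventuallyEq.rfl⟩
  refine ⟨cl fun ω => ω n τ, fun i => ?_⟩
  have h1 : ∀ᶠ x in ((lev (n + 1)).u : Filter (lev (n + 1)).Ω), X i (g x.1) (x.2 τ) := by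
    refine (Ultrafilter.of_le (lev n).flt).trans (inf_le_right.trans (iInf_le _ τ)) ?_
    have : {z : (lev n).Ω × ℝ | X i (g z.1) z.2} ∈ F := mem_iInf_of_mem i (mem_principal_self _)
    exact preimage_mem_comap this
  rw [← map_prj, eventually_map] at h1
  filter_upwards [h1, out_cl hb, hg] with ω h1 h2 h3
  rw [h2, h3]; exact h1

/-- Saturation for tuples. -/
theorem sat_fin (m : ℕ) : ∀ {α : Type} {p : Ω → α} (_ : Sm p) {I : Type} (X : I → α → (Fin m → ℝ) → Prop)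
    (_ : ∀ s : Finset I, ∀ᶠ ω in 𝔲, ∃ t, ∀ i ∈ s, X i (p ω) t),
    ∃ b : Fin m → U, ∀ i, ∀ᶠ ω in 𝔲, X i (p ω) (tup b ω) := by
  classical
  induction m with
  | zero =>
    intro α p _ I X h
    refine ⟨Fin.elim0, fun i => ?_⟩
    filter_upwards [h {i}] with ω ⟨t, ht⟩
    have h1 := ht i (by simp)
    have h2 : t = tup Fin.elim0 ω := funext fun j => j.elim0
    exact h2 ▸ h1
  | succ m ih =>
    intro α p hp I X h
    obtain ⟨b, hb⟩ := ih hp (I := Finset I)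
      (fun s x y => ∃ t : ℝ, ∀ i ∈ s, X i x (Fin.cons t y)) (fun s => by
        filter_upwards [h (s.biUnion id)] with ω ⟨t, ht⟩
        exact ⟨Fin.tail t, fun j hj => ⟨t 0, fun i hi => by
          rw [Fin.cons_self_tail]; exact ht i (Finset.mem_biUnion.2 ⟨j, hj, hi⟩)⟩⟩)
    obtain ⟨c, hc⟩ := sat (hp.prod (sm_tup b)) (fun i z t => X i z.1 (Fin.cons t z.2)) hb
    refine ⟨Fin.cons c b, fun i => ?_⟩
    filter_upwards [hc i] with ω hω
    have h2 : tup (Fin.cons c b) ω = Fin.cons (out c ω) (tup b ω) := by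
      funext j
      refine Fin.cases rfl (fun _ => rfl) j
    rw [h2]
    exact hω

end

end Pool.Agent.Shared.OMin
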