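import Pool.Agent.Shared.OMin.Def
import Pool.Agent.Shared.OMin.NS

/-! Points of the saturated extension, definable closure, generic tuples, infinitesimals,
derivations, transport along equal types, differential subfields. -/

namespace Pool.Agent.Shared.OMin

open Set Filter Topology

noncomputable section

/-- the first `k` entries of `P` as a real point depending on `ω` -/
def tp (P : ℕ → U) (k : ℕ) (ω : Ω) : Fin k → ℝ := fun i => out (P i) ω

theorem sm_tp (P : ℕ → U) (k : ℕ) : Sm (tp P k) := Sm.pi fun i : Fin k => sm_out (P i)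

/-- value of a real function at a nonstandard point -/
def ev {k : ℕ} (G : (Fin k → ℝ) → ℝ) (P : ℕ → U) : U := cl fun ω => G (tp P k ω)

/-- a real predicate holds at a nonstandard point -/
def At {k : ℕ} (X : (Fin k → ℝ) → Prop) (P : ℕ → U) : Prop := ∀ᶠ ω in 𝔲, X (tp P k ω)

theorem out_ev {k : ℕ} (G : (Fin k → ℝ) → ℝ) (P : ℕ → U) :
    ∀ᶠ ω in 𝔲, out (ev G P) ω = G (tp P k ω) := out_cl ((sm_tp P k).comp G)

theorem ev_eq {k : ℕ} {G : (Fin k → ℝ) → ℝ} {P : ℕ → U} {b : U}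
    (h : ∀ᶠ ω in 𝔲, out b ω = G (tp P k ω)) : ev G P = b := cl_eq h

theorem ev_add {k : ℕ} (G H : (Fin k → ℝ) → ℝ) (P : ℕ → U) :
    ev (fun x => G x + H x) P = ev G P + ev H P := ev_eq (by
  filter_upwards [out_add (ev G P) (ev H P), out_ev G P, out_ev H P] with ω h1 h2 h3
  rw [h1, h2, h3])

theorem ev_mul {k : ℕ} (G H : (Fin k → ℝ) → ℝ) (P : ℕ → U) :
    ev (fun x => G x * H x) P = ev G P * ev H P := ev_eq (by
  filter_upwards [out_mul (ev G P) (ev H P), out_ev G P, out_ev H P] with ω h1 h2 h3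
  rw [h1, h2, h3])

theorem ev_neg {k : ℕ} (G : (Fin k → ℝ) → ℝ) (P : ℕ → U) :
    ev (fun x => - G x) P = - ev G P := ev_eq (by
  filter_upwards [out_neg (ev G P), out_ev G P] with ω h1 h2
  rw [h1, h2])

theorem ev_sub {k : ℕ} (G H : (Fin k → ℝ) → ℝ) (P : ℕ → U) :
    ev (fun x => G x - H x) P = ev G P - ev H P := ev_eq (by
  filter_upwards [out_sub (ev G P) (ev H P), out_ev G P, out_ev H P] with ω h1 h2 h3
  rw [h1, h2, h3])

theorem ev_inv {k : ℕ} (G : (Fin k → ℝ) → ℝ) (P : ℕ → U) :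
    ev (fun x => (G x)⁻¹) P = (ev G P)⁻¹ := ev_eq (by
  filter_upwards [out_inv (ev G P), out_ev G P] with ω h1 h2
  rw [h1, h2])

theorem ev_div {k : ℕ} (G H : (Fin k → ℝ) → ℝ) (P : ℕ → U) :
    ev (fun x => G x / H x) P = ev G P / ev H P := ev_eq (by
  filter_upwards [out_div (ev G P) (ev H P), out_ev G P, out_ev H P] with ω h1 h2 h3
  rw [h1, h2, h3])

theorem ev_const {k : ℕ} (r : ℝ) (P : ℕ → U) :
    ev (fun _ : Fin k → ℝ => r) P = algebraMap ℝ U r := ev_eq (out_real r)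

theorem ev_coord {k : ℕ} (i : Fin k) (P : ℕ → U) : ev (fun x : Fin k → ℝ => x i) P = P i :=
  ev_eq (Eventually.of_forall fun _ => rfl)

variable (S : OStr)

/-- definable closure of the first `k` entries -/
def dcl (P : ℕ → U) (k : ℕ) : IntermediateField ℝ U where
  carrier := {b | ∃ G : (Fin k → ℝ) → ℝ, DF S G ∧ b = ev G P}
  mul_mem' := by
    rintro _ _ ⟨G, hG, rfl⟩ ⟨H, hH, rfl⟩
    exact ⟨_, hG.mul hH, (ev_mul G H P).symm⟩
  add_mem' := by
    rintro _ _ ⟨G, hG, rfl⟩ ⟨H, hH, rfl⟩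
    exact ⟨_, hG.add hH, (ev_add G H P).symm⟩
  algebraMap_mem' r := ⟨_, DF.const r, (ev_const r P).symm⟩
  inv_mem' := by
    rintro _ ⟨G, hG, rfl⟩
    exact ⟨_, hG.inv, (ev_inv G P).symm⟩

/-- generic tuple -/
def Gen (P : ℕ → U) (k : ℕ) : Prop := ∀ i < k, P i ∉ dcl S P i

/-- a nonstandard point of `α` that is definable over the first `k` entries of `P` -/
def InD {α : Type} [NormedAddCommGroup α] [NormedSpace ℝ α] [FiniteDimensional ℝ α]
    (P : ℕ → U) (k : ℕ) (p : Ω → α) : Prop :=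
  ∃ G : (Fin k → ℝ) → α, DF S G ∧ ∀ᶠ ω in 𝔲, p ω = G (tp P k ω)

/-- replace entry `k` -/
def upd (P : ℕ → U) (k : ℕ) (w : U) : ℕ → U := Function.update P k w

/-- same first `k` entries -/
def Agree (P Q : ℕ → U) (k : ℕ) : Prop := ∀ i < k, P i = Q i

/-- infinitesimal over `N` -/
def Inf (N : IntermediateField ℝ U) (e : U) : Prop := ∀ δ ∈ N, 0 < δ → |e| < δ

/-- bounded over `N` -/
def Bdd (N : IntermediateField ℝ U) (e : U) : Prop := ∃ M ∈ N, |e| ≤ M

variable {S}

theorem Inf.zero (N : IntermediateField ℝ U) : Inf N 0 := fun δ _ h => by simpa using h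

theorem Inf.add {N : IntermediateField ℝ U} {a b : U} (ha : Inf N a) (hb : Inf N b) :
    Inf N (a + b) := fun δ hδ h => by
  have h2 : δ / 2 ∈ N := N.div_mem hδ (by exact_mod_cast N.natCast_mem 2)
  have := ha _ h2 (by positivity)
  have := hb _ h2 (by positivity)
  linarith [abs_add_le a b]

theorem Inf.neg {N : IntermediateField ℝ U} {a : U} (ha : Inf N a) : Inf N (-a) :=
  fun δ hδ h => by simpa using ha δ hδ h

theorem Inf.sub {N : IntermediateField ℝ U} {a b : U} (ha : Inf N a) (hb : Inf N b) :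
    Inf N (a - b) := by simpa [sub_eq_add_neg] using ha.add hb.neg

theorem Inf.of_le {N : IntermediateField ℝ U} {a b : U} (ha : Inf N a) (h : |b| ≤ |a|) :
    Inf N b := fun δ hδ h0 => h.trans_lt (ha δ hδ h0)

theorem Inf.anti {N N' : IntermediateField ℝ U} {a : U} (ha : Inf N a) (h : N' ≤ N) :
    Inf N' a := fun δ hδ h0 => ha δ (h hδ) h0

theorem Inf.mul_bdd {N : IntermediateField ℝ U} {a b : U} (ha : Inf N a) (hb : Bdd N b) :
    Inf N (a * b) := fun δ hδ h => by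
  obtain ⟨M, hM, hb⟩ := hb
  have hM0 : 0 < M + 1 := by linarith [abs_nonneg b]
  have h1 := ha (δ / (M + 1)) (N.div_mem hδ (N.add_mem hM N.one_mem)) (by positivity)
  rw [lt_div_iff₀ hM0] at h1
  rw [abs_mul]
  nlinarith [abs_nonneg a, abs_nonneg b]

theorem Inf.bdd_mul {N : IntermediateField ℝ U} {a b : U} (hb : Bdd N b) (ha : Inf N a) :
    Inf N (b * a) := mul_comm a b ▸ ha.mul_bdd hb

theorem abs_mem_if {N : IntermediateField ℝ U} {a : U} (h : a ∈ N) : |a| ∈ N := by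
  rcases abs_choice a with e | e <;> rw [e]
  exacts [h, N.neg_mem h]

theorem Bdd.of_mem {N : IntermediateField ℝ U} {a : U} (h : a ∈ N) : Bdd N a :=
  ⟨_, abs_mem_if h, le_rfl⟩

theorem Inf.bdd {N : IntermediateField ℝ U} {a : U} (h : Inf N a) : Bdd N a :=
  ⟨1, N.one_mem, (h 1 N.one_mem one_pos).le⟩

theorem Bdd.add {N : IntermediateField ℝ U} {a b : U} (ha : Bdd N a) (hb : Bdd N b) :
    Bdd N (a + b) := by
  obtain ⟨M, hM, ha⟩ := ha
  obtain ⟨M', hM', hb⟩ := hb
  exact ⟨M + M', N.add_mem hM hM', by linarith [abs_add_le a b]⟩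

theorem Bdd.mul {N : IntermediateField ℝ U} {a b : U} (ha : Bdd N a) (hb : Bdd N b) :
    Bdd N (a * b) := by
  obtain ⟨M, hM, ha⟩ := ha
  obtain ⟨M', hM', hb⟩ := hb
  exact ⟨M * M', N.mul_mem hM hM', by
    rw [abs_mul]; exact mul_le_mul ha hb (abs_nonneg _) ((abs_nonneg _).trans ha)⟩

theorem Bdd.of_near {N : IntermediateField ℝ U} {e ρ : U} (hρ : ρ ∈ N) (h : Inf N (e - ρ)) :
    Bdd N e := by
  simpa using h.bdd.add (Bdd.of_mem hρ)

theorem Inf.eq_zero {N : IntermediateField ℝ U} {a : U} (h : Inf N a) (ha : a ∈ N) : a = 0 := by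
  by_contra h0
  exact lt_irrefl _ (h _ (abs_mem_if ha) (abs_pos.2 h0))

theorem Inf.inv_sub {N : IntermediateField ℝ U} {e ρ : U} (hρ : ρ ∈ N) (h0 : ρ ≠ 0)
    (h : Inf N (e - ρ)) : Inf N (e⁻¹ - ρ⁻¹) := by
  have hρ0 : 0 < |ρ| := abs_pos.2 h0
  have h2 : (2 : U) ∈ N := by exact_mod_cast N.natCast_mem 2
  have h1 := h (|ρ| / 2) (N.div_mem (abs_mem_if hρ) h2) (by positivity)
  have he : |ρ| / 2 < |e| := by
    have := abs_sub_abs_le_abs_sub ρ e
    rw [abs_sub_comm] at this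
    linarith
  have he0 : e ≠ 0 := by
    rintro rfl
    simp only [abs_zero] at he
    linarith
  have hb : Bdd N (e⁻¹ * ρ⁻¹) := by
    refine Bdd.mul ⟨2 / |ρ|, N.div_mem h2 (abs_mem_if hρ), ?_⟩ (Bdd.of_mem (N.inv_mem hρ))
    rw [abs_inv, inv_eq_one_div, div_le_div_iff₀ (abs_pos.2 he0) hρ0]
    linarith
  have := h.neg.mul_bdd hb
  convert this using 1
  field_simp
  ring

/-- the field of standard parts in `N` of elements of `K` -/
def stF (N K : IntermediateField ℝ U) : IntermediateField ℝ U where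
  carrier := {ρ | ρ ∈ N ∧ ∃ e ∈ K, Inf N (e - ρ)}
  mul_mem' := by
    rintro a b ⟨ha, e, he, h⟩ ⟨hb, e', he', h'⟩
    refine ⟨N.mul_mem ha hb, e * e', K.mul_mem he he', ?_⟩
    have := (h.mul_bdd (Bdd.of_near hb h')).add (Inf.bdd_mul (Bdd.of_mem ha) h')
    convert this using 1
    ring
  add_mem' := by
    rintro a b ⟨ha, e, he, h⟩ ⟨hb, e', he', h'⟩
    refine ⟨N.add_mem ha hb, e + e', K.add_mem he he', ?_⟩
    convert h.add h' using 1
    ring
  algebraMap_mem' r := ⟨N.algebraMap_mem r, _, K.algebraMap_mem r, by simpa using Inf.zero N⟩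
  inv_mem' := by
    rintro a ⟨ha, e, he, h⟩
    by_cases h0 : a = 0
    · subst h0
      exact ⟨by simp, 0, K.zero_mem, by simpa using Inf.zero N⟩
    · exact ⟨N.inv_mem ha, e⁻¹, K.inv_mem he, h.inv_sub ha h0⟩

theorem mem_stF {N K : IntermediateField ℝ U} {ρ : U} :
    ρ ∈ stF N K ↔ ρ ∈ N ∧ ∃ e ∈ K, Inf N (e - ρ) := Iff.rfl

/-- unit vector (zero if `k ≤ i`) -/
def uv (k i : ℕ) : Fin k → ℝ := fun j => if (j : ℕ) = i then 1 else 0

/-- partial derivative of a real function -/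
def pdv {k : ℕ} (G : (Fin k → ℝ) → ℝ) (i : ℕ) : (Fin k → ℝ) → ℝ :=
  fun x => fderiv ℝ G x (uv k i)

variable (S)

open Classical in
/-- partial derivative on the definable closure of a generic tuple -/
def pd (P : ℕ → U) (k i : ℕ) (b : U) : U :=
  if h : ∃ G : (Fin k → ℝ) → ℝ, DF S G ∧ b = ev G P then ev (pdv h.choose i) P else 0

/-- equal types -/
def SameTp (P Q : ℕ → U) (k : ℕ) : Prop :=
  ∀ X : (Fin k → ℝ) → Prop, DP S X → (At X P ↔ At X Q)

/-- transport relation -/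
def Tr (P Q : ℕ → U) (k : ℕ) (a b : U) : Prop :=
  ∃ G : (Fin k → ℝ) → ℝ, DF S G ∧ a = ev G P ∧ b = ev G Q

/-- transported field -/
def trF (P Q : ℕ → U) (k : ℕ) (E : IntermediateField ℝ U) : IntermediateField ℝ U where
  carrier := {b | ∃ a ∈ E, Tr S P Q k a b}
  mul_mem' := by
    rintro _ _ ⟨_, ha, G, hG, rfl, rfl⟩ ⟨_, hb, H, hH, rfl, rfl⟩
    exact ⟨_, E.mul_mem ha hb, _, hG.mul hH, (ev_mul G H P).symm, (ev_mul G H Q).symm⟩
  add_mem' := by
    rintro _ _ ⟨_, ha, G, hG, rfl, rfl⟩ ⟨_, hb, H, hH, rfl, rfl⟩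
    exact ⟨_, E.add_mem ha hb, _, hG.add hH, (ev_add G H P).symm, (ev_add G H Q).symm⟩
  algebraMap_mem' r :=
    ⟨_, E.algebraMap_mem r, _, DF.const r, (ev_const r P).symm, (ev_const r Q).symm⟩
  inv_mem' := by
    rintro _ ⟨_, ha, G, hG, rfl, rfl⟩
    exact ⟨_, E.inv_mem ha, _, hG.inv, (ev_inv G P).symm, (ev_inv G Q).symm⟩

/-- relative algebraic closure in `U` -/
def rcl (E : IntermediateField ℝ U) : IntermediateField ℝ U :=
  (algebraicClosure E U).restrictScalars ℝ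

theorem mem_rcl {E : IntermediateField ℝ U} {b : U} : b ∈ rcl E ↔ IsAlgebraic E b :=
  mem_algebraicClosure_iff

/-- relatively algebraically closed -/
def RC (E : IntermediateField ℝ U) : Prop := ∀ b : U, IsAlgebraic E b → b ∈ E

/-- closed under the partial derivatives -/
def PC (P : ℕ → U) (k : ℕ) (E : IntermediateField ℝ U) : Prop :=
  ∀ i, ∀ b ∈ E, pd S P k i b ∈ E

/-- differential, relatively algebraically closed subfield of the definable closure -/
structure DFld (P : ℕ → U) (k : ℕ) (E : IntermediateField ℝ U) : Prop where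
  le : E ≤ dcl S P k
  rc : RC E
  pc : PC S P k E

/-- adjoin one element and close -/
def adj (E : IntermediateField ℝ U) (w : U) : IntermediateField ℝ U :=
  rcl (E ⊔ IntermediateField.adjoin ℝ {w})

/-- order preserving bijection of `U` onto `(-1,1)` -/
def sq1 (u : U) : U := u / (1 + |u|)

/-- inverse of `sq1` -/
def sq1i (u : U) : U := u / (1 - |u|)

end

end Pool.Agent.Shared.OMin
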