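import Pool.Agent.Shared.OMin.Khov
import Pool.Agent.Shared.OMin.Grid
import Pool.Agent.Shared.OMin.Cells

/-! Closure properties of projections of limits of Pfaffian families. -/

namespace Pool.Agent.Shared.OMin

open Set Filter Topology Module

variable {α E E' β γ β' : Type}
  [NormedAddCommGroup α] [NormedSpace ℝ α] [FiniteDimensional ℝ α]
  [NormedAddCommGroup E] [NormedSpace ℝ E] [FiniteDimensional ℝ E]
  [NormedAddCommGroup E'] [NormedSpace ℝ E'] [FiniteDimensional ℝ E']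
  [NormedAddCommGroup β] [NormedSpace ℝ β] [FiniteDimensional ℝ β]
  [NormedAddCommGroup γ] [NormedSpace ℝ γ] [FiniteDimensional ℝ γ]
  [NormedAddCommGroup β'] [NormedSpace ℝ β'] [FiniteDimensional ℝ β'] {S : OStr}

theorem new_param {I J γ : Type} (𝒰 : Ultrafilter I) (X : J → I → γ → Prop)
    (h : ∀ s : Finset J, ∀ᶠ i in (𝒰 : Filter I), ∃ t, ∀ j ∈ s, X j i t) :
    ∃ 𝒱 : Ultrafilter (I × γ), 𝒱.map Prod.fst = 𝒰 ∧
      ∀ j, ∀ᶠ z in (𝒱 : Filter (I × γ)), X j z.1 z.2 := by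
  classical
  let F : Finset J → Filter (I × γ) := fun s =>
    comap Prod.fst (𝒰 : Filter I) ⊓ 𝓟 {z | ∀ j ∈ s, X j z.1 z.2}
  have hne : ∀ s, (F s).NeBot := by
    intro s
    rw [inf_principal_neBot_iff]
    intro U hU
    obtain ⟨V, hV, hVU⟩ := mem_comap.mp hU
    obtain ⟨i, hi, t, ht⟩ := (Filter.Eventually.and (p := fun i => i ∈ V) hV (h s)).exists
    exact ⟨(i, t), hVU hi, ht⟩
  have hdir : Directed (· ≥ ·) F := by
    intro s t
    refine ⟨s ∪ t, inf_le_inf_left _ (principal_mono.2 fun z hz j hj => hz j ?_),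
      inf_le_inf_left _ (principal_mono.2 fun z hz j hj => hz j ?_)⟩ <;> simp [hj]
  have : (⨅ s, F s).NeBot := iInf_neBot_of_directed' hdir hne
  have hle : ∀ s, (Ultrafilter.of (⨅ s, F s) : Filter (I × γ)) ≤ F s := fun s =>
    (Ultrafilter.of_le _).trans (iInf_le _ s)
  refine ⟨Ultrafilter.of (⨅ s, F s), ?_, fun j => ?_⟩
  · refine Ultrafilter.eq_of_le ?_
    rw [Ultrafilter.coe_map]
    exact map_le_iff_le_comap.2 ((hle ∅).trans inf_le_left)
  · have h1 := le_principal_iff.1 ((hle {j}).trans inf_le_right)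
    exact mem_of_superset h1 fun z hz => hz j (by simp)

theorem ev_of_map {I J : Type} {𝒰 : Ultrafilter I} {𝒱 : Ultrafilter J} {r : J → I}
    (h : 𝒱.map r = 𝒰) {P : I → Prop} :
    (∀ᶠ z in (𝒱 : Filter J), P (r z)) ↔ ∀ᶠ i in (𝒰 : Filter I), P i := by
  rw [← h, Ultrafilter.coe_map, eventually_map]

/-! ### Limits along ultrafilters -/

section ulim
variable {I J X Y : Type} [TopologicalSpace X] [TopologicalSpace Y]

theorem ULim.not_mem {𝒰 : Ultrafilter I} {W : I → Set X} {z : X} :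
    z ∉ ULim 𝒰 W ↔ ∃ V ∈ 𝓝 z, ∀ᶠ i in (𝒰 : Filter I), Disjoint (W i) V := by
  simp only [ULim, mem_ofPred_eq, not_forall, exists_prop, ← Ultrafilter.eventually_not,
    not_nonempty_iff_eq_empty, disjoint_iff_inter_eq_empty]

theorem ULim.isClosed (𝒰 : Ultrafilter I) (W : I → Set X) : IsClosed (ULim 𝒰 W) := by
  rw [← isOpen_compl_iff, isOpen_iff_mem_nhds]
  intro z hz
  obtain ⟨V, hV, h⟩ := ULim.not_mem.1 hz
  filter_upwards [eventually_mem_nhds_iff.2 hV] with y hy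
  exact ULim.not_mem.2 ⟨V, hy, h⟩

theorem ULim.mono {𝒰 : Ultrafilter I} {W W' : I → Set X}
    (h : ∀ᶠ i in (𝒰 : Filter I), W i ⊆ W' i) : ULim 𝒰 W ⊆ ULim 𝒰 W' := by
  intro z hz V hV
  filter_upwards [h, hz V hV] with i h1 h2
  exact h2.mono (inter_subset_inter_left _ h1)

theorem ULim.reindex {𝒰 : Ultrafilter I} {𝒱 : Ultrafilter J} {r : J → I} (h : 𝒱.map r = 𝒰)
    (W : I → Set X) : ULim 𝒱 (fun j => W (r j)) = ULim 𝒰 W := by
  ext z
  refine forall₂_congr fun V _ => ?_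
  exact ev_of_map h (P := fun i => (W i ∩ V).Nonempty)

theorem ULim.const (𝒰 : Ultrafilter I) (A : Set X) : ULim 𝒰 (fun _ => A) = closure A := by
  ext z
  rw [mem_closure_iff_nhds]
  refine forall₂_congr fun V _ => ?_
  rw [eventually_const, inter_comm]

theorem ULim.prod (𝒰 : Ultrafilter I) (W : I → Set X) (W' : I → Set Y) :
    ULim 𝒰 (fun i => W i ×ˢ W' i) = ULim 𝒰 W ×ˢ ULim 𝒰 W' := by
  ext z
  constructor
  · intro hz
    refine ⟨fun V hV => ?_, fun V hV => ?_⟩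
    · filter_upwards [hz _ (continuous_fst.continuousAt.preimage_mem_nhds hV)] with i hi
      obtain ⟨p, hp, hp'⟩ := hi
      exact ⟨p.1, hp.1, hp'⟩
    · filter_upwards [hz _ (continuous_snd.continuousAt.preimage_mem_nhds hV)] with i hi
      obtain ⟨p, hp, hp'⟩ := hi
      exact ⟨p.2, hp.2, hp'⟩
  · rintro ⟨h1, h2⟩ V hV
    obtain ⟨V1, hV1, V2, hV2, hV'⟩ := mem_nhds_prod_iff.1 (show V ∈ 𝓝 (z.1, z.2) from hV)
    filter_upwards [h1 _ hV1, h2 _ hV2] with i ⟨x, hx, hx'⟩ ⟨y, hy, hy'⟩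
    exact ⟨(x, y), ⟨hx, hy⟩, hV' ⟨hx', hy'⟩⟩

theorem ULim.image_sub {𝒰 : Ultrafilter I} {W : I → Set X} {f : X → Y} (hf : Continuous f) :
    f '' ULim 𝒰 W ⊆ ULim 𝒰 fun i => f '' W i := by
  rintro _ ⟨z, hz, rfl⟩ V hV
  filter_upwards [hz _ (hf.continuousAt.preimage_mem_nhds hV)] with i ⟨x, hx, hx'⟩
  exact ⟨f x, mem_image_of_mem _ hx, hx'⟩

theorem ULim.homeo (𝒰 : Ultrafilter I) (W : I → Set X) (e : X ≃ₜ Y) :
    ULim 𝒰 (fun i => e '' W i) = e '' ULim 𝒰 W := by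
  refine Subset.antisymm (fun z hz => ?_) (ULim.image_sub e.continuous)
  have h := ULim.image_sub e.symm.continuous (mem_image_of_mem e.symm hz)
  simp only [image_image, Homeomorph.symm_apply_apply, image_id'] at h
  exact ⟨_, h, e.apply_symm_apply z⟩

/-- a compact set missing the limit is missed by most members of the family -/
theorem ULim.disjoint_compact {𝒰 : Ultrafilter I} {W : I → Set X} {K : Set X} (hK : IsCompact K)
    (h : Disjoint K (ULim 𝒰 W)) : ∀ᶠ i in (𝒰 : Filter I), Disjoint (W i) K := by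
  refine hK.induction_on (p := fun K => ∀ᶠ i in (𝒰 : Filter I), Disjoint (W i) K) (by simp)
    (fun s t hst ht => ht.mono fun i hi => hi.mono_right hst)
    (fun s t hs ht => (hs.and ht).mono fun i hi => disjoint_union_right.2 hi) fun x hx => ?_
  obtain ⟨V, hV, h'⟩ := ULim.not_mem.1 (disjoint_left.1 h hx)
  exact ⟨V, mem_nhdsWithin_of_mem_nhds hV, h'⟩

/-- limits of points are in the limit -/
theorem ULim.of_tendsto {𝒰 : Ultrafilter I} {W : I → Set X} {x : I → X} {z : X}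
    (hx : ∀ᶠ i in (𝒰 : Filter I), x i ∈ W i) (h : Tendsto x 𝒰 (𝓝 z)) : z ∈ ULim 𝒰 W := by
  intro V hV
  filter_upwards [hx, h hV] with i h1 h2
  exact ⟨_, h1, h2⟩

theorem NConn.image {N : ℕ} {W : Set X} (h : NConn N W) {f : X → Y} (hf : ContinuousOn f W) :
    NConn N (f '' W) := by
  obtain ⟨T, hT, rfl⟩ := h
  exact ⟨fun i => f '' T i, fun i => (hT i).image f (hf.mono (subset_iUnion T i)),
    image_iUnion⟩

theorem NConn.no_alt {N : ℕ} {Z : Set ℝ} (h : NConn N Z) (s t : Fin (N + 1) → ℝ)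
    (hs : ∀ i, s i ∈ Z ∧ t i ∉ Z ∧ s i < t i) (hst : ∀ i j, i < j → t i < s j) : False := by
  obtain ⟨T, hT, rfl⟩ := h
  choose c hc using fun i => mem_iUnion.1 (hs i).1
  have key : ∀ i j, i < j → c i ≠ c j := fun i j hij e =>
    (hs i).2.1 (mem_iUnion.2 ⟨c i, (hT _).Icc_subset (hc i) (e ▸ hc j)
      ⟨(hs i).2.2.le, (hst i j hij).le⟩⟩)
  obtain ⟨i, j, hij, e⟩ := Fintype.exists_ne_map_eq_of_card_lt c (by simp)
  rcases lt_or_gt_of_ne hij with h | h
  · exact key i j h e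
  · exact key j i h e.symm

end ulim

/-! ### Pfaffian families -/

theorem IsLeaf.clm {O : Set E} {ω : E → E →L[ℝ] ℝ} {L : Set E} (h : IsLeaf O ω L)
    {O' : Set E'} (hO' : IsOpen O') (φ : E' →L[ℝ] E) (hm : MapsTo φ O' O) :
    IsLeaf O' (fun q => (ω (φ q)).comp φ) (O' ∩ φ ⁻¹' L) := by
  have := h.pullback hO' (φ := φ) φ.contDiff.contDiffOn hm
  simpa only [ContinuousLinearMap.fderiv] using this

/-- general form of the data -/
theorem PfFamD.mk' {ι I : Type} [Finite ι] {A O : α → Set E} {ω : ι → α → E → E →L[ℝ] ℝ}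
    (h : PfData S A O ω) {Φ : α → E → β} (hΦ : DF S fun z : α × E => Φ z.1 z.2)
    (hc : ∀ a, ContDiffOn ℝ 1 (Φ a) (O a)) {W : I → Set β}
    (hW : ∀ i, ∃ (a : α) (L : ι → Set E),
      (∀ j, IsLeaf (O a) (ω j a) (L j)) ∧ W i = Φ a '' (A a ∩ ⋂ j, L j)) :
    PfFamD S (finrank ℝ E) W := by
  obtain ⟨q, ⟨eι⟩⟩ := Finite.exists_equiv_fin ι
  let eα : (Fin (finrank ℝ α) → ℝ) ≃L[ℝ] α := (finBasis ℝ α).equivFun.symm.toContinuousLinearEquiv
  let eE : (Fin (finrank ℝ E) → ℝ) ≃L[ℝ] E := (finBasis ℝ E).equivFun.symm.toContinuousLinearEquiv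
  let eE' : (Fin (finrank ℝ E) → ℝ) →L[ℝ] E := eE
  have hg : DF S fun z : (Fin (finrank ℝ α) → ℝ) × (Fin (finrank ℝ E) → ℝ) =>
      (eα z.1, eE' z.2) :=
    DF.clm ((eα : (Fin (finrank ℝ α) → ℝ) →L[ℝ] α).prodMap eE')
  refine ⟨finrank ℝ α, q, fun a => eE' ⁻¹' A (eα a), fun a => eE' ⁻¹' O (eα a),
    fun j a x => (ω (eι.symm j) (eα a) (eE' x)).comp eE', fun a x => Φ (eα a) (eE' x),
    ⟨h.dA.comp hg, h.dO.comp hg, fun j => ((h.dω _).comp hg).clm_comp (DF.const _),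
      fun a => (h.openO _).preimage eE'.continuous, fun a => preimage_mono (h.sub _),
      fun j a => ?_⟩, hΦ.comp hg, fun a => (hc _).comp eE'.contDiff.contDiffOn (mapsTo_preimage _ _),
    fun i => ?_⟩
  · exact ((h.cont _ _).comp eE'.continuous.continuousOn (mapsTo_preimage _ _)).clm_comp
      continuousOn_const
  · obtain ⟨a, L, hL, hW⟩ := hW i
    refine ⟨eα.symm a, fun j => eE' ⁻¹' O a ∩ eE' ⁻¹' L (eι.symm j), fun j => ?_, ?_⟩
    · simp only [ContinuousLinearEquiv.apply_symm_apply]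
      exact (hL _).clm ((h.openO _).preimage eE'.continuous) eE' (mapsTo_preimage _ _)
    · simp only [ContinuousLinearEquiv.apply_symm_apply]
      rw [hW]
      ext y
      constructor
      · rintro ⟨x, ⟨hx, hx'⟩, rfl⟩
        obtain ⟨x, rfl⟩ : ∃ u, eE' u = x := eE.surjective x
        exact ⟨x, ⟨hx, mem_iInter.2 fun j => ⟨h.sub _ hx, mem_iInter.1 hx' _⟩⟩, rfl⟩
      · rintro ⟨x, ⟨hx, hx'⟩, rfl⟩
        refine ⟨eE' x, ⟨hx, mem_iInter.2 fun j => ?_⟩, rfl⟩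
        have := (mem_iInter.1 hx' (eι j)).2
        rwa [Equiv.symm_apply_apply] at this

/-- cut by a definable family and map by a definable family of C1 maps -/
theorem PfFamD.cut {I I' : Type} {γ β' : Type}
    [NormedAddCommGroup γ] [NormedSpace ℝ γ] [FiniteDimensional ℝ γ]
    [NormedAddCommGroup β'] [NormedSpace ℝ β'] [FiniteDimensional ℝ β'] {d : ℕ}
    {W : I → Set β} (h : PfFamD S d W) {B : γ → Set β} (hB : DP S fun z : γ × β => z.2 ∈ B z.1)
    {Ψ : γ → β → β'} (hΨ : DF S fun z : γ × β => Ψ z.1 z.2) (hc : ∀ c, ContDiff ℝ 1 (Ψ c))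
    (r : I' → I) (c : I' → γ) : PfFamD S d fun i => Ψ (c i) '' (W (r i) ∩ B (c i)) := by
  obtain ⟨k, q, A, O, ω, Φ, hd, hΦ, hΦc, hW⟩ := h
  have hg : DF S fun z : ((Fin k → ℝ) × γ) × (Fin d → ℝ) => (z.1.1, z.2) := by fun_prop
  have hg' : DF S fun z : ((Fin k → ℝ) × γ) × (Fin d → ℝ) => (z.1.2, Φ z.1.1 z.2) :=
    DF.prodMk (by fun_prop) (hΦ.comp hg)
  have key := PfFamD.mk' (S := S) (α := (Fin k → ℝ) × γ) (ι := Fin q)
    (A := fun a => A a.1 ∩ Φ a.1 ⁻¹' B a.2) (O := fun a => O a.1) (ω := fun j a => ω j a.1)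
    ⟨(hd.dA.comp hg).and (hB.comp hg'), hd.dO.comp hg, fun j => (hd.dω j).comp hg,
      fun a => hd.openO _, fun a => inter_subset_left.trans (hd.sub _), fun j a => hd.cont _ _⟩
    (Φ := fun a x => Ψ a.2 (Φ a.1 x)) (hΨ.comp hg')
    (fun a => (hc _).comp_contDiffOn (hΦc _))
    (W := fun i => Ψ (c i) '' (W (r i) ∩ B (c i))) (fun i => by
      obtain ⟨a, L, hL, hW⟩ := hW (r i)
      refine ⟨(a, c i), L, hL, ?_⟩
      rw [hW]
      ext y
      constructor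
      · rintro ⟨_, ⟨⟨x, hx, rfl⟩, hx'⟩, rfl⟩
        exact ⟨x, ⟨⟨hx.1, hx'⟩, hx.2⟩, rfl⟩
      · rintro ⟨x, ⟨⟨hx, hx'⟩, hx''⟩, rfl⟩
        exact ⟨_, ⟨⟨x, ⟨hx, hx''⟩, rfl⟩, hx'⟩, rfl⟩)
  rwa [Module.finrank_fin_fun] at key

theorem PfFam.cut {I I' : Type} {W : I → Set β} (h : PfFam S W) {B : γ → Set β}
    (hB : DP S fun z : γ × β => z.2 ∈ B z.1)
    {Ψ : γ → β → β'} (hΨ : DF S fun z : γ × β => Ψ z.1 z.2) (hc : ∀ c, ContDiff ℝ 1 (Ψ c))
    (r : I' → I) (c : I' → γ) : PfFam S fun i => Ψ (c i) '' (W (r i) ∩ B (c i)) :=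
  let ⟨d, h⟩ := h; ⟨d, h.cut hB hΨ hc r c⟩

theorem PfFamD.cut_clm {I I' : Type} {d : ℕ} {W : I → Set β} (h : PfFamD S d W) {B : γ → Set β}
    (hB : DP S fun z : γ × β => z.2 ∈ B z.1) (Ψ : β →L[ℝ] β')
    (r : I' → I) (c : I' → γ) : PfFamD S d fun i => Ψ '' (W (r i) ∩ B (c i)) :=
  h.cut hB (Ψ := fun _ => Ψ) ((DF.clm Ψ).comp (by fun_prop)) (fun _ => Ψ.contDiff) r c

theorem PfFam.cut_clm {I I' : Type} {W : I → Set β} (h : PfFam S W) {B : γ → Set β}
    (hB : DP S fun z : γ × β => z.2 ∈ B z.1) (Ψ : β →L[ℝ] β')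
    (r : I' → I) (c : I' → γ) : PfFam S fun i => Ψ '' (W (r i) ∩ B (c i)) :=
  let ⟨d, h⟩ := h; ⟨d, h.cut_clm hB Ψ r c⟩

theorem PfFamD.inter {I I' : Type} {d : ℕ} {W : I → Set β} (h : PfFamD S d W) {B : γ → Set β}
    (hB : DP S fun z : γ × β => z.2 ∈ B z.1)
    (r : I' → I) (c : I' → γ) : PfFamD S d fun i => W (r i) ∩ B (c i) := by
  simpa using h.cut_clm hB (ContinuousLinearMap.id ℝ β) r c

theorem PfFam.inter {I I' : Type} {W : I → Set β} (h : PfFam S W) {B : γ → Set β}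
    (hB : DP S fun z : γ × β => z.2 ∈ B z.1)
    (r : I' → I) (c : I' → γ) : PfFam S fun i => W (r i) ∩ B (c i) :=
  let ⟨d, h⟩ := h; ⟨d, h.inter hB r c⟩

theorem PfFamD.reindex {I I' : Type} {d : ℕ} {W : I → Set β} (h : PfFamD S d W) (r : I' → I) :
    PfFamD S d fun i => W (r i) := by
  obtain ⟨k, q, A, O, ω, Φ, hd, hΦ, hΦc, hW⟩ := h
  exact ⟨k, q, A, O, ω, Φ, hd, hΦ, hΦc, fun i => hW (r i)⟩

theorem PfFam.reindex {I I' : Type} {W : I → Set β} (h : PfFam S W) (r : I' → I) :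
    PfFam S fun i => W (r i) :=
  let ⟨d, h⟩ := h; ⟨d, h.reindex r⟩

theorem PfFamD.image {I : Type} {d : ℕ} {W : I → Set β} (h : PfFamD S d W) (Ψ : β →L[ℝ] β') :
    PfFamD S d fun i => Ψ '' W i := by
  simpa using h.cut_clm (γ := ℝ) (B := fun _ => univ) (DP.const True) Ψ id fun _ => 0

theorem PfFam.image {I : Type} {W : I → Set β} (h : PfFam S W) (Ψ : β →L[ℝ] β') :
    PfFam S fun i => Ψ '' W i :=
  let ⟨d, h⟩ := h; ⟨d, h.image Ψ⟩

/-- definable families are Pfaffian families -/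
theorem PfFam.of_def {I : Type} {B : γ → Set β} (hB : DP S fun z : γ × β => z.2 ∈ B z.1)
    (c : I → γ) : PfFam S fun i => B (c i) :=
  ⟨_, PfFamD.mk' (S := S) (α := γ) (ι := Empty) (A := B) (O := fun _ => univ)
    (ω := fun j => j.elim)
    ⟨hB, DP.const True, fun j => j.elim, fun _ => isOpen_univ, fun _ => subset_univ _,
      fun j => j.elim⟩ (Φ := fun _ x => x) (by fun_prop) (fun _ => contDiffOn_id)
    fun i => ⟨c i, fun j => j.elim, fun j => j.elim, by simp⟩⟩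

theorem PfFam.of_def_const {I : Type} {B : Set β} (hB : DP S fun x => x ∈ B) :
    PfFam S fun _ : I => B :=
  PfFam.of_def (γ := ℝ) (B := fun _ => B) (hB.comp (g := fun z : ℝ × β => z.2) (by fun_prop))
    fun _ => 0

theorem PfFam.of_leaf {I : Type} {O : Set E} (hO : IsOpen O) (dO : DP S fun x => x ∈ O)
    {ω : E → E →L[ℝ] ℝ} (dω : DF S ω) (hω : ContinuousOn ω O) {L : I → Set E}
    (h : ∀ i, IsLeaf O ω (L i)) : PfFam S L :=
  ⟨_, PfFamD.mk' (S := S) (α := ℝ) (ι := Unit) (A := fun _ => O) (O := fun _ => O)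
    (ω := fun _ _ => ω)
    ⟨dO.comp (g := fun z : ℝ × E => z.2) (by fun_prop),
      dO.comp (g := fun z : ℝ × E => z.2) (by fun_prop),
      fun _ => dω.comp (g := fun z : ℝ × E => z.2) (by fun_prop), fun _ => hO, fun _ => subset_rfl,
      fun _ _ => hω⟩ (Φ := fun _ x => x) (by fun_prop) (fun _ => contDiffOn_id)
    fun i => ⟨0, fun _ => L i, fun _ => h i, by
      obtain ⟨Lp, Lm, hL⟩ := h i
      simp [iInter_const, inter_eq_right.2 hL.sub]⟩⟩

theorem PfFam.prod {I β' : Type}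
    [NormedAddCommGroup β'] [NormedSpace ℝ β'] [FiniteDimensional ℝ β']
    {W : I → Set β} {W' : I → Set β'} (h : PfFam S W) (h' : PfFam S W') :
    PfFam S fun i => W i ×ˢ W' i := by
  obtain ⟨d, k, q, A, O, ω, Φ, hd, hΦ, hΦc, hW⟩ := h
  obtain ⟨d', k', q', A', O', ω', Φ', hd', hΦ', hΦc', hW'⟩ := h'
  have hg : DF S fun z : ((Fin k → ℝ) × (Fin k' → ℝ)) × ((Fin d → ℝ) × (Fin d' → ℝ)) =>
    (z.1.1, z.2.1) := by fun_prop
  have hg' : DF S fun z : ((Fin k → ℝ) × (Fin k' → ℝ)) × ((Fin d → ℝ) × (Fin d' → ℝ)) =>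
    (z.1.2, z.2.2) := by fun_prop
  let p1 := ContinuousLinearMap.fst ℝ (Fin d → ℝ) (Fin d' → ℝ)
  let p2 := ContinuousLinearMap.snd ℝ (Fin d → ℝ) (Fin d' → ℝ)
  refine ⟨_, PfFamD.mk' (S := S) (α := (Fin k → ℝ) × (Fin k' → ℝ)) (ι := Fin q ⊕ Fin q')
    (A := fun a => A a.1 ×ˢ A' a.2) (O := fun a => O a.1 ×ˢ O' a.2)
    (ω := Sum.elim (fun j a x => (ω j a.1 (p1 x)).comp p1) fun j a x => (ω' j a.2 (p2 x)).comp p2)
    ⟨(hd.dA.comp hg).and (hd'.dA.comp hg'), (hd.dO.comp hg).and (hd'.dO.comp hg'), ?_,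
      fun a => (hd.openO _).prod (hd'.openO _), fun a => prod_mono (hd.sub _) (hd'.sub _), ?_⟩
    (Φ := fun a x => (Φ a.1 x.1, Φ' a.2 x.2)) ((hΦ.comp hg).prodMk (hΦ'.comp hg'))
    (fun a => ((hΦc _).comp contDiffOn_fst fun x hx => hx.1).prodMk
      ((hΦc' _).comp contDiffOn_snd fun x hx => hx.2)) fun i => ?_⟩
  · rintro (j | j)
    · exact ((hd.dω j).comp hg).clm_comp (DF.const _)
    · exact ((hd'.dω j).comp hg').clm_comp (DF.const _)
  · rintro (j | j) a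
    · exact ((hd.cont j _).comp continuousOn_fst fun x hx => hx.1).clm_comp continuousOn_const
    · exact ((hd'.cont j _).comp continuousOn_snd fun x hx => hx.2).clm_comp continuousOn_const
  · obtain ⟨a, L, hL, e⟩ := hW i
    obtain ⟨a', L', hL', e'⟩ := hW' i
    refine ⟨(a, a'), Sum.elim (fun j => O a ×ˢ O' a' ∩ p1 ⁻¹' L j)
      fun j => O a ×ˢ O' a' ∩ p2 ⁻¹' L' j, ?_, ?_⟩
    · rintro (j | j)
      · exact (hL j).clm ((hd.openO _).prod (hd'.openO _)) p1 fun x hx => hx.1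
      · exact (hL' j).clm ((hd.openO _).prod (hd'.openO _)) p2 fun x hx => hx.2
    · rw [e, e']
      ext y
      constructor
      · rintro ⟨⟨x, ⟨hx, hxL⟩, e1⟩, x', ⟨hx', hxL'⟩, e2⟩
        refine ⟨(x, x'), ⟨⟨hx, hx'⟩, mem_iInter.2 ?_⟩, Prod.ext e1 e2⟩
        rintro (j | j)
        · exact ⟨⟨hd.sub _ hx, hd'.sub _ hx'⟩, mem_iInter.1 hxL j⟩
        · exact ⟨⟨hd.sub _ hx, hd'.sub _ hx'⟩, mem_iInter.1 hxL' j⟩
      · rintro ⟨x, ⟨⟨hx, hx'⟩, hxL⟩, rfl⟩
        exact ⟨⟨x.1, ⟨hx, mem_iInter.2 fun j => (mem_iInter.1 hxL (.inl j)).2⟩, rfl⟩,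
          x.2, ⟨hx', mem_iInter.2 fun j => (mem_iInter.1 hxL (.inr j)).2⟩, rfl⟩

theorem PfFam.nconn {I : Type} {W : I → Set β} (h : PfFam S W) : ∃ N, ∀ i, NConn N (W i) := by
  obtain ⟨d, k, q, A, O, ω, Φ, hd, hΦ, hΦc, hW⟩ := h
  obtain ⟨N, hN⟩ := khovanskii hd
  refine ⟨N, fun i => ?_⟩
  obtain ⟨a, L, hL, e⟩ := hW i
  rw [e]
  exact (hN a L hL).image ((hΦc a).continuousOn.mono (inter_subset_left.trans (hd.sub a)))

/-! ### Projections of limits -/

/-- general form: any finite dimensional space of extra variables -/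
theorem TSet.mk' {I γ : Type} [NormedAddCommGroup γ] [NormedSpace ℝ γ] [FiniteDimensional ℝ γ]
    (𝒰 : Ultrafilter I) {W : I → Set (β × γ)} (h : PfFam S W) :
    TSet S (Prod.fst '' ULim 𝒰 W) := by
  let e : γ ≃L[ℝ] (Fin (finrank ℝ γ) → ℝ) := (finBasis ℝ γ).equivFun.toContinuousLinearEquiv
  let e' := (ContinuousLinearEquiv.refl ℝ β).prodCongr e
  refine ⟨I, 𝒰, _, fun i => e'.toHomeomorph '' W i,
    h.image (e' : β × γ →L[ℝ] β × (Fin (finrank ℝ γ) → ℝ)), ?_⟩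
  rw [ULim.homeo, image_image]
  rfl

theorem TSet.ulim {I : Type} (𝒰 : Ultrafilter I) {W : I → Set β} (h : PfFam S W) :
    TSet S (ULim 𝒰 W) := by
  have := TSet.mk' 𝒰 (h.prod (PfFam.of_def_const (B := (univ : Set ℝ)) (DP.const True)))
  rwa [ULim.prod, ULim.const, closure_univ, fst_image_prod _ univ_nonempty] at this

theorem TSet.fst {X : Set (β × γ)} (h : TSet S X) : TSet S (Prod.fst '' X) := by
  obtain ⟨I, 𝒰, l, W, hW, rfl⟩ := h
  let e := ContinuousLinearEquiv.prodAssoc ℝ β γ (Fin l → ℝ)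
  have := TSet.mk' 𝒰 (W := fun i => e.toHomeomorph '' W i)
    (hW.image (e : (β × γ) × (Fin l → ℝ) →L[ℝ] β × γ × (Fin l → ℝ)))
  rw [ULim.homeo, image_image] at this
  rw [image_image]
  exact this

theorem TSet.equiv {X : Set β} (h : TSet S X) (e : β ≃L[ℝ] β') : TSet S (e '' X) := by
  obtain ⟨I, 𝒰, l, W, hW, rfl⟩ := h
  let e' := e.prodCongr (ContinuousLinearEquiv.refl ℝ (Fin l → ℝ))
  have := TSet.mk' 𝒰 (W := fun i => e'.toHomeomorph '' W i)
    (hW.image (e' : β × (Fin l → ℝ) →L[ℝ] β' × (Fin l → ℝ)))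
  rw [ULim.homeo, image_image] at this
  rw [image_image]
  exact this

theorem TSet.prod {X : Set β} {Y : Set β'} (h : TSet S X) (h' : TSet S Y) :
    TSet S (X ×ˢ Y) := by
  obtain ⟨I, 𝒰, l, W, hW, rfl⟩ := h
  obtain ⟨I', 𝒰', l', W', hW', rfl⟩ := h'
  let 𝒱 : Ultrafilter (I × I') := Ultrafilter.of ((𝒰 : Filter I) ×ˢ (𝒰' : Filter I'))
  have h1 : 𝒱.map Prod.fst = 𝒰 :=
    Ultrafilter.eq_of_le (tendsto_fst.mono_left (Ultrafilter.of_le _))
  have h2 : 𝒱.map Prod.snd = 𝒰' :=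
    Ultrafilter.eq_of_le (tendsto_snd.mono_left (Ultrafilter.of_le _))
  let e := ContinuousLinearEquiv.prodProdProdComm ℝ β (Fin l → ℝ) β' (Fin l' → ℝ)
  have := TSet.mk' 𝒱 (W := fun i => e.toHomeomorph '' (W i.1 ×ˢ W' i.2))
    (((hW.reindex Prod.fst).prod (hW'.reindex Prod.snd)).image
      (e : (β × (Fin l → ℝ)) × β' × (Fin l' → ℝ) →L[ℝ] (β × β') × (Fin l → ℝ) × (Fin l' → ℝ)))
  rw [ULim.homeo, image_image, ULim.prod, ULim.reindex h1, ULim.reindex h2] at this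
  rw [prod_image_image_eq]
  exact this

theorem TSet.univ : TSet S (univ : Set β) := by
  have := TSet.ulim (S := S) (pure ()) (PfFam.of_def_const (B := (Set.univ : Set β)) (DP.const True))
  rwa [ULim.const, closure_univ] at this

/-- an infinitesimal parameter -/
theorem exists_cut_zero {I X : Type} [TopologicalSpace X] (𝒰 : Ultrafilter I) (W : I → Set X)
    {g : X → ℝ} (hg : Continuous g) : ∃ 𝒱 : Ultrafilter (I × ℝ), 𝒱.map Prod.fst = 𝒰 ∧
      ULim 𝒱 (fun z => W z.1 ∩ {x | |g x| < z.2}) = ULim 𝒰 W ∩ {x | g x = 0} := by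
  let J := {p : X × Set X // p.1 ∈ ULim 𝒰 W ∧ g p.1 = 0 ∧ p.2 ∈ 𝓝 p.1} ⊕ {r : ℝ // 0 < r}
  let C : J → I → ℝ → Prop := Sum.elim
    (fun p i t => (W i ∩ {x | |g x| < t} ∩ p.1.2).Nonempty) fun r _ t => t < r.1
  obtain ⟨𝒱, h1, h2⟩ := new_param 𝒰 C fun s => by
    have h0 : ∀ j : J, ∀ᶠ t in 𝓝[>] (0 : ℝ), ∀ᶠ i in (𝒰 : Filter I), C j i t := by
      rintro (⟨p, hp, hp0, hV⟩ | ⟨r, hr⟩)
      · filter_upwards [self_mem_nhdsWithin] with t ht
        have h3 : {x | |g x| < t} ∈ 𝓝 p.1 :=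
          (isOpen_lt hg.abs continuous_const).mem_nhds (by simpa [hp0] using ht)
        filter_upwards [hp _ (inter_mem h3 hV)] with i hi
        simpa only [C, Sum.elim_inl, inter_assoc] using hi
      · filter_upwards [mem_nhdsWithin_of_mem_nhds (Iio_mem_nhds hr)] with t ht
        exact Eventually.of_forall fun _ => ht
    obtain ⟨t, ht⟩ := ((eventually_all_finset s).2 fun j _ => h0 j).exists
    exact ((eventually_all_finset s).2 ht).mono fun i hi => ⟨t, hi⟩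
  refine ⟨𝒱, h1, Subset.antisymm (fun x hx => ⟨?_, ?_⟩) fun x hx V hV =>
    h2 (.inl ⟨(x, V), hx.1, hx.2, hV⟩)⟩
  · rw [← ULim.reindex h1]
    exact ULim.mono (Eventually.of_forall fun _ => inter_subset_left) hx
  · by_contra h0
    have hr : 0 < |g x| / 2 := half_pos (abs_pos.2 h0)
    have h3 : {y | |g x| / 2 < |g y|} ∈ 𝓝 x :=
      (isOpen_lt continuous_const hg.abs).mem_nhds (half_lt_self (abs_pos.2 h0))
    obtain ⟨z, h4, y, ⟨-, h5⟩, h6⟩ := ((h2 (.inr ⟨_, hr⟩)).and (hx _ h3)).exists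
    exact lt_irrefl _ (lt_trans (lt_trans h6 h5) h4)

theorem TSet.cut_zero {X : Set β} (h : TSet S X) {g : β → ℝ} (hg : Continuous g) (dg : DF S g) :
    TSet S (X ∩ {x | g x = 0}) := by
  obtain ⟨I, 𝒰, l, W, hW, rfl⟩ := h
  obtain ⟨𝒱, -, h2⟩ := exists_cut_zero 𝒰 W (g := fun z => g z.1) (hg.comp continuous_fst)
  have := TSet.mk' 𝒱 (hW.inter (B := fun t : ℝ => {x : β × (Fin l → ℝ) | |g x.1| < t})
    (by simp only [mem_ofPred_eq]; fun_prop) Prod.fst Prod.snd)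
  rw [h2] at this
  rw [← image_inter_preimage]
  exact this

theorem exists_dnorm' (S : OStr) (β : Type) [NormedAddCommGroup β] [NormedSpace ℝ β]
    [FiniteDimensional ℝ β] : ∃ ν : β → ℝ, DF S ν ∧ Continuous ν ∧ (∀ y, ν y = 0 ↔ y = 0) ∧
      (∀ y, 0 ≤ ν y) ∧ (∀ (c : β) (R : ℝ), IsCompact {y | ν (y - c) ≤ R}) ∧
      ∀ (c : β), ∀ V ∈ 𝓝 c, ∃ ε : ℝ, 0 < ε ∧ ∀ y, ν (y - c) ≤ ε → y ∈ V := by
  obtain ⟨ν, C, dν, hν, hC, hb⟩ := exists_dnorm S β
  have h0 : ∀ y, 0 ≤ ν y := fun y =>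
    (mul_nonneg_iff_of_pos_left hC).1 ((norm_nonneg y).trans (hb y).1)
  refine ⟨ν, dν, hν, fun y => ⟨fun h => ?_, fun h => ?_⟩, h0, fun c R => ?_, fun c V hV => ?_⟩
  · have := (hb y).1
    rw [h, mul_zero] at this
    exact norm_le_zero_iff.1 this
  · have := (hb y).2
    rw [h, norm_zero, mul_zero] at this
    exact le_antisymm (h ▸ this) (h0 _)
  · refine (isCompact_closedBall c (C * R)).of_isClosed_subset
      (isClosed_le (hν.comp (continuous_id.sub continuous_const)) continuous_const) fun y hy => ?_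
    rw [mem_closedBall_iff_norm]
    exact (hb _).1.trans (mul_le_mul_of_nonneg_left hy hC.le)
  · obtain ⟨ε, hε, h⟩ := (ev_nhds_iff_dnorm hC hb c fun y => y ∈ V).1 hV
    exact ⟨ε / 2, half_pos hε, fun y hy => h y (hy.trans_lt (half_lt_self hε))⟩

theorem TSet.cut_eq {X : Set β} (h : TSet S X) {f g : β → γ} (hf : Continuous f) (df : DF S f)
    (hg : Continuous g) (dg : DF S g) : TSet S (X ∩ {x | f x = g x}) := by
  obtain ⟨ν, dν, hν, h0, -⟩ := exists_dnorm' S γ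
  have := h.cut_zero (g := fun x => ν (f x - g x)) (by fun_prop) (by fun_prop)
  simpa only [h0, sub_eq_zero] using this

/-- witnesses x1, x2 within eps of x, eps a new infinitesimal parameter -/
theorem TSet.inter {X Y : Set β} (h : TSet S X) (h' : TSet S Y) : TSet S (X ∩ Y) := by
  have := ((h.prod h').cut_eq (f := Prod.fst) (g := Prod.snd) continuous_fst (by fun_prop)
    continuous_snd (by fun_prop)).fst
  convert this using 1
  ext x
  constructor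
  · intro hx
    exact ⟨(x, x), ⟨hx, rfl⟩, rfl⟩
  · rintro ⟨⟨x, y⟩, ⟨hx, e⟩, rfl⟩
    obtain rfl : x = y := e
    exact hx

theorem TSet.union {X Y : Set β} (h : TSet S X) (h' : TSet S Y) : TSet S (X ∪ Y) := by
  rcases X.eq_empty_or_nonempty with rfl | ⟨x0, hx0⟩
  · rwa [empty_union]
  rcases Y.eq_empty_or_nonempty with rfl | ⟨y0, hy0⟩
  · rwa [union_empty]
  obtain ⟨ν, dν, hν, h0, -⟩ := exists_dnorm' S β
  have := (((TSet.univ (β := β)).prod (h.prod h')).cut_zero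
    (g := fun z => ν (z.1 - z.2.1) * ν (z.1 - z.2.2)) (by fun_prop) (by fun_prop)).fst
  convert this using 1
  ext x
  simp only [mul_eq_zero, h0, sub_eq_zero]
  constructor
  · rintro (hx | hx)
    · exact ⟨(x, x, y0), ⟨⟨trivial, hx, hy0⟩, .inl rfl⟩, rfl⟩
    · exact ⟨(x, x0, x), ⟨⟨trivial, hx0, hx⟩, .inr rfl⟩, rfl⟩
  · rintro ⟨⟨x, y, z⟩, ⟨⟨-, hy, hz⟩, e | e⟩, rfl⟩
    · obtain rfl : x = y := e
      exact .inl hy
    · obtain rfl : x = z := e
      exact .inr hz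

/-- preimage under a continuous definable map -/
theorem TSet.preimage {f : α → β} (hf : Continuous f) (df : DF S f) {X : Set β} (h : TSet S X) :
    TSet S (f ⁻¹' X) := by
  have := (((TSet.univ (β := α)).prod h).cut_eq (f := Prod.snd) (g := fun z => f z.1)
    continuous_snd (by fun_prop) (by fun_prop) (by fun_prop)).fst
  convert this using 1
  ext x
  constructor
  · intro hx
    exact ⟨(x, f x), ⟨⟨trivial, hx⟩, rfl⟩, rfl⟩
  · rintro ⟨⟨x, y⟩, ⟨⟨-, hy⟩, e⟩, rfl⟩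
    obtain rfl : y = f x := e
    exact hy

/-- image under a continuous definable map -/
theorem TSet.image {f : α → β} (hf : Continuous f) (df : DF S f) {X : Set α} (h : TSet S X) :
    TSet S (f '' X) := by
  have := (((TSet.univ (β := β)).prod h).cut_eq (f := Prod.fst) (g := fun z => f z.2)
    continuous_fst (by fun_prop) (by fun_prop) (by fun_prop)).fst
  convert this using 1
  ext x
  constructor
  · rintro ⟨x, hx, rfl⟩
    exact ⟨(f x, x), ⟨⟨trivial, hx⟩, rfl⟩, rfl⟩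
  · rintro ⟨⟨x, y⟩, ⟨⟨-, hy⟩, e⟩, rfl⟩
    exact ⟨y, hy, e.symm⟩

theorem TSet.pre (L : α →L[ℝ] β) {X : Set β} (h : TSet S X) : TSet S (L ⁻¹' X) :=
  h.preimage L.continuous (DF.clm L)

theorem TSet.proj {X : Set (α × ℝ)} (h : TSet S X) : TSet S {x | ∃ t, (x, t) ∈ X} := by
  convert h.fst using 1
  ext x
  simp

theorem TSet.empty : TSet S (∅ : Set β) := by
  have := TSet.ulim (S := S) (pure ()) (PfFam.of_def_const (B := (∅ : Set β)) (DP.const False))
  rwa [ULim.const, closure_empty] at this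

theorem TSet.iUnion {ι : Type} [Finite ι] {X : ι → Set β} (h : ∀ i, TSet S (X i)) :
    TSet S (⋃ i, X i) := by
  classical
  cases nonempty_fintype ι
  have : ∀ s : Finset ι, TSet S (⋃ i ∈ s, X i) := by
    intro s
    induction s using Finset.induction_on with
    | empty => simpa using TSet.empty
    | insert a s _ ih => rw [Finset.set_biUnion_insert]; exact (h a).union ih
  simpa using this Finset.univ

/-- a Pfaffian set which is closed in a definable open set -/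
theorem TSet.of_locclosed {L O : Set β} (h : PfFam S fun _ : Unit => L) (hO : IsOpen O)
    (dO : DP S fun x => x ∈ O) (h1 : L ⊆ O) (h2 : closure L ∩ O ⊆ L) : TSet S L := by
  obtain ⟨ν, dν, hν, h0, hp, -, hs⟩ := exists_dnorm' S β
  let B : Set (β × ℝ) := {z | ∀ y, ν (y - z.1) * z.2 ^ 2 ≤ 1 → y ∈ O}
  have dB : DP S fun z => z ∈ B := by
    refine DP.all (P := fun (z : β × ℝ) y => ν (y - z.1) * z.2 ^ 2 ≤ 1 → y ∈ O)
      (DP.imp (by fun_prop) (dO.mem (by fun_prop)))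
  have := TSet.mk' (pure ())
    ((h.prod (PfFam.of_def_const (B := (Set.univ : Set ℝ)) (DP.const True))).inter
      (γ := ℝ) (B := fun _ => B) (dB.comp (g := fun z : ℝ × β × ℝ => z.2) (by fun_prop)) id
      fun _ => 0)
  rw [ULim.const] at this
  convert this using 1
  ext x
  constructor
  · intro hx
    obtain ⟨ε, hε, hs⟩ := hs x O (hO.mem_nhds (h1 hx))
    refine ⟨(x, √ε⁻¹), subset_closure ⟨⟨hx, trivial⟩, fun y hy => hs y ?_⟩, rfl⟩
    rw [Real.sq_sqrt (inv_pos.2 hε).le, ← div_eq_mul_inv, div_le_one hε] at hy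
    exact hy
  · rintro ⟨z, hz, rfl⟩
    refine h2 ⟨?_, ?_⟩
    · exact closure_mono (by rintro _ ⟨w, hw, rfl⟩; exact hw.1.1)
        (image_closure_subset_closure_image continuous_fst (mem_image_of_mem _ hz))
    · have h3 : {w : β × ℝ | ν (z.1 - w.1) * w.2 ^ 2 < 1} ∈ 𝓝 z :=
        (isOpen_lt (by fun_prop) continuous_const).mem_nhds (by simp [(h0 0).2 rfl])
      obtain ⟨w, hw, hw'⟩ := mem_closure_iff_nhds.1 hz _ h3
      exact hw'.2 _ hw.le

theorem TSet.of_open_image {D : Set E} (hD : IsOpen D) (dD : DP S fun x => x ∈ D) {φ : E → β}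
    (dφ : DF S φ) (hφ : ContinuousOn φ D) : TSet S (φ '' D) := by
  have h1 : TSet S {z : β × E | z.2 ∈ D ∧ z.1 = φ z.2} := by
    refine TSet.of_locclosed (O := Prod.snd ⁻¹' D)
      (PfFam.of_def_const (DP.and (dD.mem (by fun_prop)) (by fun_prop)))
      (hD.preimage continuous_snd) (dD.mem (by fun_prop)) (fun z hz => hz.1) fun z hz => ⟨hz.2, ?_⟩
    have h2 : ContinuousAt (fun w : β × E => φ w.2) z :=
      (hφ.continuousAt (hD.mem_nhds hz.2)).comp continuousAt_snd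
    have h3 := mem_closure_iff_nhdsWithin_neBot.1 hz.1
    refine tendsto_nhds_unique_of_eventuallyEq
      (l := 𝓝[{z : β × E | z.2 ∈ D ∧ z.1 = φ z.2}] z)
      continuousAt_fst.continuousWithinAt h2.continuousWithinAt ?_
    filter_upwards [self_mem_nhdsWithin] with w hw using hw.2
  convert h1.fst using 1
  ext x
  constructor
  · rintro ⟨y, hy, rfl⟩
    exact ⟨(φ y, y), ⟨hy, rfl⟩, rfl⟩
  · rintro ⟨z, hz, rfl⟩
    exact ⟨z.2, hz.1, hz.2.symm⟩

theorem TSet.of_def {X : Set β} (h : DP S fun x => x ∈ X) : TSet S X := by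
  have h1 : TSet S (interior X) := by
    simpa using TSet.of_open_image isOpen_interior h.set_interior (φ := fun x => x) DF.id'
      continuousOn_id
  have h2 : DP S fun x => x ∈ X \ interior X := h.and h.set_interior.not
  obtain ⟨N, d, D, φ, h3, h4⟩ := DP.param (α := ℝ) (A := fun _ => X \ interior X)
    (h2.comp (g := fun z : ℝ × β => z.2) (by fun_prop)) fun _ => by
      rw [eq_empty_iff_forall_notMem]
      exact fun x hx => (interior_subset hx).2 (interior_mono sdiff_subset hx)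
  have h5 : TSet S (X \ interior X) := by
    rw [h4 0]
    refine TSet.iUnion fun j => TSet.of_open_image ((h3 j).2.2.2 0).1
      ((h3 j).2.1.comp (g := fun y => ((0 : ℝ), y)) (by fun_prop))
      ((h3 j).2.2.1.comp (g := fun y => ((0 : ℝ), y)) (by fun_prop))
      ((h3 j).2.2.2 0).2.continuousOn
  have := h1.union h5
  rwa [union_sdiff_cancel interior_subset] at this

theorem TSet.of_leaf {O : Set E} (hO : IsOpen O) (dO : DP S fun x => x ∈ O) {ω : E → E →L[ℝ] ℝ}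
    (dω : DF S ω) (hω : ContinuousOn ω O) {L : Set E} (h : IsLeaf O ω L) : TSet S L := by
  refine TSet.of_locclosed (PfFam.of_leaf hO dO dω hω fun _ => h) hO dO
    (let ⟨_, _, h'⟩ := h; h'.sub) fun x hx => ?_
  by_contra hL
  obtain ⟨y, hy, hy'⟩ := mem_closure_iff_nhds.1 hx.1 _ (h.isOpen_diff.mem_nhds ⟨hx.2, hL⟩)
  exact hy.2 hy'

/-- a small infinite parameter bounding the extra variables -/
theorem exists_clos {I X Y : Type} [TopologicalSpace X] [TopologicalSpace Y]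
    [LocallyCompactSpace X] (𝒰 : Ultrafilter I) (W : I → Set (X × Y))
    {ν : Y → ℝ} (hν : Continuous ν) (hc : ∀ R, IsCompact {y | ν y ≤ R}) :
    ∃ 𝒱 : Ultrafilter (I × ℝ), 𝒱.map Prod.fst = 𝒰 ∧
      ULim 𝒱 (fun z => Prod.fst '' (W z.1 ∩ {p | ν p.2 ≤ z.2})) =
        closure (Prod.fst '' ULim 𝒰 W) := by
  let J := {p : (X × Y) × Set X // p.1 ∈ ULim 𝒰 W ∧ p.2 ∈ 𝓝 p.1.1} ⊕
    {K : Set X // IsCompact K ∧ Disjoint K (Prod.fst '' ULim 𝒰 W)}
  let C : J → I → ℝ → Prop := Sum.elim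
    (fun p i t => (Prod.fst '' (W i ∩ {p | ν p.2 ≤ t}) ∩ p.1.2).Nonempty)
    fun K i t => Disjoint (Prod.fst '' (W i ∩ {p | ν p.2 ≤ t})) K.1
  obtain ⟨𝒱, h1, h2⟩ := new_param 𝒰 C fun s => by
    have h0 : ∀ j : J, ∀ᶠ t in (atTop : Filter ℝ), ∀ᶠ i in (𝒰 : Filter I), C j i t := by
      rintro (⟨p, hp, hV⟩ | ⟨K, hK, hd⟩)
      · filter_upwards [eventually_gt_atTop (ν p.1.2)] with t ht
        have h3 : {w : X × Y | ν w.2 < t} ∈ 𝓝 p.1 :=
          (isOpen_lt (hν.comp continuous_snd) continuous_const).mem_nhds ht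
        filter_upwards [hp _ (inter_mem h3 (continuousAt_fst.preimage_mem_nhds hV))] with i hi
        obtain ⟨w, hw, hw1, hw2⟩ := hi
        exact ⟨w.1, ⟨w, ⟨hw, le_of_lt (b := t) hw1⟩, rfl⟩, hw2⟩
      · refine Eventually.of_forall fun t => ?_
        have h3 := ULim.disjoint_compact (𝒰 := 𝒰) (W := W) (hK.prod (hc t))
          (disjoint_left.2 fun w hw hw' => disjoint_left.1 hd hw.1 (mem_image_of_mem _ hw'))
        filter_upwards [h3] with i hi
        refine disjoint_left.2 ?_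
        rintro _ ⟨w, hw, rfl⟩ hw'
        exact disjoint_left.1 hi hw.1 ⟨hw', hw.2⟩
    obtain ⟨t, ht⟩ := ((eventually_all_finset s).2 fun j _ => h0 j).exists
    exact ((eventually_all_finset s).2 ht).mono fun i hi => ⟨t, hi⟩
  refine ⟨𝒱, h1, Subset.antisymm (fun x hx => ?_) ?_⟩
  · by_contra h0
    obtain ⟨K, hK, hK1, hK2⟩ := local_compact_nhds (isClosed_closure.isOpen_compl.mem_nhds h0)
    exact ULim.not_mem.2 ⟨K, hK, h2 (.inr ⟨K, hK2,
      disjoint_left.2 fun y hy hy' => hK1 hy (subset_closure hy')⟩)⟩ hx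
  · refine closure_minimal ?_ (ULim.isClosed _ _)
    rintro _ ⟨w, hw, rfl⟩ V hV
    exact h2 (.inl ⟨(w, V), hw, hV⟩)

theorem PfFamD.exists_clos {I : Type} {d : ℕ} (𝒰 : Ultrafilter I) {W : I → Set (β × γ)}
    (h : PfFamD S d W) : ∃ (𝒱 : Ultrafilter (I × ℝ)) (W' : I × ℝ → Set β),
      𝒱.map Prod.fst = 𝒰 ∧ PfFamD S d W' ∧ (∀ z, W' z ⊆ Prod.fst '' W z.1) ∧
        ULim 𝒱 W' = closure (Prod.fst '' ULim 𝒰 W) := by
  obtain ⟨ν, dν, hν, -, -, hc, -⟩ := exists_dnorm' S γ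
  obtain ⟨𝒱, h1, h2⟩ := OMin.exists_clos 𝒰 W hν fun R => by simpa using hc 0 R
  exact ⟨𝒱, _, h1, h.cut_clm (B := fun t : ℝ => {p : β × γ | ν p.2 ≤ t})
    (by simp only [mem_ofPred_eq]; fun_prop) (ContinuousLinearMap.fst ℝ β γ) Prod.fst Prod.snd,
    fun z => image_mono inter_subset_left, h2⟩

/-- extra variables bounded by a new small infinite parameter R, then forgotten -/
theorem TSet.clos {X : Set β} (h : TSet S X) : TSet S (closure X) := by
  obtain ⟨I, 𝒰, l, W, ⟨d, hW⟩, rfl⟩ := h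
  obtain ⟨𝒱, W', -, h1, -, h2⟩ := hW.exists_clos 𝒰
  rw [← h2]
  exact TSet.ulim 𝒱 ⟨d, h1⟩

theorem TSet.alt {Y : Set (α × ℝ)} (h : TSet S Y) :
    ∃ N : ℕ, ∀ (a : α) (s t : Fin (N + 1) → ℝ),
      (∀ i, (a, s i) ∈ Y ∧ (a, t i) ∉ Y ∧ s i < t i) → ¬ ∀ i j, i < j → t i < s j := by
  obtain ⟨I, 𝒰, l, W, hW, rfl⟩ := h
  obtain ⟨ν, dν, hν, h0, -, hc, hs⟩ := exists_dnorm' S α
  let B : α × ℝ × ℝ → Set ((α × ℝ) × (Fin l → ℝ)) := fun c =>
    {p | ν (p.1.1 - c.1) ≤ c.2.1 ∧ ‖p.2‖ ≤ c.2.2}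
  have dB : DP S fun z : (α × ℝ × ℝ) × (α × ℝ) × (Fin l → ℝ) => z.2 ∈ B z.1 :=
    DP.and (by fun_prop) (DP.le (DF.norm_pi (by fun_prop)) (by fun_prop))
  obtain ⟨N, hN⟩ := (hW.cut_clm dB ((ContinuousLinearMap.snd ℝ α ℝ).comp
    (ContinuousLinearMap.fst ℝ (α × ℝ) (Fin l → ℝ))) (I' := I × α × ℝ × ℝ) Prod.fst Prod.snd).nconn
  refine ⟨N, fun a s t hst hlt => ?_⟩
  choose w hw hw' using fun i => (hst i).1
  obtain ⟨R, hR⟩ : ∃ R, ∀ i, ‖(w i).2‖ < R := by
    obtain ⟨R, hR⟩ := (Set.finite_range fun i => ‖(w i).2‖).bddAbove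
    exact ⟨R + 1, fun i => (hR ⟨i, rfl⟩).trans_lt (lt_add_one R)⟩
  have h1 : ∀ i, ∀ᶠ a' in 𝓝 a, ∀ y ∈ Metric.closedBall (0 : Fin l → ℝ) R,
      ((a', t i), y) ∉ ULim 𝒰 W := fun i => by
    refine (isCompact_closedBall 0 R).eventually_forall_of_forall_eventually
      (P := fun a' y => ((a', t i), y) ∉ ULim 𝒰 W) fun y _ => ?_
    have h2 : ContinuousAt (fun z : α × (Fin l → ℝ) => ((z.1, t i), z.2)) (a, y) := by fun_prop
    exact h2.preimage_mem_nhds ((ULim.isClosed 𝒰 W).isOpen_compl.mem_nhds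
      fun h3 => (hst i).2.1 ⟨_, h3, rfl⟩)
  obtain ⟨ε, hε, h2⟩ := hs a _ (eventually_all.2 h1)
  have h3 : ∀ j, ∀ᶠ i in (𝒰 : Filter I), Disjoint (W i)
      (({a' | ν (a' - a) ≤ ε} ×ˢ {t j}) ×ˢ Metric.closedBall (0 : Fin l → ℝ) R) := fun j => by
    refine ULim.disjoint_compact (((hc a ε).prod isCompact_singleton).prod
      (isCompact_closedBall 0 R)) (disjoint_left.2 ?_)
    rintro ⟨⟨a', t'⟩, y⟩ ⟨⟨h4, h5⟩, h6⟩
    obtain rfl : t' = t j := h5
    exact h2 a' h4 j y h6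
  have h4 : ∀ j, ∀ᶠ i in (𝒰 : Filter I), (W i ∩ {p | ν (p.1.1 - a) < ε ∧ ‖p.2‖ < R ∧
      p.1.2 < t j ∧ ∀ k, k < j → t k < p.1.2}).Nonempty := fun j => by
    refine hw j _ ?_
    have e1 : ∀ᶠ p : (α × ℝ) × (Fin l → ℝ) in 𝓝 (w j), ν (p.1.1 - a) < ε :=
      (isOpen_lt (by fun_prop) continuous_const).mem_nhds
        (by simpa [hw' j, (h0 0).2 rfl] using hε)
    have e2 : ∀ᶠ p : (α × ℝ) × (Fin l → ℝ) in 𝓝 (w j), ‖p.2‖ < R :=
      (isOpen_lt (by fun_prop) continuous_const).mem_nhds (hR j)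
    have e3 : ∀ᶠ p : (α × ℝ) × (Fin l → ℝ) in 𝓝 (w j), p.1.2 < t j :=
      (isOpen_lt (by fun_prop) continuous_const).mem_nhds (by simpa [hw' j] using (hst j).2.2)
    refine e1.and (e2.and (e3.and (eventually_all.2 fun k => ?_)))
    · by_cases hk : k < j
      · have h5 : ∀ᶠ p : (α × ℝ) × (Fin l → ℝ) in 𝓝 (w j), t k < p.1.2 :=
          (isOpen_lt continuous_const (by fun_prop)).mem_nhds (by simpa [hw' j] using hlt k j hk)
        exact h5.mono fun _ h _ => h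
      · exact Eventually.of_forall fun _ h => absurd h hk
  obtain ⟨i, h5, h6⟩ := ((eventually_all.2 h3).and (eventually_all.2 h4)).exists
  choose p hp hp1 hp2 hp3 hp4 using h6
  refine (hN (i, a, ε, R)).no_alt (fun j => (p j).1.2) t (fun j => ⟨?_, ?_, hp3 j⟩)
    fun j k hjk => hp4 k j hjk
  · exact ⟨p j, ⟨hp j, (hp1 j).le, (hp2 j).le⟩, rfl⟩
  · rintro ⟨q, ⟨hq, hq1, hq2⟩, e⟩
    exact disjoint_left.1 (h5 j) hq ⟨⟨hq1, e⟩, mem_closedBall_zero_iff.2 hq2⟩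

/-- the limit of a Pfaffian family of meagre sets has empty interior -/
theorem PfFam.interior_ulim {I : Type} (𝒰 : Ultrafilter I) {W : I → Set β} (h : PfFam S W)
    (hm : ∀ᶠ i in (𝒰 : Filter I), IsMeagre (W i)) : interior (ULim 𝒰 W) = ∅ := by
  let e : β ≃L[ℝ] (Fin (finrank ℝ β) → ℝ) := (finBasis ℝ β).equivFun.toContinuousLinearEquiv
  have h1 : PfFam S fun i => e.toHomeomorph '' W i :=
    h.image (e : β →L[ℝ] (Fin (finrank ℝ β) → ℝ))
  have dB : DP S fun z : ((Fin (finrank ℝ β) → ℝ) × (Fin (finrank ℝ β) → ℝ)) ×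
      (Fin (finrank ℝ β) → ℝ) => z.2 ∈ Icc z.1.1 z.1.2 :=
    DP.and (DP.fin_and fun i => by fun_prop) (DP.fin_and fun i => by fun_prop)
  obtain ⟨N, hN⟩ := (h1.inter (B := fun c : (Fin (finrank ℝ β) → ℝ) × (Fin (finrank ℝ β) → ℝ) =>
    Icc c.1 c.2) dB (I' := I × _) Prod.fst Prod.snd).nconn
  obtain ⟨δ, hδ, hg⟩ := grid (finrank ℝ β) N
  suffices h2 : interior (ULim 𝒰 fun i => e.toHomeomorph '' W i) = ∅ by
    rw [ULim.homeo, ← Homeomorph.image_interior, image_eq_empty] at h2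
    exact h2
  rw [eq_empty_iff_forall_notMem]
  intro c hc
  obtain ⟨r, hr, hb⟩ := Metric.nhds_basis_closedBall.mem_iff.1 (mem_interior_iff_mem_nhds.1 hc)
  have h3 : ∀ i, ∃ x, x ∈ Metric.closedBall c r ∧ (IsMeagre (W i) →
      Disjoint (Metric.closedBall x (δ * r)) (e.toHomeomorph '' W i)) := fun i => by
    by_cases hi : IsMeagre (W i)
    · have h4 : IsMeagre (e.toHomeomorph '' W i) := by
        rw [Homeomorph.image_eq_preimage_symm]
        exact hi.preimage_of_isOpenMap e.toHomeomorph.symm.continuous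
          e.toHomeomorph.symm.isOpenMap
      obtain ⟨x, hx, hx'⟩ := hg _ h4 (fun a b => hN (i, a, b)) c r hr
      exact ⟨x, hx (Metric.mem_closedBall_self (mul_pos hδ hr).le), fun _ => hx'⟩
    · exact ⟨c, Metric.mem_closedBall_self hr.le, fun h => absurd h hi⟩
  choose x hx hx' using h3
  obtain ⟨y, hy, hy'⟩ := (isCompact_closedBall c r).ultrafilter_le_nhds (𝒰.map x)
    (le_principal_iff.2 (mem_map.2 (univ_mem' hx)))
  have h5 := half_pos (mul_pos hδ hr)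
  have h6 : ∀ᶠ i in (𝒰 : Filter I), x i ∈ Metric.ball y (δ * r / 2) :=
    hy' (Metric.ball_mem_nhds y h5)
  obtain ⟨i, h7, h8, z, hz, hz'⟩ := (hm.and (h6.and (hb hy _ (Metric.ball_mem_nhds y h5)))).exists
  refine disjoint_left.1 (hx' i h7) ?_ hz
  rw [Metric.mem_ball] at h8 hz'
  rw [Metric.mem_closedBall]
  linarith [dist_triangle_right z (x i) y]

/-- if the projections are meagre, the limit set is nowhere dense (grid applied to the cut family
with extra variables bounded by R as in `clos`) -/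
theorem TSet.interior_closure_of_meagre {I γ : Type}
    [NormedAddCommGroup γ] [NormedSpace ℝ γ] [FiniteDimensional ℝ γ]
    (𝒰 : Ultrafilter I) {W : I → Set (β × γ)} (h : PfFam S W)
    (hm : ∀ᶠ i in (𝒰 : Filter I), IsMeagre (Prod.fst '' W i)) :
    interior (closure (Prod.fst '' ULim 𝒰 W)) = ∅ := by
  obtain ⟨d, h⟩ := h
  obtain ⟨𝒱, W', h0, h1, h2, h3⟩ := h.exists_clos 𝒰
  rw [← h3]
  refine PfFam.interior_ulim 𝒱 ⟨d, h1⟩ ?_
  exact ((ev_of_map h0 (P := fun i => IsMeagre (Prod.fst '' W i))).2 hm).mono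
    fun z hz => hz.mono (h2 z)

end Pool.Agent.Shared.OMin
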