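import Pool.Agent.Shared.OMin.TDefs
import Pool.Agent.Shared.OMin.Cells

/-! T1: definable closure, generic tuples, dimension, infinitesimals. -/

namespace Pool.Agent.Shared.OMin

open Set Filter Topology

variable {α β : Type}
  [NormedAddCommGroup α] [NormedSpace ℝ α] [FiniteDimensional ℝ α]
  [NormedAddCommGroup β] [NormedSpace ℝ β] [FiniteDimensional ℝ β]
  {S : OStr} {P Q Z y y' : ℕ → U} {k l m r : ℕ}

/-! ### sequences -/

@[simp] theorem upd_self (w : U) : upd P k w k = w := Function.update_self ..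
theorem upd_of_ne {i : ℕ} (h : i ≠ k) (w : U) : upd P k w i = P i := Function.update_of_ne h _ _
theorem upd_eq_self : upd P k (P k) = P := Function.update_eq_self ..
theorem agree_upd (w : U) : Agree (upd P k w) P k := fun _ hi => upd_of_ne hi.ne w
theorem Agree.refl (P : ℕ → U) (k : ℕ) : Agree P P k := fun _ _ => rfl
theorem Agree.symm (h : Agree P Q k) : Agree Q P k := fun i hi => (h i hi).symm
theorem Agree.trans (h : Agree P Q k) (h' : Agree Q Z k) : Agree P Z k :=
  fun i hi => (h i hi).trans (h' i hi)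
theorem Agree.mono (h : Agree P Q k) (hl : l ≤ k) : Agree P Q l :=
  fun i hi => h i (hi.trans_le hl)
theorem Agree.upd (h : Agree P Q k) (w : U) : Agree (upd P k w) (upd Q k w) (k + 1) := by
  intro i hi
  rcases (Nat.lt_succ_iff.1 hi).lt_or_eq with hi | rfl
  · rw [upd_of_ne hi.ne, upd_of_ne hi.ne, h i hi]
  · rw [upd_self, upd_self]
theorem Agree.tp_eq (h : Agree P Q k) : tp P k = tp Q k := by
  funext ω i
  simp only [tp, h i i.2]
theorem Agree.ev_eq (h : Agree P Q k) (G : (Fin k → ℝ) → ℝ) : ev G P = ev G Q := by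
  simp only [ev, h.tp_eq]
theorem Agree.at_iff (h : Agree P Q k) {X : (Fin k → ℝ) → Prop} : At X P ↔ At X Q := by
  simp only [At, h.tp_eq]
theorem Agree.dcl_eq (h : Agree P Q k) : dcl S P k = dcl S Q k := by
  ext b
  exact exists_congr fun G => and_congr_right fun _ => by rw [h.ev_eq]
theorem Agree.gen (h : Agree P Q k) (hP : Gen S P k) : Gen S Q k := by
  intro i hi
  rw [← h i hi, ← (h.mono hi.le).dcl_eq]
  exact hP i hi
theorem tp_succ (ω : Ω) : tp P (k + 1) ω = Fin.snoc (tp P k ω) (out (P k) ω) := by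
  funext i
  refine Fin.lastCases ?_ (fun j => ?_) i
  · simp [tp]
  · simp [tp]
theorem init_tp (ω : Ω) : Fin.init (tp P (k + 1) ω) = tp P k ω := rfl
theorem tp_last (ω : Ω) : tp P (k + 1) ω (Fin.last k) = out (P k) ω := rfl
theorem tp_upd (w : U) (ω : Ω) :
    tp (upd P k w) (k + 1) ω = Fin.snoc (tp P k ω) (out w ω) := by
  rw [tp_succ, (agree_upd w).tp_eq, upd_self]
theorem ev_init (G : (Fin k → ℝ) → ℝ) :
    ev (fun x : Fin (k + 1) → ℝ => G (Fin.init x)) P = ev G P := rfl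
theorem ev_last : ev (fun x : Fin (k + 1) → ℝ => x (Fin.last k)) P = P k :=
  ev_coord (Fin.last k) P

/-! ### values -/

theorem ev_eq_iff {G H : (Fin k → ℝ) → ℝ} : ev G P = ev H P ↔ At (fun x => G x = H x) P := by
  rw [eq_iff]
  refine eventually_congr ?_
  filter_upwards [out_ev G P, out_ev H P] with ω h1 h2
  rw [h1, h2]
theorem ev_lt_iff {G H : (Fin k → ℝ) → ℝ} : ev G P < ev H P ↔ At (fun x => G x < H x) P := by
  rw [lt_iff]
  refine eventually_congr ?_
  filter_upwards [out_ev G P, out_ev H P] with ω h1 h2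
  rw [h1, h2]
theorem ev_le_iff {G H : (Fin k → ℝ) → ℝ} : ev G P ≤ ev H P ↔ At (fun x => G x ≤ H x) P := by
  rw [le_iff]
  refine eventually_congr ?_
  filter_upwards [out_ev G P, out_ev H P] with ω h1 h2
  rw [h1, h2]
theorem ev_zero' : ev (fun _ : Fin k → ℝ => (0 : ℝ)) P = 0 := by rw [ev_const, map_zero]
theorem ev_one' : ev (fun _ : Fin k → ℝ => (1 : ℝ)) P = 1 := by rw [ev_const, map_one]
theorem ev_eq_zero_iff {G : (Fin k → ℝ) → ℝ} : ev G P = 0 ↔ At (fun x => G x = 0) P := by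
  rw [← ev_zero' (k := k) (P := P), ev_eq_iff]
theorem ev_ne_zero_iff {G : (Fin k → ℝ) → ℝ} : ev G P ≠ 0 ↔ At (fun x => G x ≠ 0) P := by
  rw [Ne, ev_eq_zero_iff]
  exact ev_not.symm
theorem ev_pos_iff {G : (Fin k → ℝ) → ℝ} : 0 < ev G P ↔ At (fun x => 0 < G x) P := by
  rw [← ev_zero' (k := k) (P := P), ev_lt_iff]
theorem ev_neg_iff {G : (Fin k → ℝ) → ℝ} : ev G P < 0 ↔ At (fun x => G x < 0) P := by
  rw [← ev_zero' (k := k) (P := P), ev_lt_iff]
theorem ev_sum {ι : Type} (s : Finset ι) (G : ι → (Fin k → ℝ) → ℝ) :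
    ev (fun x => ∑ i ∈ s, G i x) P = ∑ i ∈ s, ev (G i) P := by
  classical
  induction s using Finset.induction_on with
  | empty => simpa using ev_zero'
  | insert a s ha ih =>
    simp only [Finset.sum_insert ha]
    rw [ev_add, ih]
theorem ev_prod {ι : Type} (s : Finset ι) (G : ι → (Fin k → ℝ) → ℝ) :
    ev (fun x => ∏ i ∈ s, G i x) P = ∏ i ∈ s, ev (G i) P := by
  classical
  induction s using Finset.induction_on with
  | empty => simpa using ev_one'
  | insert a s ha ih =>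
    simp only [Finset.prod_insert ha]
    rw [ev_mul, ih]
theorem ev_pow (G : (Fin k → ℝ) → ℝ) (n : ℕ) : ev (fun x => G x ^ n) P = ev G P ^ n :=
  ev_eq (by
    filter_upwards [out_pow (ev G P) n, out_ev G P] with ω h1 h2
    rw [h1, h2])
theorem ev_abs (G : (Fin k → ℝ) → ℝ) : ev (fun x => |G x|) P = |ev G P| :=
  ev_eq (by
    filter_upwards [out_abs (ev G P), out_ev G P] with ω h1 h2
    rw [h1, h2])
theorem out_mvPoly {ι : Type} (p : MvPolynomial ι ℝ) (a : ι → U) : ∀ᶠ ω in 𝔲,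
    out (MvPolynomial.aeval a p) ω = MvPolynomial.eval (fun i => out (a i) ω) p := by
  induction p using MvPolynomial.induction_on with
  | C c => simpa using out_real c
  | add p q hp hq =>
    simp only [map_add]
    filter_upwards [out_add (MvPolynomial.aeval a p) (MvPolynomial.aeval a q), hp, hq]
      with ω h1 h2 h3
    rw [h1, h2, h3]
  | mul_X p i hp =>
    simp only [map_mul, MvPolynomial.aeval_X, MvPolynomial.eval_X]
    filter_upwards [out_mul (MvPolynomial.aeval a p) (a i), hp] with ω h1 h2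
    rw [h1, h2]
theorem ev_mvPoly {ι : Type} (p : MvPolynomial ι ℝ) (G : ι → (Fin k → ℝ) → ℝ) :
    ev (fun x => MvPolynomial.eval (fun i => G i x) p) P =
      MvPolynomial.aeval (fun i => ev (G i) P) p := by
  induction p using MvPolynomial.induction_on with
  | C c => simpa using ev_const c P
  | add p q hp hq =>
    simp only [map_add]
    rw [ev_add, hp, hq]
  | mul_X p i hp =>
    simp only [map_mul, MvPolynomial.aeval_X, MvPolynomial.eval_X]
    rw [ev_mul, hp]
theorem ev_det {n : ℕ} (G : Fin n → Fin n → (Fin k → ℝ) → ℝ) :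
    ev (fun x => Matrix.det (Matrix.of fun i j => G i j x)) P =
      Matrix.det (Matrix.of fun i j => ev (G i j) P) := by
  simp only [Matrix.det_apply', Matrix.of_apply]
  rw [ev_sum]
  refine Finset.sum_congr rfl fun σ _ => ?_
  rw [ev_mul, ev_prod, ev_const, map_intCast]

/-! ### definable points -/

theorem mem_dcl_iff {b : U} : b ∈ dcl S P k ↔ InD S P k (out b) := by
  constructor
  · rintro ⟨G, hG, rfl⟩
    exact ⟨G, hG, out_ev G P⟩
  · rintro ⟨G, hG, h⟩
    exact ⟨G, hG, (ev_eq h).symm⟩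
theorem ev_mem_dcl {G : (Fin k → ℝ) → ℝ} (hG : DF S G) : ev G P ∈ dcl S P k := ⟨G, hG, rfl⟩
theorem InD.sm {p : Ω → α} (h : InD S P k p) : Sm p := by
  obtain ⟨G, -, h⟩ := h
  exact ((sm_tp P k).comp G).congr h
theorem InD.congr {p q : Ω → α} (h : InD S P k p) (e : ∀ᶠ ω in 𝔲, q ω = p ω) : InD S P k q := by
  obtain ⟨G, hG, h⟩ := h
  refine ⟨G, hG, ?_⟩
  filter_upwards [h, e] with ω h1 h2
  rw [h2, h1]
theorem InD.const (c : α) : InD S P k fun _ => c :=
  ⟨fun _ => c, DF.const c, Eventually.of_forall fun _ => rfl⟩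
theorem InD.tp_self : InD S P k (tp P k) :=
  ⟨fun x => x, DF.id', Eventually.of_forall fun _ => rfl⟩
theorem InD.comp {p : Ω → α} (h : InD S P k p) {G : α → β} (hG : DF S G) :
    InD S P k fun ω => G (p ω) := by
  obtain ⟨H, hH, h⟩ := h
  refine ⟨fun x => G (H x), hG.comp hH, ?_⟩
  filter_upwards [h] with ω h1
  rw [h1]
theorem InD.prod {p : Ω → α} {q : Ω → β} (h : InD S P k p) (h' : InD S P k q) :
    InD S P k fun ω => (p ω, q ω) := by
  obtain ⟨G, hG, h⟩ := h
  obtain ⟨H, hH, h'⟩ := h'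
  refine ⟨fun x => (G x, H x), hG.prodMk hH, ?_⟩
  filter_upwards [h, h'] with ω h1 h2
  rw [h1, h2]
theorem InD.tp (h : ∀ i < m, y i ∈ dcl S P k) : InD S P k (tp y m) := by
  choose G hG e using fun i : Fin m => mem_dcl_iff.1 (h i i.2)
  refine ⟨fun x i => G i x, DF.pi hG, ?_⟩
  filter_upwards [eventually_all.2 e] with ω h1
  exact funext h1
theorem InD.cl_mem {f : Ω → ℝ} (h : InD S P k f) : cl f ∈ dcl S P k :=
  mem_dcl_iff.2 (h.congr (out_cl h.sm))
theorem self_mem_dcl {i : ℕ} (h : i < k) : P i ∈ dcl S P k :=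
  ⟨_, DF.apply (⟨i, h⟩ : Fin k), (ev_coord (⟨i, h⟩ : Fin k) P).symm⟩
theorem InD.mono {p : Ω → α} (h : InD S P k p) (hQ : dcl S P k ≤ dcl S Q l) : InD S Q l p := by
  obtain ⟨G, hG, h⟩ := h
  exact ((InD.tp fun i hi => hQ (self_mem_dcl hi)).comp hG).congr h
theorem ev_mem (h : ∀ i < m, y i ∈ dcl S P k) {G : (Fin m → ℝ) → ℝ} (hG : DF S G) :
    ev G y ∈ dcl S P k := ((InD.tp h).comp hG).cl_mem
theorem dcl_le (h : ∀ i < m, y i ∈ dcl S P k) : dcl S y m ≤ dcl S P k := by
  rintro _ ⟨G, hG, rfl⟩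
  exact ev_mem h hG
theorem dcl_mono (h : k ≤ l) : dcl S P k ≤ dcl S P l :=
  dcl_le fun _ hi => self_mem_dcl (hi.trans_le h)
theorem dcl_le_upd (w : U) : dcl S P k ≤ dcl S (upd P k w) (k + 1) := by
  rw [← (agree_upd (P := P) (k := k) w).dcl_eq]
  exact dcl_mono k.le_succ
theorem mem_dcl_upd (w : U) : w ∈ dcl S (upd P k w) (k + 1) := by
  have := self_mem_dcl (S := S) (P := upd P k w) k.lt_succ_self
  rwa [upd_self] at this
theorem dcl_zero : dcl S P 0 = ⊥ := by
  refine le_bot_iff.1 ?_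
  rintro _ ⟨G, -, rfl⟩
  have : G = fun _ => G 0 := funext fun x => congrArg G (Subsingleton.elim _ _)
  rw [this, ev_const]
  exact IntermediateField.algebraMap_mem _ _

/-- a point of a finite definable set is definable (DP.enum) -/
theorem fin_mem {p : Ω → α} (hp : InD S P k p) {X : α → ℝ → Prop}
    (hX : DP S fun z : α × ℝ => X z.1 z.2) (hf : ∀ᶠ ω in 𝔲, {t | X (p ω) t}.Finite) {b : U}
    (hb : ∀ᶠ ω in 𝔲, X (p ω) (out b ω)) : b ∈ dcl S P k := by
  obtain ⟨N, ζ, hζ, h⟩ := DP.enum hX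
  obtain ⟨j, hj⟩ := ev_exists_finite (P := fun j ω => out b ω = ζ j (p ω)) (by
    filter_upwards [hf, hb] with ω h1 h2
    exact h _ h1 _ h2)
  exact mem_dcl_iff.2 ((hp.comp (hζ j)).congr hj)

theorem finite_roots {n : ℕ} (a : Fin (n + 1) → ℝ) (h : a (Fin.last n) ≠ 0) :
    {t : ℝ | ∑ i, a i * t ^ (i : ℕ) = 0}.Finite := by
  let q : Polynomial ℝ := ∑ i : Fin (n + 1), Polynomial.monomial (i : ℕ) (a i)
  have hq : q ≠ 0 := by
    intro h0
    have h1 : q.coeff n = a (Fin.last n) := by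
      simp only [q, Polynomial.finsetSum_coeff, Polynomial.coeff_monomial]
      rw [Finset.sum_eq_single (Fin.last n)]
      · simp
      · intro i _ hi
        rw [if_neg]
        intro e
        exact hi (Fin.ext (by simpa using e))
      · simp
    rw [h0] at h1
    exact h h1.symm
  refine (Polynomial.finite_setOfPred_isRoot hq).subset fun t ht => ?_
  simpa [q, Polynomial.IsRoot, Polynomial.eval_finsetSum] using ht

theorem rc_dcl : RC (dcl S P k) := by
  rintro b ⟨q, hq0, hq⟩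
  let c : ℕ → U := fun i => (q.coeff i : U)
  have hc : ∀ i < q.natDegree + 1, c i ∈ dcl S P k := fun i _ => (q.coeff i).2
  have hl : c q.natDegree ≠ 0 := by
    intro h0
    exact Polynomial.leadingCoeff_ne_zero.2 hq0 (Subtype.ext h0)
  have hs : ∑ i : Fin (q.natDegree + 1), c i * b ^ (i : ℕ) = 0 := by
    rw [Polynomial.aeval_eq_sum_range, Finset.sum_range] at hq
    exact hq
  refine fin_mem (InD.tp hc) (X := fun a t => a (Fin.last _) ≠ 0 ∧ ∑ i, a i * t ^ (i : ℕ) = 0)
    (DP.and (by fun_prop) (DP.eq (DF.sum _ fun i _ => by fun_prop) (DF.const 0))) ?_ ?_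
  · refine Eventually.of_forall fun ω => ?_
    by_cases h : tp c (q.natDegree + 1) ω (Fin.last _) = 0
    · simp [h]
    · exact (finite_roots _ h).subset fun t ht => ht.2
  · have h1 := out_sum Finset.univ fun i : Fin (q.natDegree + 1) => c i * b ^ (i : ℕ)
    rw [hs] at h1
    filter_upwards [ne_iff.1 hl, out_zero, h1,
      eventually_all.2 fun i : Fin (q.natDegree + 1) => out_mul (c i) (b ^ (i : ℕ)),
      eventually_all.2 fun i : Fin (q.natDegree + 1) => out_pow b (i : ℕ)] with ω h2 h3 h4 h5 h6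
    refine ⟨by rw [← h3]; exact h2, ?_⟩
    rw [← h3, h4]
    exact Finset.sum_congr rfl fun i _ => by rw [h5, h6]; rfl

theorem inD_choice {p : Ω → α} (hp : InD S P k p) {X : α → β → Prop}
    (hX : DP S fun z : α × β => X z.1 z.2) (h : ∀ᶠ ω in 𝔲, ∃ b, X (p ω) b) :
    ∃ q, InD S P k q ∧ ∀ᶠ ω in 𝔲, X (p ω) (q ω) := by
  obtain ⟨f, hf, e⟩ := DP.choice hX
  exact ⟨_, hp.comp hf, h.mono fun ω h1 => e _ h1⟩

theorem dcl_choice {p : Ω → α} (hp : InD S P k p) {X : α → ℝ → Prop}
    (hX : DP S fun z : α × ℝ => X z.1 z.2) (h : ∀ᶠ ω in 𝔲, ∃ b, X (p ω) b) :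
    ∃ b ∈ dcl S P k, ∀ᶠ ω in 𝔲, X (p ω) (out b ω) := by
  obtain ⟨q, hq, e⟩ := inD_choice hp hX h
  refine ⟨cl q, hq.cl_mem, ?_⟩
  filter_upwards [e, out_cl hq.sm] with ω h1 h2
  rwa [h2]

/-! ### generic tuples -/

theorem Gen.mono (h : Gen S P k) (hl : l ≤ k) : Gen S P l := fun i hi => h i (hi.trans_le hl)
theorem Gen.succ (h : Gen S P k) (hw : P k ∉ dcl S P k) : Gen S P (k + 1) := by
  intro i hi
  rcases (Nat.lt_succ_iff.1 hi).lt_or_eq with hi | rfl
  exacts [h i hi, hw]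
theorem Gen.upd (h : Gen S P k) {w : U} (hw : w ∉ dcl S P k) : Gen S (upd P k w) (k + 1) := by
  refine ((agree_upd w).symm.gen h).succ ?_
  rwa [upd_self, (agree_upd w).dcl_eq]
theorem Gen.last (h : Gen S P (k + 1)) : P k ∉ dcl S P k := h k k.lt_succ_self
theorem gen_zero : Gen S P 0 := fun _ hi => absurd hi (Nat.not_lt_zero _)

theorem DP.frontier_fam {X : α → ℝ → Prop} (hX : DP S fun z : α × ℝ => X z.1 z.2) :
    DP S fun z : α × ℝ => z.2 ∈ frontier {t | X z.1 t} :=
  DP.mem_frontier (A := fun a => {t | X a t}) hX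

theorem DP.finite_frontier {X : α → ℝ → Prop} (hX : DP S fun z : α × ℝ => X z.1 z.2) (a : α) :
    (frontier {t | X a t}).Finite :=
  S.omin (hX.comp (g := fun t : ℝ => (a, t)) (by fun_prop))

/-- an element outside the definable closure is an interior point of every definable fibre -/
theorem ev_nhds_of_notMem {p : Ω → α} (hp : InD S P k p) {X : α → ℝ → Prop}
    (hX : DP S fun z : α × ℝ => X z.1 z.2) {w : U} (hw : w ∉ dcl S P k)
    (h : ∀ᶠ ω in 𝔲, X (p ω) (out w ω)) : ∀ᶠ ω in 𝔲, ∀ᶠ t in 𝓝 (out w ω), X (p ω) t := by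
  by_contra hc
  refine hw (fin_mem hp (X := fun a t => t ∈ frontier {s | X a s}) hX.frontier_fam
    (Eventually.of_forall fun ω => hX.finite_frontier _) ?_)
  filter_upwards [h, ev_not.2 hc] with ω h1 h2
  exact ⟨subset_closure h1, fun h3 => h2 (mem_interior_iff_mem_nhds.1 h3)⟩

theorem Gen.interior_nonempty : ∀ {k : ℕ}, Gen S P k → ∀ {X : (Fin k → ℝ) → Prop}, DP S X →
    At X P → (interior {x | X x}).Nonempty := by
  intro k
  induction k with
  | zero =>
    intro _ X _ hP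
    obtain ⟨ω, hω⟩ := hP.exists
    refine ⟨tp P 0 ω, mem_interior_iff_mem_nhds.2 (Eventually.of_forall fun x => ?_)⟩
    rwa [Subsingleton.elim x (tp P 0 ω)]
  | succ k ih =>
    intro h X hX hP
    have h1 : DP S fun z : (Fin k → ℝ) × ℝ => X (Fin.snoc z.1 z.2) :=
      hX.comp (DF.snoc (by fun_prop) (by fun_prop))
    have h2 := ev_nhds_of_notMem InD.tp_self (X := fun a t => X (Fin.snoc a t)) h1 h.last (by
      filter_upwards [hP] with ω hω
      rwa [tp_succ] at hω)
    have h3 : DP S fun a : Fin k → ℝ => (interior {t : ℝ | X (Fin.snoc a t)}).Nonempty :=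
      DP.ex (P := fun a t => t ∈ interior {t : ℝ | X (Fin.snoc a t)})
        (DP.mem_interior (A := fun a => {t : ℝ | X (Fin.snoc a t)}) h1)
    have h4 := ih (h.mono k.le_succ) h3 (by
      filter_upwards [h2] with ω hω
      exact ⟨_, mem_interior_iff_mem_nhds.2 hω⟩)
    obtain ⟨z, hz⟩ := DP.fubini (X := {z : (Fin k → ℝ) × ℝ | X (Fin.snoc z.1 z.2)}) h1 h4
    have hc : Continuous fun x : Fin (k + 1) → ℝ => (Fin.init x, x (Fin.last k)) := by
      refine Continuous.prodMk (continuous_pi fun i => continuous_apply _) (continuous_apply _)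
    refine ⟨Fin.snoc z.1 z.2, mem_interior_iff_mem_nhds.2 ?_⟩
    have h5 := hc.continuousAt (x := Fin.snoc z.1 z.2)
    have e : (Fin.init (Fin.snoc z.1 z.2 : Fin (k + 1) → ℝ),
        (Fin.snoc z.1 z.2 : Fin (k + 1) → ℝ) (Fin.last k)) = z := by simp
    rw [ContinuousAt, e] at h5
    filter_upwards [h5 (mem_interior_iff_mem_nhds.1 hz)] with x hx
    simpa using hx

/-- Induction on k: a definable set containing a generic point has nonempty interior
(DP.fubini); apply this to `X` minus its interior. -/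
theorem Gen.nhds (h : Gen S P k) {X : (Fin k → ℝ) → Prop} (hX : DP S X) (hP : At X P) :
    At (fun x => ∀ᶠ z in 𝓝 x, X z) P := by
  by_contra hc
  have h1 : DP S fun x : Fin k → ℝ => ∀ᶠ z in 𝓝 x, X z :=
    DP.ev_nhds (P := fun _ z => X z) (hX.comp (g := fun z : (Fin k → ℝ) × (Fin k → ℝ) => z.2)
      (by fun_prop)) DF.id'
  obtain ⟨x, hx⟩ := h.interior_nonempty (hX.and h1.not) (hP.and (ev_not.2 hc))
  exact (interior_subset hx).2 (mem_of_superset (mem_interior_iff_mem_nhds.1 hx) fun z hz => hz.1)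

theorem Gen.not_at (h : Gen S P k) {X : (Fin k → ℝ) → Prop} (hX : DP S X)
    (he : interior {x | X x} = ∅) : At (fun x => ¬ X x) P := by
  refine ev_not.2 fun hc => ?_
  have := h.interior_nonempty hX hc
  rw [he] at this
  exact not_nonempty_empty this

theorem Gen.contDiffAt (h : Gen S P k) {G : (Fin k → ℝ) → α} (hG : DF S G) :
    At (fun x => ContDiffAt ℝ 1 G x) P := by
  have h1 : DP S fun x : Fin k → ℝ => ContDiffAt ℝ 1 G x :=
    DP.contDiffAt_one (f := fun _ => G) (hG.comp (g := fun z : (Fin k → ℝ) × (Fin k → ℝ) => z.2)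
      (by fun_prop)) DF.id'
  exact (h.not_at h1.not hG.generic_contDiff).mono fun ω hω => not_not.1 hω

theorem gen_of_interior (h : ∀ X : (Fin k → ℝ) → Prop, DP S X → At X P →
    (interior {x | X x}).Nonempty) : Gen S P k := by
  intro i hi hm
  obtain ⟨G, hG, e⟩ := mem_dcl_iff.1 hm
  have hr : DF S fun (x : Fin k → ℝ) (j : Fin i) => x (Fin.castLE hi.le j) :=
    DF.pi fun j => DF.apply _
  obtain ⟨x, hx⟩ := h (fun x => x ⟨i, hi⟩ = G fun j => x (Fin.castLE hi.le j))
    (DP.eq (DF.apply _) (hG.comp hr)) e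
  have hc : ContinuousAt (fun t : ℝ => Function.update x ⟨i, hi⟩ t) (x ⟨i, hi⟩) :=
    (continuous_const.update _ continuous_id).continuousAt
  rw [ContinuousAt, Function.update_eq_self] at hc
  have h1 : ∀ᶠ t in 𝓝 (x ⟨i, hi⟩), t = x ⟨i, hi⟩ := by
    filter_upwards [hc (mem_interior_iff_mem_nhds.1 hx)] with t ht
    have h2 := interior_subset hx
    simp only [mem_ofPred_eq] at h2
    have h3 : (fun j : Fin i => Function.update x ⟨i, hi⟩ t (Fin.castLE hi.le j)) =
        fun j => x (Fin.castLE hi.le j) := funext fun j =>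
      Function.update_of_ne (fun e => j.2.ne (congrArg Fin.val e)) _ _
    have h4 : Function.update x ⟨i, hi⟩ t ⟨i, hi⟩ =
      G fun j => Function.update x ⟨i, hi⟩ t (Fin.castLE hi.le j) := ht
    rw [h3, Function.update_self] at h4
    rw [h4, ← h2]
  obtain ⟨t, h2, h3⟩ := ((h1.filter_mono nhdsWithin_le_nhds).and
    (self_mem_nhdsWithin (s := Ioi (x ⟨i, hi⟩)))).exists
  exact (ne_of_gt h3) h2

/-- Steinitz (DF.interior_range) -/
theorem Gen.le_of_mem (h : Gen S Q l) (hm : ∀ i < l, Q i ∈ dcl S P k) : l ≤ k := by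
  by_contra hc
  obtain ⟨G, hG, e⟩ := InD.tp hm
  have h1 : DP S fun x : Fin l → ℝ => ∃ a, x = G a :=
    DP.ex (P := fun x a => x = G a) (by fun_prop)
  have h2 := h.interior_nonempty h1 (e.mono fun ω hω => ⟨_, hω⟩)
  have h3 : {x : Fin l → ℝ | ∃ a, x = G a} = range G := by
    ext x
    simp [eq_comm]
  rw [h3, hG.interior_range (by simpa using hc)] at h2
  exact not_nonempty_empty h2

theorem Gen.of_span (h : Gen S Q k) (hm : ∀ i < k, Q i ∈ dcl S P k) :
    Gen S P k ∧ dcl S P k = dcl S Q k := by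
  constructor
  · intro i hi hP
    let P' : ℕ → U := fun j => if j < i then P j else P (j + 1)
    have ha : Agree P P' i := fun j hj => (if_pos hj).symm
    have h1 : dcl S P k ≤ dcl S P' (k - 1) := dcl_le fun j hj => by
      rcases lt_trichotomy j i with h2 | rfl | h2
      · rw [ha j h2]
        exact self_mem_dcl (by omega)
      · rw [ha.dcl_eq] at hP
        exact dcl_mono (by omega) hP
      · have : P j = P' (j - 1) := by
          simp only [P']
          rw [if_neg (by omega), Nat.sub_add_cancel (by omega)]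
        rw [this]
        exact self_mem_dcl (by omega)
    have := h.le_of_mem fun j hj => h1 (hm j hj)
    omega
  · refine le_antisymm (dcl_le fun i hi => ?_) (dcl_le hm)
    by_contra hc
    have := (h.upd hc).le_of_mem (P := P) (k := k) fun j hj => by
      rcases (Nat.lt_succ_iff.1 hj).lt_or_eq with hj | rfl
      · rw [upd_of_ne hj.ne]
        exact hm j hj
      · rw [upd_self]
        exact self_mem_dcl hi
    omega

/-- extend a generic tuple inside `dcl Z r` to a basis using entries of `Z` -/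
theorem Gen.extend (h : Gen S Q l) (hZ : Gen S Z r) (hm : ∀ i < l, Q i ∈ dcl S Z r) :
    ∃ Q', Agree Q' Q l ∧ Gen S Q' r ∧ ∀ i, l ≤ i → i < r → ∃ j < r, Q' i = Z j := by
  have key : ∀ n, l ≤ n → n ≤ r →
      ∃ Q', Agree Q' Q l ∧ Gen S Q' n ∧ ∀ i, l ≤ i → i < n → ∃ j < r, Q' i = Z j := by
    intro n hn
    induction n, hn using Nat.le_induction with
    | base => exact fun _ => ⟨Q, Agree.refl Q l, h, fun i h1 h2 => by omega⟩
    | succ n hn ih =>
      intro hr
      obtain ⟨Q', h1, h2, h3⟩ := ih (by omega)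
      obtain ⟨j, hj, h4⟩ : ∃ j < r, Z j ∉ dcl S Q' n := by
        by_contra hc
        have := hZ.le_of_mem (P := Q') (k := n) fun j hj => by
          by_contra h5
          exact hc ⟨j, hj, h5⟩
        omega
      refine ⟨OMin.upd Q' n (Z j), ((agree_upd _).mono hn).trans h1, h2.upd h4, fun i h5 h6 => ?_⟩
      rcases (Nat.lt_succ_iff.1 h6).lt_or_eq with h6 | rfl
      · rw [upd_of_ne h6.ne]
        exact h3 i h5 h6
      · exact ⟨j, hj, upd_self _⟩
  exact key r (h.le_of_mem hm) le_rfl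

/-- maximal interval around an element outside the definable closure -/
theorem exists_interval {p : Ω → α} (hp : InD S P k p) {X : α → ℝ → Prop}
    (hX : DP S fun z : α × ℝ => X z.1 z.2) {w lo hi : U} (hw : w ∉ dcl S P k)
    (hlo : lo ∈ dcl S P k) (hhi : hi ∈ dcl S P k) (h1 : lo < w) (h2 : w < hi)
    (h : ∀ᶠ ω in 𝔲, X (p ω) (out w ω)) :
    ∃ g ∈ dcl S P k, ∃ h ∈ dcl S P k, lo ≤ g ∧ g < w ∧ w < h ∧ h ≤ hi ∧
      (∀ᶠ ω in 𝔲, ∀ t ∈ Ioo (out g ω) (out h ω), X (p ω) t) ∧
      (g = lo ∨ ∀ᶠ ω in 𝔲, ¬ ∀ᶠ t in 𝓝 (out g ω), X (p ω) t) ∧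
      (h = hi ∨ ∀ᶠ ω in 𝔲, ¬ ∀ᶠ t in 𝓝 (out h ω), X (p ω) t) := by
  classical
  obtain ⟨N, ζ, hζ, he⟩ := DP.enum (X := fun a t => t ∈ frontier {s | X a s}) hX.frontier_fam
  let c : Fin N → U := fun j => cl fun ω => ζ j (p ω)
  have hc : ∀ j, c j ∈ dcl S P k := fun j => (hp.comp (hζ j)).cl_mem
  have hco : ∀ j, ∀ᶠ ω in 𝔲, out (c j) ω = ζ j (p ω) := fun j => out_cl (hp.comp (hζ j)).sm
  let fr : U → Prop := fun b => ∀ᶠ ω in 𝔲, out b ω ∈ frontier {s | X (p ω) s}
  have hfr : ∀ b, fr b → ∀ᶠ ω in 𝔲, ¬ ∀ᶠ t in 𝓝 (out b ω), X (p ω) t := fun b hb =>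
    hb.mono fun ω hω h3 => hω.2 (mem_interior_iff_mem_nhds.2 h3)
  obtain ⟨g, hg, hgm⟩ := Finset.exists_max_image
    (insert lo ((Finset.univ.filter fun j => c j < w ∧ fr (c j)).image c)) id
    (Finset.insert_nonempty _ _)
  obtain ⟨g', hg', hgm'⟩ := Finset.exists_min_image
    (insert hi ((Finset.univ.filter fun j => w < c j ∧ fr (c j)).image c)) id
    (Finset.insert_nonempty _ _)
  have a1 : g ∈ dcl S P k ∧ g < w ∧ (g = lo ∨ fr g) := by
    rcases Finset.mem_insert.1 hg with rfl | hg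
    · exact ⟨hlo, h1, .inl rfl⟩
    · obtain ⟨j, hj, rfl⟩ := Finset.mem_image.1 hg
      exact ⟨hc j, (Finset.mem_filter.1 hj).2.1, .inr (Finset.mem_filter.1 hj).2.2⟩
  have a2 : g' ∈ dcl S P k ∧ w < g' ∧ (g' = hi ∨ fr g') := by
    rcases Finset.mem_insert.1 hg' with rfl | hg'
    · exact ⟨hhi, h2, .inl rfl⟩
    · obtain ⟨j, hj, rfl⟩ := Finset.mem_image.1 hg'
      exact ⟨hc j, (Finset.mem_filter.1 hj).2.1, .inr (Finset.mem_filter.1 hj).2.2⟩
  refine ⟨g, a1.1, g', a2.1, hgm lo (Finset.mem_insert_self _ _), a1.2.1, a2.2.1,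
    hgm' hi (Finset.mem_insert_self _ _), ?_, a1.2.2.imp_right (hfr g), a2.2.2.imp_right (hfr g')⟩
  have a3 : ∀ j, ∀ᶠ ω in 𝔲, out (c j) ω ≤ out g ω ∨ out g' ω ≤ out (c j) ω ∨
      out (c j) ω ∉ frontier {s | X (p ω) s} := by
    intro j
    by_cases hj : fr (c j)
    · rcases lt_trichotomy (c j) w with h3 | h3 | h3
      · have := hgm (c j) (Finset.mem_insert_of_mem (Finset.mem_image_of_mem _
          (Finset.mem_filter.2 ⟨Finset.mem_univ _, h3, hj⟩)))
        exact (le_iff.1 this).mono fun ω hω => .inl hω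
      · exact absurd (h3 ▸ hc j) hw
      · have := hgm' (c j) (Finset.mem_insert_of_mem (Finset.mem_image_of_mem _
          (Finset.mem_filter.2 ⟨Finset.mem_univ _, h3, hj⟩)))
        exact (le_iff.1 this).mono fun ω hω => .inr (.inl hω)
    · exact (ev_not.2 hj).mono fun ω hω => .inr (.inr hω)
  filter_upwards [eventually_all.2 a3, eventually_all.2 hco, h, lt_iff.1 a1.2.1, lt_iff.1 a2.2.1]
    with ω b1 b2 b3 b4 b5
  refine (DP.dec_of_preconnected (P := X (p ω)) isPreconnected_Ioo fun t ht hf => ?_).resolve_right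
    fun b6 => b6 _ ⟨b4, b5⟩ b3
  obtain ⟨j, rfl⟩ := he _ (hX.finite_frontier _) t hf
  rw [← b2 j] at ht hf
  rcases b1 j with b6 | b6 | b6
  · exact absurd ht.1 (not_lt.2 b6)
  · exact absurd ht.2 (not_lt.2 b6)
  · exact b6 hf

end Pool.Agent.Shared.OMin
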